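import Mathlib
import Pool.Agent.Work.MP_974d84_co_exp.Ball

/-!
# Cubic graphs of large girth and cyclic edge connectivity: basic notions
-/

set_option linter.unusedSectionVars false

namespace Pool.Agent.Log5

open Finset SimpleGraph Pool.Agent.Exp

variable {V : Type} [Fintype V] [DecidableEq V] (G : SimpleGraph V) [DecidableRel G.Adj]

/-- Sets with fewer than `k` vertices induce forests. -/
def Gir (k : ℕ) : Prop := ∀ A : Finset V, A.card < k → (G.induce (A : Set V)).IsAcyclic

/-- Both sides are joined and have at least `K` vertices. -/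
def Big (K : ℕ) (S : Finset V) : Prop :=
  Joined G S ∧ Joined G Sᶜ ∧ K ≤ S.card ∧ K ≤ Sᶜ.card

/-- A bond. -/
def Bond (S : Finset V) : Prop := Joined G S ∧ Joined G Sᶜ ∧ S.Nonempty ∧ Sᶜ.Nonempty

/-- Binary trees of depth `R`, one for every vertex; the head of a list is the last choice. -/
structure IsTree (R : ℕ) (θ : V → List Bool → V) : Prop where
  nil : ∀ v, θ v [] = v
  adj : ∀ v b c, G.Adj (θ v c) (θ v (b :: c))
  ball : ∀ v c, θ v c ∈ Bl G.Adj c.length v
  inj : ∀ v c c', c.length ≤ R → c'.length ≤ R → θ v c = θ v c' → c = c'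

/-- The set `S` splits the first `r` levels of the tree at `v`. -/
def Dirty (θ : V → List Bool → V) (r : ℕ) (S : Finset V) (v : V) : Prop :=
  ∃ c : List Bool, c.length ≤ r ∧ ¬ (θ v c ∈ S ↔ v ∈ S)

variable {G}

theorem sep (h3 : ∀ v, G.degree v = 3) {k : ℕ} (hc : CycConn G k) {X : Finset V} {K : ℕ}
    (hK : K ≤ k) (h1 : K ≤ X.card) (h2 : K ≤ Xᶜ.card) (hK0 : 0 < K) : K ≤ dd G X := by
  by_cases a1 : (G.induce (X : Set V)).IsAcyclic
  · have := dd_of_acyclic G h3 (S := X) (by rw [← card_pos]; omega) a1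
    omega
  · by_cases a2 : (G.induce ((Xᶜ : Finset V) : Set V)).IsAcyclic
    · have := dd_of_acyclic G h3 (S := Xᶜ) (by rw [← card_pos]; omega) a2
      rw [dd_compl] at this
      omega
    · exact hK.trans (hc X a1 a2)

/-- The signed number of pairs which are split by a set. -/
def sg {α : Type} [DecidableEq α] {m : ℕ} (p q : Fin m → α) (ε : Fin m → ℤ) (S : Finset α) : ℤ :=
  ∑ j, ε j * ((if p j ∈ S then 1 else 0) - (if q j ∈ S then 1 else 0))

end Pool.Agent.Log5
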