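import Mathlib
import Pool.Agent.Work.MP_974d84_co_log.Defs

/-!
Module M2 (CLUSTER): bonds of a cubic graph without short cycles, counted through partitions into
large connected classes.
-/

set_option linter.unusedSectionVars false
set_option linter.unusedVariables false

namespace Pool.Agent.Log5

open Finset SimpleGraph
open Pool.Agent.Exp
open Pool.Agent.Work.MP_314beb_co

namespace Clu

/-! ### Numbers -/

/-- The potential of a class of size `s`. -/
noncomputable def hh (s : ℕ) : ℝ := 4 / Real.sqrt s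

theorem hh_one : hh 1 = 4 := by simp [hh]

theorem hh_nonneg (s : ℕ) : 0 ≤ hh s := by unfold hh; positivity

theorem hh_anti {s t : ℕ} (hs : 1 ≤ s) (h : s ≤ t) : hh t ≤ hh s := by
  unfold hh
  have h1 : (0 : ℝ) < Real.sqrt s := Real.sqrt_pos.2 (by exact_mod_cast hs)
  have h2 : Real.sqrt s ≤ Real.sqrt t := Real.sqrt_le_sqrt (by exact_mod_cast h)
  exact div_le_div_of_nonneg_left (by norm_num) h1 h2

theorem hh_double {s : ℕ} (hs : 1 ≤ s) : 1 / Real.sqrt s ≤ hh s - hh (2 * s) := by
  unfold hh
  have h1 : (0 : ℝ) < Real.sqrt s := Real.sqrt_pos.2 (by exact_mod_cast hs)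
  have h2 : (4 / 3 : ℝ) ≤ Real.sqrt 2 := by
    rw [show (4 / 3 : ℝ) = Real.sqrt ((4 / 3) ^ 2) by rw [Real.sqrt_sq (by norm_num)]]
    exact Real.sqrt_le_sqrt (by norm_num)
  have h3 : Real.sqrt ((2 * s : ℕ) : ℝ) = Real.sqrt 2 * Real.sqrt s := by
    push_cast
    rw [Real.sqrt_mul (by norm_num)]
  rw [h3]
  have h4 : 4 / (Real.sqrt 2 * Real.sqrt s) ≤ 3 / Real.sqrt s := by
    rw [div_le_div_iff₀ (by positivity) h1]
    nlinarith
  have h5 : 1 / Real.sqrt s = 4 / Real.sqrt s - 3 / Real.sqrt s := by ring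
  linarith

theorem log_le_sqrt {m : ℝ} (hm : 1 ≤ m) : Real.log m ≤ (m - 1) / Real.sqrt m := by
  have h0 : (0 : ℝ) < m := by linarith
  have h1 : (0 : ℝ) < Real.sqrt m := Real.sqrt_pos.2 h0
  have h2 : 0 ≤ Real.log (Real.sqrt m) := Real.log_nonneg (by
    rw [show (1 : ℝ) = Real.sqrt 1 by simp]
    exact Real.sqrt_le_sqrt hm)
  have h3 := (Real.self_le_sinh_iff).2 h2
  rw [Real.sinh_log h1] at h3
  have h4 : Real.log m = 2 * Real.log (Real.sqrt m) := by
    rw [Real.log_sqrt h0.le]; ring
  have h5 : (m - 1) / Real.sqrt m = Real.sqrt m - (Real.sqrt m)⁻¹ := by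
    have : m = Real.sqrt m * Real.sqrt m := (Real.mul_self_sqrt h0.le).symm
    rw [div_eq_iff h1.ne', sub_mul, inv_mul_cancel₀ h1.ne']
    linarith
  rw [h4, h5]
  linarith

/-- The merging inequality. -/
theorem merge_ineq {s m q : ℕ} (hs : 1 ≤ s) (hm : s + 2 ≤ m) (hq : q + 1 ≤ m) {D : ℝ}
    (hD : 1 / Real.sqrt s ≤ D) : (m : ℝ) ≤ ((m : ℝ) - q) * Real.exp (q * D) := by
  have hm1 : (1 : ℝ) < m := by exact_mod_cast (by omega : 1 < m)
  have hm0 : (0 : ℝ) < (m : ℝ) - 1 := by linarith
  have hqm : (q : ℝ) ≤ (m : ℝ) - 1 := by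
    have : ((q + 1 : ℕ) : ℝ) ≤ m := by exact_mod_cast hq
    push_cast at this; linarith
  have hsm : Real.sqrt s ≤ Real.sqrt m :=
    Real.sqrt_le_sqrt (by exact_mod_cast (by omega : s ≤ m))
  have hs0 : (0 : ℝ) < Real.sqrt s := Real.sqrt_pos.2 (by exact_mod_cast hs)
  have hD' : Real.log m ≤ ((m : ℝ) - 1) * D := by
    refine (log_le_sqrt hm1.le).trans ?_
    rw [div_eq_mul_one_div]
    refine mul_le_mul_of_nonneg_left ?_ hm0.le
    refine le_trans ?_ hD
    exact one_div_le_one_div_of_le hs0 hsm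
  set t : ℝ := q / ((m : ℝ) - 1) with ht
  have ht0 : 0 ≤ t := by positivity
  have ht1 : t ≤ 1 := by rw [ht, div_le_one hm0]; exact hqm
  have hAG := Real.geom_mean_le_arith_mean2_weighted (w₁ := 1 - t) (w₂ := t) (p₁ := (m : ℝ))
    (p₂ := 1) (by linarith) ht0 (by linarith) (by norm_num) (by ring)
  rw [Real.one_rpow, mul_one, mul_one] at hAG
  have e1 : (1 - t) * (m : ℝ) + t = (m : ℝ) - q := by
    have : t * ((m : ℝ) - 1) = q := by rw [ht]; field_simp
    linarith
  rw [e1] at hAG
  have h2 : (m : ℝ) ^ t ≤ Real.exp (q * D) := by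
    rw [Real.rpow_def_of_pos (by linarith)]
    apply Real.exp_le_exp.2
    have : (q : ℝ) * D = t * (((m : ℝ) - 1) * D) := by rw [ht]; field_simp
    rw [this, mul_comm]
    exact mul_le_mul_of_nonneg_left hD' ht0
  have h3 : (m : ℝ) ^ (1 - t) * (m : ℝ) ^ t = m := by
    rw [← Real.rpow_add (by linarith)]
    simp
  calc (m : ℝ) = (m : ℝ) ^ (1 - t) * (m : ℝ) ^ t := h3.symm
    _ ≤ ((m : ℝ) - q) * Real.exp (q * D) := by
        refine mul_le_mul hAG h2 (by positivity) ?_
        linarith

/-! ### Partitions -/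

variable {V : Type} [Fintype V] [DecidableEq V] (G : SimpleGraph V) [DecidableRel G.Adj]

/-- The class of `x`. -/
def cls (c : V → V) (x : V) : Finset V := univ.filter fun y => c y = c x

theorem mem_cls {c : V → V} {x y : V} : y ∈ cls c x ↔ c y = c x := by simp [cls]

theorem self_mem_cls (c : V → V) (x : V) : x ∈ cls c x := mem_cls.2 rfl

theorem cls_card_pos (c : V → V) (x : V) : 1 ≤ (cls c x).card :=
  card_pos.2 ⟨x, self_mem_cls c x⟩

/-- `S` is a union of classes. -/
def Clo (c : V → V) (S : Finset V) : Prop := ∀ x y, c x = c y → (x ∈ S ↔ y ∈ S)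

/-- Merge the class of `x` into the class of `y`. -/
def mrg (c : V → V) (x y : V) (z : V) : V := if c z = c x then c y else c z

theorem mrg_of {c : V → V} {x y z : V} (h : c z = c x) : mrg c x y z = c y := by simp [mrg, h]

theorem mrg_of_ne {c : V → V} {x y z : V} (h : c z ≠ c x) : mrg c x y z = c z := by simp [mrg, h]

theorem mrg_iff {c : V → V} {x y z : V} : mrg c x y z = c y ↔ c z = c x ∨ c z = c y := by
  by_cases h : c z = c x
  · simp [mrg, h]
  · simp [mrg, h]

theorem cls_mrg_of {c : V → V} {x y z : V} (h : c z = c x ∨ c z = c y) :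
    cls (mrg c x y) z = cls c x ∪ cls c y := by
  ext w
  rw [mem_cls, mem_union, mem_cls, mem_cls, mrg_iff.2 h, mrg_iff]

theorem cls_mrg_of_not {c : V → V} {x y z : V} (h1 : c z ≠ c x) (h2 : c z ≠ c y) :
    cls (mrg c x y) z = cls c z := by
  ext w
  rw [mem_cls, mem_cls, mrg_of_ne h1]
  by_cases h : c w = c x
  · rw [mrg_of h]
    constructor
    · intro h3; exact absurd h3.symm h2
    · intro h3; exact absurd (h3.symm.trans h) h1
  · rw [mrg_of_ne h]

theorem cls_sub_mrg (c : V → V) (x y z : V) : cls c z ⊆ cls (mrg c x y) z := by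
  by_cases h : c z = c x ∨ c z = c y
  · rw [cls_mrg_of h]
    rcases h with h | h
    · intro w hw
      rw [mem_cls] at hw
      exact mem_union_left _ (mem_cls.2 (hw.trans h))
    · intro w hw
      rw [mem_cls] at hw
      exact mem_union_right _ (mem_cls.2 (hw.trans h))
  · push Not at h
    rw [cls_mrg_of_not h.1 h.2]

theorem clo_mrg {c : V → V} {x y : V} {S : Finset V} :
    Clo (mrg c x y) S ↔ Clo c S ∧ (x ∈ S ↔ y ∈ S) := by
  constructor
  · intro h
    refine ⟨?_, ?_⟩
    · intro u v huv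
      apply h
      by_cases h1 : c u = c x
      · rw [mrg_of h1, mrg_of (huv.symm.trans h1)]
      · rw [mrg_of_ne h1, mrg_of_ne (fun h2 => h1 (huv.trans h2)), huv]
    · apply h
      rw [mrg_of rfl, mrg_iff.2 (Or.inr rfl)]
  · rintro ⟨h, hxy⟩ u v huv
    have key : ∀ u v, c u = c x → mrg c x y u = mrg c x y v → (u ∈ S ↔ v ∈ S) := by
      intro u v hu huv
      rw [mrg_of hu] at huv
      rcases mrg_iff.1 huv.symm with h1 | h1
      · exact h u v (hu.trans h1.symm)
      · exact (h u x hu).trans (hxy.trans (h y v h1.symm))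
    by_cases h1 : c u = c x
    · exact key u v h1 huv
    · by_cases h2 : c v = c x
      · exact (key v u h2 huv.symm).symm
      · rw [mrg_of_ne h1, mrg_of_ne h2] at huv
        exact h u v huv

theorem mrg_card {c : V → V} {x y : V} (h : c x ≠ c y) :
    (univ.image (mrg c x y)).card < (univ.image c).card := by
  apply card_lt_card
  rw [ssubset_iff_of_subset]
  · refine ⟨c x, mem_image_of_mem _ (mem_univ x), ?_⟩
    intro h1
    rw [mem_image] at h1
    obtain ⟨z, -, hz⟩ := h1
    by_cases h2 : c z = c x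
    · rw [mrg_of h2] at hz; exact h hz.symm
    · rw [mrg_of_ne h2] at hz; exact h2 hz
  · intro w hw
    rw [mem_image] at hw
    obtain ⟨z, -, rfl⟩ := hw
    by_cases h2 : c z = c x
    · rw [mrg_of h2]; exact mem_image_of_mem _ (mem_univ y)
    · rw [mrg_of_ne h2]; exact mem_image_of_mem _ (mem_univ z)

variable {G}

theorem joined_union {A B : Finset V} (hA : Joined G A) (hB : Joined G B) {x y : V} (hx : x ∈ A)
    (hy : y ∈ B) (hxy : G.Adj x y) : Joined G (A ∪ B) := by
  intro C hC hCn hCne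
  by_cases h1 : (C ∩ A).Nonempty ∧ ¬ A ⊆ C
  · obtain ⟨u, hu, v, hv, hvu, huv⟩ := hA (C ∩ A) inter_subset_right h1.1
      (fun h => h1.2 (inter_eq_right.1 h))
    exact ⟨u, (mem_inter.1 hu).1, v, mem_union_left _ hv, fun h => hvu (mem_inter.2 ⟨h, hv⟩), huv⟩
  by_cases h2 : (C ∩ B).Nonempty ∧ ¬ B ⊆ C
  · obtain ⟨u, hu, v, hv, hvu, huv⟩ := hB (C ∩ B) inter_subset_right h2.1
      (fun h => h2.2 (inter_eq_right.1 h))
    exact ⟨u, (mem_inter.1 hu).1, v, mem_union_right _ hv, fun h => hvu (mem_inter.2 ⟨h, hv⟩), huv⟩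
  push Not at h1 h2
  by_cases hAC : A ⊆ C
  · have hB0 : ¬ B ⊆ C := by
      intro hBC
      exact hCne (Subset.antisymm hC (union_subset hAC hBC))
    have hyC : y ∉ C := fun h => hB0 (h2 ⟨y, mem_inter.2 ⟨h, hy⟩⟩)
    exact ⟨x, hAC hx, y, mem_union_right _ hy, hyC, hxy⟩
  · have hA0 : ¬ (C ∩ A).Nonempty := fun h => hAC (h1 h)
    obtain ⟨z, hz⟩ := hCn
    have hzB : z ∈ B := by
      rcases mem_union.1 (hC hz) with h | h
      · exact absurd ⟨z, mem_inter.2 ⟨hz, h⟩⟩ hA0
      · exact h
    have hBC := h2 ⟨z, mem_inter.2 ⟨hz, hzB⟩⟩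
    exact ⟨y, hBC hy, x, mem_union_left _ hx, fun h => hA0 ⟨x, mem_inter.2 ⟨h, hx⟩⟩, hxy.symm⟩

theorem joined_singleton (x : V) : Joined G {x} := by
  intro A hA hAn hAne
  exact absurd ((Finset.Nonempty.subset_singleton_iff hAn).1 hA) hAne

/-! ### The potential -/

/-- Potential of an edge. -/
noncomputable def gg (c : V → V) (p : V × V) : ℝ :=
  hh (cls c p.1).card + hh (cls c p.2).card

variable (G) in
/-- Potential of a vertex set. -/
noncomputable def Phi (c : V → V) (S : Finset V) : ℝ := ∑ p ∈ cut G S, gg c p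

theorem cut_compl (S : Finset V) : cut G Sᶜ = (cut G S).image Prod.swap := by
  ext p
  rw [mem_image, mem_cut]
  constructor
  · rintro ⟨h1, h2, h3⟩
    refine ⟨(p.2, p.1), (mem_cut G).2 ⟨?_, ?_, h3.symm⟩, rfl⟩
    · simpa using h2
    · simpa using h1
  · rintro ⟨q, hq, rfl⟩
    rw [mem_cut] at hq
    exact ⟨by simpa using hq.2.1, by simpa using hq.1, hq.2.2.symm⟩

theorem Phi_compl (c : V → V) (S : Finset V) : Phi G c Sᶜ = Phi G c S := by
  unfold Phi
  rw [cut_compl, sum_image (fun a _ b _ h => Prod.swap_injective h)]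
  exact sum_congr rfl fun p _ => by unfold gg; simp [add_comm]

theorem Phi_id (S : Finset V) : Phi G id S = 8 * dd G S := by
  unfold Phi dd
  rw [sum_congr rfl (g := fun _ => (8 : ℝ)), sum_const, nsmul_eq_mul, mul_comm]
  intro p _
  have h : ∀ x : V, cls (id : V → V) x = {x} := by
    intro x; ext y; rw [mem_cls, mem_singleton]; rfl
  unfold gg
  rw [h, h, card_singleton, card_singleton, hh_one]
  norm_num

/-- The edges of the boundary of `A` which are cut by `S`. -/
noncomputable def qq (G : SimpleGraph V) [DecidableRel G.Adj] (A S : Finset V) :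
    Finset (V × V) := (cut G A).filter fun p => ¬ (p.1 ∈ S ↔ p.2 ∈ S)

theorem qq_compl (A S : Finset V) : qq G A Sᶜ = qq G A S := by
  unfold qq
  apply filter_congr
  intro p _
  simp only [mem_compl]
  tauto

theorem Phi_merge_aux {c : V → V} {x0 y : V} (hy : c y ≠ c x0)
    (hsm : (cls c x0).card ≤ (cls c y).card) {S : Finset V} (hAS : cls c x0 ⊆ S) :
    Phi G (mrg c x0 y) S + (qq G (cls c x0) S).card * (hh (cls c x0).card - hh (2 * (cls c x0).card))
      ≤ Phi G c S := by
  set A := cls c x0 with hA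
  have hmono : ∀ z, hh (cls (mrg c x0 y) z).card ≤ hh (cls c z).card := fun z =>
    hh_anti (cls_card_pos c z) (card_le_card (cls_sub_mrg c x0 y z))
  have hAz : ∀ z ∈ A, hh (cls (mrg c x0 y) z).card + (hh A.card - hh (2 * A.card))
      ≤ hh (cls c z).card := by
    intro z hz
    have hz' : c z = c x0 := mem_cls.1 hz
    have h1 : cls c z = A := by ext w; rw [mem_cls, hA, mem_cls, hz']
    have h2 : cls (mrg c x0 y) z = A ∪ cls c y := cls_mrg_of (Or.inl hz')
    have h3 : Disjoint A (cls c y) := by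
      rw [Finset.disjoint_left]
      intro w hw hw'
      rw [hA, mem_cls] at hw
      rw [mem_cls] at hw'
      exact hy (hw'.symm.trans hw)
    rw [h1, h2, card_union_of_disjoint h3]
    have h4 : hh (A.card + (cls c y).card) ≤ hh (2 * A.card) := by
      apply hh_anti
      · have := cls_card_pos c x0
        rw [← hA] at this
        omega
      · omega
    linarith
  have hQ : qq G A S = (cut G S).filter fun p => p.1 ∈ A := by
    ext p
    unfold qq
    rw [mem_filter, mem_filter, mem_cut, mem_cut]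
    constructor
    · rintro ⟨⟨h1, h2, h3⟩, h4⟩
      have h5 : p.1 ∈ S := hAS h1
      have h6 : p.2 ∉ S := fun h => h4 ⟨fun _ => h, fun _ => h5⟩
      exact ⟨⟨h5, h6, h3⟩, h1⟩
    · rintro ⟨⟨h1, h2, h3⟩, h4⟩
      exact ⟨⟨h4, fun h => h2 (hAS h), h3⟩, fun h => h2 (h.1 h1)⟩
  have h1 : ∀ p ∈ cut G S, gg (mrg c x0 y) p
      + (if p.1 ∈ A then (hh A.card - hh (2 * A.card)) else 0) ≤ gg c p := by
    intro p hp
    unfold gg
    by_cases h : p.1 ∈ A
    · rw [if_pos h]
      have := hAz p.1 h
      have := hmono p.2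
      linarith
    · rw [if_neg h]
      have := hmono p.1
      have := hmono p.2
      linarith
  have h2 := sum_le_sum h1
  rw [sum_add_distrib, ← sum_filter, sum_const, nsmul_eq_mul, ← hQ] at h2
  exact h2

theorem Phi_merge {c : V → V} {x0 y : V} (hy : c y ≠ c x0)
    (hsm : (cls c x0).card ≤ (cls c y).card) {S : Finset V}
    (hAS : cls c x0 ⊆ S ∨ cls c x0 ⊆ Sᶜ) :
    Phi G (mrg c x0 y) S + (qq G (cls c x0) S).card * (hh (cls c x0).card - hh (2 * (cls c x0).card))
      ≤ Phi G c S := by
  rcases hAS with h | h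
  · exact Phi_merge_aux hy hsm h
  · have := Phi_merge_aux (G := G) hy hsm h
    rwa [Phi_compl, Phi_compl, qq_compl] at this

open Classical in
/-- CLUSTER, for an arbitrary partition. -/
theorem cluster_aux (h3 : ∀ v, G.degree v = 3) {K : ℕ}
    (hsm : ∀ A : Finset V, A.card < K → (G.induce (A : Set V)).IsAcyclic)
    (Fam : Finset (Finset V))
    (hF : ∀ S ∈ Fam, Joined G S ∧ Joined G Sᶜ ∧ K ≤ S.card ∧ K ≤ Sᶜ.card) {M : ℝ}
    (hM : ∀ c : V → V, (∀ x, Joined G (cls c x)) → (∀ x, K ≤ (cls c x).card) →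
      ((Fam.filter fun S => Clo c S).card : ℝ) ≤ M) :
    ∀ n : ℕ, ∀ c : V → V, (univ.image c).card ≤ n → (∀ x, Joined G (cls c x)) →
      ∑ S ∈ Fam.filter (fun S => Clo c S), Real.exp (- Phi G c S) ≤ M := by
  intro n
  induction n with
  | zero =>
    intro c hc hj
    have h0 : univ.image c = (∅ : Finset V) := card_eq_zero.1 (by omega)
    refine (le_trans ?_ (hM c hj ?_))
    · rw [← nsmul_one, ← sum_const]
      refine sum_le_sum fun S _ => ?_
      rw [← Real.exp_zero]
      apply Real.exp_le_exp.2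
      have : 0 ≤ Phi G c S := sum_nonneg fun p _ => add_nonneg (hh_nonneg _) (hh_nonneg _)
      linarith
    · intro x
      have : c x ∈ (∅ : Finset V) := h0 ▸ mem_image_of_mem c (mem_univ x)
      simp at this
  | succ n ih =>
    intro c hc hj
    by_cases hbig : ∀ x, K ≤ (cls c x).card
    · refine (le_trans ?_ (hM c hj hbig))
      rw [← nsmul_one, ← sum_const]
      refine sum_le_sum fun S _ => ?_
      rw [← Real.exp_zero]
      apply Real.exp_le_exp.2
      have : 0 ≤ Phi G c S := sum_nonneg fun p _ => add_nonneg (hh_nonneg _) (hh_nonneg _)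
      linarith
    push Not at hbig
    obtain ⟨x1, hx1⟩ := hbig
    obtain ⟨x0, -, hx0⟩ := exists_min_image (univ : Finset V) (fun x => (cls c x).card)
      ⟨x1, mem_univ x1⟩
    have hx0K : (cls c x0).card < K := lt_of_le_of_lt (hx0 x1 (mem_univ x1)) hx1
    set A := cls c x0 with hA
    have hAne : A.Nonempty := ⟨x0, self_mem_cls c x0⟩
    have hs1 : 1 ≤ A.card := hAne.card_pos
    have hm : A.card + 2 ≤ dd G A := dd_of_acyclic G h3 hAne (hsm A hx0K)
    set m := dd G A with hmdef
    have hAlab : ∀ z, z ∈ A ↔ c z = c x0 := fun z => mem_cls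
    -- merged partitions
    have hstep : ∀ p ∈ cut G A,
        ∑ S ∈ Fam.filter (fun S => Clo (mrg c x0 p.2) S), Real.exp (- Phi G (mrg c x0 p.2) S)
          ≤ M := by
      intro p hp
      rw [mem_cut] at hp
      have hne : c x0 ≠ c p.2 := fun h => hp.2.1 ((hAlab _).2 h.symm)
      apply ih
      · have := mrg_card hne
        omega
      · intro z
        by_cases hz : c z = c x0 ∨ c z = c p.2
        · rw [cls_mrg_of hz]
          exact joined_union (hj x0) (hj p.2) hp.1 (self_mem_cls c p.2) hp.2.2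
        · push Not at hz
          rw [cls_mrg_of_not hz.1 hz.2]
          exact hj z
    -- each closed set
    have hS : ∀ S ∈ Fam.filter (fun S => Clo c S), (m : ℝ) * Real.exp (- Phi G c S)
        ≤ ∑ p ∈ cut G A, if Clo (mrg c x0 p.2) S then Real.exp (- Phi G (mrg c x0 p.2) S) else 0 := by
      intro S hS
      rw [mem_filter] at hS
      obtain ⟨hSF, hSc⟩ := hS
      obtain ⟨hj1, hj2, hk1, hk2⟩ := hF S hSF
      have hsplit : A ⊆ S ∨ A ⊆ Sᶜ := by
        by_cases h : x0 ∈ S
        · left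
          intro z hz
          exact (hSc z x0 ((hAlab z).1 hz)).2 h
        · right
          intro z hz
          rw [mem_compl]
          exact fun hz' => h ((hSc z x0 ((hAlab z).1 hz)).1 hz')
      have hq : (qq G A S).card + 1 ≤ m := by
        have key : ∀ T : Finset V, A ⊆ T → Joined G T → K ≤ T.card → (qq G A T).card + 1 ≤ m := by
          intro T hAT hT hKT
          obtain ⟨u, hu, v, hv, hvA, huv⟩ := hT A hAT hAne (by
            rintro h
            rw [← h] at hKT
            omega)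
          have h1 : (u, v) ∈ cut G A := (mem_cut G).2 ⟨hu, hvA, huv⟩
          have h2 : qq G A T ⊂ cut G A := by
            refine (ssubset_iff_of_subset (filter_subset _ _)).2 ⟨(u, v), h1, ?_⟩
            rw [mem_filter]
            rintro ⟨-, h⟩
            exact h ⟨fun _ => hv, fun _ => hAT hu⟩
          have := card_lt_card h2
          rw [hmdef]
          unfold dd
          omega
        rcases hsplit with h | h
        · exact key S h hj1 hk1
        · have := key Sᶜ h hj2 hk2
          rwa [qq_compl] at this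
      set q := (qq G A S).card with hqdef
      set D := hh A.card - hh (2 * A.card) with hD
      have hmi := merge_ineq hs1 hm hq (hh_double hs1)
      have h1 : ∑ p ∈ cut G A \ qq G A S, Real.exp (- Phi G c S + q * D)
          ≤ ∑ p ∈ cut G A, if Clo (mrg c x0 p.2) S then Real.exp (- Phi G (mrg c x0 p.2) S)
            else 0 := by
        refine le_trans (sum_le_sum fun p hp => ?_)
          (sum_le_sum_of_subset_of_nonneg sdiff_subset fun p _ _ => by
            split
            · positivity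
            · exact le_refl _)
        rw [mem_sdiff] at hp
        obtain ⟨hp1, hp2⟩ := hp
        have hp3 : p.1 ∈ S ↔ p.2 ∈ S := by
          by_contra h
          exact hp2 (mem_filter.2 ⟨hp1, h⟩)
        rw [mem_cut] at hp1
        have hclo : Clo (mrg c x0 p.2) S := by
          rw [clo_mrg]
          refine ⟨hSc, ?_⟩
          rw [← hp3]
          exact (hSc x0 p.1 ((hAlab p.1).1 hp1.1).symm)
        rw [if_pos hclo]
        apply Real.exp_le_exp.2
        have := Phi_merge (G := G) (c := c) (x0 := x0) (y := p.2)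
          (fun h => hp1.2.1 ((hAlab _).2 h)) (hx0 p.2 (mem_univ _)) (S := S) hsplit
        linarith
      refine le_trans ?_ h1
      have hqsub : qq G A S ⊆ cut G A := filter_subset _ _
      rw [sum_const, nsmul_eq_mul, card_sdiff_of_subset hqsub]
      have h2 : (((cut G A).card - (qq G A S).card : ℕ) : ℝ) = (m : ℝ) - q := by
        rw [Nat.cast_sub (card_le_card hqsub)]
        rfl
      rw [h2, Real.exp_add]
      calc (m : ℝ) * Real.exp (- Phi G c S)
          ≤ (((m : ℝ) - q) * Real.exp (q * D)) * Real.exp (- Phi G c S) :=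
            mul_le_mul_of_nonneg_right hmi (Real.exp_pos _).le
        _ = ((m : ℝ) - q) * (Real.exp (- Phi G c S) * Real.exp (q * D)) := by ring
    have hsum : (m : ℝ) * ∑ S ∈ Fam.filter (fun S => Clo c S), Real.exp (- Phi G c S)
        ≤ (m : ℝ) * M := by
      rw [mul_sum]
      refine (sum_le_sum hS).trans ?_
      rw [sum_comm]
      have h1 : ∀ p ∈ cut G A, (∑ S ∈ Fam.filter (fun S => Clo c S),
          if Clo (mrg c x0 p.2) S then Real.exp (- Phi G (mrg c x0 p.2) S) else 0) ≤ M := by
        intro p hp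
        refine le_trans ?_ (hstep p hp)
        rw [← sum_filter]
        refine sum_le_sum_of_subset_of_nonneg ?_ fun S _ _ => (Real.exp_pos _).le
        intro S hS
        rw [mem_filter, mem_filter] at hS
        exact mem_filter.2 ⟨hS.1.1, hS.2⟩
      refine (sum_le_sum h1).trans ?_
      rw [sum_const, nsmul_eq_mul]
      exact le_of_eq rfl
    have hm0 : (0 : ℝ) < m := by exact_mod_cast (by omega : 0 < m)
    exact le_of_mul_le_mul_left hsum hm0

end Clu

open Clu

variable {V : Type} [Fintype V] [DecidableEq V] {G : SimpleGraph V} [DecidableRel G.Adj]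

/-- M2 (CLUSTER). -/
theorem cluster (h3 : ∀ v, G.degree v = 3) {K : ℕ} (hg : Gir G K) (F : Finset (Finset V))
    (hF : ∀ S ∈ F, Big G K S) {M : ℝ} (hM0 : 0 ≤ M)
    (hM : ∀ c : V → V, (∀ x, Joined G (univ.filter fun y => c y = c x)) →
      (∀ x, K ≤ (univ.filter fun y => c y = c x).card) →
      ∀ F' ⊆ F, (∀ S ∈ F', ∀ x y, c x = c y → (x ∈ S ↔ y ∈ S)) → (F'.card : ℝ) ≤ M) :
    ∑ S ∈ F, Real.exp (-(8 * (dd G S : ℝ))) ≤ M := by
  classical
  have hM' : ∀ c : V → V, (∀ x, Joined G (cls c x)) → (∀ x, K ≤ (cls c x).card) →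
      ((F.filter fun S => Clo c S).card : ℝ) ≤ M := by
    intro c h1 h2
    exact hM c h1 h2 _ (filter_subset _ _) fun S hS => (mem_filter.1 hS).2
  have h := cluster_aux (G := G) h3 hg F hF hM' (univ.image (id : V → V)).card id le_rfl (by
    intro x
    have : cls (id : V → V) x = {x} := by
      ext y; rw [mem_cls, mem_singleton]; rfl
    rw [this]
    exact joined_singleton x)
  have h1 : F.filter (fun S => Clo (id : V → V) S) = F := by
    apply filter_true_of_mem
    intro S _ x y hxy
    have : x = y := hxy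
    rw [this]
  rw [h1] at h
  refine le_trans (le_of_eq ?_) h
  refine sum_congr rfl fun S _ => ?_
  rw [Phi_id]

end Pool.Agent.Log5
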