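import Mathlib
import Pool.Agent.Work.MP_974d84_co_log.Defs

/-!
# Bonds with many edges have large sides; the signed number of split pairs
-/

set_option linter.unusedSectionVars false
set_option autoImplicit false

namespace Pool.Agent.Log5

open Finset SimpleGraph Pool.Agent.Exp
open Pool.Agent.Work.MP_314beb_co

variable {V : Type} [Fintype V] [DecidableEq V] {G : SimpleGraph V} [DecidableRel G.Adj]

theorem grow_edges {W : Finset V} (hW : Joined G W) {v : V} (hv : v ∈ W) :
    ∀ n, n < W.card → ∃ A ⊆ W, A.Nonempty ∧ A.card = n + 1 ∧ 2 * n ≤ (inside G A).card := by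
  intro n
  induction n with
  | zero =>
    intro _
    exact ⟨{v}, singleton_subset_iff.2 hv, singleton_nonempty v, card_singleton v, by omega⟩
  | succ n ih =>
    intro hn
    obtain ⟨A, hA, hne, hc, hi⟩ := ih (by omega)
    obtain ⟨x, hx, y, hy, hyA, hxy⟩ := hW A hA hne (by
      intro h; rw [h] at hc; omega)
    refine ⟨insert y A, insert_subset hy hA, insert_nonempty y A, ?_, ?_⟩
    · rw [card_insert_of_notMem hyA, hc]
    · have hsub : insert (x, y) (insert (y, x) (inside G A)) ⊆ inside G (insert y A) := by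
        intro p hp
        rw [mem_insert, mem_insert] at hp
        rw [mem_inside]
        rcases hp with rfl | rfl | hp
        · exact ⟨mem_insert_of_mem hx, mem_insert_self _ _, hxy⟩
        · exact ⟨mem_insert_self _ _, mem_insert_of_mem hx, hxy.symm⟩
        · rw [mem_inside] at hp
          exact ⟨mem_insert_of_mem hp.1, mem_insert_of_mem hp.2.1, hp.2.2⟩
      have h1 : (y, x) ∉ inside G A := fun h => hyA ((mem_inside G).1 h).1
      have h2 : (x, y) ∉ insert (y, x) (inside G A) := by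
        intro h
        rw [mem_insert] at h
        rcases h with h | h
        · exact hxy.ne (congrArg Prod.fst h)
        · exact hyA ((mem_inside G).1 h).2.1
      have h3 := card_le_card hsub
      rw [card_insert_of_notMem h2, card_insert_of_notMem h1] at h3
      omega

/-- A joined set of a cubic graph is left by at most `|S| + 2` edges. -/
theorem dd_le_of_joined (h3 : ∀ v, G.degree v = 3) {S : Finset V} (hS : Joined G S)
    (hne : S.Nonempty) : dd G S ≤ S.card + 2 := by
  obtain ⟨v, hv⟩ := hne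
  have hpos : 0 < S.card := card_pos.2 ⟨v, hv⟩
  obtain ⟨A, hA, -, hc, hi⟩ := grow_edges hS hv (S.card - 1) (by omega)
  have hAS : A = S := eq_of_subset_of_card_le hA (by omega)
  rw [hAS] at hi
  have h4 := sum_degree_eq_cut_add_inside G S
  have h5 : ∑ v ∈ S, G.degree v = 3 * S.card := by
    rw [sum_congr rfl fun v _ => h3 v, sum_const, smul_eq_mul, mul_comm]
  unfold dd
  omega

theorem big_of_bond (h3 : ∀ v, G.degree v = 3) {S : Finset V} (hS : Bond G S) {K : ℕ}
    (hK : K + 2 ≤ dd G S) : Big G K S := by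
  obtain ⟨j1, j2, n1, n2⟩ := hS
  have h1 := dd_le_of_joined h3 j1 n1
  have h2 := dd_le_of_joined h3 j2 n2
  rw [dd_compl] at h2
  exact ⟨j1, j2, by omega, by omega⟩

/-- The signed number of split pairs changes sign under complement. -/
theorem sg_compl {m : ℕ} (p q : Fin m → V) (ε : Fin m → ℤ) (S : Finset V) :
    sg p q ε Sᶜ = -sg p q ε S := by
  unfold sg
  rw [← sum_neg_distrib]
  apply sum_congr rfl
  intro j _
  by_cases h1 : p j ∈ S <;> by_cases h2 : q j ∈ S <;> simp [h1, h2]

theorem sg_le_card {m : ℕ} {p q : Fin m → V} (hp : Function.Injective p)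
    (hq : Function.Injective q) (hpq : ∀ i j, p i ≠ q j) {T : Finset V}
    (hT : ∀ v, v ∈ T ↔ (∃ j, p j = v) ∨ ∃ j, q j = v) {ε : Fin m → ℤ}
    (hε : ∀ j, ε j = 1 ∨ ε j = -1) (A : Finset V) : |sg p q ε A| ≤ ((T ∩ A).card : ℤ) := by
  classical
  have h1 : |sg p q ε A| ≤ ∑ j, ((if p j ∈ A then (1 : ℤ) else 0) + (if q j ∈ A then 1 else 0)) := by
    unfold sg
    refine (abs_sum_le_sum_abs _ _).trans (sum_le_sum ?_)
    intro j _
    rcases hε j with h | h <;> rw [h] <;>
      by_cases h1 : p j ∈ A <;> by_cases h2 : q j ∈ A <;> simp [h1, h2]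
  refine h1.trans ?_
  rw [sum_add_distrib]
  have e1 : ∑ j, (if p j ∈ A then (1 : ℤ) else 0) = ((univ.filter fun j => p j ∈ A).card : ℤ) := by
    rw [card_filter]; push_cast; rfl
  have e2 : ∑ j, (if q j ∈ A then (1 : ℤ) else 0) = ((univ.filter fun j => q j ∈ A).card : ℤ) := by
    rw [card_filter]; push_cast; rfl
  rw [e1, e2]
  have hsub : (univ.filter fun j => p j ∈ A).image p ∪ (univ.filter fun j => q j ∈ A).image q ⊆
      T ∩ A := by
    intro v hv
    rw [mem_union, mem_image, mem_image] at hv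
    rw [mem_inter, hT]
    rcases hv with ⟨j, hj, rfl⟩ | ⟨j, hj, rfl⟩
    · exact ⟨Or.inl ⟨j, rfl⟩, (mem_filter.1 hj).2⟩
    · exact ⟨Or.inr ⟨j, rfl⟩, (mem_filter.1 hj).2⟩
  have hdis : Disjoint ((univ.filter fun j => p j ∈ A).image p)
      ((univ.filter fun j => q j ∈ A).image q) := by
    rw [Finset.disjoint_left]
    intro v hv hv'
    rw [mem_image] at hv hv'
    obtain ⟨i, -, hi⟩ := hv
    obtain ⟨j, -, hj⟩ := hv'
    exact hpq i j (hi.trans hj.symm)
  have h2 := card_le_card hsub
  rw [card_union_of_disjoint hdis, card_image_of_injective _ hp, card_image_of_injective _ hq] at h2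
  exact_mod_cast h2

/-- The same for a set or its complement. -/
theorem sg_le {m : ℕ} {p q : Fin m → V} (hp : Function.Injective p)
    (hq : Function.Injective q) (hpq : ∀ i j, p i ≠ q j) {T : Finset V}
    (hT : ∀ v, v ∈ T ↔ (∃ j, p j = v) ∨ ∃ j, q j = v) {ε : Fin m → ℤ}
    (hε : ∀ j, ε j = 1 ∨ ε j = -1) {S A : Finset V} (hA : A = S ∨ A = Sᶜ) :
    |sg p q ε S| ≤ ((T ∩ A).card : ℤ) := by
  rcases hA with rfl | rfl
  · exact sg_le_card hp hq hpq hT hε A
  · have := sg_le_card hp hq hpq hT hε Sᶜ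
    rw [sg_compl, abs_neg] at this
    exact this

/-- A small bond satisfies the condition of `flow`. -/
theorem sg_small {m : ℕ} {p q : Fin m → V} (hp : Function.Injective p)
    (hq : Function.Injective q) (hpq : ∀ i j, p i ≠ q j) {T : Finset V}
    (hT : ∀ v, v ∈ T ↔ (∃ j, p j = v) ∨ ∃ j, q j = v) {ε : Fin m → ℤ}
    (hε : ∀ j, ε j = 1 ∨ ε j = -1) {S : Finset V}
    (h : ∃ A : Finset V, (A = S ∨ A = Sᶜ) ∧ ((T ∩ A).card ≤ 1 ∨ 5 * (T ∩ A).card ≤ dd G S)) :
    |sg p q ε S| ≤ 1 ∨ 5 * |sg p q ε S| ≤ dd G S := by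
  obtain ⟨A, hA, h | h⟩ := h
  · left
    have h1 := sg_le hp hq hpq hT hε hA
    have h2 : ((T ∩ A).card : ℤ) ≤ 1 := by exact_mod_cast h
    exact h1.trans h2
  · right
    have h1 := sg_le hp hq hpq hT hε hA
    have h2 : (5 : ℤ) * ((T ∩ A).card : ℤ) ≤ dd G S := by exact_mod_cast h
    linarith

end Pool.Agent.Log5
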