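import Mathlib
import Pool.Agent.Work.MP_974d84_co_exp.Final
import Pool.Agent.Work.MP_974d84_co_log.Defs

/-!
# Large cyclic edge connectivity implies large girth, except for at most six vertices
-/

set_option linter.unusedSectionVars false

namespace Pool.Agent.Log5

open Finset SimpleGraph Pool.Agent.Exp

variable {V : Type} [Fintype V] [DecidableEq V] {G : SimpleGraph V} [DecidableRel G.Adj]

/-- The number of neighbours in a vertex set. -/
def nb (G : SimpleGraph V) [DecidableRel G.Adj] (S : Finset V) (v : V) : ℕ :=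
  (S.filter fun w => G.Adj v w).card

theorem nb_add (h3 : ∀ v, G.degree v = 3) (S : Finset V) (v : V) :
    nb G S v + nb G Sᶜ v = 3 := by
  unfold nb
  rw [← h3 v, ← card_neighborFinset_eq_degree]
  have h1 : (S.filter fun w => G.Adj v w) = G.neighborFinset v ∩ S := by
    ext w; simp [and_comm]
  have h2 : (Sᶜ.filter fun w => G.Adj v w) = G.neighborFinset v \ S := by
    ext w; simp [and_comm]
  rw [h1, h2]
  exact card_inter_add_card_sdiff _ _

theorem dd_eq_sum (S : Finset V) : dd G S = ∑ v ∈ S, nb G Sᶜ v := by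
  unfold dd nb
  have h1 : Pool.Agent.Work.MP_314beb_co.cut G S
      = (S ×ˢ Sᶜ).filter fun p => G.Adj p.1 p.2 := by
    ext p
    rw [mem_cut, mem_filter, mem_product, mem_compl]
    tauto
  rw [h1, card_filter, sum_product]
  exact sum_congr rfl fun v _ => by rw [card_filter]

theorem dd_sum (h3 : ∀ v, G.degree v = 3) (S : Finset V) :
    dd G S + ∑ v ∈ S, nb G S v = 3 * S.card := by
  rw [dd_eq_sum, ← sum_add_distrib, sum_congr rfl fun v _ => (add_comm _ _).trans (nb_add h3 S v),
    sum_const, smul_eq_mul, mul_comm]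

theorem nb_insert {S : Finset V} {x v : V} (hx : x ∉ S) :
    nb G (insert x S) v = nb G S v + if G.Adj v x then 1 else 0 := by
  unfold nb
  rw [filter_insert]
  split_ifs with h
  · rw [card_insert_of_notMem fun h' => hx (mem_filter.1 h').1]
  · simp

theorem dd_insert (h3 : ∀ v, G.degree v = 3) {S : Finset V} {x : V} (hx : x ∉ S) :
    dd G (insert x S) + 2 * nb G S x = dd G S + 3 := by
  have h1 := dd_sum h3 (insert x S)
  have h2 := dd_sum h3 S
  rw [sum_insert hx, nb_insert hx, if_neg (G.irrefl), card_insert_of_notMem hx,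
    sum_congr rfl fun v _ => nb_insert hx, sum_add_distrib, sum_boole] at h1
  have h4 : (S.filter fun v => G.Adj v x).card = nb G S x := by
    unfold nb
    congr 1
    ext w
    simp [G.adj_comm]
  simp only [Nat.cast_id] at h1
  rw [h4] at h1
  omega

theorem dd_erase (h3 : ∀ v, G.degree v = 3) {S : Finset V} {x : V} (hx : x ∈ S) :
    dd G (S.erase x) + 3 = dd G S + 2 * nb G (S.erase x) x := by
  have h1 := dd_insert h3 (notMem_erase x S)
  rw [insert_erase hx] at h1
  omega

theorem nb_erase {S : Finset V} {x v : V} (hx : x ∈ S) :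
    nb G S v = nb G (S.erase x) v + if G.Adj v x then 1 else 0 := by
  have := nb_insert (G := G) (v := v) (notMem_erase x S)
  rwa [insert_erase hx] at this

theorem nb_erase_self {S : Finset V} {x : V} : nb G (S.erase x) x = nb G S x := by
  unfold nb
  congr 1
  ext w
  simp only [mem_filter, mem_erase]
  constructor
  · rintro ⟨⟨_, h1⟩, h2⟩; exact ⟨h1, h2⟩
  · rintro ⟨h1, h2⟩; exact ⟨⟨fun h => G.irrefl (h ▸ h2), h1⟩, h2⟩

/-- The vertices of a shortest cycle. -/
theorem exists_short {k : ℕ} (hg : ¬ Gir G k) :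
    ∃ A : Finset V, 3 ≤ A.card ∧ A.card < k ∧ Gir G A.card ∧ ∀ v ∈ A, 2 ≤ nb G A v := by
  classical
  unfold Gir at hg
  push Not at hg
  obtain ⟨S, hS, hS'⟩ := hg
  obtain ⟨v0, w0, hw0, hl0⟩ := exists_cycle_le_card G hS'
  have hex : ∃ n, ∃ (v : V) (w : G.Walk v v), w.IsCycle ∧ w.length = n := ⟨_, v0, w0, hw0, rfl⟩
  obtain ⟨v, w, hw, hl⟩ := Nat.find_spec hex
  have hmin : ∀ (u : V) (p : G.Walk u u), p.IsCycle → w.length ≤ p.length := by
    intro u p hp
    rw [hl]
    exact Nat.find_min' hex ⟨u, p, hp, rfl⟩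
  have hcard : w.support.toFinset.card = w.length := by
    have h1 : w.support.toFinset = w.support.tail.toFinset := by
      ext x
      rw [List.mem_toFinset, List.mem_toFinset]
      constructor
      · intro hx
        rw [← Walk.cons_tail_support, List.mem_cons] at hx
        rcases hx with rfl | hx
        · exact Walk.end_mem_tail_support (fun h => hw.not_nil h)
        · exact hx
      · exact fun hx => List.mem_of_mem_tail hx
    rw [h1, List.toFinset_card_of_nodup hw.support_nodup, List.length_tail, Walk.length_support]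
    omega
  refine ⟨w.support.toFinset, ?_, ?_, ?_, ?_⟩
  · rw [hcard]; exact hw.three_le_length
  · rw [hcard]
    exact lt_of_le_of_lt ((hmin _ _ hw0).trans hl0) hS
  · intro B hB
    by_contra hac
    obtain ⟨u, p, hp, hpl⟩ := exists_cycle_le_card G hac
    have := hmin u p hp
    rw [hcard] at hB
    omega
  · intro x hx
    rw [List.mem_toFinset] at hx
    have h1 := hw.ncard_neighborSet_toSubgraph_eq_two hx
    rw [← h1]
    unfold nb
    rw [← Set.ncard_coe_finset]
    refine Set.ncard_le_ncard ?_ (Set.toFinite _)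
    intro y hy
    rw [Subgraph.mem_neighborSet] at hy
    rw [mem_coe, mem_filter, List.mem_toFinset]
    refine ⟨?_, hy.adj_sub⟩
    have := w.toSubgraph.edge_vert hy.symm
    rwa [Walk.mem_verts_toSubgraph] at this

/-- Large cyclic edge connectivity implies large girth, or there are at most six vertices. -/
theorem gir_of_cyc (h3 : ∀ v, G.degree v = 3) {k : ℕ} (hc : CycConn G k) :
    Gir G k ∨ Fintype.card V ≤ 6 := by
  classical
  by_contra hcon
  rw [not_or] at hcon
  obtain ⟨hg, hn⟩ := hcon
  obtain ⟨A, hA3, hAk, hgir, hA2⟩ := exists_short hg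
  set g := A.card with hgdef
  have hd := dd_sum h3 A
  have hsum : 2 * g ≤ ∑ v ∈ A, nb G A v := by
    calc 2 * g = ∑ v ∈ A, 2 := by rw [sum_const, smul_eq_mul, mul_comm]
      _ ≤ _ := sum_le_sum hA2
  have hdA : dd G A ≤ g := by omega
  have hAne : A.Nonempty := card_pos.1 (by omega)
  have hAnac : ¬ (G.induce (A : Set V)).IsAcyclic := not_acyclic_of_closed G h3 hAne hdA
  -- no chords
  have hdel : ∀ u ∈ A, g + 1 ≤ dd G (A.erase u) := by
    intro u hu
    have h1 : (A.erase u).card = g - 1 := card_erase_of_mem hu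
    have h2 := dd_of_acyclic G h3 (S := A.erase u) (card_pos.1 (by omega))
      (hgir _ (by omega))
    omega
  have hex2 : ∃ u ∈ A, nb G A u = 2 := by
    by_contra hno
    push Not at hno
    have h1 : ∀ u ∈ A, 3 ≤ nb G A u := fun u hu => by
      have := hA2 u hu
      have := hno u hu
      omega
    have h2 : 3 * g ≤ ∑ v ∈ A, nb G A v := by
      calc 3 * g = ∑ v ∈ A, 3 := by rw [sum_const, smul_eq_mul, mul_comm]
        _ ≤ _ := sum_le_sum h1
    obtain ⟨u, hu⟩ := hAne
    have h4 := hdel u hu
    have h5 := dd_erase h3 hu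
    have h6 := nb_add h3 (A.erase u) u
    omega
  have hdA' : dd G A = g := by
    obtain ⟨u, hu, hu2⟩ := hex2
    have h4 := hdel u hu
    have h5 := dd_erase h3 hu
    rw [nb_erase_self, hu2] at h5
    omega
  have hnb : ∀ u ∈ A, nb G A u = 2 := by
    have h1 : ∑ v ∈ A, nb G A v = ∑ v ∈ A, 2 := by
      rw [sum_const, smul_eq_mul]; omega
    intro u hu
    exact ((sum_eq_sum_iff_of_le hA2).1 h1.symm u hu).symm
  -- the other side
  have hcard := card_add_card_compl A
  have hAc : (G.induce ((Aᶜ : Finset V) : Set V)).IsAcyclic := by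
    by_contra hac
    have := hc A hAnac hac
    omega
  have hAcne : (Aᶜ : Finset V).Nonempty := by
    rw [nonempty_iff_ne_empty]
    intro h0
    have h1 : dd G Aᶜ = 0 := by
      rw [h0, dd_eq_sum]; simp
    rw [dd_compl] at h1
    omega
  have hm := dd_of_acyclic G h3 hAcne hAc
  rw [dd_compl, hdA'] at hm
  obtain ⟨x, hxA, hx⟩ : ∃ x ∈ (Aᶜ : Finset V), nb G Aᶜ x ≤ 1 := by
    by_contra hno
    push Not at hno
    have h1 := dd_sum h3 Aᶜ
    have h2 : 2 * (Aᶜ : Finset V).card ≤ ∑ v ∈ Aᶜ, nb G Aᶜ v := by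
      calc 2 * (Aᶜ : Finset V).card = ∑ v ∈ Aᶜ, 2 := by rw [sum_const, smul_eq_mul, mul_comm]
        _ ≤ _ := sum_le_sum fun v hv => hno v hv
    rw [dd_compl, hdA'] at h1
    omega
  rw [mem_compl] at hxA
  have hx2 : 2 ≤ nb G A x := by
    have := nb_add h3 A x
    omega
  have hg5 : 5 ≤ g := by omega
  -- two neighbours
  set Y := A.filter fun w => G.Adj x w with hY
  have hYc : Y.card = nb G A x := rfl
  obtain ⟨Y2, hY2, hY2c⟩ := exists_subset_card_eq (show 2 ≤ Y.card by omega)
  obtain ⟨y, z, hyz, hY2e⟩ := card_eq_two.1 hY2c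
  have hyY : y ∈ Y := hY2 (by rw [hY2e]; simp)
  have hzY : z ∈ Y := hY2 (by rw [hY2e]; simp)
  have hyA : y ∈ A := (mem_filter.1 hyY).1
  have hzA : z ∈ A := (mem_filter.1 hzY).1
  have hzA' : z ∈ A.erase y := mem_erase.2 ⟨hyz.symm, hzA⟩
  -- an edge of the cycle avoiding both
  obtain ⟨u, hu, u', hu', huu⟩ : ∃ u ∈ (A.erase y).erase z, ∃ u' ∈ (A.erase y).erase z,
      G.Adj u u' := by
    by_contra hno
    push Not at hno
    have h1 := dd_sum h3 ((A.erase y).erase z)
    have h2 : ∑ v ∈ (A.erase y).erase z, nb G ((A.erase y).erase z) v = 0 := by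
      refine sum_eq_zero fun v hv => ?_
      unfold nb
      rw [card_eq_zero, filter_eq_empty_iff]
      exact fun w hw => hno v hv w hw
    have h4 := dd_erase h3 hyA
    rw [nb_erase_self, hnb y hyA] at h4
    have h5 := dd_erase h3 hzA'
    have h6 := nb_erase (G := G) (v := z) hyA
    rw [hnb z hzA] at h6
    rw [nb_erase_self] at h5
    have h7 : ((A.erase y).erase z).card = g - 2 := by
      rw [card_erase_of_mem hzA', card_erase_of_mem hyA]; omega
    rw [h2, h7] at h1
    have h8 : nb G (A.erase y) z ≤ 2 := by omega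
    omega
  have hu1 := mem_erase.1 hu
  have hu2 := mem_erase.1 hu1.2
  have hu1' := mem_erase.1 hu'
  have hu2' := mem_erase.1 hu1'.2
  have hne : u ≠ u' := G.ne_of_adj huu
  -- the smaller set
  have hxu : x ≠ u := fun h => hxA (h ▸ hu2.2)
  have hxu' : x ≠ u' := fun h => hxA (h ▸ hu2'.2)
  set S1 := insert x A with hS1
  have e1 := dd_insert h3 hxA
  have huS : u ∈ S1 := mem_insert_of_mem hu2.2
  have huS' : u' ∈ S1.erase u := mem_erase.2 ⟨hne.symm, mem_insert_of_mem hu2'.2⟩
  have e2 := dd_erase h3 huS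
  have e3 := dd_erase h3 huS'
  have e4 := nb_insert (G := G) (v := u) hxA
  have e5 := nb_insert (G := G) (v := u') hxA
  have e6 := nb_erase (G := G) (v := u') huS
  rw [nb_erase_self] at e2 e3
  rw [if_pos huu.symm] at e6
  rw [← hS1] at e1 e4 e5
  rw [hnb u hu2.2] at e4
  rw [hnb u' hu2'.2] at e5
  -- neighbours of `x` among `u`, `u'`
  have e7 : (if G.Adj u x then 1 else 0) + (if G.Adj u' x then 1 else 0) + 2 ≤ nb G A x := by
    have h1 : ({y, z} ∪ (({u, u'} : Finset V).filter fun w => G.Adj w x)) ⊆ Y := by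
      intro w hw
      rw [mem_union, mem_filter, mem_insert, mem_singleton, mem_insert, mem_singleton] at hw
      rcases hw with (rfl | rfl) | ⟨rfl | rfl, h⟩
      · exact hyY
      · exact hzY
      · exact mem_filter.2 ⟨hu2.2, h.symm⟩
      · exact mem_filter.2 ⟨hu2'.2, h.symm⟩
    have h2 := card_le_card h1
    rw [card_union_of_disjoint, card_pair hyz, card_filter, sum_pair hne] at h2
    · rw [← hYc]; omega
    · rw [Finset.disjoint_left]
      intro w hw hw'
      rw [mem_insert, mem_singleton] at hw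
      rw [mem_filter, mem_insert, mem_singleton] at hw'
      rcases hw with rfl | rfl <;> rcases hw'.1 with h | h
      · exact hu2.1 h.symm
      · exact hu2'.1 h.symm
      · exact hu1.1 h.symm
      · exact hu1'.1 h.symm
  have hc1 : S1.card = g + 1 := card_insert_of_notMem hxA
  have hc2 : ((S1.erase u).erase u').card = g - 1 := by
    rw [card_erase_of_mem huS', card_erase_of_mem huS]; omega
  have hfin := dd_of_acyclic G h3 (S := (S1.erase u).erase u') (card_pos.1 (by omega))
    (hgir _ (by omega))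
  omega

end Pool.Agent.Log5
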