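import Mathlib
import Pool.Agent.Work.MP_974d84_co_log.Defs

/-!
# The circuits of a 2-factor
-/

set_option linter.unusedSectionVars false
set_option linter.style.whitespace false

namespace Pool.Agent.Log5

open Finset SimpleGraph Pool.Agent.Exp Pool.Agent.Work.MP_314beb_co

variable {V : Type} [Fintype V] [DecidableEq V] {G : SimpleGraph V} [DecidableRel G.Adj]

theorem no_bridge (h3 : ∀ v, G.degree v = 3) {k : ℕ} (hc : CycConn G k) (hk : 2 ≤ k) :
    ∀ S : Finset V, S.Nonempty → Sᶜ.Nonempty → 2 ≤ dd G S := by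
  intro S hS hS'
  by_cases h1 : (G.induce (S : Set V)).IsAcyclic
  · have := dd_of_acyclic G h3 hS h1
    omega
  · by_cases h2 : (G.induce ((Sᶜ : Finset V) : Set V)).IsAcyclic
    · have := dd_of_acyclic G h3 hS' h2
      rw [dd_compl] at this
      omega
    · exact hk.trans (hc S h1 h2)

theorem comp_card {F : SimpleGraph V} (hF : F ≤ G) (hF2 : ∀ v, (F.neighborSet v).ncard = 2)
    {k : ℕ} (hg : Gir G k) (c : F.ConnectedComponent) : k ≤ c.supp.ncard := by
  classical
  by_contra hlt
  rw [not_le] at hlt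
  set A : Finset V := c.supp.toFinset with hA
  have hmem : ∀ v, v ∈ A ↔ F.connectedComponentMk v = c := by
    intro v
    rw [hA, Set.mem_toFinset, ConnectedComponent.mem_supp_iff]
  have hAc : A.card < k := by
    rwa [hA, ← Set.ncard_eq_toFinset_card']
  have hac := hg A hAc
  have hacF : (F.induce (A : Set V)).IsAcyclic := by
    refine IsAcyclic.anti ?_ hac
    intro a b hab
    exact hF hab
  obtain ⟨v, hv⟩ := c.exists_rep
  have hvA : v ∈ A := (hmem v).2 hv
  have : Nonempty (A : Set V) := ⟨⟨v, hvA⟩⟩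
  have h1 := acyclic_edges (F.induce (A : Set V)) hacF
  have h2 := inside_card F A
  have h4 := sum_degree_eq_cut_add_inside F A
  have h5 : ∑ v ∈ A, F.degree v = 2 * A.card := by
    have h6 : ∀ v, F.degree v = 2 := by
      intro v
      rw [← card_neighborFinset_eq_degree, ← hF2 v, Set.ncard_eq_toFinset_card']
      rfl
    rw [sum_congr rfl fun v _ => h6 v, sum_const, smul_eq_mul, mul_comm]
  have h6 : Fintype.card (A : Set V) = A.card := by simp
  have h7 : (cut F A).card = 0 := by
    rw [card_eq_zero, eq_empty_iff_forall_notMem]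
    rintro ⟨a, b⟩ hp
    rw [mem_cut] at hp
    obtain ⟨ha, hb, hab⟩ := hp
    apply hb
    rw [hmem] at ha ⊢
    rw [← ha]
    exact ConnectedComponent.sound hab.symm.reachable
  omega

theorem exists_classes {F : SimpleGraph V} (hF : F ≤ G) (hF2 : ∀ v, (F.neighborSet v).ncard = 2)
    {k : ℕ} (hg : Gir G k) {w : ℕ} (hw : {c : F.ConnectedComponent | Odd c.supp.ncard}.ncard = w) :
    ∃ C : Fin w → Finset V, (∀ i j, i ≠ j → Disjoint (C i) (C j)) ∧ (∀ i, k ≤ (C i).card) ∧
      (∀ i, ∃ c : F.ConnectedComponent, Odd c.supp.ncard ∧ ((C i : Finset V) : Set V) = c.supp) ∧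
      ∀ c : F.ConnectedComponent, Odd c.supp.ncard →
        ∃ i, ((C i : Finset V) : Set V) = c.supp := by
  classical
  have hcard : Nat.card {c : F.ConnectedComponent | Odd c.supp.ncard} = w := hw
  let e : {c : F.ConnectedComponent | Odd c.supp.ncard} ≃ Fin w :=
    Finite.equivFinOfCardEq hcard
  refine ⟨fun i => (e.symm i).1.supp.toFinset, fun i j hij => ?_, fun i => ?_, fun i => ?_,
    fun c hc => ?_⟩
  · rw [Finset.disjoint_left]
    intro v hv hv'
    rw [Set.mem_toFinset, ConnectedComponent.mem_supp_iff] at hv hv'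
    have h1 : (e.symm i).1 = (e.symm j).1 := hv.symm.trans hv'
    have h2 : e.symm i = e.symm j := Subtype.ext h1
    exact hij (e.symm.injective h2)
  · rw [← Set.ncard_eq_toFinset_card']
    exact comp_card hF hF2 hg _
  · exact ⟨(e.symm i).1, (e.symm i).2, by simp⟩
  · refine ⟨e ⟨c, hc⟩, ?_⟩
    simp

end Pool.Agent.Log5
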