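import Mathlib
import Pool.Agent.Work.MP_974d84_co_log.Defs

/-!
# Two matchings: 2-colouring, pairing of the uncovered vertices, orientations
-/

set_option linter.unusedSectionVars false

namespace Pool.Agent.Log5

open Finset SimpleGraph Pool.Agent.Exp Pool.Agent.Work.MP_314beb_co

/-- Two fixed point free involutions have a common antisymmetric 2-colouring. -/
theorem kappa_free {X : Type*} [Fintype X] (μ ν : X → X) (hμ : ∀ v, μ (μ v) = v)
    (hν : ∀ v, ν (ν v) = v) (hμf : ∀ v, μ v ≠ v) (hνf : ∀ v, ν v ≠ v) :
    ∃ κ : X → Prop, ∀ v, (κ (μ v) ↔ ¬ κ v) ∧ (κ (ν v) ↔ ¬ κ v) := by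
  classical
  let a : Equiv.Perm X := Function.Involutive.toPerm μ hμ
  let b : Equiv.Perm X := Function.Involutive.toPerm ν hν
  have haa : a * a = 1 := Equiv.ext fun v => hμ v
  have hbb : b * b = 1 := Equiv.ext fun v => hν v
  let π : Equiv.Perm X := b * a
  have hainv : a⁻¹ = a := inv_eq_of_mul_eq_one_left haa
  have hbinv : b⁻¹ = b := inv_eq_of_mul_eq_one_left hbb
  have hconj : ∀ m : ℤ, a * π ^ m = π ^ (-m) * a := by
    intro m
    have h1 : a * π * a⁻¹ = π⁻¹ := by
      simp only [π, mul_inv_rev, hainv, hbinv]
      rw [mul_assoc, mul_assoc, haa, mul_one]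
    have h2 : (a * π * a⁻¹) ^ m = a * π ^ m * a⁻¹ := conj_zpow
    rw [h1] at h2
    rw [zpow_neg, ← inv_zpow, h2, inv_mul_cancel_right]
  have hpq : ∀ (m : ℤ) (x : X), a ((π ^ m) x) = (π ^ (-m)) (a x) := fun m x =>
    congrArg (fun f : Equiv.Perm X => f x) (hconj m)
  have hadd : ∀ (m n : ℤ) (x : X), (π ^ m) ((π ^ n) x) = (π ^ (m + n)) x := fun m n x => by
    rw [zpow_add]; rfl
  -- `x` and `μ x` are in different orbits
  have hdiff : ∀ x, ¬ π.SameCycle x (a x) := by
    rintro x ⟨i, hi⟩
    rcases Int.even_or_odd i with ⟨m, hm⟩ | ⟨m, hm⟩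
    · apply hμf ((π ^ m) x)
      have h1 := hpq m x
      rw [← hi, hadd, hm, show -m + (m + m) = m by ring] at h1
      exact h1
    · apply hνf (μ ((π ^ m) x))
      have h1 := hpq m x
      rw [← hi, hadd, hm, show -m + (2 * m + 1) = 1 + m by ring, ← hadd, zpow_one] at h1
      exact h1.symm
  -- a representative function
  let q : X → Quotient (Equiv.Perm.SameCycle.setoid π) := fun x => Quotient.mk _ x
  let e := Fintype.equivFin (Quotient (Equiv.Perm.SameCycle.setoid π))
  have hq : ∀ x y, e (q x) = e (q y) ↔ π.SameCycle x y := by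
    intro x y
    rw [e.injective.eq_iff]
    exact Quotient.eq
  refine ⟨fun x => e (q x) < e (q (a x)), fun v => ⟨?_, ?_⟩⟩
  · have h1 : e (q v) ≠ e (q (a v)) := fun h => hdiff v ((hq _ _).1 h)
    have h2 : a (a v) = v := hμ v
    have h3 : μ v = a v := rfl
    simp only [h3, h2]
    constructor
    · intro h; exact not_lt.2 h.le
    · intro h; exact lt_of_le_of_ne (not_lt.1 h) (Ne.symm h1)
  · have h1 : e (q v) ≠ e (q (a v)) := fun h => hdiff v ((hq _ _).1 h)
    have h2 : e (q (ν v)) = e (q (a v)) := by
      rw [hq]
      refine (Equiv.Perm.SameCycle.symm ⟨1, ?_⟩)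
      rw [zpow_one]
      change ν (μ (μ v)) = ν v
      rw [hμ]
    have h3 : e (q (a (ν v))) = e (q v) := by
      rw [hq]
      refine ⟨1, ?_⟩
      rw [zpow_one]
      change ν (μ (μ (ν v))) = v
      rw [hμ, hν]
    simp only [h2, h3]
    constructor
    · intro h; exact not_lt.2 h.le
    · intro h; exact lt_of_le_of_ne (not_lt.1 h) (Ne.symm h1)

theorem kappa {X : Type*} [Fintype X] (μ ν : X → X) (hμ : ∀ v, μ (μ v) = v)
    (hν : ∀ v, ν (ν v) = v) (hμf : ∀ v, μ v ≠ v) :
    ∃ κ : X → ℤ, (∀ v, κ v = 1 ∨ κ v = -1) ∧ (∀ v, κ (μ v) = - κ v) ∧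
      ∀ v, ν v ≠ v → κ (ν v) = - κ v := by
  classical
  obtain ⟨κ, hκ⟩ := kappa_free (X := X × Bool) (fun x => (μ x.1, x.2))
    (fun x => if ν x.1 = x.1 then (x.1, !x.2) else (ν x.1, x.2))
    (fun x => by simp [hμ]) (fun x => by
      by_cases h : ν x.1 = x.1
      · simp [h]
      · have h' : ¬ x.1 = ν x.1 := fun h2 => h h2.symm
        simp [h, h', hν]) (fun x h => hμf x.1 (congrArg Prod.fst h)) (fun x h => by
      by_cases h' : ν x.1 = x.1
      · simp only [h', if_true] at h
        have := congrArg Prod.snd h
        simp at this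
      · simp only [h', if_false] at h
        exact h' (congrArg Prod.fst h))
  refine ⟨fun v => if κ (v, true) then 1 else -1, fun v => ?_, fun v => ?_, fun v hv => ?_⟩
  · simp only
    split_ifs <;> simp
  · have h := (hκ (v, true)).1
    simp only at h
    by_cases h1 : κ (v, true) <;> simp [h, h1]
  · have h := (hκ (v, true)).2
    simp only [hv, if_false] at h
    by_cases h1 : κ (v, true) <;> simp [h, h1]


/-- Union of two matchings. -/
def HH {V : Type} (μ ν : V → V) (hμ : ∀ v, μ (μ v) = v) (hν : ∀ v, ν (ν v) = v)
    (hμf : ∀ v, μ v ≠ v) : SimpleGraph V where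
  Adj u v := v = μ u ∨ (v = ν u ∧ ν u ≠ u)
  symm := ⟨by
    rintro u v (h | ⟨h, h'⟩)
    · left; rw [h, hμ]
    · right; rw [h, hν]; exact ⟨rfl, h'.symm⟩⟩
  loopless := ⟨by
    rintro u (h | ⟨h, h'⟩)
    · exact hμf u h.symm
    · exact h' h.symm⟩

section

variable {V : Type} [Fintype V] [DecidableEq V]

/-- A connected piece of the union of two matchings has at most two uncovered vertices. -/
theorem comp_card_le (μ ν : V → V) (H : SimpleGraph V)
    (hadj : ∀ u v, H.Adj u v ↔ (v = μ u ∨ (v = ν u ∧ ν u ≠ u)))
    (hne : ∀ v, μ v ≠ ν v) (C : H.ConnectedComponent)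
    (K : Finset V) (hK : (K : Set V) = C.supp) : (K.filter fun v => ν v = v).card ≤ 2 := by
  classical
  have hcon : (H.induce (K : Set V)).Connected := by
    rw [hK]
    exact C.connected_toSimpleGraph
  have h1 := hcon.card_vert_le_card_edgeSet_add_one
  have h2 := inside_card H K
  have h3 := sum_degree_eq_cut_add_inside H K
  have hmem : ∀ v, v ∈ K ↔ H.connectedComponentMk v = C := by
    intro v
    rw [← Finset.mem_coe, hK]; rfl
  have hcut : (cut H K).card = 0 := by
    rw [card_eq_zero, eq_empty_iff_forall_notMem]
    intro p hp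
    rw [mem_cut] at hp
    apply hp.2.1
    rw [hmem] at *
    rw [← hp.1]
    exact (ConnectedComponent.connectedComponentMk_eq_of_adj hp.2.2).symm
  have hdeg : ∀ v, H.degree v + (if ν v = v then 1 else 0) = 2 := by
    intro v
    unfold SimpleGraph.degree
    by_cases h : ν v = v
    · have : H.neighborFinset v = {μ v} := by
        ext u
        rw [mem_neighborFinset, hadj, mem_singleton]
        simp [h]
      rw [this, card_singleton, if_pos h]
    · have : H.neighborFinset v = {μ v, ν v} := by
        ext u
        rw [mem_neighborFinset, hadj, mem_insert, mem_singleton]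
        simp [h]
      rw [this, card_pair (hne v), if_neg h]
  have hsum : ∑ v ∈ K, H.degree v + (K.filter fun v => ν v = v).card = 2 * K.card := by
    rw [card_filter, ← sum_add_distrib, sum_congr rfl fun v _ => hdeg v, sum_const, smul_eq_mul,
      mul_comm]
  have hc1 : Nat.card (K : Set V) = K.card := by simp
  have hc2 : Nat.card (H.induce (K : Set V)).edgeSet = (H.induce (K : Set V)).edgeFinset.card := by
    rw [Nat.card_eq_fintype_card, edgeFinset_card]
  omega

/-- Pairing of the vertices not covered by the matching `ν`. -/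
theorem pairing {G : SimpleGraph V} [DecidableRel G.Adj] (μ ν : V → V) (hμ : ∀ v, μ (μ v) = v)
    (hν : ∀ v, ν (ν v) = v) (hμa : ∀ v, G.Adj v (μ v)) (hνa : ∀ v, ν v ≠ v → G.Adj v (ν v))
    (hne : ∀ v, μ v ≠ ν v) :
    ∃ (J : Type) (_ : Fintype J) (_ : DecidableEq J) (p q : J → V),
      (∀ j, ν (p j) = p j ∧ ν (q j) = q j) ∧
      (∀ v, ν v = v → (univ.filter fun j => p j = v).card + (univ.filter fun j => q j = v).card = 1) ∧
      (∀ S : Finset V, (univ.filter fun j => ¬ (p j ∈ S ↔ q j ∈ S)).card ≤ dd G S) ∧
      ∀ ε : J → ℤ, (∀ j, ε j = 1 ∨ ε j = -1) → ∃ a : V → V → ℤ, (∀ u v, a u v = - a v u) ∧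
        (∀ u v, -1 ≤ a u v ∧ a u v ≤ 1) ∧ (∀ u v, a u v ≠ 0 ↔ (v = μ u ∨ (v = ν u ∧ ν u ≠ u))) ∧
        ∀ v, ∑ u, a v u = ∑ j, ε j * ((if v = p j then 1 else 0) - (if v = q j then 1 else 0)) := by
  classical
  have hμf : ∀ v, μ v ≠ v := fun v h => G.ne_of_adj (hμa v) h.symm
  obtain ⟨κ, hκ1, hκ2, hκ3⟩ := kappa μ ν hμ hν hμf
  obtain ⟨H, hadj⟩ : ∃ H : SimpleGraph V, ∀ u v, H.Adj u v ↔ (v = μ u ∨ (v = ν u ∧ ν u ≠ u)) :=
    ⟨HH μ ν hμ hν hμf, fun _ _ => Iff.rfl⟩
  -- components
  let c : V → H.ConnectedComponent := H.connectedComponentMk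
  have hcadj : ∀ u v, H.Adj u v → c u = c v := fun u v h =>
    ConnectedComponent.connectedComponentMk_eq_of_adj h
  have hcμ : ∀ v, c (μ v) = c v := fun v => (hcadj _ _ ((hadj _ _).2 (Or.inl rfl))).symm
  have hcν : ∀ v, c (ν v) = c v := by
    intro v
    by_cases h : ν v = v
    · rw [h]
    · exact (hcadj _ _ ((hadj _ _).2 (Or.inr ⟨rfl, h⟩))).symm
  have hbal : ∀ C, ∑ v ∈ univ.filter (fun v => c v = C ∧ ν v = v), κ v = 0 := by
    intro C
    have h1 : ∑ v ∈ univ.filter (fun v => c v = C), κ v = 0 := by
      refine sum_involution (fun v _ => μ v) ?_ ?_ ?_ ?_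
      · intro v _; rw [hκ2]; ring
      · intro v _ _; exact hμf v
      · intro v hv
        simp only [mem_filter, mem_univ, true_and] at hv ⊢
        rw [hcμ, hv]
      · intro v _; exact hμ v
    have h2 : ∑ v ∈ univ.filter (fun v => c v = C ∧ ν v ≠ v), κ v = 0 := by
      refine sum_involution (fun v _ => ν v) ?_ ?_ ?_ ?_
      · intro v hv
        simp only [mem_filter, mem_univ, true_and] at hv
        rw [hκ3 v hv.2]; ring
      · intro v hv _
        simp only [mem_filter, mem_univ, true_and] at hv
        exact hv.2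
      · intro v hv
        simp only [mem_filter, mem_univ, true_and] at hv ⊢
        exact ⟨by rw [hcν, hv.1], by rw [hν]; exact hv.2.symm⟩
      · intro v _; exact hν v
    have h3 := sum_filter_add_sum_filter_not (univ.filter (fun v => c v = C)) (fun v => ν v = v) κ
    rw [filter_filter, filter_filter, h1, h2, add_zero] at h3
    exact h3
  have hle : ∀ C, (univ.filter (fun v => c v = C ∧ ν v = v)).card ≤ 2 := by
    intro C
    have := comp_card_le μ ν H hadj hne C (univ.filter fun v => c v = C) (by
      ext v; simp [c, ConnectedComponent.mem_supp_iff])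
    rwa [filter_filter] at this
  -- every positive uncovered vertex has exactly one negative partner
  have hpart : ∀ v, ν v = v → ∃ w, ν w = w ∧ c w = c v ∧ κ w = - κ v ∧
      ∀ x, ν x = x → c x = c v → x = v ∨ x = w := by
    intro v hv
    have hvm : v ∈ univ.filter (fun u => c u = c v ∧ ν u = u) := by simp [hv]
    have h1 := hbal (c v)
    rw [← add_sum_erase _ _ hvm] at h1
    have h2 : ((univ.filter (fun u => c u = c v ∧ ν u = u)).erase v).card ≤ 1 := by
      rw [card_erase_of_mem hvm]
      have := hle (c v)
      omega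
    have h3 : ((univ.filter (fun u => c u = c v ∧ ν u = u)).erase v).Nonempty := by
      rw [nonempty_iff_ne_empty]
      intro h
      rw [h, sum_empty] at h1
      have := hκ1 v
      omega
    obtain ⟨w, hw⟩ := h3
    have h4 : (univ.filter (fun u => c u = c v ∧ ν u = u)).erase v = {w} := by
      rw [eq_singleton_iff_unique_mem]
      exact ⟨hw, fun x hx => card_le_one.1 h2 x hx w hw⟩
    have hw' := hw
    simp only [mem_erase, mem_filter, mem_univ, true_and] at hw'
    refine ⟨w, hw'.2.2, hw'.2.1, ?_, ?_⟩
    · rw [h4, sum_singleton] at h1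
      omega
    · intro x hx hcx
      by_cases hxv : x = v
      · exact Or.inl hxv
      · right
        have : x ∈ (univ.filter (fun u => c u = c v ∧ ν u = u)).erase v := by
          simp [hxv, hx, hcx]
        rw [h4, mem_singleton] at this
        exact this
  choose! w hw1 hw2 hw3 hw4 using hpart
  let J := {v : V // ν v = v ∧ κ v = 1}
  refine ⟨J, inferInstance, inferInstance, fun j => j.1, fun j => w j.1, ?_, ?_, ?_, ?_⟩
  · exact fun j => ⟨j.2.1, hw1 _ j.2.1⟩
  · intro v hv
    rcases hκ1 v with h | h
    · have h1 : (univ.filter fun j : J => j.1 = v) = {⟨v, hv, h⟩} := by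
        ext j
        rw [mem_filter, mem_singleton]
        exact ⟨fun hj => Subtype.ext hj.2, fun hj => ⟨mem_univ _, by rw [hj]⟩⟩
      have h2 : (univ.filter fun j : J => w j.1 = v) = ∅ := by
        rw [eq_empty_iff_forall_notMem]
        intro j hj
        simp only [mem_filter, mem_univ, true_and] at hj
        have := hw3 _ j.2.1
        rw [hj, h, j.2.2] at this
        omega
      rw [h1, h2]; rfl
    · have h1 : (univ.filter fun j : J => j.1 = v) = ∅ := by
        rw [eq_empty_iff_forall_notMem]
        intro j hj
        simp only [mem_filter, mem_univ, true_and] at hj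
        have := j.2.2
        rw [hj, h] at this
        omega
      have hk : κ (w v) = 1 := by rw [hw3 v hv, h]; ring
      have h2 : (univ.filter fun j : J => w j.1 = v) = {⟨w v, hw1 v hv, hk⟩} := by
        ext j
        simp only [mem_filter, mem_univ, true_and, mem_singleton]
        constructor
        · intro hj
          apply Subtype.ext
          have h5 := hw4 v hv j.1 j.2.1 (by rw [← hj, hw2 _ j.2.1])
          rcases h5 with h5 | h5
          · have := j.2.2
            rw [h5, h] at this
            omega
          · exact h5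
        · intro hj
          rw [hj]
          have h5 := hw4 (w v) (hw1 v hv) v hv (hw2 v hv).symm
          rcases h5 with h5 | h5
          · rw [← h5, h] at hk; omega
          · exact h5.symm
      rw [h1, h2]; rfl
  · intro S
    -- each split pair gives an edge of its component leaving `S`
    have key : ∀ j : J, ¬ (j.1 ∈ S ↔ w j.1 ∈ S) → ∃ e : V × V, e ∈ cut G S ∧ c e.1 = c j.1 := by
      intro j hj
      by_contra hno
      push Not at hno
      apply hj
      have hreach : H.Reachable j.1 (w j.1) := by
        have := hw2 _ j.2.1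
        exact (ConnectedComponent.exact this).symm
      have hstep : ∀ u v, H.Adj u v → c u = c j.1 → (u ∈ S ↔ v ∈ S) := by
        intro u v huv hcu
        have hcv : c v = c j.1 := by rw [← hcadj u v huv, hcu]
        have hG : G.Adj u v := by
          rcases (hadj u v).1 huv with h | ⟨h, h'⟩
          · rw [h]; exact hμa u
          · rw [h]; exact hνa u h'
        constructor
        · intro hu
          by_contra hv
          exact hno (u, v) ((mem_cut G).2 ⟨hu, hv, hG⟩) hcu
        · intro hv
          by_contra hu
          exact hno (v, u) ((mem_cut G).2 ⟨hv, hu, hG.symm⟩) hcv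
      obtain ⟨W⟩ := hreach
      have : ∀ (x y : V) (W : H.Walk x y), c x = c j.1 → (x ∈ S ↔ y ∈ S) := by
        intro x y W
        induction W with
        | nil => intro _; rfl
        | @cons a b d h W ih =>
          intro ha
          exact (hstep a b h ha).trans (ih (by rw [← hcadj a b h, ha]))
      exact this _ _ W rfl
    have hcinj : ∀ j j' : J, c j.1 = c j'.1 → j = j' := by
      intro j j' h
      have h5 := hw4 j'.1 j'.2.1 j.1 j.2.1 h
      rcases h5 with h5 | h5
      · exact Subtype.ext h5
      · have h6 := hw3 _ j'.2.1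
        rw [← h5, j.2.2, j'.2.2] at h6
        omega
    have key' : ∀ j : J, ∃ e : V × V, ¬ (j.1 ∈ S ↔ w j.1 ∈ S) → e ∈ cut G S ∧ c e.1 = c j.1 := by
      intro j
      by_cases h : ¬ (j.1 ∈ S ↔ w j.1 ∈ S)
      · obtain ⟨e, he⟩ := key j h
        exact ⟨e, fun _ => he⟩
      · exact ⟨(j.1, j.1), fun h' => absurd h' h⟩
    choose e he using key'
    unfold dd
    refine card_le_card_of_injOn e (fun j hj => ?_) ?_
    · rw [mem_coe, mem_filter] at hj
      exact (he j hj.2).1
    · intro j hj j' hj' h
      rw [mem_coe, mem_filter] at hj hj'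
      apply hcinj
      rw [← (he j hj.2).2, ← (he j' hj'.2).2, h]
  · intro ε hε
    -- sign of a component
    let s : V → ℤ := fun v => if h : ∃ j : J, c j.1 = c v then ε h.choose else 1
    have hs1 : ∀ v, s v = 1 ∨ s v = -1 := by
      intro v
      simp only [s]
      split_ifs with h
      · exact hε _
      · exact Or.inl rfl
    have hsc : ∀ u v, c u = c v → s u = s v := by
      intro u v h
      simp only [s, h]
    have hcinj : ∀ j j' : J, c j.1 = c j'.1 → j = j' := by
      intro j j' h
      have h5 := hw4 j'.1 j'.2.1 j.1 j.2.1 h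
      rcases h5 with h5 | h5
      · exact Subtype.ext h5
      · have h6 := hw3 _ j'.2.1
        rw [← h5, j.2.2, j'.2.2] at h6
        omega
    have hsj : ∀ j : J, s j.1 = ε j := by
      intro j
      have h : ∃ j' : J, c j'.1 = c j.1 := ⟨j, rfl⟩
      simp only [s, dif_pos h]
      rw [hcinj _ _ h.choose_spec]
    have hsw : ∀ j : J, s (w j.1) = ε j := by
      intro j
      rw [hsc _ _ (hw2 _ j.2.1), hsj]
    refine ⟨fun u v => if v = μ u then s u * κ u else if v = ν u ∧ ν u ≠ u then - (s u * κ u) else 0,
      ?_, ?_, ?_, ?_⟩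
    · intro u v
      have hsuμ : s (μ u) = s u := hsc _ _ (hcμ u)
      have hsuν : s (ν u) = s u := hsc _ _ (hcν u)
      by_cases h1 : v = μ u
      · subst h1
        simp only [hμ, if_true, hsuμ, hκ2]
        ring
      · have h1' : ¬ u = μ v := fun h => h1 (by rw [h, hμ])
        by_cases h2 : v = ν u ∧ ν u ≠ u
        · obtain ⟨h2, h3⟩ := h2
          subst h2
          have h4 : ν (ν u) ≠ ν u := by rw [hν]; exact h3.symm
          simp only [h1, h1', if_false, hν, hsuν, hκ3 u h3, h3, h3.symm, ne_eq, not_false_iff,
            and_self, if_true]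
          ring
        · have h2' : ¬ (u = ν v ∧ ν v ≠ v) := by
            rintro ⟨h3, h4⟩
            apply h2
            rw [h3, hν]
            exact ⟨rfl, h4.symm⟩
          simp only [h1, h1', h2, h2', if_false, neg_zero]
    · intro u v
      have h1 := hs1 u
      have h2 := hκ1 u
      have h3 : s u * κ u = 1 ∨ s u * κ u = -1 := by
        rcases h1 with h1 | h1 <;> rcases h2 with h2 | h2 <;> simp [h1, h2]
      simp only
      split_ifs <;> omega
    · intro u v
      have h1 := hs1 u
      have h2 := hκ1 u
      have h3 : s u * κ u = 1 ∨ s u * κ u = -1 := by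
        rcases h1 with h1 | h1 <;> rcases h2 with h2 | h2 <;> simp [h1, h2]
      simp only
      split_ifs with c1 c2
      · simp only [c1, true_or, iff_true]; omega
      · simp only [c2, ne_eq, not_false_iff, and_self, or_true, iff_true]; omega
      · simp [c1, c2]
    · intro v
      have hL : ∑ u, (if u = μ v then s v * κ v else if u = ν v ∧ ν v ≠ v then - (s v * κ v) else 0)
          = if ν v = v then s v * κ v else 0 := by
        by_cases h : ν v = v
        · simp [h]
        · have h1 : ∀ u, (if u = μ v then s v * κ v else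
              if u = ν v ∧ ν v ≠ v then - (s v * κ v) else 0)
              = (if u = μ v then s v * κ v else 0) - (if u = ν v then s v * κ v else 0) := by
            intro u
            by_cases c1 : u = μ v
            · have : ¬ μ v = ν v := hne v
              simp [c1, this]
            · by_cases c2 : u = ν v
              · simp [c2, h, (hne v).symm]
              · simp [c1, c2]
          rw [sum_congr rfl fun u _ => h1 u, sum_sub_distrib, sum_ite_eq', sum_ite_eq']
          simp [h]
      rw [hL]
      by_cases h : ν v = v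
      · rw [if_pos h]
        rcases hκ1 v with hk | hk
        · rw [sum_eq_single (⟨v, h, hk⟩ : J)]
          · have h6 : ¬ v = w v := by
              intro h6
              have := hw3 v h
              rw [← h6, hk] at this
              omega
            have := hsj ⟨v, h, hk⟩
            simp only at this
            simp [h6, this, hk]
          · intro j _ hj
            have h6 : ¬ v = j.1 := fun h6 => hj (Subtype.ext h6.symm)
            have h7 : ¬ v = w j.1 := by
              intro h7
              have := hw3 _ j.2.1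
              rw [← h7, hk, j.2.2] at this
              omega
            simp [h6, h7]
          · intro h; exact absurd (mem_univ _) h
        · have hkw : κ (w v) = 1 := by rw [hw3 v h, hk]; ring
          have hww : w (w v) = v := by
            have h5 := hw4 (w v) (hw1 v h) v h (hw2 v h).symm
            rcases h5 with h5 | h5
            · rw [← h5, hk] at hkw; omega
            · exact h5.symm
          rw [sum_eq_single (⟨w v, hw1 v h, hkw⟩ : J)]
          · have h6 : ¬ v = w v := by
              intro h6
              rw [← h6, hk] at hkw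
              omega
            have := hsj ⟨w v, hw1 v h, hkw⟩
            simp only at this
            simp [h6, ← this, hk, hww, hsc _ _ (hw2 v h)]
          · intro j _ hj
            have h6 : ¬ v = j.1 := by
              intro h6
              have := j.2.2
              rw [← h6, hk] at this
              omega
            have h7 : ¬ v = w j.1 := by
              intro h7
              apply hj
              apply Subtype.ext
              have h8 := hw4 v h j.1 j.2.1 (by rw [h7, hw2 _ j.2.1])
              rcases h8 with h8 | h8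
              · exact absurd h8.symm h6
              · exact h8
            simp [h6, h7]
          · intro h; exact absurd (mem_univ _) h
      · rw [if_neg h]
        symm
        apply sum_eq_zero
        intro j _
        have h6 : ¬ v = j.1 := by
          rintro rfl; exact h j.2.1
        have h7 : ¬ v = w j.1 := by
          rintro rfl; exact h (hw1 _ j.2.1)
        simp [h6, h7]

end

section

variable {V : Type} [Fintype V] [DecidableEq V]

/-- The edges of a cubic graph outside a 2-factor form a perfect matching. -/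
theorem exists_mu' {G : SimpleGraph V} [DecidableRel G.Adj] (h3 : ∀ v, G.degree v = 3)
    (F : SimpleGraph V) (hF : F ≤ G) (hF2 : ∀ v, (F.neighborSet v).ncard = 2) :
    ∃ μ : V → V, (∀ v, μ (μ v) = v) ∧ (∀ v, G.Adj v (μ v)) ∧ (∀ v, ¬ F.Adj v (μ v)) ∧
      ∀ v u, G.Adj v u → ¬ F.Adj v u → u = μ v := by
  classical
  have h1 : ∀ v, (G.neighborFinset v \ F.neighborFinset v).card = 1 := by
    intro v
    have h2 : F.neighborFinset v ⊆ G.neighborFinset v := by
      intro u hu
      rw [mem_neighborFinset] at hu ⊢
      exact hF hu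
    rw [card_sdiff_of_subset h2]
    have h4 : (G.neighborFinset v).card = 3 := h3 v
    have h5 : (F.neighborFinset v).card = 2 := by
      rw [← hF2 v, Set.ncard_eq_toFinset_card']
      rfl
    omega
  have h2 : ∀ v, ∃ u, ∀ w, G.Adj v w ∧ ¬ F.Adj v w ↔ w = u := by
    intro v
    obtain ⟨u, hu⟩ := card_eq_one.1 (h1 v)
    refine ⟨u, fun w => ?_⟩
    rw [← mem_singleton, ← hu, mem_sdiff, mem_neighborFinset, mem_neighborFinset]
  choose μ hμ using h2
  have h3 : ∀ v, G.Adj v (μ v) ∧ ¬ F.Adj v (μ v) := fun v => (hμ v _).2 rfl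
  refine ⟨μ, fun v => ?_, fun v => (h3 v).1, fun v => (h3 v).2, fun v u a b => (hμ v u).1 ⟨a, b⟩⟩
  exact ((hμ (μ v) v).1 ⟨(h3 v).1.symm, fun h => (h3 v).2 h.symm⟩).symm

/-- Joins modulo 2 of two vertices in a component. -/
theorem join_two (F : SimpleGraph V) {u v : V} (h : F.Reachable u v) :
    ∃ x : V → V → ZMod 2, (∀ a b, x a b = x b a) ∧ (∀ a b, x a b ≠ 0 → F.Adj a b) ∧
      ∀ a, ∑ b, x a b = (if a = u then 1 else 0) + (if a = v then 1 else 0) := by
  classical
  obtain ⟨W⟩ := h
  induction W with
  | nil =>
    refine ⟨fun _ _ => 0, fun _ _ => rfl, fun _ _ h => absurd rfl h, fun a => ?_⟩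
    rw [sum_const_zero]
    split_ifs
    · rfl
    · rfl
  | @cons u w v huw W ih =>
    obtain ⟨x, h1, h2, h3⟩ := ih
    have hne : u ≠ w := F.ne_of_adj huw
    refine ⟨fun a b => x a b + (if (a = u ∧ b = w) ∨ (a = w ∧ b = u) then 1 else 0), ?_, ?_, ?_⟩
    · intro a b
      simp only [h1 a b]
      congr 1
      refine if_congr ?_ rfl rfl
      tauto
    · intro a b hab
      by_cases hc : (a = u ∧ b = w) ∨ (a = w ∧ b = u)
      · rcases hc with ⟨rfl, rfl⟩ | ⟨rfl, rfl⟩
        · exact huw
        · exact huw.symm
      · simp only [hc, if_false, add_zero] at hab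
        exact h2 a b hab
    · intro a
      rw [sum_add_distrib, h3]
      have h4 : ∑ b, (if (a = u ∧ b = w) ∨ (a = w ∧ b = u) then (1 : ZMod 2) else 0)
          = (if a = u then 1 else 0) + (if a = w then 1 else 0) := by
        by_cases hu : a = u
        · subst hu
          simp [hne]
        · by_cases hw : a = w
          · subst hw
            simp [hne.symm]
          · simp [hu, hw]
      rw [h4]
      have h5 : ∀ p q r : ZMod 2, q + r + (p + q) = p + r := by decide
      exact h5 _ _ _

/-- Alternate edges of a 2-regular graph which miss exactly one vertex of every odd component. -/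
theorem exists_nu (F : SimpleGraph V) (hF2 : ∀ v, (F.neighborSet v).ncard = 2) (T : Finset V)
    (hT1 : ∀ c : F.ConnectedComponent, Odd c.supp.ncard → ∃! v, v ∈ T ∧ v ∈ c.supp)
    (hT2 : ∀ c : F.ConnectedComponent, ¬ Odd c.supp.ncard → ∀ v ∈ c.supp, v ∉ T) :
    ∃ ν : V → V, (∀ v, ν (ν v) = v) ∧ (∀ v, ν v = v ↔ v ∈ T) ∧ ∀ v, v ∉ T → F.Adj v (ν v) := by
  classical
  let c : V → F.ConnectedComponent := F.connectedComponentMk
  let r : F.ConnectedComponent → V := fun C => C.nonempty_supp.some
  have hr : ∀ C, c (r C) = C := fun C => C.nonempty_supp.some_mem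
  have hreach : ∀ v, F.Reachable v (r (c v)) := fun v =>
    ConnectedComponent.exact (hr (c v)).symm
  choose X hX1 hX2 hX3 using fun v => join_two F (hreach v)
  -- even numbers
  have hev : ∀ C, (((univ.filter fun v => v ∉ T ∧ c v = C).card : ℕ) : ZMod 2) = 0 := by
    intro C
    rw [ZMod.natCast_eq_zero_iff_even]
    have hC : C.supp.ncard = (univ.filter fun v => c v = C).card := by
      rw [← Set.ncard_coe_finset]
      congr 1
      ext v
      simp [c, ConnectedComponent.mem_supp_iff]
    have hsplit := card_filter_add_card_filter_not (s := univ.filter fun v => c v = C)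
      (fun v => v ∈ T)
    rw [filter_filter, filter_filter] at hsplit
    have e1 : (univ.filter fun v => v ∉ T ∧ c v = C) = univ.filter fun v => c v = C ∧ v ∉ T := by
      ext v; simp [and_comm]
    rw [e1]
    by_cases ho : Odd C.supp.ncard
    · obtain ⟨t, ⟨ht1, ht2⟩, ht3⟩ := hT1 C ho
      have h1 : (univ.filter fun v => c v = C ∧ v ∈ T) = {t} := by
        ext v
        simp only [mem_filter, mem_univ, true_and, mem_singleton]
        constructor
        · rintro ⟨h1, h2⟩
          exact ht3 v ⟨h2, h1⟩
        · rintro rfl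
          exact ⟨ht2, ht1⟩
      rw [h1, card_singleton] at hsplit
      rw [hC] at ho
      obtain ⟨m, hm⟩ := ho
      exact ⟨m, by omega⟩
    · have h1 : (univ.filter fun v => c v = C ∧ v ∈ T) = ∅ := by
        rw [eq_empty_iff_forall_notMem]
        intro v hv
        simp only [mem_filter, mem_univ, true_and] at hv
        exact hT2 C ho v hv.1 hv.2
      rw [h1, card_empty, zero_add] at hsplit
      rw [hsplit, ← hC]
      exact Nat.not_odd_iff_even.1 ho
  let x : V → V → ZMod 2 := fun a b => ∑ v ∈ univ.filter (fun v => v ∉ T), X v a b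
  have hx1 : ∀ a b, x a b = x b a := fun a b => sum_congr rfl fun v _ => hX1 v a b
  have hx2 : ∀ a b, x a b ≠ 0 → F.Adj a b := by
    intro a b h
    by_contra hab
    apply h
    apply sum_eq_zero
    intro v _
    by_contra h'
    exact hab (hX2 v a b h')
  have hx3 : ∀ a, ∑ b, x a b = if a ∈ T then 0 else 1 := by
    intro a
    simp only [x]
    rw [sum_comm]
    simp only [hX3]
    rw [sum_add_distrib]
    have h1 : ∑ v ∈ univ.filter (fun v => v ∉ T), (if a = v then (1 : ZMod 2) else 0)
        = if a ∈ T then 0 else 1 := by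
      rw [sum_ite_eq]
      by_cases h : a ∈ T <;> simp [h]
    have h2 : ∑ v ∈ univ.filter (fun v => v ∉ T), (if a = r (c v) then (1 : ZMod 2) else 0)
        = 0 := by
      rw [sum_ite, sum_const_zero, add_zero, sum_const, nsmul_eq_mul, mul_one, filter_filter]
      by_cases h : a = r (c a)
      · rw [← hev (c a)]
        congr 2
        ext v
        simp only [mem_filter, mem_univ, true_and]
        refine and_congr_right fun _ => ?_
        constructor
        · intro hv
          have : c a = c (r (c v)) := by rw [← hv]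
          rw [this, hr]
        · intro hv
          rw [hv]; exact h
      · rw [filter_false_of_mem, card_empty, Nat.cast_zero]
        rintro v - ⟨-, hv⟩
        apply h
        have : c a = c v := by
          have : c a = c (r (c v)) := by rw [← hv]
          rw [this, hr]
        rw [this]; exact hv
    rw [h1, h2, add_zero]
  -- complement on the components where a vertex of `T` is covered
  let bad : F.ConnectedComponent → Prop := fun C => ∃ t ∈ T, c t = C ∧ ∃ u, x t u ≠ 0
  let y : V → V → ZMod 2 := fun a b => x a b + (if F.Adj a b ∧ bad (c a) then 1 else 0)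
  have hy1 : ∀ a b, y a b = y b a := by
    intro a b
    simp only [y, hx1 a b]
    congr 1
    by_cases hab : F.Adj a b
    · have : c a = c b := ConnectedComponent.connectedComponentMk_eq_of_adj hab
      rw [this]
      simp [hab, hab.symm]
    · have : ¬ F.Adj b a := fun h => hab h.symm
      simp [hab, this]
  have hz2 : ∀ z : ZMod 2, z = 0 ∨ z = 1 := by decide
  have hy2 : ∀ a b, y a b ≠ 0 → F.Adj a b := by
    intro a b h
    by_contra hab
    apply h
    simp only [y, hab, false_and, if_false, add_zero]
    by_contra h'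
    exact hab (hx2 a b h')
  have hyT : ∀ t ∈ T, ∀ u, y t u = 0 := by
    intro t ht u
    obtain ⟨a, b, hab, hN⟩ := Set.ncard_eq_two.1 (hF2 t)
    have hadj : ∀ w, F.Adj t w ↔ w = a ∨ w = b := by
      intro w
      rw [← mem_neighborSet, hN]; simp
    by_cases htu : F.Adj t u
    · have hs : x t a + x t b = 0 := by
        rw [← sum_pair (f := x t) hab]
        have h1 := hx3 t
        rw [if_pos ht] at h1
        rw [← h1]
        apply sum_subset (subset_univ _)
        intro w _ hw
        by_contra h'
        apply hw
        have := (hadj w).1 (hx2 t w h')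
        simpa using this
      by_cases hb : bad (c t)
      · simp only [y, htu, hb, and_self, if_true]
        obtain ⟨t', ht', hct, w, hw⟩ := hb
        have htt : t' = t := by
          by_cases ho : Odd (c t).supp.ncard
          · obtain ⟨t0, -, h0⟩ := hT1 (c t) ho
            rw [h0 t' ⟨ht', hct⟩, h0 t ⟨ht, rfl⟩]
          · exact absurd ht (hT2 (c t) ho t rfl)
        subst htt
        have h1 := (hadj w).1 (hx2 _ w hw)
        have h2 := (hadj u).1 htu
        have h3 : ∀ p q : ZMod 2, p + q = 0 → (p ≠ 0 ∨ q ≠ 0) → p + 1 = 0 ∧ q + 1 = 0 := by decide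
        have h4 := h3 _ _ hs (by
          rcases h1 with rfl | rfl
          · exact Or.inl hw
          · exact Or.inr hw)
        rcases h2 with rfl | rfl
        · exact h4.1
        · exact h4.2
      · simp only [y, hb, and_false, if_false, add_zero]
        by_contra h'
        exact hb ⟨t, ht, rfl, u, h'⟩
    · by_contra h'
      exact htu (hy2 t u h')
  have hyN : ∀ v, v ∉ T → ∃ u, ∀ w, y v w = 1 ↔ w = u := by
    intro v hv
    obtain ⟨a, b, hab, hN⟩ := Set.ncard_eq_two.1 (hF2 v)
    have hadj : ∀ w, F.Adj v w ↔ w = a ∨ w = b := by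
      intro w
      rw [← mem_neighborSet, hN]; simp
    have hs : x v a + x v b = 1 := by
      rw [← sum_pair (f := x v) hab]
      have h1 := hx3 v
      rw [if_neg hv] at h1
      rw [← h1]
      apply sum_subset (subset_univ _)
      intro w _ hw
      by_contra h'
      apply hw
      have := (hadj w).1 (hx2 v w h')
      simpa using this
    have hya : F.Adj v a := (hadj a).2 (Or.inl rfl)
    have hyb : F.Adj v b := (hadj b).2 (Or.inr rfl)
    have hsy : y v a + y v b = 1 := by
      simp only [y, hya, hyb, true_and]
      have h5 : ∀ p q z : ZMod 2, p + q = 1 → p + z + (q + z) = 1 := by decide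
      exact h5 _ _ _ hs
    have h6 : ∀ p q : ZMod 2, p + q = 1 → (p = 1 ∧ q = 0) ∨ (p = 0 ∧ q = 1) := by decide
    rcases h6 _ _ hsy with ⟨h7, h8⟩ | ⟨h7, h8⟩
    · refine ⟨a, fun w => ⟨fun hw => ?_, fun hw => by rw [hw]; exact h7⟩⟩
      rcases (hadj w).1 (hy2 v w (by rw [hw]; decide)) with h | h
      · exact h
      · rw [h, h8] at hw
        exact absurd hw (by decide)
    · refine ⟨b, fun w => ⟨fun hw => ?_, fun hw => by rw [hw]; exact h8⟩⟩
      rcases (hadj w).1 (hy2 v w (by rw [hw]; decide)) with h | h
      · rw [h, h7] at hw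
        exact absurd hw (by decide)
      · exact h
  have hyN' : ∀ v, ∃ u, v ∉ T → ∀ w, y v w = 1 ↔ w = u := by
    intro v
    by_cases hv : v ∈ T
    · exact ⟨v, fun h => absurd hv h⟩
    · obtain ⟨u, hu⟩ := hyN v hv
      exact ⟨u, fun _ => hu⟩
  choose n hn using hyN'
  have hn1 : ∀ v, v ∉ T → y v (n v) = 1 := fun v hv => (hn v hv _).2 rfl
  have hn2 : ∀ v, v ∉ T → F.Adj v (n v) := fun v hv =>
    hy2 _ _ (by rw [hn1 v hv]; decide)
  have hn3 : ∀ v, v ∉ T → n v ∉ T := by
    intro v hv h
    have h1 := hn1 v hv
    rw [hy1, hyT _ h] at h1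
    exact absurd h1 (by decide)
  refine ⟨fun v => if v ∈ T then v else n v, fun v => ?_, fun v => ?_, fun v hv => ?_⟩
  · by_cases hv : v ∈ T
    · simp [hv]
    · simp only [hv, if_false, hn3 v hv]
      exact ((hn (n v) (hn3 v hv) v).1 (by rw [hy1]; exact hn1 v hv)).symm
  · by_cases hv : v ∈ T
    · simp [hv]
    · simp only [hv, if_false, iff_false]
      exact (F.ne_of_adj (hn2 v hv)).symm
  · simp only [hv, if_false]
    exact hn2 v hv

end

end Pool.Agent.Log5
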