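import Mathlib
import Pool.Agent.Work.MP_974d84_co.K0
import Pool.Agent.Work.MP_974d84_co_log.Paths

/-!
# Nowhere-zero 5-flows from 2-factors
-/

set_option linter.unusedSectionVars false

namespace Pool.Agent.Log5

open Finset SimpleGraph Pool.Agent.Exp Pool.Agent.Work.MP_314beb_co MP974d84

section

variable {V : Type} [Fintype V] [DecidableEq V]

theorem cs_eq (u : V → V → ℤ) (Z : Finset V) :
    cs u Z = ∑ v, ∑ w, if v ∈ Z ∧ w ∉ Z then u v w else 0 := by
  unfold cs
  rw [← sum_subset (subset_univ Z)]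
  · refine sum_congr rfl fun v hv => ?_
    rw [← sum_subset (subset_univ Zᶜ)]
    · refine sum_congr rfl fun w hw => ?_
      rw [mem_compl] at hw
      rw [if_pos ⟨hv, hw⟩]
    · intro w _ hw
      rw [mem_compl, not_not] at hw
      rw [if_neg (fun h => h.2 hw)]
  · intro v _ hv
    exact sum_eq_zero fun w _ => if_neg (fun h => hv h.1)

theorem cs_swap (u : V → V → ℤ) (Z : Finset V) : cs (fun v w => u w v) Zᶜ = cs u Z := by
  unfold cs
  rw [compl_compl, sum_comm]

theorem cs_split {G : SimpleGraph V} {u : V → V → ℤ} (hu : ∀ v w, u v w ≠ 0 → G.Adj v w)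
    {Z A : Finset V} (hA : A ⊆ Z) (hno : ∀ x ∈ A, ∀ y ∈ Z, y ∉ A → ¬ G.Adj x y) :
    cs u Z = cs u A + cs u (Z \ A) := by
  rw [cs_eq, cs_eq, cs_eq, ← sum_add_distrib]
  refine sum_congr rfl fun v _ => ?_
  rw [← sum_add_distrib]
  refine sum_congr rfl fun w _ => ?_
  by_cases h0 : u v w = 0
  · simp [h0]
  · have hadj := hu v w h0
    by_cases hv : v ∈ A
    · have hvZ := hA hv
      by_cases hw : w ∈ A
      · have := hA hw
        simp [hv, hvZ, hw, this]
      · by_cases hwZ : w ∈ Z
        · exact absurd hadj (hno v hv w hwZ hw)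
        · simp [hv, hvZ, hw, hwZ]
    · by_cases hvZ : v ∈ Z
      · by_cases hw : w ∈ A
        · exact absurd hadj.symm (hno w hw v hvZ hv)
        · by_cases hwZ : w ∈ Z <;> simp [hv, hvZ, hw, hwZ]
      · simp [hv, hvZ]

theorem dd_cs (G : SimpleGraph V) [DecidableRel G.Adj] (Z : Finset V) :
    (dd G Z : ℤ) = cs (fun v w => if G.Adj v w then 1 else 0) Z := by
  unfold dd cs cut
  rw [card_filter]
  push_cast
  rw [← univ_product_univ, sum_product]
  have h1 := cs_eq (fun v w => if G.Adj v w then 1 else 0) Z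
  unfold cs at h1
  rw [h1]
  refine sum_congr rfl fun v _ => sum_congr rfl fun w _ => ?_
  by_cases a : v ∈ Z <;> by_cases b : w ∈ Z <;> by_cases c : G.Adj v w <;> simp [a, b, c]

/-- Reduction of a cut condition to bonds. -/
theorem cs_nonneg_of_bond {G : SimpleGraph V} [DecidableRel G.Adj] {u : V → V → ℤ}
    (hu : ∀ v w, u v w ≠ 0 → G.Adj v w)
    (hbr : ∀ S : Finset V, S.Nonempty → Sᶜ.Nonempty → 2 ≤ dd G S)
    (hb : ∀ S, Bond G S → 0 ≤ cs u S) (Z : Finset V) : 0 ≤ cs u Z := by
  induction hn : dd G Z using Nat.strong_induction_on generalizing Z with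
  | _ n ih =>
    subst hn
    by_cases h0 : Z.Nonempty
    swap
    · rw [not_nonempty_iff_eq_empty] at h0
      subst h0
      simp [cs]
    by_cases h0' : Zᶜ.Nonempty
    swap
    · rw [not_nonempty_iff_eq_empty] at h0'
      simp [cs, h0']
    have hu1 : ∀ v w, (fun v w => if G.Adj v w then (1 : ℤ) else 0) v w ≠ 0 → G.Adj v w := by
      intro v w h
      by_contra h'
      simp [h'] at h
    by_cases hj : Joined G Z
    · by_cases hj' : Joined G Zᶜ
      · exact hb Z ⟨hj, hj', h0, h0'⟩
      · unfold Pool.Agent.Exp.Joined at hj'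
        push Not at hj'
        obtain ⟨A, hA, hAne, hAZ, hno⟩ := hj'
        have hB : (Zᶜ \ A).Nonempty := by
          rw [sdiff_nonempty]
          exact fun h => hAZ (subset_antisymm hA h)
        have e1 : cs u Z = cs u Aᶜ + cs u (Zᶜ \ A)ᶜ := by
          rw [← cs_swap u Z, cs_split (G := G) (u := fun v w => u w v)
            (fun v w h => (hu w v h).symm) hA hno, ← cs_swap u Aᶜ, ← cs_swap u (Zᶜ \ A)ᶜ,
            compl_compl, compl_compl]
        have e2 : dd G Z = dd G A + dd G (Zᶜ \ A) := by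
          have h1 := cs_split (G := G) hu1 hA hno
          rw [← dd_cs, ← dd_cs, ← dd_cs, dd_compl] at h1
          exact_mod_cast h1
        have hZA : Z ⊆ Aᶜ := by
          intro x hx
          rw [mem_compl]
          intro h
          exact (mem_compl.1 (hA h)) hx
        have hZB : Z ⊆ (Zᶜ \ A)ᶜ := by
          intro x hx
          simp [hx]
        have d1 := hbr A hAne (h0.mono hZA)
        have d2 := hbr (Zᶜ \ A) hB (h0.mono hZB)
        have f1 := ih (dd G Aᶜ) (by rw [dd_compl]; omega) Aᶜ rfl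
        have f2 := ih (dd G (Zᶜ \ A)ᶜ) (by rw [dd_compl]; omega) (Zᶜ \ A)ᶜ rfl
        omega
    · unfold Pool.Agent.Exp.Joined at hj
      push Not at hj
      obtain ⟨A, hA, hAne, hAZ, hno⟩ := hj
      have hB : (Z \ A).Nonempty := by
        rw [sdiff_nonempty]
        exact fun h => hAZ (subset_antisymm hA h)
      have e1 := cs_split (G := G) hu hA hno
      have e2 : dd G Z = dd G A + dd G (Z \ A) := by
        have h1 := cs_split (G := G) hu1 hA hno
        rw [← dd_cs, ← dd_cs, ← dd_cs] at h1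
        exact_mod_cast h1
      have hZA : Zᶜ ⊆ Aᶜ := compl_subset_compl.2 hA
      have hZB : Zᶜ ⊆ (Z \ A)ᶜ := compl_subset_compl.2 sdiff_subset
      have d1 := hbr A hAne (h0'.mono hZA)
      have d2 := hbr (Z \ A) hB (h0'.mono hZB)
      have f1 := ih (dd G A) (by omega) A rfl
      have f2 := ih (dd G (Z \ A)) (by omega) (Z \ A) rfl
      omega

/-- A nowhere-zero 5-flow from an almost conserved 4-flow. -/
theorem flow_of_phi' {G : SimpleGraph V} [DecidableRel G.Adj] {φ : V → V → ℤ}
    (hanti : ∀ u v, φ u v = - φ v u) (h0 : ∀ u v, φ u v ≠ 0 ↔ G.Adj u v)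
    (h3 : ∀ u v, φ u v ≤ 3)
    (hbr : ∀ S : Finset V, S.Nonempty → Sᶜ.Nonempty → 2 ≤ dd G S)
    (hσ : ∀ S, Bond G S → |∑ v ∈ S, dv φ v| ≤ 1 ∨ 5 * |∑ v ∈ S, dv φ v| ≤ dd G S) :
    ∀ i : ℕ, 5 ≤ i → HasNZFlow (ZMod i) G := by
  classical
  let u : V → V → ℤ := fun v w => if 0 < φ v w then 4 else if φ v w < 0 then -1 else 0
  have hlow : ∀ v w, -3 ≤ φ v w := fun v w => by
    have := h3 w v
    have := hanti v w
    omega
  have hu : ∀ v w, u v w ≠ 0 → G.Adj v w := by
    intro v w h
    rw [← h0]
    intro h'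
    simp [u, h'] at h
  have hcut : ∀ Z : Finset V, ∑ v ∈ Z, (0 : ℤ) ≤ cs u Z := by
    intro Z
    rw [sum_const_zero]
    refine cs_nonneg_of_bond hu hbr (fun S hS => ?_) Z
    have hd : (2 : ℤ) ≤ dd G S := by exact_mod_cast hbr S hS.2.2.1 hS.2.2.2
    have e1 : ∑ v ∈ S, dv φ v = cs φ S := dv_cut hanti S
    -- out and in
    let o : V → V → ℤ := fun v w => if 0 < φ v w then 1 else 0
    let n : V → V → ℤ := fun v w => if φ v w < 0 then 1 else 0
    have hcomb : ∀ (x y z t : V → V → ℤ) (a b : ℤ), (∀ v w, x v w ≤ a * y v w + b * z v w) →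
        cs x S ≤ a * cs y S + b * cs z S := by
      intro x y z t a b h
      simp only [cs, mul_sum, ← sum_add_distrib]
      exact sum_le_sum fun v _ => sum_le_sum fun w _ => h v w
    have k1 : cs φ S ≤ 3 * cs o S + (-1) * cs n S := hcomb φ o n n 3 (-1) (fun v w => by
      have := h3 v w
      simp only [o, n]
      split_ifs <;> omega)
    have k2 : 4 * cs o S + (-1) * cs n S ≤ cs u S := by
      have h1 : cs u S = 4 * cs o S + (-1) * cs n S := by
        simp only [cs, mul_sum, ← sum_add_distrib]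
        refine sum_congr rfl fun v _ => sum_congr rfl fun w _ => ?_
        simp only [u, o, n]
        split_ifs <;> omega
      omega
    have k3 : (dd G S : ℤ) = cs o S + cs n S := by
      rw [dd_cs]
      simp only [cs, ← sum_add_distrib]
      refine sum_congr rfl fun v _ => sum_congr rfl fun w _ => ?_
      by_cases hvw : G.Adj v w
      · have := (h0 v w).2 hvw
        simp only [o, n, hvw, if_true]
        split_ifs <;> omega
      · have : φ v w = 0 := by
          by_contra h
          exact hvw ((h0 v w).1 h)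
        simp [o, n, hvw, this]
    have k4 : 0 ≤ cs o S := by
      simp only [cs]
      refine sum_nonneg fun v _ => sum_nonneg fun w _ => ?_
      simp only [o]
      split_ifs <;> norm_num
    have k5 := hσ S hS
    rw [e1] at k5
    rcases k5 with k5 | k5
    · rw [abs_le] at k5
      omega
    · have := abs_le.1 (le_refl |cs φ S|)
      omega
  obtain ⟨f, hf1, hf2, hf3⟩ := hoffman u (fun _ => 0) φ hanti (fun v w => by
    have := h3 v w
    simp only [u]
    split_ifs <;> omega) (by simp) hcut
  refine of_int_five f hf1 (fun a b => ?_) (fun a b => ?_) hf3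
  · rw [← h0]
    have h1 := hf2 a b
    have h2 := hf2 b a
    have h4 := hf1 a b
    have h5 := hanti a b
    simp only [u] at h1 h2
    split_ifs at h1 h2 <;> omega
  · have h1 := hf2 a b
    simp only [u] at h1
    split_ifs at h1 <;> omega

/-- Orientation of a 2-factor. -/
theorem exists_b (F : SimpleGraph V) (hF2 : ∀ v, (F.neighborSet v).ncard = 2) :
    ∃ b : V → V → ℤ, (∀ u v, b u v = - b v u) ∧ (∀ u v, b u v ≠ 0 ↔ F.Adj u v) ∧
      (∀ u v, b u v ≤ 1) ∧ ∀ v, ∑ u, b v u = 0 := by
  classical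
  let e := Fintype.equivFin V
  let β : V × V → ZMod 2 := fun p => if F.Adj p.1 p.2 ∧ e p.1 < e p.2 then 1 else 0
  have hβ : ∀ a, D (Prod.fst : V × V → V) Prod.snd β a = 0 := by
    intro a
    rw [K.D_pair]
    have h1 : ∀ w, β (a, w) - β (w, a) = if F.Adj a w then 1 else 0 := by
      intro w
      by_cases h : F.Adj a w
      · have hne : e a ≠ e w := fun h' => F.ne_of_adj h (e.injective h')
        rcases lt_or_gt_of_ne hne with hlt | hlt
        · simp [β, h, h.symm, hlt, not_lt.2 hlt.le]
        · simp [β, h, h.symm, hlt, not_lt.2 hlt.le]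
      · have : ¬ F.Adj w a := fun h' => h h'.symm
        simp [β, h, this]
    simp only [h1]
    rw [sum_boole]
    have h2 : (univ.filter fun w => F.Adj a w).card = 2 := by
      rw [← hF2 a, ← Set.ncard_coe_finset]
      congr 1
      ext w
      simp
    rw [h2]; rfl
  obtain ⟨b, hb1, hb2, hb3⟩ := lift2 _ _ β hβ
  have key : ∀ p, β p = 0 → b p = 0 := by
    intro p hp
    have h1 := hb3 p
    rw [hp, ZMod.intCast_zmod_eq_zero_iff_dvd] at h1
    have := hb1 p
    simp only [Nat.cast_ofNat] at h1
    omega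
  have key' : ∀ p, β p ≠ 0 → b p ≠ 0 := by
    intro p hp h
    have h1 := hb3 p
    rw [h] at h1
    apply hp
    rw [← h1]; simp
  refine ⟨fun u v => b (u, v) - b (v, u), fun u v => (neg_sub _ _).symm, fun u v => ?_,
    fun u v => ?_, fun v => ?_⟩
  · simp only
    by_cases h : F.Adj u v
    · have hne : e u ≠ e v := fun h' => F.ne_of_adj h (e.injective h')
      rcases lt_or_gt_of_ne hne with hlt | hlt
      · have h1 : b (v, u) = 0 := key _ (by simp [β, h.symm, not_lt.2 hlt.le])
        have h2 : b (u, v) ≠ 0 := key' _ (by simp [β, h, hlt])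
        simp only [h, iff_true]
        omega
      · have h1 : b (u, v) = 0 := key _ (by simp [β, h, not_lt.2 hlt.le])
        have h2 : b (v, u) ≠ 0 := key' _ (by simp [β, h.symm, hlt])
        simp only [h, iff_true]
        omega
    · have h' : ¬ F.Adj v u := fun h' => h h'.symm
      have h1 : b (u, v) = 0 := key _ (by simp [β, h])
      have h2 : b (v, u) = 0 := key _ (by simp [β, h'])
      simp [h, h1, h2]
  · have h1 := hb1 (u, v)
    have h2 := hb1 (v, u)
    simp only
    by_cases hlt : e u < e v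
    · have h3 : b (v, u) = 0 := key _ (by simp [β, not_lt.2 hlt.le])
      omega
    · have h3 : b (u, v) = 0 := key _ (by simp [β, hlt])
      omega
  · rw [← K.D_pair]
    exact hb2 v

/-- M1. -/
theorem flow (G : SimpleGraph V) [DecidableRel G.Adj]
    (h3 : ∀ v, G.degree v = 3) (F : SimpleGraph V) (hF : F ≤ G)
    (hF2 : ∀ v, (F.neighborSet v).ncard = 2) (T : Finset V)
    (hT1 : ∀ c : F.ConnectedComponent, Odd c.supp.ncard → ∃! v, v ∈ T ∧ v ∈ c.supp)
    (hT2 : ∀ c : F.ConnectedComponent, ¬ Odd c.supp.ncard → ∀ v ∈ c.supp, v ∉ T)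
    (hbr : ∀ S : Finset V, S.Nonempty → Sᶜ.Nonempty → 2 ≤ dd G S) :
    ∃ (m : ℕ) (p q : Fin m → V), Function.Injective p ∧ Function.Injective q ∧
      (∀ i j, p i ≠ q j) ∧ (∀ v, v ∈ T ↔ (∃ j, p j = v) ∨ ∃ j, q j = v) ∧
      (∀ (S : Finset V) (J : Finset (Fin m)), (∀ j ∈ J, ¬ (p j ∈ S ↔ q j ∈ S)) →
        J.card ≤ dd G S) ∧
      ∀ ε : Fin m → ℤ, (∀ j, ε j = 1 ∨ ε j = -1) →
        (∀ S, Bond G S → |sg p q ε S| ≤ 1 ∨ 5 * |sg p q ε S| ≤ dd G S) →
        ∀ i : ℕ, 5 ≤ i → HasNZFlow (ZMod i) G := by
  classical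
  obtain ⟨μ, hμ, hμG, hμF, hμu⟩ := exists_mu' h3 F hF hF2
  obtain ⟨ν, hν, hνT, hνF⟩ := exists_nu F hF2 T hT1 hT2
  have hνF' : ∀ v, ν v ≠ v → F.Adj v (ν v) := fun v h => hνF v (fun h' => h ((hνT v).2 h'))
  have hne : ∀ v, μ v ≠ ν v := by
    intro v h
    by_cases h' : ν v = v
    · rw [h'] at h
      exact G.ne_of_adj (hμG v) h.symm
    · have := hνF' v h'
      rw [← h] at this
      exact hμF v this
  obtain ⟨J, _, _, p, q, hpq, hcov, hsplit, ha⟩ :=
    pairing (G := G) μ ν hμ hν hμG (fun v h => hF (hνF' v h)) hne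
  obtain ⟨b, hb1, hb2, hb3, hb4⟩ := exists_b F hF2
  let E := (Fintype.equivFin J).symm
  have hcard1 : ∀ (f : J → V) (v : V) (i j : J), (univ.filter fun j => f j = v).card ≤ 1 →
      f i = v → f j = v → i = j := fun f v i j h h1 h2 =>
    card_le_one.1 h i (by simp [h1]) j (by simp [h2])
  have hpinj : Function.Injective p := by
    intro i j h
    have := hcov (p j) (hpq j).1
    exact hcard1 p (p j) i j (by omega) h rfl
  have hqinj : Function.Injective q := by
    intro i j h
    have := hcov (q j) (hpq j).2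
    exact hcard1 q (q j) i j (by omega) h rfl
  have hpqne : ∀ i j, p i ≠ q j := by
    intro i j h
    have h1 := hcov (p i) (hpq i).1
    have h2 : 0 < (univ.filter fun j => p j = p i).card := card_pos.2 ⟨i, by simp⟩
    have h4 : 0 < (univ.filter fun j => q j = p i).card := card_pos.2 ⟨j, by simp [h]⟩
    omega
  refine ⟨Fintype.card J, fun i => p (E i), fun i => q (E i), hpinj.comp E.injective,
    hqinj.comp E.injective, fun i j => hpqne _ _, ?_, ?_, ?_⟩
  · intro v
    constructor
    · intro hv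
      have h1 := hcov v ((hνT v).2 hv)
      by_cases h2 : (univ.filter fun j => p j = v).Nonempty
      · obtain ⟨j, hj⟩ := h2
        left
        exact ⟨E.symm j, by simpa using hj⟩
      · rw [not_nonempty_iff_eq_empty] at h2
        rw [h2, card_empty, zero_add] at h1
        obtain ⟨j, hj⟩ := card_pos.1 (by omega : 0 < (univ.filter fun j => q j = v).card)
        right
        exact ⟨E.symm j, by simpa using hj⟩
    · rintro (⟨j, rfl⟩ | ⟨j, rfl⟩)
      · exact (hνT _).1 (hpq _).1
      · exact (hνT _).1 (hpq _).2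
  · intro S I hI
    refine le_trans ?_ (hsplit S)
    refine card_le_card_of_injOn E (fun i hi => ?_) E.injective.injOn
    rw [mem_coe, mem_filter]
    exact ⟨mem_univ _, hI i hi⟩
  · intro ε hε hbond
    obtain ⟨a, ha1, ha2, ha3, ha4⟩ := ha (fun j => ε (E.symm j)) (fun j => hε _)
    have hdv : ∀ v, dv (fun u v => 2 * b u v + a u v) v =
        ∑ j : J, ε (E.symm j) * ((if v = p j then 1 else 0) - (if v = q j then 1 else 0)) := by
      intro v
      rw [← ha4 v]
      unfold dv
      rw [sum_add_distrib, ← mul_sum, hb4, mul_zero, zero_add]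
    have hsg : ∀ S : Finset V, ∑ v ∈ S, dv (fun u v => 2 * b u v + a u v) v
        = sg (fun i => p (E i)) (fun i => q (E i)) ε S := by
      intro S
      rw [sum_congr rfl fun v _ => hdv v, sum_comm]
      unfold sg
      rw [← E.sum_comp]
      refine sum_congr rfl fun i _ => ?_
      rw [← mul_sum, sum_sub_distrib, sum_ite_eq', sum_ite_eq', Equiv.symm_apply_apply]
    have hlow : ∀ u v, -1 ≤ b u v := fun u v => by
      have := hb3 v u
      have := hb1 u v
      omega
    refine flow_of_phi' (G := G) (φ := fun u v => 2 * b u v + a u v) ?_ ?_ ?_ hbr ?_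
    · intro u v
      rw [hb1 u v, ha1 u v]; ring
    · intro u v
      have c1 := hb2 u v
      have c2 := ha3 u v
      have c3 := hb3 u v
      have c4 := hlow u v
      have c5 := ha2 u v
      by_cases hf : F.Adj u v
      · have := c1.2 hf
        simp only [hF hf, iff_true]
        omega
      · have hb0 : b u v = 0 := by
          by_contra h
          exact hf (c1.1 h)
        constructor
        · intro h
          have : a u v ≠ 0 := by omega
          rcases c2.1 this with h1 | ⟨h1, h2⟩
          · rw [h1]; exact hμG u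
          · rw [h1]; exact hF (hνF' u h2)
        · intro h
          have := c2.2 (Or.inl (hμu u v h hf))
          omega
    · intro u v
      have c3 := hb3 u v
      have c5 := ha2 u v
      omega
    · intro S hS
      rw [hsg S]
      exact hbond S hS

end

end Pool.Agent.Log5
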