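import Mathlib
import Pool.Agent.Work.MP_974d84_co_log.Girth
import Pool.Agent.Work.MP_974d84_co_log.Flow
import Pool.Agent.Work.MP_974d84_co_log.Comp

/-!
# Cubic graphs with at most six vertices
-/

set_option linter.unusedSectionVars false

namespace Pool.Agent.Log5

open Finset SimpleGraph Pool.Agent.Exp MP974d84

variable {V : Type} [Fintype V] [DecidableEq V] {G : SimpleGraph V} [DecidableRel G.Adj]

theorem gir_three : Gir G 3 := by
  by_contra h
  obtain ⟨A, h1, h2, -⟩ := exists_short h
  omega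

/-- At most one pair: the signed number of split pairs is at most one. -/
theorem sg_le_one {m : ℕ} (hm : m ≤ 1) (p q : Fin m → V) (ε : Fin m → ℤ)
    (hε : ∀ j, ε j = 1 ∨ ε j = -1) (S : Finset V) : |sg p q ε S| ≤ 1 := by
  unfold sg
  have h1 : ∀ j, |ε j * ((if p j ∈ S then 1 else 0) - (if q j ∈ S then 1 else 0))| ≤ 1 := by
    intro j
    rcases hε j with h | h <;> rw [h] <;> split_ifs <;> simp
  refine (abs_sum_le_sum_abs _ _).trans ((sum_le_sum fun j _ => h1 j).trans ?_)
  rw [sum_const, card_univ, Fintype.card_fin, nsmul_eq_mul, mul_one]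
  exact_mod_cast hm

/-- Cubic graphs with at most six vertices. -/
theorem small_case (h3 : ∀ v, G.degree v = 3) (hn : Fintype.card V ≤ 6) (hc : CycConn G 2)
    (F : SimpleGraph V) (hF : F ≤ G) (hF2 : ∀ v, (F.neighborSet v).ncard = 2) :
    ∀ i : ℕ, 5 ≤ i → HasNZFlow (ZMod i) G := by
  classical
  obtain ⟨w, hw⟩ : ∃ w, {c : F.ConnectedComponent | Odd c.supp.ncard}.ncard = w := ⟨_, rfl⟩
  obtain ⟨C, hCd, hCk, hC1, hC2⟩ := exists_classes hF hF2 (G := G) gir_three hw
  have hw2 : w ≤ 2 := by
    have h1 : (univ.biUnion C).card = ∑ i, (C i).card :=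
      card_biUnion fun i _ j _ hij => hCd i j hij
    have h2 : ∑ i : Fin w, 3 ≤ ∑ i, (C i).card := sum_le_sum fun i _ => hCk i
    have h4 := card_le_univ (univ.biUnion C)
    rw [sum_const, card_univ, Fintype.card_fin, smul_eq_mul] at h2
    omega
  have hne : ∀ i, ∃ v, v ∈ C i := fun i => by
    have := hCk i
    exact card_pos.1 (by omega)
  choose t ht using hne
  set T : Finset V := univ.image t with hT
  obtain ⟨m, p, q, hp, hq, hpq, hpT, -, hflow⟩ := flow G h3 F hF hF2 T
    (by
      intro c hc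
      obtain ⟨i, hi⟩ := hC2 c hc
      refine ⟨t i, ⟨mem_image_of_mem _ (mem_univ _), hi ▸ ht i⟩, ?_⟩
      rintro v ⟨hv, hvc⟩
      obtain ⟨j, -, rfl⟩ := mem_image.1 hv
      by_contra h
      have hij : j ≠ i := fun h' => h (by rw [h'])
      have h1 : t j ∈ C i := by
        have : t j ∈ ((C i : Finset V) : Set V) := hi ▸ hvc
        exact this
      exact Finset.disjoint_left.1 (hCd j i hij) (ht j) h1)
    (by
      intro c hc v hvc hv
      obtain ⟨j, -, rfl⟩ := mem_image.1 hv
      obtain ⟨c', hc', hj⟩ := hC1 j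
      have h1 : t j ∈ c'.supp := hj ▸ ht j
      rw [ConnectedComponent.mem_supp_iff] at h1 hvc
      exact hc (by rw [← hvc, h1]; exact hc')) (no_bridge h3 hc le_rfl)
  have hm : m ≤ 1 := by
    have h1 : (univ.image p ∪ univ.image q) ⊆ T := by
      intro v hv
      rw [mem_union, mem_image, mem_image] at hv
      rcases hv with ⟨j, -, rfl⟩ | ⟨j, -, rfl⟩
      · exact (hpT _).2 (Or.inl ⟨j, rfl⟩)
      · exact (hpT _).2 (Or.inr ⟨j, rfl⟩)
    have h2 := card_le_card h1
    rw [card_union_of_disjoint, card_image_of_injective _ hp, card_image_of_injective _ hq,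
      card_univ, Fintype.card_fin] at h2
    · have h4 : T.card ≤ w := by
        refine card_image_le.trans ?_
        rw [card_univ, Fintype.card_fin]
      omega
    · rw [Finset.disjoint_left]
      intro v hv hv'
      rw [mem_image] at hv hv'
      obtain ⟨i, -, rfl⟩ := hv
      obtain ⟨j, -, h⟩ := hv'
      exact hpq i j h.symm
  refine hflow (fun _ => 1) (fun _ => Or.inl rfl) fun S _ => Or.inl ?_
  exact sg_le_one hm p q _ (fun _ => Or.inl rfl) S

end Pool.Agent.Log5
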