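import Mathlib
import Pool.Agent.Work.MP_974d84_co_log.Defs

/-!
Counting small cuts that do not split given terminals which are far apart (Steiner version of
Karger's bound).
-/

set_option linter.unusedSectionVars false

namespace Pool.Agent.Log5

open Finset SimpleGraph
open Pool.Agent.Work.MP_314beb_co Pool.Agent.Exp

variable {V : Type*} [Fintype V] [DecidableEq V]

/-- Number of members of `Fam` that separate `v` and `w`. -/
def ham (Fam : Finset (Finset V)) (v w : V) : ℕ :=
  (Fam.filter fun S => ¬ (v ∈ S ↔ w ∈ S)).card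

theorem ham_comm (Fam : Finset (Finset V)) (v w : V) : ham Fam v w = ham Fam w v := by
  unfold ham
  congr 1
  ext S
  simp only [mem_filter]
  tauto

theorem ham_triangle (Fam : Finset (Finset V)) (u v w : V) :
    ham Fam u w ≤ ham Fam u v + ham Fam v w := by
  unfold ham
  refine (card_le_card ?_).trans (card_union_le _ _)
  intro S hS
  simp only [mem_filter, mem_union] at hS ⊢
  tauto

/-- Sum over the adjacent pairs of the number of members separating them. -/
theorem sum_ham (G : SimpleGraph V) [DecidableRel G.Adj] (Fam : Finset (Finset V)) :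
    ∑ p ∈ (univ : Finset (V × V)).filter (fun p => G.Adj p.1 p.2), ham Fam p.1 p.2
      = ∑ S ∈ Fam, 2 * dd G S := by
  unfold ham
  simp only [card_filter]
  rw [sum_comm]
  refine sum_congr rfl fun S _ => ?_
  rw [← card_filter, filter_filter]
  have h1 : ((univ : Finset (V × V)).filter
      (fun p => G.Adj p.1 p.2 ∧ ¬ (p.1 ∈ S ↔ p.2 ∈ S))) = cut G S ∪ cut G Sᶜ := by
    ext p
    rw [mem_union, mem_cut, mem_cut]
    simp only [mem_filter, mem_univ, true_and, mem_compl]
    tauto
  rw [h1, card_union_of_disjoint]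
  · have := dd_compl G S
    unfold dd at *
    omega
  · rw [Finset.disjoint_left]
    intro p h1 h2
    rw [mem_cut] at h1 h2
    exact (mem_compl.1 h2.1) h1.1

/-- Arithmetic step. -/
theorem arith_step {N a : ℕ} (haN : a ≤ N) (hN : 0 < N) :
    (2 * N) * (2 * N) ^ a ≤ (2 * N - a) * (2 * (N + 1)) ^ a := by
  have h1 : (1 : ℝ) + a * (1 / N : ℝ) ≤ (1 + 1 / N) ^ a := by
    refine one_add_mul_le_pow ?_ a
    have : (0 : ℝ) ≤ 1 / (N : ℝ) := by positivity
    linarith
  have hN' : (0 : ℝ) < N := by exact_mod_cast hN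
  have haN' : (a : ℝ) ≤ N := by exact_mod_cast haN
  have h2 : ((2 * (N + 1) : ℕ) : ℝ) ^ a = (2 * N : ℝ) ^ a * (1 + 1 / N) ^ a := by
    rw [← mul_pow]
    congr 1
    push_cast
    field_simp
  have h3 : ((2 * N - a : ℕ) : ℝ) = 2 * N - a := by
    rw [Nat.cast_sub (by omega)]
    push_cast
    ring
  have h4 : ((2 * N : ℕ) : ℝ) * ((2 * N : ℕ) : ℝ) ^ a
      ≤ ((2 * N - a : ℕ) : ℝ) * ((2 * (N + 1) : ℕ) : ℝ) ^ a := by
    rw [h2, h3]
    have h5 : (2 * N : ℝ) ≤ (2 * N - a) * (1 + a * (1 / N)) := by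
      have : (2 * N - a : ℝ) * (1 + a * (1 / N)) = 2 * N + (a * (N - a)) / N := by
        field_simp
        ring
      rw [this]
      have : 0 ≤ (a * (N - a) : ℝ) / N :=
        div_nonneg (mul_nonneg (by positivity) (by linarith)) hN'.le
      linarith
    have h6 : (0 : ℝ) ≤ 2 * N - a := by linarith
    have h7 : (0 : ℝ) < (2 * N : ℝ) ^ a := by positivity
    push_cast
    calc (2 * N : ℝ) * (2 * N : ℝ) ^ a
        ≤ ((2 * N - a) * (1 + a * (1 / N))) * (2 * N : ℝ) ^ a := by gcongr
      _ ≤ ((2 * N - a) * (1 + 1 / N) ^ a) * (2 * N : ℝ) ^ a := by gcongr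
      _ = _ := by ring
  exact_mod_cast h4

section step

variable {ι : Type*} [DecidableEq ι]

/-- The ball argument: some two terminals are separated by few members. -/
theorem exists_close (G : SimpleGraph V) [DecidableRel G.Adj] {K D : ℕ}
    (I : Finset ι) (Y : ι → Finset V) (y : ι → V) (hy : ∀ i ∈ I, y i ∈ Y i)
    (hsep : ∀ i ∈ I, ∀ j ∈ I, i ≠ j → ∀ X : Finset V, Y i ⊆ X → Disjoint (Y j) X → K ≤ dd G X)
    (Fam : Finset (Finset V)) (hns : ∀ S ∈ Fam, ∀ i ∈ I, Y i ⊆ S ∨ Disjoint (Y i) S)
    (hD : ∀ S ∈ Fam, dd G S ≤ D) (s : ℕ)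
    (hs : ∀ i ∈ I, ∀ j ∈ I, i ≠ j → s ≤ ham Fam (y i) (y j)) (hI : 2 ≤ I.card) :
    s * (I.card * K) ≤ 4 * (D * Fam.card) := by
  classical
  set R := (s + 1) / 2 with hR
  -- the balls
  let B : ι → ℕ → Finset V := fun j r => univ.filter fun v => ham Fam (y j) v ≤ r
  have hmemB : ∀ j r v, v ∈ B j r ↔ ham Fam (y j) v ≤ r := by
    intro j r v
    simp [B]
  have hYB : ∀ j ∈ I, ∀ r, Y j ⊆ B j r := by
    intro j hj r v hv
    rw [hmemB]
    have : ham Fam (y j) v = 0 := by
      unfold ham
      rw [card_eq_zero, filter_eq_empty_iff]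
      intro S hS
      rw [not_not]
      rcases hns S hS j hj with h | h
      · exact iff_of_true (h (hy j hj)) (h hv)
      · rw [Finset.disjoint_left] at h
        exact iff_of_false (h (hy j hj)) (h hv)
    omega
  have huniq : ∀ i ∈ I, ∀ j ∈ I, ∀ r r' v, r < R → r' < R → v ∈ B i r → v ∈ B j r' → i = j := by
    intro i hi j hj r r' v hr hr' h1 h2
    by_contra hij
    rw [hmemB] at h1 h2
    have h3 := hs i hi j hj hij
    have h4 := ham_triangle Fam (y i) v (y j)
    rw [ham_comm Fam v (y j)] at h4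
    omega
  have hlow : ∀ j ∈ I, ∀ r < R, K ≤ dd G (B j r) := by
    intro j hj r hr
    have hex : ∃ i ∈ I, i ≠ j := by
      by_contra hne
      push Not at hne
      have : I ⊆ {j} := fun i hi => mem_singleton.2 (hne i hi)
      have := card_le_card this
      simp at this
      omega
    obtain ⟨i, hi, hij⟩ := hex
    refine hsep j hj i hi (Ne.symm hij) _ (hYB j hj r) ?_
    rw [Finset.disjoint_left]
    intro v hv hvB
    exact hij (huniq i hi j hj r r v hr hr (hYB i hi r hv) hvB)
  have h1 : R * (I.card * K) ≤ ∑ r ∈ range R, ∑ j ∈ I, dd G (B j r) := by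
    calc R * (I.card * K) = ∑ r ∈ range R, ∑ j ∈ I, K := by
          simp
      _ ≤ _ := by
          refine sum_le_sum fun r hr => sum_le_sum fun j hj => ?_
          exact hlow j hj r (mem_range.1 hr)
  have h2 : ∑ r ∈ range R, ∑ j ∈ I, dd G (B j r)
      ≤ ∑ p ∈ (univ : Finset (V × V)).filter (fun p => G.Adj p.1 p.2), ham Fam p.1 p.2 := by
    have e1 : ∑ r ∈ range R, ∑ j ∈ I, dd G (B j r)
        = ∑ q ∈ (range R) ×ˢ I, dd G (B q.2 q.1) := by
      rw [sum_product]
    have e2 : ∀ q : ℕ × ι, dd G (B q.2 q.1)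
        = ∑ p ∈ (univ : Finset (V × V)).filter (fun p => G.Adj p.1 p.2),
          if p.1 ∈ B q.2 q.1 ∧ p.2 ∉ B q.2 q.1 then 1 else 0 := by
      intro q
      rw [← card_filter, filter_filter]
      unfold dd
      congr 1
      ext p
      rw [mem_cut]
      simp only [mem_filter, mem_univ, true_and]
      tauto
    rw [e1, sum_congr rfl fun q _ => e2 q, sum_comm]
    refine sum_le_sum fun p _ => ?_
    rw [← card_filter]
    rcases ((range R ×ˢ I).filter
      fun q => p.1 ∈ B q.2 q.1 ∧ p.2 ∉ B q.2 q.1).eq_empty_or_nonempty with h0 | ⟨q0, hq0⟩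
    · rw [h0]; simp
    · simp only [mem_filter, mem_product, mem_range] at hq0
      obtain ⟨⟨hq1, hq2⟩, hq3, hq4⟩ := hq0
      have h3 : ((range R ×ˢ I).filter fun q => p.1 ∈ B q.2 q.1 ∧ p.2 ∉ B q.2 q.1)
          ⊆ (Ico (ham Fam (y q0.2) p.1) (ham Fam (y q0.2) p.2)).image
            (fun r => (r, q0.2)) := by
        intro q hq
        simp only [mem_filter, mem_product, mem_range] at hq
        obtain ⟨⟨hq1', hq2'⟩, hq3', hq4'⟩ := hq
        have e : q.2 = q0.2 := huniq q.2 hq2' q0.2 hq2 q.1 q0.1 p.1 hq1' hq1 hq3' hq3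
        rw [mem_image]
        refine ⟨q.1, ?_, ?_⟩
        · rw [mem_Ico]
          rw [hmemB] at hq3' hq4'
          rw [e] at hq3' hq4'
          omega
        · rw [← e]
      have h4 := card_le_card h3
      have h5 := card_image_le (s := Ico (ham Fam (y q0.2) p.1) (ham Fam (y q0.2) p.2))
        (f := fun r => (r, q0.2))
      rw [Nat.card_Ico] at h5
      have h6 := ham_triangle Fam (y q0.2) p.1 p.2
      omega
  have h3 : ∑ S ∈ Fam, 2 * dd G S ≤ Fam.card * (2 * D) := by
    refine (sum_le_card_nsmul Fam _ (2 * D) fun S hS => ?_).trans (by simp)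
    have := hD S hS
    omega
  rw [sum_ham] at h2
  have h4 : s ≤ 2 * R := by omega
  calc s * (I.card * K) ≤ (2 * R) * (I.card * K) := Nat.mul_le_mul_right _ h4
    _ = 2 * (R * (I.card * K)) := by ring
    _ ≤ 2 * (Fam.card * (2 * D)) := by
        have := h1.trans (h2.trans h3)
        omega
    _ = _ := by ring

end step

/-- Steiner version of Karger's bound: the cuts with at most `D` edges that split no terminal set,
have different traces, and where any two terminal sets are separated only by cuts with at least `K`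
edges, number at most `(2 (N + 1)) ^ a` for `N` terminal sets, as soon as `8 D ≤ a K`. -/
theorem steiner_karger_finset {ι : Type*} [DecidableEq ι] (G : SimpleGraph V) [DecidableRel G.Adj]
    {K D a : ℕ} (hK : 0 < K) (ha : 1 ≤ a) (haK : 8 * D ≤ a * K)
    (I : Finset ι) (Y : ι → Finset V) (hY : ∀ i ∈ I, (Y i).Nonempty)
    (hsep : ∀ i ∈ I, ∀ j ∈ I, i ≠ j → ∀ X : Finset V, Y i ⊆ X → Disjoint (Y j) X → K ≤ dd G X)
    (Fam : Finset (Finset V)) (hns : ∀ S ∈ Fam, ∀ i ∈ I, Y i ⊆ S ∨ Disjoint (Y i) S)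
    (hD : ∀ S ∈ Fam, dd G S ≤ D)
    (htr : ∀ S ∈ Fam, ∀ S' ∈ Fam, (∀ i ∈ I, (Y i ⊆ S ↔ Y i ⊆ S')) → S = S') :
    Fam.card ≤ (2 * (I.card + 1)) ^ a := by
  classical
  induction hn : I.card using Nat.strong_induction_on generalizing I Fam with
  | _ N ih =>
  rcases le_or_gt N a with hNa | hNa
  · -- few terminals: at most `2 ^ N` traces
    have h1 : Fam.card ≤ I.powerset.card := by
      refine card_le_card_of_injOn (fun S => I.filter fun i => Y i ⊆ S) ?_ ?_
      · intro S _
        simp only [coe_powerset, Set.mem_preimage, Set.mem_powerset_iff, coe_subset]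
        exact filter_subset _ _
      · intro S hS S' hS' he
        refine htr S hS S' hS' fun i hi => ?_
        have := congrArg (fun A => i ∈ A) he
        simp only [mem_filter, eq_iff_iff] at this
        tauto
    rw [card_powerset, hn] at h1
    refine h1.trans ?_
    calc 2 ^ N ≤ 2 ^ a := Nat.pow_le_pow_right (by norm_num) hNa
      _ ≤ (2 * (N + 1)) ^ a := Nat.pow_le_pow_left (by omega) a
  · have hN2 : 2 ≤ N := by omega
    have hy : ∀ i ∈ I, ∃ v, v ∈ Y i := fun i hi => hY i hi
    have hIne : I.Nonempty := by rw [← card_pos]; omega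
    obtain ⟨i0, hi0⟩ := hIne
    obtain ⟨v0, hv0⟩ := hy i0 hi0
    let y : ι → V := fun i => if h : (Y i).Nonempty then h.choose else v0
    have hyY : ∀ i ∈ I, y i ∈ Y i := by
      intro i hi
      have h := hY i hi
      simp only [y, dif_pos h]
      exact h.choose_spec
    have hiff : ∀ S ∈ Fam, ∀ i ∈ I, (y i ∈ S ↔ Y i ⊆ S) := by
      intro S hS i hi
      rcases hns S hS i hi with h | h
      · exact iff_of_true (h (hyY i hi)) h
      · rw [Finset.disjoint_left] at h
        exact iff_of_false (h (hyY i hi)) fun h' => h (hyY i hi) (h' (hyY i hi))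
    have hoff : I.offDiag.Nonempty := by
      rw [← card_pos, offDiag_card, hn]
      have : N < N * N := by nlinarith
      omega
    obtain ⟨⟨i, j⟩, hij, hmin⟩ := exists_min_image I.offDiag
      (fun q => ham Fam (y q.1) (y q.2)) hoff
    rw [mem_offDiag] at hij
    obtain ⟨hi, hj, hne⟩ := hij
    simp only at hi hj hne
    set s := ham Fam (y i) (y j) with hs
    have h1 := exists_close G (K := K) (D := D) I Y y hyY hsep Fam hns hD s (by
      intro i' hi' j' hj' hne'
      exact hmin (i', j') (mem_offDiag.2 ⟨hi', hj', hne'⟩)) (by omega)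
    rw [hn] at h1
    -- `2 N s ≤ a |Fam|`
    have h2 : 2 * N * s ≤ a * Fam.card := by
      have e1 : 2 * (s * (N * K)) ≤ (a * K) * Fam.card := by
        calc 2 * (s * (N * K)) ≤ 2 * (4 * (D * Fam.card)) := Nat.mul_le_mul_left _ h1
          _ = (8 * D) * Fam.card := by ring
          _ ≤ (a * K) * Fam.card := Nat.mul_le_mul_right _ haK
      have e2 : K * (2 * N * s) ≤ K * (a * Fam.card) := by
        calc K * (2 * N * s) = 2 * (s * (N * K)) := by ring
          _ ≤ (a * K) * Fam.card := e1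
          _ = _ := by ring
      exact Nat.le_of_mul_le_mul_left e2 hK
    set Fam' := Fam.filter fun S => (y i ∈ S ↔ y j ∈ S) with hFam'
    have h3 : Fam'.card + s = Fam.card := by
      rw [hs]
      unfold ham
      exact card_filter_add_card_filter_not _
    have hsub : Fam' ⊆ Fam := filter_subset _ _
    have h4 := ih (N - 1) (by omega) (I.erase j) (fun l hl => hY l (mem_of_mem_erase hl))
      (fun l hl l' hl' => hsep l (mem_of_mem_erase hl) l' (mem_of_mem_erase hl')) Fam'
      (fun S hS l hl => hns S (hsub hS) l (mem_of_mem_erase hl)) (fun S hS => hD S (hsub hS)) (by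
        intro S hS S' hS' he
        refine htr S (hsub hS) S' (hsub hS') fun l hl => ?_
        by_cases hlj : l = j
        · subst hlj
          have e1 := he i (mem_erase.2 ⟨hne, hi⟩)
          have e2 := (mem_filter.1 hS).2
          have e3 := (mem_filter.1 hS').2
          rw [← hiff S (hsub hS) i hi, ← hiff S' (hsub hS') i hi] at e1
          rw [← hiff S (hsub hS) l hl, ← hiff S' (hsub hS') l hl]
          tauto
        · exact he l (mem_erase.2 ⟨hlj, hl⟩)) (by rw [card_erase_of_mem hj, hn])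
    have h5 : N - 1 + 1 = N := by omega
    rw [h5] at h4
    -- conclude
    have h6 : (2 * N - a) * Fam.card ≤ 2 * N * Fam'.card := by
      have e : a * Fam.card ≤ 2 * N * Fam.card := Nat.mul_le_mul_right _ (by omega)
      rw [Nat.sub_mul]
      have : 2 * N * Fam.card = 2 * N * Fam'.card + 2 * N * s := by rw [← h3]; ring
      omega
    have h7 := arith_step (N := N) (a := a) (by omega) (by omega)
    have h8 : (2 * N - a) * Fam.card ≤ (2 * N - a) * (2 * (N + 1)) ^ a := by
      calc (2 * N - a) * Fam.card ≤ 2 * N * Fam'.card := h6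
        _ ≤ 2 * N * (2 * N) ^ a := Nat.mul_le_mul_left _ h4
        _ ≤ _ := h7
    exact Nat.le_of_mul_le_mul_left h8 (by omega)

/-- Steiner version of Karger's bound, for a finite type of terminal sets. -/
theorem steiner_karger {V : Type} [Fintype V] [DecidableEq V] {G : SimpleGraph V}
    [DecidableRel G.Adj] {ι : Type} [Fintype ι] [DecidableEq ι] (Y : ι → Finset V)
    (hY : ∀ i, (Y i).Nonempty) {K D a : ℕ} (hK0 : 0 < K)
    (hsep : ∀ (X : Finset V) (i j : ι), Y i ⊆ X → Disjoint (Y j) X → K ≤ dd G X)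
    (F : Finset (Finset V)) (hns : ∀ S ∈ F, ∀ i, Y i ⊆ S ∨ Disjoint (Y i) S)
    (hinj : ∀ S ∈ F, ∀ S' ∈ F, (∀ i, Y i ⊆ S ↔ Y i ⊆ S') → S = S')
    (hD : ∀ S ∈ F, dd G S ≤ D) (ha : 8 * D ≤ a * K) (ha1 : 1 ≤ a) :
    F.card ≤ (2 * (Fintype.card ι + 1)) ^ a :=
  steiner_karger_finset G hK0 ha1 ha univ Y (fun i _ => hY i)
    (fun i _ j _ _ X h1 h2 => hsep X i j h1 h2) F (fun S hS i _ => hns S hS i) hD
    (fun S hS S' hS' h => hinj S hS S' hS' fun i => h i (mem_univ i))

end Pool.Agent.Log5
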