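import Mathlib
import Pool.Agent.Work.MP_974d84_co_log.Steiner
import Pool.Agent.Work.MP_974d84_co_log.Cluster

/-!
Counting small cuts by their traces on a vertex set.
-/

set_option linter.unusedSectionVars false

namespace Pool.Agent.Log5

open Finset SimpleGraph Pool.Agent.Exp

variable {V : Type} [Fintype V] [DecidableEq V] {G : SimpleGraph V} [DecidableRel G.Adj]

/-- Small cuts which are unions of classes of size at least `K` and have different traces. -/
theorem part_bound (h3 : ∀ v, G.degree v = 3) {K k : ℕ} (hc : CycConn G k) (hKk : K ≤ k)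
    (hK0 : 0 < K) (W : Finset V) (c : V → V)
    (hcK : ∀ x, K ≤ (univ.filter fun y => c y = c x).card) (F : Finset (Finset V))
    (hcl : ∀ S ∈ F, ∀ x y, c x = c y → (x ∈ S ↔ y ∈ S))
    (hinj : ∀ S ∈ F, ∀ S' ∈ F, (∀ v ∈ W, (v ∈ S ↔ v ∈ S')) → S = S') {D a : ℕ}
    (hD : ∀ S ∈ F, dd G S ≤ D) (ha : 8 * D ≤ a * K) (ha1 : 1 ≤ a) :
    F.card ≤ (2 * (W.card + 1)) ^ a := by
  classical
  have hcK' : ∀ z ∈ W.image c, K ≤ (univ.filter fun y => c y = z).card := by
    intro z hz
    obtain ⟨x, _, rfl⟩ := mem_image.1 hz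
    exact hcK x
  have h1 := steiner_karger_finset G (D := D) hK0 ha1 ha (W.image c)
    (fun z => univ.filter fun y => c y = z)
    (fun z hz => by
      rw [← card_pos]
      exact lt_of_lt_of_le hK0 (hcK' z hz))
    (fun z hz z' hz' _ X h1 h2 => by
      refine sep h3 hc hKk ?_ ?_ hK0
      · exact (hcK' z hz).trans (card_le_card h1)
      · refine (hcK' z' hz').trans (card_le_card ?_)
        intro v hv
        rw [mem_compl]
        exact fun hvX => (Finset.disjoint_left.1 h2) hv hvX)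
    F
    (fun S hS z hz => by
      obtain ⟨x, _, rfl⟩ := mem_image.1 hz
      by_cases hx : x ∈ S
      · left
        intro v hv
        rw [mem_filter] at hv
        exact (hcl S hS v x hv.2).2 hx
      · right
        rw [Finset.disjoint_left]
        intro v hv hvS
        rw [mem_filter] at hv
        exact hx ((hcl S hS v x hv.2).1 hvS))
    hD
    (fun S hS S' hS' h => by
      refine hinj S hS S' hS' fun v hv => ?_
      have e := h (c v) (mem_image_of_mem c hv)
      have key : ∀ S ∈ F, ((univ.filter fun y => c y = c v) ⊆ S ↔ v ∈ S) := by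
        intro S hS
        constructor
        · intro h'
          exact h' (mem_filter.2 ⟨mem_univ v, rfl⟩)
        · intro hv y hy
          rw [mem_filter] at hy
          exact (hcl S hS y v hy.2).2 hv
      rw [← key S hS, ← key S' hS']
      exact e)
  refine h1.trans (Nat.pow_le_pow_left ?_ a)
  have := card_image_le (s := W) (f := c)
  omega

/-- The statement of the cluster bound (module Cluster) for the cuts counted here. -/
theorem trace_bound_of (h3 : ∀ v, G.degree v = 3) {K k : ℕ} (hc : CycConn G k) (hKk : K ≤ k)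
    (hK0 : 0 < K) (W : Finset V) (F : Finset (Finset V))
    (hcluster : ∀ M : ℝ, 0 ≤ M →
      (∀ c : V → V, (∀ x, Joined G (univ.filter fun y => c y = c x)) →
        (∀ x, K ≤ (univ.filter fun y => c y = c x).card) →
        ∀ F' ⊆ F, (∀ S ∈ F', ∀ x y, c x = c y → (x ∈ S ↔ y ∈ S)) → (F'.card : ℝ) ≤ M) →
      ∑ S ∈ F, Real.exp (-(8 * (dd G S : ℝ))) ≤ M)
    (hinj : ∀ S ∈ F, ∀ S' ∈ F, (∀ v ∈ W, (v ∈ S ↔ v ∈ S')) → S = S') {D a : ℕ}
    (hD : ∀ S ∈ F, dd G S ≤ D) (ha : 8 * D ≤ a * K) (ha1 : 1 ≤ a) :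
    (F.card : ℝ) ≤ Real.exp (8 * D) * (2 * (W.card + 1)) ^ a := by
  have h1 := hcluster ((2 * (W.card + 1) : ℝ) ^ a) (by positivity) (by
    intro c _ hcK F' hF' hcl
    have := part_bound h3 hc hKk hK0 W c hcK F' hcl
      (fun S hS S' hS' => hinj S (hF' hS) S' (hF' hS')) (fun S hS => hD S (hF' hS)) ha ha1
    exact_mod_cast this)
  have h2 : (F.card : ℝ) * Real.exp (-(8 * (D : ℝ)))
      ≤ ∑ S ∈ F, Real.exp (-(8 * (dd G S : ℝ))) := by
    rw [← nsmul_eq_mul]
    refine card_nsmul_le_sum F _ _ fun S hS => ?_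
    rw [Real.exp_le_exp]
    have : (dd G S : ℝ) ≤ D := by exact_mod_cast hD S hS
    linarith
  have h3' := h2.trans h1
  rw [Real.exp_neg] at h3'
  have h4 : (0 : ℝ) < Real.exp (8 * D) := Real.exp_pos _
  rw [← div_eq_mul_inv, div_le_iff₀ h4] at h3'
  rw [mul_comm]
  exact h3'

/-- The number of cuts with at most `D` edges, both sides joined and of size at least `K`, with
different traces on `W`. -/
theorem trace_bound (h3 : ∀ v, G.degree v = 3) {K k : ℕ} (hc : CycConn G k) (hKk : K ≤ k)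
    (hK0 : 0 < K) (hg : Gir G K) (W : Finset V) (F : Finset (Finset V))
    (hF : ∀ S ∈ F, Big G K S)
    (hinj : ∀ S ∈ F, ∀ S' ∈ F, (∀ v ∈ W, (v ∈ S ↔ v ∈ S')) → S = S') {D a : ℕ}
    (hD : ∀ S ∈ F, dd G S ≤ D) (ha : 8 * D ≤ a * K) (ha1 : 1 ≤ a) :
    (F.card : ℝ) ≤ Real.exp (8 * D) * (2 * (W.card + 1)) ^ a :=
  trace_bound_of h3 hc hKk hK0 W F
    (fun _ hM0 hM => cluster h3 hg F hF hM0 hM) hinj hD ha ha1

end Pool.Agent.Log5
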