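import Mathlib
import Pool.Agent.Work.MP_974d84_co_log.Defs

/-!
# Small bonds contain few points of a scattered set
-/

set_option linter.unusedSectionVars false

namespace Pool.Agent.Log5

open Finset SimpleGraph Pool.Agent.Exp

variable {V : Type} [Fintype V] [DecidableEq V] {G : SimpleGraph V} [DecidableRel G.Adj]

/-- A scattered set has few points in a joined set. -/
theorem scattered_card {A T : Finset V} (hA : Joined G A) {n : ℕ}
    (hT : ∀ t ∈ T, ∀ u ∈ T, t ≠ u → Disjoint (Bl G.Adj n t) (Bl G.Adj n u)) :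
    (T ∩ A).card ≤ 1 ∨ (n + 1) * (T ∩ A).card ≤ A.card := by
  by_cases h : (T ∩ A).card ≤ 1
  · exact Or.inl h
  · right
    have hsub : ∀ t, Bl (RW G A) n t ⊆ Bl G.Adj n t := fun t =>
      Bl_rel (fun u v h => h.1) n t
    have hcard : ∀ t ∈ T ∩ A, n + 1 ≤ (Bl (RW G A) n t).card := by
      intro t ht
      rw [mem_inter] at ht
      refine Bl_grow hA ht.2 n fun hc => h ?_
      rw [card_le_one]
      have key : ∀ u ∈ T ∩ A, u = t := by
        intro u hu
        rw [mem_inter] at hu
        by_contra hne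
        exact disjoint_left.1 (hT u hu.1 t ht.1 hne) (Bl_self n u) (hsub t (hc hu.2))
      intro u hu v hv
      rw [key u hu, key v hv]
    have hdis : ((T ∩ A : Finset V) : Set V).PairwiseDisjoint fun t => Bl (RW G A) n t := by
      intro t ht u hu hne
      rw [mem_coe, mem_inter] at ht hu
      exact (hT t ht.1 u hu.1 hne).mono (hsub t) (hsub u)
    calc (n + 1) * (T ∩ A).card = ∑ _t ∈ T ∩ A, (n + 1) := by
          rw [sum_const, smul_eq_mul, mul_comm]
      _ ≤ ∑ t ∈ T ∩ A, (Bl (RW G A) n t).card := sum_le_sum hcard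
      _ = ((T ∩ A).biUnion fun t => Bl (RW G A) n t).card := (card_biUnion hdis).symm
      _ ≤ A.card := card_le_card <| by
          rw [biUnion_subset]
          intro t ht
          exact Bl_RW_sub (mem_inter.1 ht).2 n

/-- A bond with fewer than `k` edges has a side with few points of a scattered set. -/
theorem small_bond (h3 : ∀ v, G.degree v = 3) {k : ℕ} (hc : CycConn G k) (T : Finset V)
    (hT : ∀ u ∈ T, ∀ v ∈ T, u ≠ v → Disjoint (Bl G.Adj 5 u) (Bl G.Adj 5 v)) {S : Finset V}
    (hS : Bond G S) (hk : dd G S < k) : ∃ A : Finset V, (A = S ∨ A = Sᶜ) ∧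
      ((T ∩ A).card ≤ 1 ∨ 5 * (T ∩ A).card ≤ dd G S) := by
  obtain ⟨j1, j2, n1, n2⟩ := hS
  by_cases a1 : (G.induce (S : Set V)).IsAcyclic
  · have h1 := dd_of_acyclic G h3 n1 a1
    refine ⟨S, Or.inl rfl, ?_⟩
    rcases scattered_card j1 hT with h | h
    · exact Or.inl h
    · right; omega
  · by_cases a2 : (G.induce ((Sᶜ : Finset V) : Set V)).IsAcyclic
    · have h1 := dd_of_acyclic G h3 n2 a2
      rw [dd_compl] at h1
      refine ⟨Sᶜ, Or.inr rfl, ?_⟩
      rcases scattered_card j2 hT with h | h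
      · exact Or.inl h
      · right; omega
    · exact absurd (hc S a1 a2) (by omega)

end Pool.Agent.Log5
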