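import Mathlib
import Pool.Agent.Work.MP_974d84_co_log.Defs

/-!
# Binary trees at the vertices of a cubic graph of large girth
-/

set_option linter.unusedSectionVars false

namespace Pool.Agent.Log5

open Finset SimpleGraph Pool.Agent.Exp

/-- A non-backtracking sequence in a forest is not closed. -/
theorem nonback_ne {W : Type} {H : SimpleGraph W} (hH : H.IsAcyclic) (x : ℕ → W) (n : ℕ)
    (hadj : ∀ i < n, H.Adj (x i) (x (i + 1))) (hnb : ∀ i, i + 1 < n → x i ≠ x (i + 2))
    (hn : 0 < n) : x 0 ≠ x n := by
  have key : ∀ m ≤ n, ∃ p : H.Walk (x 0) (x m),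
      p.edges = (List.range m).map fun i => s(x i, x (i + 1)) := by
    intro m hm
    induction m with
    | zero => exact ⟨Walk.nil, by simp⟩
    | succ m ih =>
      obtain ⟨p, hp⟩ := ih (by omega)
      refine ⟨p.concat (hadj m (by omega)), ?_⟩
      rw [Walk.edges_concat, hp, List.range_succ, List.map_append]
      simp
  obtain ⟨p, hp⟩ := key n le_rfl
  have hpath : p.IsPath := by
    rw [hH.isPath_iff_isChain, hp, List.isChain_iff_getElem]
    intro i hi
    simp only [List.length_map, List.length_range] at hi
    simp only [List.getElem_map, List.getElem_range]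
    intro h
    rw [Sym2.eq_iff] at h
    rcases h with ⟨h1, h2⟩ | ⟨h1, -⟩
    · exact (hadj i (by omega)).ne h1
    · exact hnb i (by omega) h1
  intro h0
  have hlen : p.length = n := by
    rw [← Walk.length_edges, hp]; simp
  have h1 : p.getVert 0 = p.getVert p.length := by
    rw [Walk.getVert_zero, Walk.getVert_length]; exact h0
  have := hpath.getVert_injOn (by simp) (by simp) h1
  omega

/-- The same inside a small set of vertices. -/
theorem nonback_ne_of_gir {V : Type} [Fintype V] [DecidableEq V] {G : SimpleGraph V}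
    [DecidableRel G.Adj] {k : ℕ} (hg : Gir G k) (x : ℕ → V) (n : ℕ) (hnk : n + 1 < k)
    (hadj : ∀ i < n, G.Adj (x i) (x (i + 1))) (hnb : ∀ i, i + 1 < n → x i ≠ x (i + 2))
    (hn : 0 < n) : x 0 ≠ x n := by
  set A : Finset V := (range (n + 1)).image x with hA
  have hac := hg A (lt_of_le_of_lt (card_image_le.trans (by rw [card_range])) hnk)
  have hx : ∀ i ≤ n, x i ∈ (A : Set V) := fun i hi => by
    rw [mem_coe, hA, mem_image]; exact ⟨i, by rw [mem_range]; omega, rfl⟩
  let y : ℕ → (A : Set V) := fun i => if h : i ≤ n then ⟨x i, hx i h⟩ else ⟨x 0, hx 0 (by omega)⟩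
  have hy : ∀ i ≤ n, (y i : V) = x i := fun i hi => by simp only [y, dif_pos hi]
  have h := nonback_ne hac y n
    (fun i hi => by
      rw [SimpleGraph.comap_adj]
      show G.Adj (y i : V) (y (i + 1) : V)
      rw [hy i (by omega), hy (i + 1) (by omega)]
      exact hadj i hi)
    (fun i hi h => by
      have : (y i : V) = (y (i + 2) : V) := congrArg (fun z : (A : Set V) => (z : V)) h
      rw [hy i (by omega), hy (i + 2) (by omega)] at this
      exact hnb i hi this) hn
  intro h0
  exact h (Subtype.ext (by rw [hy 0 (by omega), hy n le_rfl]; exact h0))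

variable {V : Type} [Fintype V] [DecidableEq V] {G : SimpleGraph V} [DecidableRel G.Adj]

theorem exists_next (h3 : ∀ v, G.degree v = 3) (x y : V) :
    ∃ f : Bool → V, (∀ b, G.Adj x (f b) ∧ f b ≠ y) ∧ f true ≠ f false := by
  have h : 1 < ((G.neighborFinset x).erase y).card := by
    have := pred_card_le_card_erase (s := G.neighborFinset x) (a := y)
    rw [card_neighborFinset_eq_degree, h3] at this
    omega
  rw [one_lt_card] at h
  obtain ⟨a, ha, b, hb, hab⟩ := h
  rw [mem_erase, mem_neighborFinset] at ha hb
  refine ⟨fun c => if c then a else b, fun c => ?_, by simpa using hab⟩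
  cases c
  · exact ⟨by simpa using hb.2, by simpa using hb.1⟩
  · exact ⟨by simpa using ha.2, by simpa using ha.1⟩

/-- State: current vertex and the vertex before it. -/
def st (nx : V → V → Bool → V) (v : V) : List Bool → V × V
  | [] => (v, v)
  | b :: c => (nx (st nx v c).1 (st nx v c).2 b, (st nx v c).1)

theorem exists_tree (h3 : ∀ v, G.degree v = 3) {R : ℕ} (hg : Gir G (2 * R + 2)) :
    ∃ θ : V → List Bool → V, IsTree G R θ := by
  choose nx hnx hne using fun x y => exists_next h3 x y
  set θ : V → List Bool → V := fun v c => (st nx v c).1 with hθ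
  have hnil : ∀ v, θ v [] = v := fun v => rfl
  have hadj : ∀ v b c, G.Adj (θ v c) (θ v (b :: c)) := fun v b c => (hnx _ _ b).1
  have hback : ∀ v b b' c, θ v (b :: b' :: c) ≠ θ v c := fun v b b' c => (hnx _ _ b).2
  have hbr : ∀ v b b' c, b ≠ b' → θ v (b :: c) ≠ θ v (b' :: c) := by
    intro v b b' c hbb
    have h1 := hne (st nx v c).1 (st nx v c).2
    cases b <;> cases b' <;> first | exact absurd rfl hbb | exact h1 | exact h1.symm
  have hdrop : ∀ (c : List Bool) i (hi : i < c.length), ∃ b, c.drop i = b :: c.drop (i + 1) :=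
    fun c i hi => ⟨c.get ⟨i, hi⟩, List.drop_eq_getElem_cons hi⟩
  refine ⟨θ, hnil, hadj, ?_, ?_⟩
  · intro v c
    induction c with
    | nil => exact mem_Bl_zero.2 rfl
    | cons b c ih => exact mem_Bl_succ.2 (Or.inr ⟨_, ih, hadj v b c⟩)
  · intro v c c' hc hc' h
    by_contra hcc
    -- the longest common end of `c` and `c'`
    have hP0 : c.drop (c.length - 0) = c'.drop (c'.length - 0) := by simp
    obtain ⟨s, hs1, hs2, hs3, hs4⟩ : ∃ s, s ≤ c.length ∧ s ≤ c'.length ∧
        c.drop (c.length - s) = c'.drop (c'.length - s) ∧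
        ∀ s', s < s' → s' ≤ c.length → s' ≤ c'.length →
          c.drop (c.length - s') ≠ c'.drop (c'.length - s') := by
      let P : ℕ → Prop := fun s => s ≤ c.length ∧ s ≤ c'.length ∧
        c.drop (c.length - s) = c'.drop (c'.length - s)
      have h0 : P 0 := ⟨Nat.zero_le _, Nat.zero_le _, hP0⟩
      classical
      refine ⟨Nat.findGreatest P c.length, ?_⟩
      have h1 : P (Nat.findGreatest P c.length) := Nat.findGreatest_spec (Nat.zero_le _) h0
      refine ⟨h1.1, h1.2.1, h1.2.2, fun s' h2 h3 h4 h5 => ?_⟩
      exact Nat.findGreatest_is_greatest h2 h3 ⟨h3, h4, h5⟩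
    set n := c.length with hn
    set n' := c'.length with hn'
    let x : ℕ → V := fun i => if i ≤ n - s then θ v (c.drop i) else
      θ v (c'.drop (n' - s - (i - (n - s))))
    have hx1 : ∀ i, i ≤ n - s → x i = θ v (c.drop i) := fun i hi => by simp only [x, if_pos hi]
    have hx2 : ∀ i, n - s ≤ i → x i = θ v (c'.drop (n' - s - (i - (n - s)))) := by
      intro i hi
      rcases Nat.lt_or_ge (n - s) i with h1 | h1
      · simp only [x]; rw [if_neg (by omega)]
      · have : i = n - s := by omega
        subst this
        simp only [x]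
        rw [if_pos le_rfl, hs3, Nat.sub_self, Nat.sub_zero]
    have hN : 0 < (n - s) + (n' - s) := by
      by_contra h0
      apply hcc
      have e1 : n - s = 0 := by omega
      have e2 : n' - s = 0 := by omega
      rw [e1, e2, List.drop_zero, List.drop_zero] at hs3
      exact hs3
    refine nonback_ne_of_gir hg x ((n - s) + (n' - s)) (by omega) ?_ ?_ hN ?_
    · intro i hi
      rcases Nat.lt_or_ge i (n - s) with h1 | h1
      · rw [hx1 i h1.le, hx1 (i + 1) h1]
        obtain ⟨b, hb⟩ := hdrop c i (by omega)
        rw [hb]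
        exact (hadj v b _).symm
      · rw [hx2 i h1, hx2 (i + 1) (by omega)]
        obtain ⟨b, hb⟩ := hdrop c' (n' - s - (i + 1 - (n - s))) (by omega)
        rw [hb, show n' - s - (i + 1 - (n - s)) + 1 = n' - s - (i - (n - s)) by omega]
        exact hadj v b _
    · intro i hi
      rcases Nat.lt_trichotomy (i + 1) (n - s) with h1 | h1 | h1
      · rw [hx1 i (by omega), hx1 (i + 2) (by omega)]
        obtain ⟨b, hb⟩ := hdrop c i (by omega)
        obtain ⟨b', hb'⟩ := hdrop c (i + 1) (by omega)
        rw [hb, hb']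
        exact hback v b b' _
      · rw [hx1 i (by omega), hx2 (i + 2) (by omega)]
        obtain ⟨b, hb⟩ := hdrop c i (by omega)
        obtain ⟨b', hb'⟩ := hdrop c' (n' - s - 1) (by omega)
        rw [show n' - s - (i + 2 - (n - s)) = n' - s - 1 by omega, hb, hb', h1,
          show n' - s - 1 + 1 = n' - s by omega, ← hs3]
        refine hbr v b b' _ fun hbb => ?_
        refine hs4 (s + 1) (by omega) (by omega) (by omega) ?_
        rw [show n - (s + 1) = i by omega, show n' - (s + 1) = n' - s - 1 by omega, hb, hb', h1,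
          show n' - s - 1 + 1 = n' - s by omega, ← hs3, hbb]
      · rw [hx2 i (by omega), hx2 (i + 2) (by omega)]
        obtain ⟨b, hb⟩ := hdrop c' (n' - s - (i + 2 - (n - s))) (by omega)
        obtain ⟨b', hb'⟩ := hdrop c' (n' - s - (i + 2 - (n - s)) + 1) (by omega)
        rw [hb, hb', show n' - s - (i + 2 - (n - s)) + 1 + 1 = n' - s - (i - (n - s)) by omega]
        exact (hback v b b' _).symm
    · rw [hx1 0 (by omega), hx2 ((n - s) + (n' - s)) (by omega),
        show n' - s - ((n - s) + (n' - s) - (n - s)) = 0 by omega, List.drop_zero,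
        List.drop_zero]
      exact h

end Pool.Agent.Log5
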