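import Mathlib

/-!
# Choosing one element in every block: the local version (Rosenfeld's counting)
-/

set_option linter.unusedSectionVars false

namespace Pool.Agent.Log5

open Finset

section
variable {I A : Type} [Fintype I] [DecidableEq I] [Fintype A] [DecidableEq A] {Λ : Type}

open Classical in
/-- The choices on `J` which meet all the dirty sets rarely. -/
noncomputable def goodOn (L : Finset Λ) (F : Λ → Finset (Finset (I × A))) (m : Λ → ℕ) (b : I → A)
    (J : Finset I) : Finset (I → A) :=
  univ.filter fun a => (∀ i, i ∉ J → a i = b i) ∧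
    ∀ l ∈ L, ∀ X ∈ F l, (J.filter fun i => (i, a i) ∈ X).card < m l

theorem mem_goodOn {L : Finset Λ} {F : Λ → Finset (Finset (I × A))} {m : Λ → ℕ} {b : I → A}
    {J : Finset I} {a : I → A} : a ∈ goodOn L F m b J ↔ (∀ i, i ∉ J → a i = b i) ∧
    ∀ l ∈ L, ∀ X ∈ F l, (J.filter fun i => (i, a i) ∈ X).card < m l := by
  simp [goodOn]

/-- Forgetting the values on `K`. -/
def forget (b : I → A) (K : Finset I) (a : I → A) : I → A := fun i => if i ∈ K then b i else a i

theorem forget_good {L : Finset Λ} {F : Λ → Finset (Finset (I × A))} {m : Λ → ℕ} {b : I → A}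
    {J J' K : Finset I} {a : I → A} (h1 : ∀ i, i ∉ J → a i = b i)
    (h2 : ∀ l ∈ L, ∀ X ∈ F l, (J'.filter fun i => (i, a i) ∈ X).card < m l)
    (hJ : J \ K ⊆ J') : forget b K a ∈ goodOn L F m b (J \ K) := by
  rw [mem_goodOn]
  constructor
  · intro i hi
    unfold forget
    by_cases hK : i ∈ K
    · rw [if_pos hK]
    · rw [if_neg hK]
      exact h1 i fun h => hi (mem_sdiff.2 ⟨h, hK⟩)
  · intro l hl X hX
    refine lt_of_le_of_lt (card_le_card ?_) (h2 l hl X hX)
    intro i hi
    rw [mem_filter] at hi ⊢
    have hK := (mem_sdiff.1 hi.1).2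
    refine ⟨hJ hi.1, ?_⟩
    have := hi.2
    unfold forget at this
    rwa [if_neg hK] at this

theorem goodOn_chain {L : Finset Λ} {F : Λ → Finset (Finset (I × A))} {m : Λ → ℕ} {b : I → A}
    {J : Finset I}
    (ih : ∀ J₁ ⊆ J, ∀ i ∈ J₁, Fintype.card A * (goodOn L F m b (J₁.erase i)).card
      ≤ 2 * (goodOn L F m b J₁).card) (K : Finset I) (hK : K ⊆ J) :
    Fintype.card A ^ K.card * (goodOn L F m b (J \ K)).card
      ≤ 2 ^ K.card * (goodOn L F m b J).card := by
  induction K using Finset.induction_on with
  | empty => simp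
  | @insert i K hi ihK =>
    have h1 := ihK ((subset_insert i K).trans hK)
    have h2 := ih (J \ K) sdiff_subset i (mem_sdiff.2 ⟨hK (mem_insert_self i K), hi⟩)
    have h3 : (J \ K).erase i = J \ insert i K := by
      ext x
      simp only [mem_erase, mem_sdiff, mem_insert]
      tauto
    rw [h3] at h2
    rw [card_insert_of_notMem hi, pow_succ, pow_succ]
    calc Fintype.card A ^ K.card * Fintype.card A * (goodOn L F m b (J \ insert i K)).card
        = Fintype.card A ^ K.card *
          (Fintype.card A * (goodOn L F m b (J \ insert i K)).card) := by ring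
      _ ≤ Fintype.card A ^ K.card * (2 * (goodOn L F m b (J \ K)).card) :=
          Nat.mul_le_mul_left _ h2
      _ = 2 * (Fintype.card A ^ K.card * (goodOn L F m b (J \ K)).card) := by ring
      _ ≤ 2 * (2 ^ K.card * (goodOn L F m b J).card) := Nat.mul_le_mul_left _ h1
      _ = _ := by ring

theorem goodOn_step [Nonempty A] {L : Finset Λ} {F : Λ → Finset (Finset (I × A))}
    {D m : Λ → ℕ} (hF : ∀ l ∈ L, ∀ X ∈ F l, X.card ≤ D l) (b : I → A) (hm : ∀ l ∈ L, 1 ≤ m l)
    (hs : ∀ i : I, ∑ l ∈ L, (((F l).filter fun X => ∃ a, (i, a) ∈ X).card : ℝ) * 2 ^ D l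
      * (2 / (Fintype.card A : ℝ)) ^ m l ≤ 1) (n : ℕ) :
    ∀ J : Finset I, J.card = n → ∀ i ∈ J,
      Fintype.card A * (goodOn L F m b (J.erase i)).card ≤ 2 * (goodOn L F m b J).card := by
  classical
  induction n using Nat.strong_induction_on with
  | _ n ih =>
    intro J hJ i hi
    have hq : (0 : ℝ) < Fintype.card A := by exact_mod_cast Fintype.card_pos
    set J' := J.erase i with hJ'
    have hJ'c : J'.card < n := by
      rw [hJ', card_erase_of_mem hi]
      have : 0 < J.card := card_pos.2 ⟨i, hi⟩
      omega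
    set P := goodOn L F m b J' with hP
    -- all the extensions
    set E : Finset (I → A) := univ.filter fun a => (∀ j, j ∉ J → a j = b j) ∧
      ∀ l ∈ L, ∀ X ∈ F l, (J'.filter fun j => (j, a j) ∈ X).card < m l with hE
    have hEm : ∀ a, a ∈ E ↔ (∀ j, j ∉ J → a j = b j) ∧
        ∀ l ∈ L, ∀ X ∈ F l, (J'.filter fun j => (j, a j) ∈ X).card < m l := by
      intro a; simp [hE]
    have hEc : Fintype.card A * P.card ≤ E.card := by
      have h1 : Fintype.card A * P.card = (P ×ˢ (univ : Finset A)).card := by
        rw [card_product, card_univ, mul_comm]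
      rw [h1]
      refine card_le_card_of_injOn (fun x => Function.update x.1 i x.2) ?_ ?_
      · rintro ⟨a, x⟩ hax
        have ha := (mem_product.1 hax).1
        rw [hP, mem_goodOn] at ha
        simp only [mem_coe]
        rw [hEm]
        constructor
        · intro j hj
          have hji : j ≠ i := fun h => hj (h ▸ hi)
          simp only [Function.update_of_ne hji]
          exact ha.1 j fun h => hj (mem_of_mem_erase h)
        · intro l hl X hX
          refine lt_of_le_of_lt (card_le_card ?_) (ha.2 l hl X hX)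
          intro j hj
          rw [mem_filter] at hj ⊢
          refine ⟨hj.1, ?_⟩
          have hji : j ≠ i := (mem_erase.1 hj.1).1
          have := hj.2
          simpa only [Function.update_of_ne hji] using this
      · rintro ⟨a, x⟩ hax ⟨a', x'⟩ hax' he
        have ha := (mem_goodOn.1 (mem_product.1 hax).1).1 i (notMem_erase i J)
        have ha' := (mem_goodOn.1 (mem_product.1 hax').1).1 i (notMem_erase i J)
        simp only at he ha ha'
        have hx : x = x' := by
          have := congrFun he i
          simpa using this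
        have haa : a = a' := by
          funext j
          by_cases hji : j = i
          · subst hji
            rw [ha, ha']
          · have := congrFun he j
            simpa only [Function.update_of_ne hji] using this
        rw [hx, haa]
    -- the bad extensions
    have hcov : E ⊆ goodOn L F m b J ∪ L.biUnion fun l =>
        ((F l).filter fun X => ∃ a, (i, a) ∈ X).biUnion fun X =>
          (X.powersetCard (m l)).biUnion fun Y => E.filter fun a =>
            (∀ p ∈ Y, a p.1 = p.2) ∧ i ∈ Y.image Prod.fst ∧ Y.image Prod.fst ⊆ J := by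
      intro a ha
      rw [mem_union]
      by_cases hg : a ∈ goodOn L F m b J
      · exact Or.inl hg
      right
      have haE := (hEm a).1 ha
      rw [mem_goodOn] at hg
      push Not at hg
      obtain ⟨l, hl, X, hX, hlt⟩ := hg haE.1
      have h1 := haE.2 l hl X hX
      have hins : J.filter (fun j => (j, a j) ∈ X) ⊆
          insert i (J'.filter fun j => (j, a j) ∈ X) := by
        intro j hj
        rw [mem_filter] at hj
        rw [mem_insert, mem_filter]
        by_cases hji : j = i
        · exact Or.inl hji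
        · exact Or.inr ⟨mem_erase.2 ⟨hji, hj.1⟩, hj.2⟩
      have hiX : (i, a i) ∈ X := by
        by_contra hiX
        have hsub : J.filter (fun j => (j, a j) ∈ X) ⊆ J'.filter fun j => (j, a j) ∈ X := by
          intro j hj
          rw [mem_filter] at hj ⊢
          have hji : j ≠ i := fun h => hiX (h ▸ hj.2)
          exact ⟨mem_erase.2 ⟨hji, hj.1⟩, hj.2⟩
        have := card_le_card hsub
        omega
      have hcard : (J.filter fun j => (j, a j) ∈ X).card = m l := by
        have h2 := card_le_card hins
        have h3 := card_insert_le i (J'.filter fun j => (j, a j) ∈ X)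
        omega
      rw [mem_biUnion]
      refine ⟨l, hl, ?_⟩
      rw [mem_biUnion]
      refine ⟨X, mem_filter.2 ⟨hX, a i, hiX⟩, ?_⟩
      rw [mem_biUnion]
      refine ⟨(J.filter fun j => (j, a j) ∈ X).image fun j => (j, a j), ?_, ?_⟩
      · rw [mem_powersetCard]
        constructor
        · intro p hp
          obtain ⟨j, hj, rfl⟩ := mem_image.1 hp
          exact (mem_filter.1 hj).2
        · rw [card_image_of_injective _ (fun j j' h => (Prod.ext_iff.1 h).1), hcard]
      · rw [mem_filter]
        refine ⟨ha, ?_, ?_, ?_⟩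
        · intro p hp
          obtain ⟨j, hj, rfl⟩ := mem_image.1 hp
          rfl
        · rw [mem_image]
          exact ⟨(i, a i), mem_image_of_mem _ (mem_filter.2 ⟨hi, hiX⟩), rfl⟩
        · intro j hj
          obtain ⟨p, hp, rfl⟩ := mem_image.1 hj
          obtain ⟨j', hj', rfl⟩ := mem_image.1 hp
          exact (mem_filter.1 hj').1
    -- the count for one `Y`
    have hone : ∀ l ∈ L, ∀ Y : Finset (I × A), Y.card = m l → ((E.filter fun a =>
        (∀ p ∈ Y, a p.1 = p.2) ∧ i ∈ Y.image Prod.fst ∧ Y.image Prod.fst ⊆ J).card : ℝ)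
        ≤ (2 / (Fintype.card A : ℝ)) ^ (m l - 1) * P.card := by
      intro l hl Y hY
      rcases (E.filter fun a =>
        (∀ p ∈ Y, a p.1 = p.2) ∧ i ∈ Y.image Prod.fst ∧ Y.image Prod.fst ⊆ J).eq_empty_or_nonempty
        with h0 | ⟨a₀, ha₀⟩
      · rw [h0, card_empty, Nat.cast_zero]
        positivity
      rw [mem_filter] at ha₀
      obtain ⟨-, ha1, hiY, hYJ⟩ := ha₀
      have hinj : Set.InjOn Prod.fst (Y : Set (I × A)) := by
        intro p hp p' hp' he
        ext
        · exact he
        · rw [← ha1 p hp, ← ha1 p' hp', he]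
      set K := Y.image Prod.fst with hK
      have hKc : K.card = m l := by rw [hK, card_image_of_injOn hinj, hY]
      have h1 : (E.filter fun a =>
          (∀ p ∈ Y, a p.1 = p.2) ∧ i ∈ K ∧ K ⊆ J).card
          ≤ (goodOn L F m b (J \ K)).card := by
        refine card_le_card_of_injOn (forget b K) ?_ ?_
        · intro a ha
          rw [mem_coe, mem_filter] at ha
          have haE := (hEm a).1 ha.1
          refine forget_good haE.1 haE.2 ?_
          intro j hj
          rw [mem_sdiff] at hj
          exact mem_erase.2 ⟨fun h => hj.2 (h ▸ hiY), hj.1⟩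
        · intro a ha a' ha' he
          rw [mem_coe, mem_filter] at ha ha'
          funext j
          by_cases hj : j ∈ K
          · obtain ⟨p, hp, rfl⟩ := mem_image.1 hj
            rw [ha.2.1 p hp, ha'.2.1 p hp]
          · have := congrFun he j
            unfold forget at this
            rwa [if_neg hj, if_neg hj] at this
      have h2 : Fintype.card A ^ (K.erase i).card * (goodOn L F m b (J' \ (K.erase i))).card
          ≤ 2 ^ (K.erase i).card * (goodOn L F m b J').card := by
        refine goodOn_chain ?_ (K.erase i) ?_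
        · intro J₁ hJ₁ i₁ hi₁
          exact ih J₁.card (lt_of_le_of_lt (card_le_card hJ₁) hJ'c) J₁ rfl i₁ hi₁
        · intro j hj
          rw [mem_erase] at hj
          exact mem_erase.2 ⟨hj.1, hYJ hj.2⟩
      have h3 : J' \ (K.erase i) = J \ K := by
        ext j
        simp only [hJ', mem_sdiff, mem_erase]
        constructor
        · rintro ⟨⟨h4, h5⟩, h6⟩
          exact ⟨h5, fun h7 => h6 ⟨h4, h7⟩⟩
        · rintro ⟨h4, h5⟩
          exact ⟨⟨fun h6 => h5 (h6 ▸ hiY), h4⟩, fun h6 => h5 h6.2⟩
      have h4 : (K.erase i).card = m l - 1 := by rw [card_erase_of_mem hiY, hKc]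
      rw [h3, h4] at h2
      have h5 : ((goodOn L F m b (J \ K)).card : ℝ)
          ≤ (2 / (Fintype.card A : ℝ)) ^ (m l - 1) * P.card := by
        rw [div_pow, div_mul_eq_mul_div, le_div_iff₀ (by positivity)]
        have : ((Fintype.card A ^ (m l - 1) * (goodOn L F m b (J \ K)).card : ℕ) : ℝ)
            ≤ ((2 ^ (m l - 1) * (goodOn L F m b J').card : ℕ) : ℝ) := by exact_mod_cast h2
        push_cast at this
        rw [mul_comm]
        exact this
      exact le_trans (by exact_mod_cast h1) h5
    have hbad : ((L.biUnion fun l =>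
        ((F l).filter fun X => ∃ a, (i, a) ∈ X).biUnion fun X =>
          (X.powersetCard (m l)).biUnion fun Y => E.filter fun a =>
            (∀ p ∈ Y, a p.1 = p.2) ∧ i ∈ Y.image Prod.fst ∧ Y.image Prod.fst ⊆ J).card : ℝ)
        ≤ (Fintype.card A : ℝ) / 2 * P.card := by
      have h1 : ((L.biUnion fun l =>
        ((F l).filter fun X => ∃ a, (i, a) ∈ X).biUnion fun X =>
          (X.powersetCard (m l)).biUnion fun Y => E.filter fun a =>
            (∀ p ∈ Y, a p.1 = p.2) ∧ i ∈ Y.image Prod.fst ∧ Y.image Prod.fst ⊆ J).card : ℝ)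
          ≤ ∑ l ∈ L, ∑ X ∈ (F l).filter (fun X => ∃ a, (i, a) ∈ X),
            ∑ Y ∈ X.powersetCard (m l), ((E.filter fun a =>
            (∀ p ∈ Y, a p.1 = p.2) ∧ i ∈ Y.image Prod.fst ∧ Y.image Prod.fst ⊆ J).card : ℝ) := by
        have := card_biUnion_le (s := L) (t := fun l =>
          ((F l).filter fun X => ∃ a, (i, a) ∈ X).biUnion fun X =>
          (X.powersetCard (m l)).biUnion fun Y => E.filter fun a =>
            (∀ p ∈ Y, a p.1 = p.2) ∧ i ∈ Y.image Prod.fst ∧ Y.image Prod.fst ⊆ J)
        have h2 := this.trans (sum_le_sum fun l _ => card_biUnion_le.trans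
          (sum_le_sum fun X _ => card_biUnion_le))
        exact_mod_cast h2
      refine h1.trans ?_
      have h2 : ∀ l ∈ L, ∑ X ∈ (F l).filter (fun X => ∃ a, (i, a) ∈ X),
            ∑ Y ∈ X.powersetCard (m l), ((E.filter fun a =>
            (∀ p ∈ Y, a p.1 = p.2) ∧ i ∈ Y.image Prod.fst ∧ Y.image Prod.fst ⊆ J).card : ℝ)
          ≤ ((Fintype.card A : ℝ) / 2 * P.card) *
            ((((F l).filter fun X => ∃ a, (i, a) ∈ X).card : ℝ) * 2 ^ D l
              * (2 / (Fintype.card A : ℝ)) ^ m l) := by
        intro l hl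
        have h3 : ∀ X ∈ (F l).filter (fun X => ∃ a, (i, a) ∈ X),
            ∑ Y ∈ X.powersetCard (m l), ((E.filter fun a =>
            (∀ p ∈ Y, a p.1 = p.2) ∧ i ∈ Y.image Prod.fst ∧ Y.image Prod.fst ⊆ J).card : ℝ)
            ≤ 2 ^ D l * ((2 / (Fintype.card A : ℝ)) ^ (m l - 1) * P.card) := by
          intro X hX
          refine (sum_le_sum fun Y hY => hone l hl Y (mem_powersetCard.1 hY).2).trans ?_
          rw [sum_const, nsmul_eq_mul, card_powersetCard]
          refine mul_le_mul_of_nonneg_right ?_ (by positivity)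
          have h4 : (X.card).choose (m l) ≤ 2 ^ D l :=
            (Nat.choose_le_two_pow _ _).trans
              (Nat.pow_le_pow_right (by norm_num) (hF l hl X (mem_filter.1 hX).1))
          exact_mod_cast h4
        refine (sum_le_sum h3).trans (le_of_eq ?_)
        rw [sum_const, nsmul_eq_mul]
        obtain ⟨k, hk⟩ := Nat.exists_eq_add_of_le (hm l hl)
        rw [hk, Nat.add_sub_cancel_left, pow_add, pow_one]
        field_simp
      refine (sum_le_sum h2).trans ?_
      rw [← mul_sum]
      exact mul_le_of_le_one_right (by positivity) (hs i)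
    have hfin : (E.card : ℝ) ≤ (goodOn L F m b J).card + (Fintype.card A : ℝ) / 2 * P.card := by
      have h1 := (card_le_card hcov).trans (card_union_le _ _)
      have h2 : (E.card : ℝ) ≤ ((goodOn L F m b J).card : ℝ) + ((L.biUnion fun l =>
        ((F l).filter fun X => ∃ a, (i, a) ∈ X).biUnion fun X =>
          (X.powersetCard (m l)).biUnion fun Y => E.filter fun a =>
            (∀ p ∈ Y, a p.1 = p.2) ∧ i ∈ Y.image Prod.fst ∧ Y.image Prod.fst ⊆ J).card : ℝ) := by
        exact_mod_cast h1
      linarith
    have hEr : (Fintype.card A : ℝ) * P.card ≤ E.card := by exact_mod_cast hEc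
    have : (Fintype.card A : ℝ) * P.card ≤ 2 * (goodOn L F m b J).card := by linarith
    exact_mod_cast this

/-- One element in every block so that no dirty set is met often; local condition. -/
theorem choose_local [Nonempty A] (L : Finset Λ) (F : Λ → Finset (Finset (I × A)))
    (D m : Λ → ℕ) (hm : ∀ l ∈ L, 1 ≤ m l) (hF : ∀ l ∈ L, ∀ X ∈ F l, X.card ≤ D l)
    (hs : ∀ i : I, ∑ l ∈ L, (((F l).filter fun X => ∃ a, (i, a) ∈ X).card : ℝ) * 2 ^ D l
      * (2 / (Fintype.card A : ℝ)) ^ m l ≤ 1) :
    ∃ a : I → A, ∀ l ∈ L, ∀ X ∈ F l, (univ.filter fun i => (i, a i) ∈ X).card < m l := by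
  classical
  obtain ⟨x⟩ := ‹Nonempty A›
  have : Nonempty A := ⟨x⟩
  let b : I → A := fun _ => x
  have hstep := goodOn_step hF b hm hs
  have h1 := goodOn_chain (L := L) (F := F) (m := m) (b := b) (J := univ)
    (fun J₁ _ i hi => hstep J₁.card J₁ rfl i hi) univ (subset_refl _)
  rw [sdiff_self] at h1
  have h2 : b ∈ goodOn L F m b ∅ := by
    rw [mem_goodOn]
    refine ⟨fun _ _ => rfl, fun l hl X _ => ?_⟩
    rw [filter_empty, card_empty]
    exact hm l hl
  have h3 : 0 < (goodOn L F m b ∅).card := card_pos.2 ⟨b, h2⟩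
  have h4 : 0 < Fintype.card A ^ (univ : Finset I).card * (goodOn L F m b ∅).card :=
    Nat.mul_pos (pow_pos Fintype.card_pos _) h3
  have h5 : 0 < (goodOn L F m b univ).card := by
    have h6 := lt_of_lt_of_le h4 h1
    exact Nat.pos_of_mul_pos_left h6
  obtain ⟨a, ha⟩ := card_pos.1 h5
  rw [mem_goodOn] at ha
  exact ⟨a, ha.2⟩

end

end Pool.Agent.Log5
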