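import Mathlib
import Pool.Agent.Work.MP_974d84_co_log.Defs

/-!
# Independent transversals by counting (Rosenfeld), and far apart candidates
-/

set_option linter.unusedSectionVars false

namespace Pool.Agent.Log5

open Finset SimpleGraph Pool.Agent.Exp

section Rosenfeld

variable {V ι : Type*} [DecidableEq V] [DecidableEq ι] [Fintype ι]

open Classical in
/-- Conflict-free transversals of the classes with index in `s`. -/
noncomputable def tv (conf : V → V → Prop) (C : ι → Finset V) (x0 : ι → V) (s : Finset ι) :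
    Finset (ι → V) :=
  (Fintype.piFinset fun i => if i ∈ s then C i else {x0 i}).filter
    fun x => ∀ i ∈ s, ∀ j ∈ s, i ≠ j → ¬ conf (x i) (x j)

variable {conf : V → V → Prop} {C : ι → Finset V} {x0 : ι → V}

theorem mem_tv {s : Finset ι} {x : ι → V} :
    x ∈ tv conf C x0 s ↔ ((∀ i ∈ s, x i ∈ C i) ∧ ∀ i, i ∉ s → x i = x0 i) ∧
      ∀ i ∈ s, ∀ j ∈ s, i ≠ j → ¬ conf (x i) (x j) := by
  classical
  unfold tv
  rw [mem_filter, Fintype.mem_piFinset]
  refine and_congr_left fun _ => ?_
  constructor
  · intro h
    refine ⟨fun i hi => ?_, fun i hi => ?_⟩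
    · have := h i
      rwa [if_pos hi] at this
    · have := h i
      rw [if_neg hi, mem_singleton] at this
      exact this
  · intro h i
    by_cases hi : i ∈ s
    · rw [if_pos hi]; exact h.1 i hi
    · rw [if_neg hi, mem_singleton]; exact h.2 i hi

/-- Transversals through a given vertex. -/
theorem tv_through (s : Finset ι) (i : ι) (hi : i ∈ s) (u : V) :
    ((tv conf C x0 s).filter fun x => x i = u).card ≤ (tv conf C x0 (s.erase i)).card := by
  refine card_le_card_of_injOn (fun x => Function.update x i (x0 i)) ?_ ?_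
  · intro x hx
    rw [mem_coe, mem_filter, mem_tv] at hx
    rw [mem_coe, mem_tv]
    obtain ⟨⟨⟨h1, h2⟩, h3⟩, -⟩ := hx
    refine ⟨⟨fun l hl => ?_, fun l hl => ?_⟩, fun l hl m hm hlm => ?_⟩ <;> beta_reduce
    · rw [mem_erase] at hl
      rw [Function.update_of_ne hl.1]
      exact h1 l hl.2
    · by_cases hli : l = i
      · subst hli; rw [Function.update_self]
      · rw [Function.update_of_ne hli]
        exact h2 l fun hls => hl (mem_erase.2 ⟨hli, hls⟩)
    · rw [mem_erase] at hl hm
      rw [Function.update_of_ne hl.1, Function.update_of_ne hm.1]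
      exact h3 l hl.2 m hm.2 hlm
  · intro x hx y hy hxy
    rw [mem_coe, mem_filter] at hx hy
    funext l
    by_cases hli : l = i
    · subst hli; rw [hx.2, hy.2]
    · have := congrFun hxy l
      simp only [Function.update_of_ne hli] at this
      exact this

/-- Rosenfeld's counting step. -/
theorem tv_step (hsymm : ∀ u v, conf u v → conf v u) (Δ : ℕ)
    (hΔ : ∀ u, ∀ T : Finset V, (∀ v ∈ T, conf u v) → T.card ≤ Δ)
    (hdis : ∀ i j, i ≠ j → Disjoint (C i) (C j)) (hC : ∀ i, 4 * Δ ≤ (C i).card) :
    ∀ n : ℕ, ∀ s : Finset ι, s.card = n → ∀ j, j ∉ s →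
      (C j).card * (tv conf C x0 s).card ≤ 2 * (tv conf C x0 (insert j s)).card := by
  classical
  intro n
  induction n using Nat.strong_induction_on with
  | _ n ih =>
  intro s hs j hj
  -- pairs with a conflict
  set P : Finset ((ι → V) × V) := tv conf C x0 s ×ˢ C j with hP
  have hPc : P.card = (C j).card * (tv conf C x0 s).card := by
    rw [hP, card_product, mul_comm]
  set good : Finset ((ι → V) × V) := P.filter fun p => ∀ i ∈ s, ¬ conf p.2 (p.1 i) with hgood
  set bad : Finset ((ι → V) × V) := P.filter fun p => ¬ ∀ i ∈ s, ¬ conf p.2 (p.1 i) with hbad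
  have hsum : good.card + bad.card = P.card := by
    rw [hgood, hbad]
    exact card_filter_add_card_filter_not _
  have h1 : good.card ≤ (tv conf C x0 (insert j s)).card := by
    refine card_le_card_of_injOn (fun p => Function.update p.1 j p.2) ?_ ?_
    · intro p hp
      rw [mem_coe, hgood, mem_filter, hP, mem_product, mem_tv] at hp
      obtain ⟨⟨⟨⟨h1, h2⟩, h3⟩, h4⟩, h5⟩ := hp
      rw [mem_coe, mem_tv]
      refine ⟨⟨fun l hl => ?_, fun l hl => ?_⟩, fun l hl m hm hlm => ?_⟩ <;> beta_reduce
      · by_cases hlj : l = j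
        · subst hlj; rw [Function.update_self]; exact h4
        · rw [Function.update_of_ne hlj]
          exact h1 l ((mem_insert.1 hl).resolve_left hlj)
      · rw [mem_insert, not_or] at hl
        rw [Function.update_of_ne hl.1]
        exact h2 l hl.2
      · by_cases hlj : l = j
        · subst hlj
          rw [Function.update_self, Function.update_of_ne (Ne.symm hlm)]
          exact h5 m ((mem_insert.1 hm).resolve_left (Ne.symm hlm))
        · by_cases hmj : m = j
          · subst hmj
            rw [Function.update_self, Function.update_of_ne hlj]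
            exact fun hc => h5 l ((mem_insert.1 hl).resolve_left hlj) (hsymm _ _ hc)
          · rw [Function.update_of_ne hlj, Function.update_of_ne hmj]
            exact h3 l ((mem_insert.1 hl).resolve_left hlj) m
              ((mem_insert.1 hm).resolve_left hmj) hlm
    · intro p hp q hq hpq
      rw [mem_coe, hgood, mem_filter, hP, mem_product, mem_tv] at hp hq
      have h6 : p.2 = q.2 := by
        have := congrFun hpq j
        simpa only [Function.update_self] using this
      have h7 : p.1 = q.1 := by
        funext l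
        by_cases hlj : l = j
        · subst hlj
          rw [hp.1.1.1.2 l hj, hq.1.1.1.2 l hj]
        · have := congrFun hpq l
          simpa only [Function.update_of_ne hlj] using this
      exact Prod.ext h7 h6
  -- the conflicts
  set B : V → Finset (ι × V) := fun c =>
    (s.sigma fun i => (C i).filter fun u => conf c u).image fun p => (p.1, p.2) with hB
  have hBmem : ∀ c : V, ∀ p : ι × V, p ∈ B c ↔ p.1 ∈ s ∧ p.2 ∈ C p.1 ∧ conf c p.2 := by
    intro c p
    rw [hB]
    simp only [mem_image, mem_sigma, mem_filter]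
    constructor
    · rintro ⟨⟨a, b⟩, h, rfl⟩
      exact h
    · intro h
      exact ⟨⟨p.1, p.2⟩, h, rfl⟩
  have hBc : ∀ c, (B c).card ≤ Δ := by
    intro c
    have hinj : Set.InjOn (fun p : ι × V => p.2) (B c : Set (ι × V)) := by
      intro p hp q hq hpq
      rw [mem_coe, hBmem] at hp hq
      simp only at hpq
      by_cases h : p.1 = q.1
      · exact Prod.ext h hpq
      · exfalso
        have := hdis _ _ h
        rw [Finset.disjoint_left] at this
        exact this hp.2.1 (hpq ▸ hq.2.1)
    rw [← card_image_of_injOn hinj]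
    refine hΔ c _ fun v hv => ?_
    rw [mem_image] at hv
    obtain ⟨p, hp, rfl⟩ := hv
    exact ((hBmem c p).1 hp).2.2
  have h2 : bad.card ≤ ∑ c ∈ C j, ∑ p ∈ B c, ((tv conf C x0 s).filter fun x => x p.1 = p.2).card
      := by
    have hsub : bad ⊆ (C j).biUnion fun c => (B c).biUnion fun p =>
        ((tv conf C x0 s).filter fun x => x p.1 = p.2).image fun x => (x, c) := by
      intro p hp
      rw [hbad, mem_filter, hP, mem_product] at hp
      obtain ⟨⟨h3, h4⟩, h5⟩ := hp
      push Not at h5
      obtain ⟨i, hi, hc⟩ := h5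
      rw [mem_biUnion]
      refine ⟨p.2, h4, ?_⟩
      rw [mem_biUnion]
      refine ⟨(i, p.1 i), (hBmem _ _).2 ⟨hi, (mem_tv.1 h3).1.1 i hi, hc⟩, ?_⟩
      rw [mem_image]
      exact ⟨p.1, mem_filter.2 ⟨h3, rfl⟩, rfl⟩
    refine (card_le_card hsub).trans (card_biUnion_le.trans (sum_le_sum fun c _ => ?_))
    exact card_biUnion_le.trans (sum_le_sum fun p _ => card_image_le)
  have h3 : ∀ c, ∀ p ∈ B c, 2 * Δ * ((tv conf C x0 s).filter fun x => x p.1 = p.2).card
      ≤ (tv conf C x0 s).card := by
    intro c p hp
    have hp' := ((hBmem c p).1 hp).1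
    have h4 := tv_through (conf := conf) (C := C) (x0 := x0) s p.1 hp' p.2
    have h5 := ih (s.erase p.1).card (by
      rw [card_erase_of_mem hp', ← hs]
      have := card_pos.2 ⟨_, hp'⟩
      omega) (s.erase p.1) rfl p.1 (notMem_erase _ _)
    rw [insert_erase hp'] at h5
    have h6 := hC p.1
    have h7 : 4 * Δ * ((tv conf C x0 s).filter fun x => x p.1 = p.2).card
        ≤ 2 * (tv conf C x0 s).card := (Nat.mul_le_mul h6 h4).trans h5
    nlinarith [h7]
  have h4 : 2 * bad.card ≤ (C j).card * (tv conf C x0 s).card := by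
    rcases Nat.eq_zero_or_pos Δ with h0 | h0
    · have : bad.card = 0 := by
        refine Nat.le_zero.1 (h2.trans ?_)
        refine Nat.le_zero.2 (sum_eq_zero fun c _ => ?_)
        have := hBc c
        rw [h0, Nat.le_zero, card_eq_zero] at this
        rw [this, sum_empty]
      rw [this]; simp
    · have h5 : Δ * (2 * bad.card) ≤ Δ * ((C j).card * (tv conf C x0 s).card) := by
        calc Δ * (2 * bad.card) = 2 * Δ * bad.card := by ring
          _ ≤ 2 * Δ * ∑ c ∈ C j, ∑ p ∈ B c,
              ((tv conf C x0 s).filter fun x => x p.1 = p.2).card := Nat.mul_le_mul_left _ h2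
          _ = ∑ c ∈ C j, ∑ p ∈ B c,
              2 * Δ * ((tv conf C x0 s).filter fun x => x p.1 = p.2).card := by
            rw [mul_sum]
            exact sum_congr rfl fun c _ => by rw [mul_sum]
          _ ≤ ∑ c ∈ C j, ∑ _p ∈ B c, (tv conf C x0 s).card :=
            sum_le_sum fun c _ => sum_le_sum fun p hp => h3 c p hp
          _ ≤ ∑ _c ∈ C j, Δ * (tv conf C x0 s).card := by
            refine sum_le_sum fun c _ => ?_
            rw [sum_const, smul_eq_mul]
            exact Nat.mul_le_mul_right _ (hBc c)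
          _ = Δ * ((C j).card * (tv conf C x0 s).card) := by
            rw [sum_const, smul_eq_mul]; ring
      exact Nat.le_of_mul_le_mul_left h5 h0
  rw [← hPc] at h4 ⊢
  omega

end Rosenfeld

/-- M6a: independent transversals of classes of size at least `4 Δ`. -/
theorem exists_transversal {ι α : Type} [Fintype ι] [DecidableEq ι] [DecidableEq α]
    (A : ι → Finset α) (hdisj : ∀ i j, i ≠ j → Disjoint (A i) (A j)) (conf : α → α → Prop)
    (hsymm : ∀ x y, conf x y → conf y x) {Δ : ℕ} (hΔ0 : 0 < Δ)
    (hΔ : ∀ x (B : Finset α), (∀ y ∈ B, conf x y) → B.card ≤ Δ)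
    (hA : ∀ i, 4 * Δ ≤ (A i).card) :
    ∃ f : ι → α, (∀ i, f i ∈ A i) ∧ ∀ i j, i ≠ j → ¬ conf (f i) (f j) := by
  classical
  have hne : ∀ i, ∃ v, v ∈ A i := fun i => by
    have h := hA i
    exact card_pos.1 (by omega)
  choose x0 hx0 using hne
  have key : ∀ s : Finset ι, (tv conf A x0 s).Nonempty := by
    intro s
    induction s using Finset.induction_on with
    | empty => exact ⟨x0, mem_tv.2 (by simp)⟩
    | insert j s hj ih =>
      have h1 := tv_step (x0 := x0) hsymm Δ hΔ hdisj hA s.card s rfl j hj
      rw [← card_pos] at ih ⊢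
      have h2 : 0 < (A j).card := card_pos.2 ⟨_, hx0 j⟩
      have h3 := Nat.mul_pos h2 ih
      omega
  obtain ⟨x, hx⟩ := key univ
  rw [mem_tv] at hx
  exact ⟨x, fun i => hx.1.1 i (mem_univ i), fun i j hij => hx.2 i (mem_univ i) j (mem_univ j) hij⟩

/-- Disjoint blocks of equal size in a finite set. -/
theorem blocks {V : Type*} [DecidableEq V] (C : Finset V) (q m : ℕ) (h : q * m ≤ C.card) :
    ∃ B : Fin q → Finset V, (∀ a, B a ⊆ C) ∧ (∀ a, (B a).card = m) ∧
      ∀ a b, a ≠ b → Disjoint (B a) (B b) := by
  obtain ⟨C', hC', hc⟩ := exists_subset_card_eq h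
  let e : Fin q × Fin m ≃ C' := finProdFinEquiv.trans (by
    rw [← hc]
    exact C'.equivFin.symm)
  refine ⟨fun a => univ.image fun b => (e (a, b) : V), fun a => ?_, fun a => ?_, fun a b hab => ?_⟩
  · intro v hv
    rw [mem_image] at hv
    obtain ⟨b, -, rfl⟩ := hv
    exact hC' (e (a, b)).2
  · rw [card_image_of_injective, card_univ, Fintype.card_fin]
    intro b b' hbb
    have := e.injective (Subtype.ext hbb)
    simpa using this
  · rw [Finset.disjoint_left]
    intro v hv hv'
    rw [mem_image] at hv hv'
    obtain ⟨c, -, rfl⟩ := hv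
    obtain ⟨c', -, h'⟩ := hv'
    have := e.injective (Subtype.ext h')
    rw [Prod.mk.injEq] at this
    exact hab this.1.symm

/-- M6b: far apart candidates, `q` of them in each class. -/
theorem exists_candidates {V : Type} [Fintype V] [DecidableEq V] {G : SimpleGraph V}
    [DecidableRel G.Adj] (h3 : ∀ v, G.degree v = 3) {w q R : ℕ} (C : Fin w → Finset V)
    (hdisj : ∀ i j, i ≠ j → Disjoint (C i) (C j)) (hC : ∀ i, q * (12 * 4 ^ R) ≤ (C i).card) :
    ∃ u : Fin w → Fin q → V, (∀ i a, u i a ∈ C i) ∧
      ∀ i a j b, (i, a) ≠ (j, b) → Disjoint (Bl G.Adj R (u i a)) (Bl G.Adj R (u j b)) := by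
  have hb := fun i => blocks (C i) q (12 * 4 ^ R) (hC i)
  choose B hB1 hB2 hB3 using hb
  obtain ⟨f, hf1, hf2⟩ := exists_transversal (ι := Fin w × Fin q) (fun p => B p.1 p.2)
    (by
      rintro ⟨i, a⟩ ⟨j, b⟩ hne
      by_cases hij : i = j
      · subst hij
        exact hB3 i a b fun hab => hne (by rw [hab])
      · exact Disjoint.mono (hB1 i a) (hB1 j b) (hdisj i j hij))
    (fun x y => ¬ Disjoint (Bl G.Adj R x) (Bl G.Adj R y))
    (fun x y h h' => h h'.symm) (Δ := 3 * 4 ^ R) (by positivity)
    (by
      intro x T hT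
      have hsub : T ⊆ Bl G.Adj (R + R) x := by
        intro y hy
        have h1 := hT y hy
        rw [Finset.not_disjoint_iff] at h1
        obtain ⟨z, hz1, hz2⟩ := h1
        exact Bl_comp hz1 (Bl_symm (fun u v h => h.symm) hz2)
      have h2 := Bl_card G h3 (R + R) x
      have h4 : 2 ^ (R + R) = 4 ^ R := by
        rw [← two_mul, pow_mul]; norm_num
      rw [h4] at h2
      exact (card_le_card hsub).trans (by omega))
    (fun p => by
      have := hB2 p.1 p.2
      simp only [this]
      omega)
  refine ⟨fun i a => f (i, a), fun i a => hB1 i a (hf1 (i, a)), fun i a j b hne => ?_⟩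
  have := hf2 _ _ hne
  simpa only [not_not] using this

end Pool.Agent.Log5
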