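import Mathlib

/-!
# Choosing one element in every block so that no dirty set is met often
-/

set_option linter.unusedSectionVars false

namespace Pool.Agent.Log5

open Finset

/-- Functions through a given set of pairs. -/
theorem through_card {I A : Type} [Fintype I] [DecidableEq I] [Fintype A] [DecidableEq A]
    (Y : Finset (I × A)) :
    (univ.filter fun a : I → A => ∀ p ∈ Y, a p.1 = p.2).card * Fintype.card A ^ Y.card
      ≤ Fintype.card A ^ Fintype.card I := by
  rcases (univ.filter fun a : I → A => ∀ p ∈ Y, a p.1 = p.2).eq_empty_or_nonempty with h0 | ⟨b, hb⟩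
  · rw [h0]; simp
  · rw [mem_filter] at hb
    have hinj : Set.InjOn Prod.fst (Y : Set (I × A)) := by
      intro p hp p' hp' he
      ext
      · exact he
      · rw [← hb.2 p hp, ← hb.2 p' hp', he]
    have hJ : (Y.image Prod.fst).card = Y.card := card_image_of_injOn hinj
    set J := Y.image Prod.fst with hJd
    have hsub : (univ.filter fun a : I → A => ∀ p ∈ Y, a p.1 = p.2) ⊆
        Fintype.piFinset fun i => if i ∈ J then {b i} else univ := by
      intro a ha
      rw [mem_filter] at ha
      rw [Fintype.mem_piFinset]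
      intro i
      by_cases hi : i ∈ J
      · rw [if_pos hi, mem_singleton]
        obtain ⟨p, hp, rfl⟩ := mem_image.1 hi
        rw [ha.2 p hp, hb.2 p hp]
      · rw [if_neg hi]; exact mem_univ _
    have hc := card_le_card hsub
    rw [Fintype.card_piFinset] at hc
    have he : (∏ i : I, (if i ∈ J then ({b i} : Finset A) else univ).card)
        * Fintype.card A ^ J.card = Fintype.card A ^ Fintype.card I := by
      have h1 : Fintype.card A ^ J.card = ∏ i : I, (if i ∈ J then Fintype.card A else 1) := by
        rw [prod_ite_mem]; simp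
      rw [h1, ← prod_mul_distrib]
      have h2 : ∀ i : I, (if i ∈ J then ({b i} : Finset A) else univ).card
          * (if i ∈ J then Fintype.card A else 1) = Fintype.card A := by
        intro i
        by_cases hi : i ∈ J
        · simp [hi]
        · simp [hi]
      rw [prod_congr rfl fun i _ => h2 i, prod_const, card_univ]
    calc _ ≤ (∏ i : I, (if i ∈ J then ({b i} : Finset A) else univ).card)
        * Fintype.card A ^ Y.card := Nat.mul_le_mul_right _ hc
      _ = _ := by rw [← hJ]; exact he

/-- Functions meeting a small set often. -/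
theorem often_card {I A : Type} [Fintype I] [DecidableEq I] [Fintype A] [DecidableEq A]
    (X : Finset (I × A)) (m : ℕ) :
    (univ.filter fun a : I → A => m ≤ (univ.filter fun i => (i, a i) ∈ X).card).card
      * Fintype.card A ^ m ≤ 2 ^ X.card * Fintype.card A ^ Fintype.card I := by
  have hsub : (univ.filter fun a : I → A => m ≤ (univ.filter fun i => (i, a i) ∈ X).card) ⊆
      (X.powersetCard m).biUnion fun Y => univ.filter fun a : I → A => ∀ p ∈ Y, a p.1 = p.2 := by
    intro a ha
    rw [mem_filter] at ha
    obtain ⟨J, hJ1, hJ2⟩ := exists_subset_card_eq ha.2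
    rw [mem_biUnion]
    refine ⟨J.image fun i => (i, a i), ?_, ?_⟩
    · rw [mem_powersetCard]
      constructor
      · intro p hp
        obtain ⟨i, hi, rfl⟩ := mem_image.1 hp
        exact (mem_filter.1 (hJ1 hi)).2
      · rw [card_image_of_injective _ (fun i j h => (Prod.ext_iff.1 h).1), hJ2]
    · rw [mem_filter]
      refine ⟨mem_univ _, fun p hp => ?_⟩
      obtain ⟨i, hi, rfl⟩ := mem_image.1 hp
      rfl
  have h1 := (card_le_card hsub).trans card_biUnion_le
  calc _ ≤ (∑ Y ∈ X.powersetCard m,
        (univ.filter fun a : I → A => ∀ p ∈ Y, a p.1 = p.2).card) * Fintype.card A ^ m :=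
        Nat.mul_le_mul_right _ h1
    _ = ∑ Y ∈ X.powersetCard m,
        (univ.filter fun a : I → A => ∀ p ∈ Y, a p.1 = p.2).card * Fintype.card A ^ m := by
        rw [sum_mul]
    _ ≤ ∑ Y ∈ X.powersetCard m, Fintype.card A ^ Fintype.card I := by
        refine sum_le_sum fun Y hY => ?_
        have := through_card Y
        rw [(mem_powersetCard.1 hY).2] at this
        exact this
    _ = (X.powersetCard m).card * Fintype.card A ^ Fintype.card I := by
        rw [sum_const, smul_eq_mul]
    _ ≤ _ := by
        refine Nat.mul_le_mul_right _ ?_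
        rw [card_powersetCard]
        exact Nat.choose_le_two_pow _ _

/-- Choosing one element in every block so that no dirty set is met often. -/
theorem choose {I A : Type} [Fintype I] [DecidableEq I] [Fintype A] [DecidableEq A] [Nonempty A]
    (L : Finset ℕ) (F : ℕ → Finset (Finset (I × A))) (m : ℕ → ℕ)
    (hF : ∀ d ∈ L, ∀ X ∈ F d, X.card ≤ d)
    (hs : ∑ d ∈ L, ((F d).card : ℝ) * 2 ^ d / (Fintype.card A : ℝ) ^ m d < 1) :
    ∃ a : I → A, ∀ d ∈ L, ∀ X ∈ F d, (univ.filter fun i => (i, a i) ∈ X).card < m d := by
  by_contra hcon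
  push Not at hcon
  have hq : (0 : ℝ) < Fintype.card A := by exact_mod_cast Fintype.card_pos
  have hcov : (univ : Finset (I → A)) ⊆ L.biUnion fun d => (F d).biUnion fun X =>
      univ.filter fun a : I → A => m d ≤ (univ.filter fun i => (i, a i) ∈ X).card := by
    intro a _
    obtain ⟨d, hd, X, hX, h⟩ := hcon a
    exact mem_biUnion.2 ⟨d, hd, mem_biUnion.2 ⟨X, hX, mem_filter.2 ⟨mem_univ _, h⟩⟩⟩
  have h1 : ((univ : Finset (I → A)).card : ℝ) ≤ ∑ d ∈ L, ∑ X ∈ F d,
      ((univ.filter fun a : I → A => m d ≤ (univ.filter fun i => (i, a i) ∈ X).card).card : ℝ) := by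
    have := (card_le_card hcov).trans (card_biUnion_le.trans
      (sum_le_sum fun d _ => card_biUnion_le))
    exact_mod_cast this
  have h2 : ∀ d ∈ L, ∑ X ∈ F d,
      ((univ.filter fun a : I → A => m d ≤ (univ.filter fun i => (i, a i) ∈ X).card).card : ℝ) ≤
      (((F d).card : ℝ) * 2 ^ d / (Fintype.card A : ℝ) ^ m d)
        * (Fintype.card A : ℝ) ^ Fintype.card I := by
    intro d hd
    have h3 : ∀ X ∈ F d,
        ((univ.filter fun a : I → A => m d ≤ (univ.filter fun i => (i, a i) ∈ X).card).card : ℝ)
        ≤ 2 ^ d * (Fintype.card A : ℝ) ^ Fintype.card I / (Fintype.card A : ℝ) ^ m d := by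
      intro X hX
      rw [le_div_iff₀ (pow_pos hq _)]
      have h4 : ((univ.filter fun a : I → A =>
          m d ≤ (univ.filter fun i => (i, a i) ∈ X).card).card : ℝ)
          * (Fintype.card A : ℝ) ^ m d ≤ 2 ^ X.card * (Fintype.card A : ℝ) ^ Fintype.card I := by
        exact_mod_cast often_card X (m d)
      refine h4.trans (mul_le_mul_of_nonneg_right ?_ (pow_nonneg hq.le _))
      exact pow_le_pow_right₀ (by norm_num) (hF d hd X hX)
    refine (sum_le_sum h3).trans (le_of_eq ?_)
    rw [sum_const, nsmul_eq_mul]
    ring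
  have h5 := h1.trans (sum_le_sum h2)
  rw [← sum_mul] at h5
  have h6 : ((univ : Finset (I → A)).card : ℝ) = (Fintype.card A : ℝ) ^ Fintype.card I := by
    rw [card_univ, Fintype.card_fun]; push_cast; rfl
  rw [h6] at h5
  have h7 : (0 : ℝ) < (Fintype.card A : ℝ) ^ Fintype.card I := pow_pos hq _
  nlinarith

end Pool.Agent.Log5
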