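import Mathlib
import Pool.Agent.Work.MP_974d84_co.K0
import Pool.Agent.Work.MP_974d84_co_log.Defs

/-!
# From a `±1, ±2, ±3` function to a nowhere-zero 5-flow
-/

set_option linter.unusedSectionVars false

namespace Pool.Agent.Log5

open Finset SimpleGraph Pool.Agent.Exp MP974d84

variable {V : Type} [Fintype V] [DecidableEq V] {G : SimpleGraph V} [DecidableRel G.Adj]

/-- The upper capacity. -/
def up (z : ℤ) : ℤ := if 0 < z then 4 else if z < 0 then -1 else 0

theorem up_zero : up 0 = 0 := rfl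

/-- Sums over the cut. -/
theorem cs_eq_cut {u : V → V → ℤ} (hu : ∀ v w, u v w ≠ 0 → G.Adj v w) (Z : Finset V) :
    cs u Z = ∑ p ∈ Pool.Agent.Work.MP_314beb_co.cut G Z, u p.1 p.2 := by
  unfold cs
  rw [← sum_product']
  symm
  refine sum_subset (fun p hp => ?_) fun p hp hp' => ?_
  · rw [mem_cut] at hp
    exact mem_product.2 ⟨hp.1, mem_compl.2 hp.2.1⟩
  · rw [mem_product, mem_compl] at hp
    by_contra hne
    exact hp' ((mem_cut G).2 ⟨hp.1, hp.2, hu _ _ hne⟩)

theorem cut_split {Z A : Finset V} (hA : A ⊆ Z)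
    (hno : ∀ x ∈ A, ∀ y ∈ Z, y ∉ A → ¬ G.Adj x y) :
    Pool.Agent.Work.MP_314beb_co.cut G Z = Pool.Agent.Work.MP_314beb_co.cut G A ∪
      Pool.Agent.Work.MP_314beb_co.cut G (Z \ A) ∧
    Disjoint (Pool.Agent.Work.MP_314beb_co.cut G A)
      (Pool.Agent.Work.MP_314beb_co.cut G (Z \ A)) := by
  constructor
  · ext p
    rw [mem_union, mem_cut, mem_cut, mem_cut, mem_sdiff, mem_sdiff]
    constructor
    · rintro ⟨h1, h2, h3⟩
      by_cases hp : p.1 ∈ A
      · exact Or.inl ⟨hp, fun h => h2 (hA h), h3⟩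
      · exact Or.inr ⟨⟨h1, hp⟩, fun h => h2 h.1, h3⟩
    · rintro (⟨h1, h2, h3⟩ | ⟨⟨h1, h1'⟩, h2, h3⟩)
      · refine ⟨hA h1, fun h => ?_, h3⟩
        exact hno _ h1 _ h h2 h3
      · refine ⟨h1, fun h => ?_, h3⟩
        by_cases hp : p.2 ∈ A
        · exact hno _ hp _ h1 h1' h3.symm
        · exact h2 ⟨h, hp⟩
  · rw [Finset.disjoint_left]
    intro p hp hp'
    rw [mem_cut] at hp hp'
    exact (mem_sdiff.1 hp'.1).2 hp.1

theorem not_joined {W : Finset V} (h : ¬ Joined G W) : ∃ A ⊆ W, A.Nonempty ∧ (W \ A).Nonempty ∧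
    ∀ x ∈ A, ∀ y ∈ W, y ∉ A → ¬ G.Adj x y := by
  unfold Pool.Agent.Exp.Joined at h
  push Not at h
  obtain ⟨A, h1, h2, h3, h4⟩ := h
  refine ⟨A, h1, h2, ?_, h4⟩
  rw [sdiff_nonempty]
  exact fun h => h3 (h1.antisymm h)

theorem cut_compl_sum {u : V → V → ℤ} (Z : Finset V) :
    ∑ p ∈ Pool.Agent.Work.MP_314beb_co.cut G Zᶜ, u p.1 p.2 =
      ∑ p ∈ Pool.Agent.Work.MP_314beb_co.cut G Z, u p.2 p.1 := by
  refine sum_bij' (fun p _ => (p.2, p.1)) (fun p _ => (p.2, p.1)) ?_ ?_ ?_ ?_ ?_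
  · intro p hp
    rw [mem_cut] at hp ⊢
    simp only [mem_compl, not_not] at hp
    exact ⟨hp.2.1, hp.1, hp.2.2.symm⟩
  · intro p hp
    rw [mem_cut] at hp ⊢
    simp only [mem_compl, not_not]
    exact ⟨hp.2.1, hp.1, hp.2.2.symm⟩
  · intro p _; rfl
  · intro p _; rfl
  · intro p _; rfl

/-- Cut sums are sums over bonds. -/
theorem nonneg_of_bonds (hbr : ∀ S : Finset V, S.Nonempty → Sᶜ.Nonempty → 2 ≤ dd G S)
    {u : V → V → ℤ}
    (h : ∀ S, Bond G S → 0 ≤ ∑ p ∈ Pool.Agent.Work.MP_314beb_co.cut G S, u p.1 p.2) :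
    ∀ (n : ℕ) (Z : Finset V), dd G Z = n →
      0 ≤ ∑ p ∈ Pool.Agent.Work.MP_314beb_co.cut G Z, u p.1 p.2 := by
  intro n
  induction n using Nat.strong_induction_on with
  | _ n ih =>
    intro Z hZ
    rcases Z.eq_empty_or_nonempty with rfl | hne
    · have : Pool.Agent.Work.MP_314beb_co.cut G (∅ : Finset V) = ∅ := by
        ext p; rw [mem_cut]; simp
      rw [this, sum_empty]
    rcases Zᶜ.eq_empty_or_nonempty with he | hne'
    · have : Pool.Agent.Work.MP_314beb_co.cut G Z = ∅ := by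
        ext p
        rw [mem_cut, (compl_eq_empty_iff _).1 he]
        simp
      rw [this, sum_empty]
    by_cases hJ : Joined G Z
    · by_cases hJ' : Joined G Zᶜ
      · exact h Z ⟨hJ, hJ', hne, hne'⟩
      · obtain ⟨A, h1, h2, h3, h4⟩ := not_joined hJ'
        obtain ⟨e1, e2⟩ := cut_split h1 h4
        have k1 : dd G Zᶜ = dd G A + dd G (Zᶜ \ A) := by
          unfold dd
          rw [e1, card_union_of_disjoint e2]
        have c1 : Aᶜ.Nonempty := by
          obtain ⟨x, hx⟩ := hne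
          exact ⟨x, mem_compl.2 fun h => (mem_compl.1 (h1 h)) hx⟩
        have c2 : (Zᶜ \ A)ᶜ.Nonempty := by
          obtain ⟨x, hx⟩ := hne
          exact ⟨x, mem_compl.2 fun h => (mem_compl.1 (mem_sdiff.1 h).1) hx⟩
        have k2 := hbr A h2 c1
        have k3 := hbr (Zᶜ \ A) h3 c2
        rw [dd_compl, hZ] at k1
        have g1 := ih (dd G Aᶜ) (by rw [dd_compl]; omega) Aᶜ rfl
        have g2 := ih (dd G (Zᶜ \ A)ᶜ) (by rw [dd_compl]; omega) (Zᶜ \ A)ᶜ rfl
        rw [cut_compl_sum] at g1 g2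
        have g3 : ∑ p ∈ Pool.Agent.Work.MP_314beb_co.cut G Z, u p.1 p.2 =
            ∑ p ∈ Pool.Agent.Work.MP_314beb_co.cut G Zᶜ, u p.2 p.1 := by
          rw [← compl_compl Z, cut_compl_sum, compl_compl]
        rw [g3, e1, sum_union e2]
        omega
    · obtain ⟨A, h1, h2, h3, h4⟩ := not_joined hJ
      obtain ⟨e1, e2⟩ := cut_split h1 h4
      have k1 : dd G Z = dd G A + dd G (Z \ A) := by
        unfold dd
        rw [e1, card_union_of_disjoint e2]
      have c1 : Aᶜ.Nonempty := by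
        obtain ⟨x, hx⟩ := hne'
        exact ⟨x, mem_compl.2 fun h => (mem_compl.1 hx) (h1 h)⟩
      have c2 : (Z \ A)ᶜ.Nonempty := by
        obtain ⟨x, hx⟩ := hne'
        exact ⟨x, mem_compl.2 fun h => (mem_compl.1 hx) (mem_sdiff.1 h).1⟩
      have k2 := hbr A h2 c1
      have k3 := hbr (Z \ A) h3 c2
      have g1 := ih (dd G A) (by omega) A rfl
      have g2 := ih (dd G (Z \ A)) (by omega) (Z \ A) rfl
      rw [e1, sum_union e2]
      omega

/-- A function with values `±1, ±2, ±3` on the edges whose divergence is small on all bonds gives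
a nowhere-zero flow. -/
theorem flow_of_phi (hbr : ∀ S : Finset V, S.Nonempty → Sᶜ.Nonempty → 2 ≤ dd G S)
    (φ : V → V → ℤ) (hφ : Anti φ) (h3 : ∀ v w, -3 ≤ φ v w ∧ φ v w ≤ 3)
    (h0 : ∀ v w, φ v w ≠ 0 ↔ G.Adj v w)
    (hcrit : ∀ S, Bond G S → |∑ v ∈ S, dv φ v| ≤ 1 ∨ 5 * |∑ v ∈ S, dv φ v| ≤ dd G S) :
    ∀ i : ℕ, 5 ≤ i → HasNZFlow (ZMod i) G := by
  refine K.lift_five ?_
  have hadj : ∀ v w, up (φ v w) ≠ 0 → G.Adj v w := by
    intro v w h
    rw [← h0]
    intro h1
    rw [h1] at h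
    exact h rfl
  obtain ⟨f, hf1, hf2, hf3⟩ := hoffman (fun v w => up (φ v w)) (fun _ => 0) φ hφ (by
      intro v w
      have := h3 v w
      unfold up
      split_ifs <;> omega) (by simp) (by
      intro Z
      rw [sum_const_zero, cs_eq_cut hadj]
      refine nonneg_of_bonds (u := fun v w => up (φ v w)) hbr ?_ _ Z rfl
      intro S hS
      have h1 := hcrit S hS
      rw [dv_cut hφ, cs_eq_cut fun v w h => (h0 v w).1 h] at h1
      set s := ∑ p ∈ Pool.Agent.Work.MP_314beb_co.cut G S, φ p.1 p.2 with hs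
      -- positive and negative edges
      have h2 : (dd G S : ℤ) = ∑ p ∈ Pool.Agent.Work.MP_314beb_co.cut G S, (1 : ℤ) := by
        unfold dd; simp
      have h4 : 2 ≤ dd G S := hbr S hS.2.2.1 hS.2.2.2
      -- termwise: `up x ≥ ...`
      have key : ∀ p ∈ Pool.Agent.Work.MP_314beb_co.cut G S,
          (0 < φ p.1 p.2 ∧ φ p.1 p.2 ≤ 3) ∨ (φ p.1 p.2 < 0 ∧ -3 ≤ φ p.1 p.2) := by
        intro p hp
        have := h3 p.1 p.2
        have := (h0 p.1 p.2).2 ((mem_cut G).1 hp).2.2
        omega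
      set P := (Pool.Agent.Work.MP_314beb_co.cut G S).filter fun p => 0 < φ p.1 p.2 with hP
      set N := (Pool.Agent.Work.MP_314beb_co.cut G S).filter fun p => ¬ 0 < φ p.1 p.2 with hN
      have e1 : (P.card : ℤ) + N.card = dd G S := by
        unfold dd
        exact_mod_cast card_filter_add_card_filter_not (s := Pool.Agent.Work.MP_314beb_co.cut G S)
          (fun p => 0 < φ p.1 p.2)
      have e2 : ∑ p ∈ Pool.Agent.Work.MP_314beb_co.cut G S, up (φ p.1 p.2) =
          4 * P.card - N.card := by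
        rw [← sum_filter_add_sum_filter_not _ (fun p : V × V => 0 < φ p.1 p.2)]
        have a3 : ∑ p ∈ P, up (φ p.1 p.2) = ∑ p ∈ P, (4 : ℤ) := by
          refine sum_congr rfl fun p hp => ?_
          unfold up
          rw [if_pos (mem_filter.1 hp).2]
        have a4 : ∑ p ∈ N, up (φ p.1 p.2) = ∑ p ∈ N, (-1 : ℤ) := by
          refine sum_congr rfl fun p hp => ?_
          rw [hN, mem_filter] at hp
          unfold up
          rw [if_neg hp.2, if_pos]
          rcases key p hp.1 with h | h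
          · exact absurd h.1 hp.2
          · exact h.1
        rw [sum_const, nsmul_eq_mul] at a3 a4
        rw [← hP, ← hN, a3, a4]
        ring
      have e3 : s ≤ 3 * P.card - N.card := by
        rw [hs, ← sum_filter_add_sum_filter_not _ (fun p => 0 < φ p.1 p.2)]
        have a1 : ∑ p ∈ P, φ p.1 p.2 ≤ ∑ p ∈ P, (3 : ℤ) := by
          refine sum_le_sum fun p hp => ?_
          exact (h3 p.1 p.2).2
        have a2 : ∑ p ∈ N, φ p.1 p.2 ≤ ∑ p ∈ N, (-1 : ℤ) := by
          refine sum_le_sum fun p hp => ?_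
          rw [hN, mem_filter] at hp
          rcases key p hp.1 with h | h
          · exact absurd h.1 hp.2
          · omega
        rw [sum_const, nsmul_eq_mul] at a1 a2
        linarith
      have e4 : -|s| ≤ s := neg_abs_le s
      rw [e2]
      have hPn : (0 : ℤ) ≤ P.card := Int.natCast_nonneg _
      rcases h1 with h1 | h1
      · by_contra hlt
        push Not at hlt
        omega
      · omega)
  have hpos : ∀ v w, 0 < φ v w → 1 ≤ f v w ∧ f v w ≤ 4 := by
    intro v w h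
    have h1 := hf2 v w
    have h2 := hf2 w v
    have h4 := hφ w v
    have h5 := hf1 w v
    unfold up at h1 h2
    rw [if_pos h] at h1
    rw [if_neg (by omega), if_pos (by omega)] at h2
    omega
  have hzero : ∀ v w, φ v w = 0 → f v w = 0 := by
    intro v w h
    have h1 := hf2 v w
    have h2 := hf2 w v
    have h4 := hφ w v
    have h5 := hf1 w v
    rw [h] at h1
    rw [h4, h] at h2
    simp only [up, neg_zero, lt_irrefl, if_false] at h1 h2
    omega
  have hcast : ∀ z : ℤ, 1 ≤ z → z ≤ 4 → ((z : ℤ) : ZMod 5) ≠ 0 := by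
    intro z h1 h2 h
    rw [ZMod.intCast_zmod_eq_zero_iff_dvd] at h
    omega
  refine ⟨fun v w => ((f v w : ℤ) : ZMod 5), fun v w => ?_, fun v w => ?_, fun v => ?_⟩
  · show ((f v w : ℤ) : ZMod 5) = -((f w v : ℤ) : ZMod 5)
    rw [hf1 v w]
    push_cast
    rfl
  · show ((f v w : ℤ) : ZMod 5) ≠ 0 ↔ G.Adj v w
    rw [← h0 v w]
    constructor
    · intro h h1
      apply h
      rw [hzero v w h1]
      simp
    · intro h
      rcases lt_or_gt_of_ne h with h1 | h1
      · have h4 := hφ w v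
        obtain ⟨h5, h6⟩ := hpos w v (by omega)
        have h7 := hcast _ h5 h6
        rw [hf1 v w]
        push_cast
        exact neg_ne_zero.2 h7
      · obtain ⟨h5, h6⟩ := hpos v w h1
        exact hcast _ h5 h6
  · have h1 := hf3 v
    unfold dv at h1
    have h2 : ((∑ w, f v w : ℤ) : ZMod 5) = 0 := by rw [h1]; simp
    push_cast at h2
    exact h2

end Pool.Agent.Log5
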