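import Mathlib
import Pool.Agent.Work.MP_974d84_co_log.Defs

/-!
Module M8 (UNION BOUND): random signs on pairs, Hoeffding's inequality and a double counting.
-/

set_option linter.unusedSectionVars false
set_option linter.unusedVariables false

namespace Pool.Agent.Log5

open Finset

namespace Uni

/-- Real sign of a Boolean. -/
noncomputable def sr (b : Bool) : ℝ := if b then 1 else -1

/-- Integral sign of a Boolean. -/
def si (b : Bool) : ℤ := if b then 1 else -1

theorem si_cast (b : Bool) : ((si b : ℤ) : ℝ) = sr b := by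
  cases b <;> simp [si, sr]

theorem si_or (b : Bool) : si b = 1 ∨ si b = -1 := by
  cases b <;> simp [si]

theorem mgf {m : ℕ} (x : Fin m → ℝ) (l : ℝ) :
    ∑ b : Fin m → Bool, Real.exp (l * ∑ j, sr (b j) * x j)
      ≤ 2 ^ m * Real.exp (l ^ 2 * (∑ j, x j ^ 2) / 2) := by
  have h1 : ∀ b : Fin m → Bool, Real.exp (l * ∑ j, sr (b j) * x j)
      = ∏ j, Real.exp (l * (sr (b j) * x j)) := by
    intro b; rw [mul_sum, Real.exp_sum]
  rw [sum_congr rfl fun b _ => h1 b]
  have h2 := Finset.prod_univ_sum (fun _ : Fin m => (univ : Finset Bool))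
    (fun j c => Real.exp (l * (sr c * x j)))
  rw [Fintype.piFinset_univ] at h2
  rw [← h2]
  have h3 : ∀ j, ∑ c : Bool, Real.exp (l * (sr c * x j)) ≤ 2 * Real.exp ((l * x j) ^ 2 / 2) := by
    intro j
    have h4 : ∑ c : Bool, Real.exp (l * (sr c * x j)) = 2 * Real.cosh (l * x j) := by
      rw [Fintype.sum_bool, Real.cosh_eq]
      simp only [sr, if_true, Bool.false_eq_true, if_false]
      rw [show l * (1 * x j) = l * x j by ring, show l * (-1 * x j) = -(l * x j) by ring]
      ring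
    rw [h4]
    exact mul_le_mul_of_nonneg_left (Real.cosh_le_exp_half_sq _) (by norm_num)
  calc ∏ j, ∑ c : Bool, Real.exp (l * (sr c * x j))
      ≤ ∏ j, 2 * Real.exp ((l * x j) ^ 2 / 2) :=
        prod_le_prod (fun j _ => sum_nonneg fun c _ => (Real.exp_pos _).le) fun j _ => h3 j
    _ = 2 ^ m * Real.exp (l ^ 2 * (∑ j, x j ^ 2) / 2) := by
        rw [prod_mul_distrib, prod_const, card_univ, Fintype.card_fin, ← Real.exp_sum]
        congr 2
        rw [mul_sum, sum_div]
        exact sum_congr rfl fun j _ => by ring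

open Classical in
theorem tail_one {m : ℕ} (x : Fin m → ℝ) {N t : ℝ} (hN : 0 < N) (hs : ∑ j, x j ^ 2 ≤ N) :
    (((univ : Finset (Fin m → Bool)).filter fun b => t < ∑ j, sr (b j) * x j).card : ℝ)
      ≤ 2 ^ m * Real.exp (-(t ^ 2 / (2 * N))) ∨ t < 0 := by
  by_cases ht : t < 0
  · exact Or.inr ht
  left
  push Not at ht
  set l : ℝ := t / N with hl
  have hl0 : 0 ≤ l := div_nonneg ht hN.le
  have h1 := mgf x l
  have h2 : (((univ : Finset (Fin m → Bool)).filter fun b => t < ∑ j, sr (b j) * x j).card : ℝ)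
      * Real.exp (l * t) ≤ ∑ b : Fin m → Bool, Real.exp (l * ∑ j, sr (b j) * x j) := by
    rw [← nsmul_eq_mul, ← sum_const]
    refine le_trans (sum_le_sum fun b hb => ?_)
      (sum_le_sum_of_subset_of_nonneg (filter_subset _ _) fun b _ _ => (Real.exp_pos _).le)
    rw [mem_filter] at hb
    apply Real.exp_le_exp.2
    exact mul_le_mul_of_nonneg_left hb.2.le hl0
  have h3 : 2 ^ m * Real.exp (l ^ 2 * (∑ j, x j ^ 2) / 2)
      ≤ (2 ^ m * Real.exp (-(t ^ 2 / (2 * N)))) * Real.exp (l * t) := by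
    rw [mul_assoc, ← Real.exp_add]
    refine mul_le_mul_of_nonneg_left ?_ (by positivity)
    apply Real.exp_le_exp.2
    have h4 : l ^ 2 * (∑ j, x j ^ 2) / 2 ≤ l ^ 2 * N / 2 := by
      have := mul_le_mul_of_nonneg_left hs (sq_nonneg l)
      linarith
    have h5 : l ^ 2 * N / 2 = -(t ^ 2 / (2 * N)) + l * t := by
      rw [hl]; field_simp; ring
    linarith
  exact le_of_mul_le_mul_right (h2.trans (h1.trans h3)) (Real.exp_pos _)

open Classical in
theorem tail {m : ℕ} (x : Fin m → ℝ) {N t : ℝ} (hN : 0 < N) (ht : 0 ≤ t)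
    (hs : ∑ j, x j ^ 2 ≤ N) :
    (((univ : Finset (Fin m → Bool)).filter fun b => t < |∑ j, sr (b j) * x j|).card : ℝ)
      ≤ 2 ^ m * (2 * Real.exp (-(t ^ 2 / (2 * N)))) := by
  have h1 := (tail_one x hN hs (t := t)).resolve_right (not_lt.2 ht)
  have hs' : ∑ j, (fun j => - x j) j ^ 2 ≤ N := by
    simpa using hs
  have h2 := (tail_one (fun j => - x j) hN hs' (t := t)).resolve_right (not_lt.2 ht)
  have h3 : ((univ : Finset (Fin m → Bool)).filter fun b => t < |∑ j, sr (b j) * x j|)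
      ⊆ ((univ : Finset (Fin m → Bool)).filter fun b => t < ∑ j, sr (b j) * x j)
        ∪ ((univ : Finset (Fin m → Bool)).filter fun b => t < ∑ j, sr (b j) * - x j) := by
    intro b hb
    rw [mem_filter] at hb
    rw [mem_union, mem_filter, mem_filter]
    rcases lt_abs.1 hb.2 with h | h
    · exact Or.inl ⟨mem_univ _, h⟩
    · right
      refine ⟨mem_univ _, ?_⟩
      simpa using h
  have h4 : (((univ : Finset (Fin m → Bool)).filter fun b => t < |∑ j, sr (b j) * x j|).card : ℝ)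
      ≤ (((univ : Finset (Fin m → Bool)).filter fun b => t < ∑ j, sr (b j) * x j).card : ℝ)
        + (((univ : Finset (Fin m → Bool)).filter fun b => t < ∑ j, sr (b j) * - x j).card : ℝ) := by
    exact_mod_cast (card_le_card h3).trans (card_union_le _ _)
  calc _ ≤ _ := h4
    _ ≤ 2 ^ m * Real.exp (-(t ^ 2 / (2 * N))) + 2 ^ m * Real.exp (-(t ^ 2 / (2 * N))) :=
        add_le_add h1 h2
    _ = _ := by ring

section pairs

variable {w m : ℕ} {p q : Fin m → Fin w}

/-- The coefficient of a pair. -/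
def co (p q : Fin m → Fin w) (S : Finset (Fin w)) (j : Fin m) : ℤ :=
  (if p j ∈ S then 1 else 0) - (if q j ∈ S then 1 else 0)

theorem co_sq (S : Finset (Fin w)) (j : Fin m) :
    (co p q S j) ^ 2 = if (p j ∈ S ↔ q j ∈ S) then 0 else 1 := by
  unfold co
  by_cases h1 : p j ∈ S <;> by_cases h2 : q j ∈ S <;> simp [h1, h2]

theorem pq_card (hp : Function.Injective p) (hq : Function.Injective q)
    (hpq : ∀ i j, p i ≠ q j) (D : Finset (Fin w)) :
    (univ.filter fun j => p j ∈ D).card + (univ.filter fun j => q j ∈ D).card ≤ D.card := by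
  rw [← card_image_of_injective _ hp, ← card_image_of_injective (univ.filter fun j => q j ∈ D) hq,
    ← card_union_of_disjoint]
  · apply card_le_card
    intro v hv
    rw [mem_union, mem_image, mem_image] at hv
    rcases hv with ⟨j, hj, rfl⟩ | ⟨j, hj, rfl⟩
    · exact (mem_filter.1 hj).2
    · exact (mem_filter.1 hj).2
  · rw [Finset.disjoint_left]
    intro v hv hv'
    rw [mem_image] at hv hv'
    obtain ⟨i, -, rfl⟩ := hv
    obtain ⟨j, -, h⟩ := hv'
    exact hpq i j h.symm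

theorem split_card (hp : Function.Injective p) (hq : Function.Injective q)
    (hpq : ∀ i j, p i ≠ q j) (Z S : Finset (Fin w)) :
    (univ.filter fun j => ¬ (p j ∈ Z ↔ q j ∈ Z)).card
      ≤ (univ.filter fun j => ¬ (p j ∈ S ↔ q j ∈ S)).card + (symmDiff Z S).card := by
  have h1 : (univ.filter fun j => ¬ (p j ∈ Z ↔ q j ∈ Z))
      ⊆ (univ.filter fun j => ¬ (p j ∈ S ↔ q j ∈ S))
        ∪ ((univ.filter fun j => p j ∈ symmDiff Z S) ∪ (univ.filter fun j => q j ∈ symmDiff Z S)) := by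
    intro j hj
    rw [mem_filter] at hj
    rw [mem_union, mem_union, mem_filter, mem_filter, mem_filter, mem_symmDiff, mem_symmDiff]
    have := hj.2
    simp only [mem_univ, true_and]
    tauto
  have h2 := pq_card hp hq hpq (symmDiff Z S)
  have h3 := card_le_card h1
  have h4 := card_union_le (univ.filter fun j => ¬ (p j ∈ S ↔ q j ∈ S))
    ((univ.filter fun j => p j ∈ symmDiff Z S) ∪ (univ.filter fun j => q j ∈ symmDiff Z S))
  have h5 := card_union_le (univ.filter fun j => p j ∈ symmDiff Z S)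
    (univ.filter fun j => q j ∈ symmDiff Z S)
  omega

theorem sg_lip (hp : Function.Injective p) (hq : Function.Injective q)
    (hpq : ∀ i j, p i ≠ q j) (Z S : Finset (Fin w)) (ε : Fin m → ℤ)
    (hε : ∀ j, ε j = 1 ∨ ε j = -1) :
    |sg p q ε S| ≤ |sg p q ε Z| + (symmDiff Z S).card := by
  have h1 : sg p q ε S - sg p q ε Z = ∑ j, ε j * (co p q S j - co p q Z j) := by
    unfold sg co
    rw [← sum_sub_distrib]
    exact sum_congr rfl fun j _ => by ring
  have h2 : |sg p q ε S - sg p q ε Z| ≤ ((symmDiff Z S).card : ℤ) := by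
    rw [h1]
    refine (abs_sum_le_sum_abs _ _).trans ?_
    have h3 : ∀ j : Fin m, |ε j * (co p q S j - co p q Z j)|
        ≤ (if p j ∈ symmDiff Z S then 1 else 0) + (if q j ∈ symmDiff Z S then 1 else 0) := by
      intro j
      have hab : |ε j| = 1 := by rcases hε j with h | h <;> simp [h]
      rw [abs_mul, hab, one_mul]
      unfold co
      simp only [mem_symmDiff]
      by_cases a1 : p j ∈ S <;> by_cases a2 : q j ∈ S <;> by_cases a3 : p j ∈ Z <;>
        by_cases a4 : q j ∈ Z <;> simp [a1, a2, a3, a4]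
    refine (sum_le_sum fun j _ => h3 j).trans ?_
    rw [sum_add_distrib, sum_boole, sum_boole]
    have := pq_card hp hq hpq (symmDiff Z S)
    exact_mod_cast this
  have h3 : sg p q ε S = sg p q ε Z + (sg p q ε S - sg p q ε Z) := by ring
  rw [h3]
  exact (abs_add_le _ _).trans (by linarith)

theorem sg_cast (b : Fin m → Bool) (S : Finset (Fin w)) :
    ((sg p q (fun j => si (b j)) S : ℤ) : ℝ) = ∑ j, sr (b j) * ((co p q S j : ℤ) : ℝ) := by
  unfold sg
  rw [Int.cast_sum]
  refine sum_congr rfl fun j _ => ?_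
  rw [Int.cast_mul, si_cast]
  rfl

open Classical in
theorem sg_tail (Z : Finset (Fin w)) {N t : ℝ} (hN : 0 < N) (ht : 0 ≤ t)
    (hs : (((univ : Finset (Fin m)).filter fun j => ¬ (p j ∈ Z ↔ q j ∈ Z)).card : ℝ) ≤ N) :
    (((univ : Finset (Fin m → Bool)).filter fun b =>
      t < ((|sg p q (fun j => si (b j)) Z| : ℤ) : ℝ)).card : ℝ)
      ≤ 2 ^ m * (2 * Real.exp (-(t ^ 2 / (2 * N)))) := by
  have h1 := tail (fun j => ((co p q Z j : ℤ) : ℝ)) hN ht (by
    refine le_trans (le_of_eq ?_) hs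
    have h2 : ∀ j : Fin m, ((co p q Z j : ℤ) : ℝ) ^ 2
        = if ¬ (p j ∈ Z ↔ q j ∈ Z) then 1 else 0 := by
      intro j
      have := co_sq (p := p) (q := q) Z j
      have h3 : ((co p q Z j : ℤ) : ℝ) ^ 2 = (((co p q Z j) ^ 2 : ℤ) : ℝ) := by push_cast; ring
      rw [h3, this]
      by_cases h : (p j ∈ Z ↔ q j ∈ Z) <;> simp [h]
    rw [sum_congr rfl fun j _ => h2 j, sum_boole])
  refine le_trans (le_of_eq ?_) h1
  congr 1
  congr 1
  ext b
  rw [mem_filter, mem_filter, Int.cast_abs, sg_cast]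

end pairs

end Uni

open Uni

/-- M8 (UNION BOUND). -/
theorem union_bound {w m : ℕ} (p q : Fin m → Fin w) (hp : Function.Injective p)
    (hq : Function.Injective q) (hpq : ∀ i j, p i ≠ q j) {Ω : Type} [Fintype Ω] [Nonempty Ω]
    {α : Type} (F : Finset α) (d : α → ℕ) (τ : α → Finset (Fin w))
    (Zs : Ω → ℕ → Finset (Finset (Fin w))) (B ρ e : ℕ → ℝ) (hρ0 : ∀ n, 0 < ρ n)
    (he0 : ∀ n, 0 ≤ e n) (he1 : ∀ S ∈ F, e (d S) ≤ d S / 5)
    (hB : ∀ ω n, ((Zs ω n).card : ℝ) ≤ B n)
    (hρ : ∀ S ∈ F, ∃ Ω' : Finset Ω, ρ (d S) * Fintype.card Ω ≤ (Ω'.card : ℝ) ∧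
      ∀ ω ∈ Ω', ∃ Z ∈ Zs ω (d S), ((symmDiff Z (τ S)).card : ℝ) ≤ e (d S))
    (hsplit : ∀ S ∈ F, ∀ J : Finset (Fin m), (∀ j ∈ J, ¬ (p j ∈ τ S ↔ q j ∈ τ S)) →
      J.card ≤ d S) (hd0 : ∀ S ∈ F, 0 < d S)
    (hnum : ∑ n ∈ F.image d, B n / ρ n *
      (2 * Real.exp (-((n / 5 - e n) ^ 2 / (2 * (n + e n))))) < 1) :
    ∃ ε : Fin m → ℤ, (∀ j, ε j = 1 ∨ ε j = -1) ∧ ∀ S ∈ F, 5 * |sg p q ε (τ S)| ≤ d S := by
  classical
  by_contra hcon
  push Not at hcon
  have hbad : ∀ b : Fin m → Bool, ∃ S ∈ F,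
      (d S : ℤ) < 5 * |sg p q (fun j => si (b j)) (τ S)| := fun b =>
    hcon _ fun j => si_or (b j)
  choose SS hSF hSbad using hbad
  have hΩ0 : (0 : ℝ) < Fintype.card Ω := by exact_mod_cast Fintype.card_pos
  -- the bad sign vectors for one set
  let bd : ℕ → Finset (Fin w) → Finset (Fin m → Bool) := fun n Z =>
    if ((((univ : Finset (Fin m)).filter fun j => ¬ (p j ∈ Z ↔ q j ∈ Z)).card : ℝ) ≤ n + e n) then
      (univ : Finset (Fin m → Bool)).filter fun b =>
        (n / 5 - e n : ℝ) < ((|sg p q (fun j => si (b j)) Z| : ℤ) : ℝ)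
    else ∅
  have hbd : ∀ n ∈ F.image d, ∀ Z, ((bd n Z).card : ℝ)
      ≤ 2 ^ m * (2 * Real.exp (-((n / 5 - e n) ^ 2 / (2 * (n + e n))))) := by
    intro n hn Z
    rw [mem_image] at hn
    obtain ⟨S, hS, rfl⟩ := hn
    by_cases h : ((((univ : Finset (Fin m)).filter fun j => ¬ (p j ∈ Z ↔ q j ∈ Z)).card : ℝ)
        ≤ d S + e (d S))
    · simp only [bd, if_pos h]
      refine sg_tail Z ?_ ?_ h
      · have h1 : (0 : ℝ) < d S := by exact_mod_cast hd0 S hS
        have h2 := he0 (d S)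
        linarith
      · have := he1 S hS
        linarith
    · simp only [bd, if_neg h, card_empty, Nat.cast_zero]
      positivity
  -- the sign vectors whose bad set has `n` boundary edges
  let E : ℕ → Finset (Fin m → Bool) := fun n => univ.filter fun b => d (SS b) = n
  have hE : ∀ n ∈ F.image d, ((E n).card : ℝ) ≤ 2 ^ m * (B n / ρ n *
      (2 * Real.exp (-((n / 5 - e n) ^ 2 / (2 * (n + e n)))))) := by
    intro n hn
    set X : ℝ := 2 * Real.exp (-((n / 5 - e n) ^ 2 / (2 * (n + e n)))) with hX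
    have hX0 : 0 ≤ X := by positivity
    -- count pairs
    have h1 : ∑ b ∈ E n, ρ n * (Fintype.card Ω : ℝ)
        ≤ ∑ b ∈ E n, (((univ : Finset Ω).filter fun ω => ∃ Z ∈ Zs ω n, b ∈ bd n Z).card : ℝ) := by
      refine sum_le_sum fun b hb => ?_
      have hdn : d (SS b) = n := (mem_filter.1 hb).2
      obtain ⟨Ω', hc, hZ⟩ := hρ (SS b) (hSF b)
      rw [hdn] at hc hZ
      refine hc.trans ?_
      have hsub : Ω' ⊆ (univ : Finset Ω).filter fun ω => ∃ Z ∈ Zs ω n, b ∈ bd n Z := by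
        intro ω hω
        obtain ⟨Z, hZ1, hZ2⟩ := hZ ω hω
        rw [mem_filter]
        refine ⟨mem_univ _, Z, hZ1, ?_⟩
        have hs1 : (((univ : Finset (Fin m)).filter fun j => ¬ (p j ∈ Z ↔ q j ∈ Z)).card : ℝ)
            ≤ n + e n := by
          have a1 := split_card hp hq hpq Z (τ (SS b))
          have a2 := hsplit (SS b) (hSF b)
            ((univ : Finset (Fin m)).filter fun j => ¬ (p j ∈ τ (SS b) ↔ q j ∈ τ (SS b)))
            (fun j hj => (mem_filter.1 hj).2)
          rw [hdn] at a2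
          have a3 : (((univ : Finset (Fin m)).filter fun j => ¬ (p j ∈ Z ↔ q j ∈ Z)).card : ℝ)
              ≤ (n : ℝ) + ((symmDiff Z (τ (SS b))).card : ℝ) := by
            exact_mod_cast a1.trans (Nat.add_le_add_right a2 _)
          linarith
        simp only [bd, if_pos hs1]
        rw [mem_filter]
        refine ⟨mem_univ _, ?_⟩
        have b1 := sg_lip hp hq hpq Z (τ (SS b)) (fun j => si (b j)) fun j => si_or (b j)
        have b2 := hSbad b
        rw [hdn] at b2
        have b3 : ((|sg p q (fun j => si (b j)) (τ (SS b))| : ℤ) : ℝ)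
            ≤ ((|sg p q (fun j => si (b j)) Z| : ℤ) : ℝ) + ((symmDiff Z (τ (SS b))).card : ℝ) := by
          exact_mod_cast b1
        have b4 : (n : ℝ) < 5 * ((|sg p q (fun j => si (b j)) (τ (SS b))| : ℤ) : ℝ) := by
          exact_mod_cast b2
        linarith
      exact_mod_cast card_le_card hsub
    have h2 : ∑ b ∈ E n, (((univ : Finset Ω).filter fun ω => ∃ Z ∈ Zs ω n, b ∈ bd n Z).card : ℝ)
        ≤ ∑ ω : Ω, ∑ Z ∈ Zs ω n, ((bd n Z).card : ℝ) := by
      have c1 : ∑ b ∈ E n, ((univ : Finset Ω).filter fun ω => ∃ Z ∈ Zs ω n, b ∈ bd n Z).card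
          = ∑ ω : Ω, ((E n).filter fun b => ∃ Z ∈ Zs ω n, b ∈ bd n Z).card := by
        simp_rw [card_filter]
        exact sum_comm
      have c2 : ∀ ω : Ω, ((E n).filter fun b => ∃ Z ∈ Zs ω n, b ∈ bd n Z).card
          ≤ ∑ Z ∈ Zs ω n, (bd n Z).card := by
        intro ω
        refine (card_le_card ?_).trans card_biUnion_le
        intro b hb
        rw [mem_filter] at hb
        rw [mem_biUnion]
        exact hb.2
      have c3 : ∑ b ∈ E n, ((univ : Finset Ω).filter fun ω => ∃ Z ∈ Zs ω n, b ∈ bd n Z).card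
          ≤ ∑ ω : Ω, ∑ Z ∈ Zs ω n, (bd n Z).card := by
        rw [c1]
        exact sum_le_sum fun ω _ => c2 ω
      exact_mod_cast c3
    have h3 : ∑ ω : Ω, ∑ Z ∈ Zs ω n, ((bd n Z).card : ℝ)
        ≤ (Fintype.card Ω : ℝ) * (B n * (2 ^ m * X)) := by
      have d1 : ∀ ω : Ω, ∑ Z ∈ Zs ω n, ((bd n Z).card : ℝ) ≤ B n * (2 ^ m * X) := by
        intro ω
        refine (sum_le_sum fun Z _ => hbd n hn Z).trans ?_
        rw [sum_const, nsmul_eq_mul]
        exact mul_le_mul_of_nonneg_right (hB ω n) (by positivity)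
      refine (sum_le_sum fun ω _ => d1 ω).trans ?_
      rw [sum_const, nsmul_eq_mul, card_univ]
    have h4 := h1.trans (h2.trans h3)
    rw [sum_const, nsmul_eq_mul] at h4
    have h5 : ((E n).card : ℝ) * ρ n ≤ B n * (2 ^ m * X) := by
      have : (Fintype.card Ω : ℝ) * (((E n).card : ℝ) * ρ n)
          ≤ (Fintype.card Ω : ℝ) * (B n * (2 ^ m * X)) := by
        calc (Fintype.card Ω : ℝ) * (((E n).card : ℝ) * ρ n)
            = ((E n).card : ℝ) * (ρ n * (Fintype.card Ω : ℝ)) := by ring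
          _ ≤ _ := h4
      exact le_of_mul_le_mul_left this hΩ0
    have h6 : ((E n).card : ℝ) ≤ (B n * (2 ^ m * X)) / ρ n := by
      rw [le_div_iff₀ (hρ0 n)]
      exact h5
    refine h6.trans (le_of_eq ?_)
    ring
  have htot : ((2 : ℝ) ^ m) ≤ 2 ^ m * ∑ n ∈ F.image d, B n / ρ n *
      (2 * Real.exp (-((n / 5 - e n) ^ 2 / (2 * (n + e n))))) := by
    have e1 : (univ : Finset (Fin m → Bool)) ⊆ (F.image d).biUnion E := by
      intro b _
      rw [mem_biUnion]
      exact ⟨d (SS b), mem_image_of_mem _ (hSF b), mem_filter.2 ⟨mem_univ _, rfl⟩⟩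
    have e2 : (univ : Finset (Fin m → Bool)).card ≤ ∑ n ∈ F.image d, (E n).card :=
      (card_le_card e1).trans card_biUnion_le
    have e3 : (univ : Finset (Fin m → Bool)).card = 2 ^ m := by
      rw [card_univ, Fintype.card_fun, Fintype.card_bool, Fintype.card_fin]
    rw [e3] at e2
    have e4 : ((2 : ℝ) ^ m) ≤ ∑ n ∈ F.image d, ((E n).card : ℝ) := by exact_mod_cast e2
    rw [mul_sum]
    exact e4.trans (sum_le_sum hE)
  have h2m : (0 : ℝ) < 2 ^ m := by positivity
  have := mul_lt_mul_of_pos_left hnum h2m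
  linarith

end Pool.Agent.Log5
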