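import Mathlib
import Pool.Agent.Work.MP_974d84_co_log.Defs
import Pool.Agent.Work.MP_974d84_co_exp.Grow

/-!
# Sparse sets are large when the girth is large
-/

set_option linter.unusedSectionVars false

namespace Pool.Agent.Log5

open Finset SimpleGraph Pool.Agent.Exp
open Pool.Agent.Work.MP_314beb_co (cut inside)

variable {V : Type} [Fintype V] [DecidableEq V] {G : SimpleGraph V} [DecidableRel G.Adj]

/-- A parent function for the balls around `v`. -/
theorem exists_parent (v : V) (j : ℕ) : ∃ (lv : V → ℕ) (par : V → V),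
    (∀ u ∈ Bl G.Adj j v, u ≠ v → par u ∈ Bl G.Adj j v ∧ G.Adj (par u) u ∧ lv (par u) < lv u) ∧
    (∀ u ∈ Bl G.Adj j v, lv u ≤ j) := by
  classical
  let lv : V → ℕ := fun u => if h : ∃ n, u ∈ Bl G.Adj n v then Nat.find h else 0
  have hlv : ∀ u n, u ∈ Bl G.Adj n v → u ∈ Bl G.Adj (lv u) v ∧ lv u ≤ n ∧
      ∀ m < lv u, u ∉ Bl G.Adj m v := by
    intro u n hn
    have h : ∃ n, u ∈ Bl G.Adj n v := ⟨n, hn⟩
    have e : lv u = Nat.find h := by simp only [lv, dif_pos h]
    rw [e]
    exact ⟨Nat.find_spec h, Nat.find_min' h hn, fun m hm => Nat.find_min h hm⟩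
  have hp : ∀ u : V, ∃ p : V, u ∈ Bl G.Adj j v → u ≠ v →
      p ∈ Bl G.Adj j v ∧ G.Adj p u ∧ lv p < lv u := by
    intro u
    by_cases hu : u ∈ Bl G.Adj j v
    · by_cases huv : u = v
      · exact ⟨u, fun _ h => absurd huv h⟩
      · obtain ⟨h1, h2, h3⟩ := hlv u j hu
        rcases Nat.eq_zero_or_pos (lv u) with h0 | h0
        · rw [h0] at h1
          exact absurd (mem_Bl_zero.1 h1) huv
        · obtain ⟨m, hm⟩ := Nat.exists_eq_succ_of_ne_zero h0.ne'
          rw [hm] at h1
          rcases mem_Bl_succ.1 h1 with h4 | ⟨p, hp, hpu⟩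
          · exact absurd h4 (h3 m (by omega))
          · refine ⟨p, fun _ _ => ⟨Bl_mono (by omega) v hp, hpu, ?_⟩⟩
            have := (hlv p m hp).2.1
            omega
    · exact ⟨u, fun h => absurd h hu⟩
  choose par hpar using hp
  exact ⟨lv, par, fun u hu huv => hpar u hu huv, fun u hu => (hlv u j hu).2.1⟩

/-- Small balls have only parent edges. -/
theorem inside_ball {k : ℕ} (hg : Gir G k) {j : ℕ} (hj : 2 * j + 2 < k) (v : V) (B : Finset V)
    (hB : B ⊆ Bl G.Adj j v) : (inside G B).card ≤ 2 * B.card := by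
  classical
  obtain ⟨lv, par, hpar, hlv⟩ := exists_parent (G := G) v j
  -- paths to the root
  have hpath : ∀ n : ℕ, ∀ u ∈ Bl G.Adj j v, lv u ≤ n → ∃ P : Finset V, u ∈ P ∧ v ∈ P ∧
      P.card ≤ n + 1 ∧ (∀ x ∈ P, x ∈ Bl G.Adj j v) ∧ ∀ x ∈ P, x ≠ v → par x ∈ P := by
    intro n
    induction n with
    | zero =>
      intro u hu hn
      have huv : u = v := by
        by_contra h
        have := (hpar u hu h).2.2
        omega
      subst huv
      refine ⟨{u}, mem_singleton_self u, mem_singleton_self u, by simp, ?_, ?_⟩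
      · intro x hx
        rw [mem_singleton.1 hx]
        exact hu
      · intro x hx hxu
        exact absurd (mem_singleton.1 hx) hxu
    | succ n ih =>
      intro u hu hn
      by_cases huv : u = v
      · subst huv
        refine ⟨{u}, mem_singleton_self u, mem_singleton_self u, by simp, ?_, ?_⟩
        · intro x hx
          rw [mem_singleton.1 hx]
          exact hu
        · intro x hx hxu
          exact absurd (mem_singleton.1 hx) hxu
      · obtain ⟨h1, h2, h3⟩ := hpar u hu huv
        obtain ⟨P, p1, p2, p3, p4, p5⟩ := ih (par u) h1 (by omega)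
        refine ⟨insert u P, mem_insert_self _ _, mem_insert_of_mem p2, ?_, ?_, ?_⟩
        · exact (card_insert_le _ _).trans (by omega)
        · intro x hx
          rcases mem_insert.1 hx with rfl | hx
          · exact hu
          · exact p4 x hx
        · intro x hx hxv
          rcases mem_insert.1 hx with rfl | hx
          · exact mem_insert_of_mem p1
          · exact mem_insert_of_mem (p5 x hx hxv)
  -- every edge is a parent edge
  have hedge : ∀ x ∈ Bl G.Adj j v, ∀ y ∈ Bl G.Adj j v, G.Adj x y →
      (x ≠ v ∧ y = par x) ∨ (y ≠ v ∧ x = par y) := by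
    intro x hx y hy hxy
    by_contra hcon
    push Not at hcon
    obtain ⟨P, p1, p2, p3, p4, p5⟩ := hpath j x hx (hlv x hx)
    obtain ⟨Q, q1, q2, q3, q4, q5⟩ := hpath j y hy (hlv y hy)
    set U := P ∪ Q with hU
    have hUb : ∀ z ∈ U, z ∈ Bl G.Adj j v := fun z hz => by
      rcases mem_union.1 hz with h | h
      · exact p4 z h
      · exact q4 z h
    have hUp : ∀ z ∈ U, z ≠ v → par z ∈ U := fun z hz hzv => by
      rcases mem_union.1 hz with h | h
      · exact mem_union_left _ (p5 z h hzv)
      · exact mem_union_right _ (q5 z h hzv)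
    have hUc : U.card < k := by
      have h0 : U.card ≤ P.card + Q.card := card_union_le P Q
      omega
    have hac := hg U hUc
    have h1 := inside_of_acyclic G (A := U) ⟨x, mem_union_left _ p1⟩ hac
    -- many edges inside
    let E1 : Finset (V × V) := (U.erase v).image fun z => (z, par z)
    let E2 : Finset (V × V) := (U.erase v).image fun z => (par z, z)
    have c1 : E1.card = (U.erase v).card :=
      card_image_of_injective _ fun a b h => (Prod.ext_iff.1 h).1
    have c2 : E2.card = (U.erase v).card :=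
      card_image_of_injective _ fun a b h => (Prod.ext_iff.1 h).2
    have c0 : (U.erase v).card + 1 = U.card := card_erase_add_one (mem_union_left _ p2)
    have d12 : Disjoint E1 E2 := by
      rw [Finset.disjoint_left]
      intro p hp hp'
      obtain ⟨z, hz, rfl⟩ := mem_image.1 hp
      obtain ⟨z', hz', he⟩ := mem_image.1 hp'
      have e1 := (Prod.ext_iff.1 he).1
      have e2 := (Prod.ext_iff.1 he).2
      simp only at e1 e2
      have l1 := (hpar z (hUb z (mem_of_mem_erase hz)) (ne_of_mem_erase hz)).2.2
      have l2 := (hpar z' (hUb z' (mem_of_mem_erase hz')) (ne_of_mem_erase hz')).2.2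
      rw [e1] at l2
      rw [← e2] at l1
      omega
    have n1 : (x, y) ∉ E1 ∪ E2 := by
      intro h
      rcases mem_union.1 h with h | h
      · obtain ⟨z, hz, he⟩ := mem_image.1 h
        have e1 := (Prod.ext_iff.1 he).1
        have e2 := (Prod.ext_iff.1 he).2
        simp only at e1 e2
        subst e1
        exact hcon.1 (ne_of_mem_erase hz) e2.symm
      · obtain ⟨z, hz, he⟩ := mem_image.1 h
        have e1 := (Prod.ext_iff.1 he).1
        have e2 := (Prod.ext_iff.1 he).2
        simp only at e1 e2
        subst e2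
        exact hcon.2 (ne_of_mem_erase hz) e1.symm
    have n2 : (y, x) ∉ insert (x, y) (E1 ∪ E2) := by
      intro h
      rcases mem_insert.1 h with h | h
      · exact hxy.ne (Prod.ext_iff.1 h).2
      · rcases mem_union.1 h with h | h
        · obtain ⟨z, hz, he⟩ := mem_image.1 h
          have e1 := (Prod.ext_iff.1 he).1
          have e2 := (Prod.ext_iff.1 he).2
          simp only at e1 e2
          subst e1
          exact hcon.2 (ne_of_mem_erase hz) e2.symm
        · obtain ⟨z, hz, he⟩ := mem_image.1 h
          have e1 := (Prod.ext_iff.1 he).1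
          have e2 := (Prod.ext_iff.1 he).2
          simp only at e1 e2
          subst e2
          exact hcon.1 (ne_of_mem_erase hz) e1.symm
    have hsub : insert (y, x) (insert (x, y) (E1 ∪ E2)) ⊆ inside G U := by
      intro p hp
      rw [mem_inside]
      rcases mem_insert.1 hp with rfl | hp
      · exact ⟨mem_union_right _ q1, mem_union_left _ p1, hxy.symm⟩
      · rcases mem_insert.1 hp with rfl | hp
        · exact ⟨mem_union_left _ p1, mem_union_right _ q1, hxy⟩
        · rcases mem_union.1 hp with hp | hp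
          · obtain ⟨z, hz, rfl⟩ := mem_image.1 hp
            have hzU := mem_of_mem_erase hz
            have hzv := ne_of_mem_erase hz
            exact ⟨hzU, hUp z hzU hzv, (hpar z (hUb z hzU) hzv).2.1.symm⟩
          · obtain ⟨z, hz, rfl⟩ := mem_image.1 hp
            have hzU := mem_of_mem_erase hz
            have hzv := ne_of_mem_erase hz
            exact ⟨hUp z hzU hzv, hzU, (hpar z (hUb z hzU) hzv).2.1⟩
    have h2 := card_le_card hsub
    rw [card_insert_of_notMem n2, card_insert_of_notMem n1, card_union_of_disjoint d12,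
      c1, c2] at h2
    omega
  have hsub : inside G B ⊆ (B.image fun z => (z, par z)) ∪ (B.image fun z => (par z, z)) := by
    rintro ⟨x, y⟩ hp
    rw [mem_inside] at hp
    rw [mem_union, mem_image, mem_image]
    rcases hedge x (hB hp.1) y (hB hp.2.1) hp.2.2 with h | h
    · exact Or.inl ⟨x, hp.1, by rw [h.2]⟩
    · exact Or.inr ⟨y, hp.2.1, by rw [h.2]⟩
  have h1 := card_le_card hsub
  have h2 := card_union_le (B.image fun z => (z, par z)) (B.image fun z => (par z, z))
  have h3 : (B.image fun z => (z, par z)).card ≤ B.card := card_image_le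
  have h4 : (B.image fun z => (par z, z)).card ≤ B.card := card_image_le
  omega

/-- A subset and its difference. -/
theorem dd_sdiff {A B : Finset V} (hBA : B ⊆ A) :
    dd G (A \ B) + ((cut G B).filter fun p => p.2 ∉ A).card
      = dd G A + ((cut G B).filter fun p => p.2 ∈ A).card := by
  classical
  let X : Finset (V × V) := (cut G A).filter fun p => p.1 ∉ B
  have e1 : dd G A = X.card + ((cut G B).filter fun p => p.2 ∉ A).card := by
    unfold dd
    rw [← card_filter_add_card_filter_not (s := cut G A) (fun p => p.1 ∉ B)]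
    congr 1
    congr 1
    ext p
    simp only [mem_filter, mem_cut, not_not]
    constructor
    · rintro ⟨⟨h1, h2, h3⟩, h4⟩
      exact ⟨⟨h4, fun h => h2 (hBA h), h3⟩, h2⟩
    · rintro ⟨⟨h1, h2, h3⟩, h4⟩
      exact ⟨⟨hBA h1, h4, h3⟩, h1⟩
  have e2 : dd G (A \ B) = X.card + ((cut G B).filter fun p => p.2 ∈ A).card := by
    unfold dd
    rw [← card_filter_add_card_filter_not (s := cut G (A \ B)) (fun p => p.2 ∉ A)]
    congr 1
    · congr 1
      ext p
      simp only [X, mem_filter, mem_cut, mem_sdiff]
      constructor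
      · rintro ⟨⟨h1, h2, h3⟩, h4⟩
        exact ⟨⟨h1.1, h4, h3⟩, h1.2⟩
      · rintro ⟨⟨h1, h2, h3⟩, h4⟩
        exact ⟨⟨⟨h1, h4⟩, fun h => h2 h.1, h3⟩, h2⟩
    · refine card_bij' (fun p _ => (p.2, p.1)) (fun p _ => (p.2, p.1)) ?_ ?_ ?_ ?_
      · rintro p hp
        simp only [mem_filter, mem_cut, mem_sdiff, not_not] at hp ⊢
        obtain ⟨⟨⟨h1, h1'⟩, h2, h3⟩, h4⟩ := hp
        refine ⟨⟨?_, h1', h3.symm⟩, h1⟩
        by_contra h5
        exact h2 ⟨h4, h5⟩
      · rintro p hp
        simp only [mem_filter, mem_cut, mem_sdiff, not_not] at hp ⊢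
        obtain ⟨⟨h1, h2, h3⟩, h4⟩ := hp
        exact ⟨⟨⟨h4, h2⟩, fun h => h.2 h1, h3.symm⟩, hBA h1⟩
      · rintro p _; rfl
      · rintro p _; rfl
  omega

/-- Sparse sets are large. -/
theorem sparse_large (h3 : ∀ v, G.degree v = 3) {k : ℕ} (hg : Gir G k) {c : ℝ} (hc : c ≤ 1 / 2)
    {j : ℕ} (hj : 2 * j + 2 < k) {S : Finset V} (hS : (dd G S : ℝ) < c * S.card) :
    (13 / 12 : ℝ) ^ j ≤ S.card := by
  classical
  -- a minimal sparse subset
  obtain ⟨A, hA1, hA2⟩ := ((S.powerset).filter fun A => (dd G A : ℝ) < c * A.card).exists_min_image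
    (fun A => A.card) ⟨S, mem_filter.2 ⟨mem_powerset_self S, hS⟩⟩
  rw [mem_filter, mem_powerset] at hA1
  obtain ⟨hAS, hAsp⟩ := hA1
  have hmin : ∀ B ⊆ A, B.card < A.card → c * (B.card : ℝ) ≤ dd G B := by
    intro B hB hlt
    by_contra h
    push Not at h
    have := hA2 B (mem_filter.2 ⟨mem_powerset.2 (hB.trans hAS), h⟩)
    omega
  obtain ⟨v, hv⟩ : A.Nonempty := by
    rw [nonempty_iff_ne_empty]
    rintro rfl
    simp at hAsp
    have : (0 : ℝ) ≤ dd G (∅ : Finset V) := Nat.cast_nonneg _
    linarith
  have key : ∀ i ≤ j, (13 / 12 : ℝ) ^ i ≤ (Bl (RW G A) i v).card := by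
    intro i
    induction i with
    | zero =>
      intro _
      rw [pow_zero]
      have : 0 < (Bl (RW G A) 0 v).card := card_pos.2 ⟨v, Bl_self 0 v⟩
      exact_mod_cast this
    | succ i ih =>
      intro hi
      have h1 := ih (by omega)
      set B := Bl (RW G A) i v with hB
      have hBA : B ⊆ A := Bl_RW_sub hv i
      have hBb : B ⊆ Bl G.Adj j v :=
        (Bl_rel (fun _ _ h => h.1) i v).trans (Bl_mono (by omega) v)
      have h2 := inside_ball hg hj v B hBb
      have h4 := dd_add_inside G h3 B
      have h5 := dd_sdiff (G := G) hBA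
      have hvB : v ∈ B := Bl_self i v
      have h6 : (A \ B).card + B.card = A.card := card_sdiff_add_card_eq_card hBA
      have hBpos : 0 < B.card := card_pos.2 ⟨v, hvB⟩
      have h7 := hmin (A \ B) sdiff_subset (by omega)
      set a := ((cut G B).filter fun p => p.2 ∈ A).card with ha
      set b := ((cut G B).filter fun p => p.2 ∉ A).card with hb
      have h8 : a + b = dd G B := by
        unfold dd
        exact card_filter_add_card_filter_not (s := cut G B) (fun p => p.2 ∈ A)
      -- growth
      have h9 : a ≤ 3 * (Bl (RW G A) (i + 1) v \ B).card := by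
        have hsub : (cut G B).filter (fun p => p.2 ∈ A) ⊆
            (Bl (RW G A) (i + 1) v \ B).biUnion fun y =>
              (G.neighborFinset y).image fun x => (x, y) := by
          rintro ⟨x, y⟩ hp
          rw [mem_filter, mem_cut] at hp
          obtain ⟨⟨q1, q2, q3⟩, q4⟩ := hp
          simp only at q1 q2 q3 q4
          rw [mem_biUnion]
          refine ⟨y, mem_sdiff.2 ⟨mem_Bl_succ.2 (Or.inr ⟨x, q1, q3, hBA q1, q4⟩), q2⟩, ?_⟩
          rw [mem_image]
          exact ⟨x, (G.mem_neighborFinset y x).2 q3.symm, rfl⟩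
        refine (card_le_card hsub).trans ?_
        rw [mul_comm]
        refine card_biUnion_le_card_mul _ _ 3 fun y _ => ?_
        refine card_image_le.trans (le_of_eq ?_)
        rw [card_neighborFinset_eq_degree, h3]
      have h10 : (Bl (RW G A) (i + 1) v \ B).card + B.card = (Bl (RW G A) (i + 1) v).card :=
        card_sdiff_add_card_eq_card (Bl_mono (Nat.le_succ i) v)
      have r1 : (B.card : ℝ) ≤ dd G B := by
        have : B.card ≤ dd G B := by omega
        exact_mod_cast this
      have r2 : (a : ℝ) + b = dd G B := by exact_mod_cast h8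
      have r3 : (dd G (A \ B) : ℝ) + b = dd G A + a := by exact_mod_cast h5
      have r4 : ((A \ B).card : ℝ) + B.card = A.card := by exact_mod_cast h6
      have r5 : (a : ℝ) ≤ 3 * (Bl (RW G A) (i + 1) v \ B).card := by exact_mod_cast h9
      have r6 : ((Bl (RW G A) (i + 1) v \ B).card : ℝ) + B.card
          = (Bl (RW G A) (i + 1) v).card := by exact_mod_cast h10
      have r7 : c * ((A \ B).card : ℝ) = c * A.card - c * B.card := by
        rw [← r4]; ring
      have r8 : c * (B.card : ℝ) ≤ 1 / 2 * B.card :=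
        mul_le_mul_of_nonneg_right hc (Nat.cast_nonneg _)
      have r9 : (13 / 12 : ℝ) * B.card ≤ (Bl (RW G A) (i + 1) v).card := by
        linarith
      calc (13 / 12 : ℝ) ^ (i + 1) = 13 / 12 * (13 / 12) ^ i := by ring
        _ ≤ 13 / 12 * B.card := by linarith
        _ ≤ _ := r9
  refine (key j le_rfl).trans ?_
  exact_mod_cast (card_le_card (Bl_RW_sub hv j)).trans (card_le_card hAS)

end Pool.Agent.Log5
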