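import Mathlib
import Pool.Agent.Work.MP_974d84_co_log.Defs
import Pool.Agent.Work.MP_974d84_co_log.Steiner

/-!
# Deep terminals

Every tree `θ (t i)` gets a random subtree which starts at depth `R₁`.  With a probability which
is not too small the set `S` splits none of these subtrees, and then the Steiner version of
Karger's bound leaves few possible traces.
-/

set_option linter.unusedSectionVars false

namespace Pool.Agent.Log5

open Finset SimpleGraph Pool.Agent.Exp
open Pool.Agent.Work.MP_314beb_co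

section codes

theorem len_finite (m : ℕ) : {c : List Bool | c.length ≤ m}.Finite := List.finite_length_le Bool m

/-- Codes of length at most `m`. -/
noncomputable def Cd (m : ℕ) : Finset (List Bool) := (len_finite m).toFinset

theorem mem_Cd {m : ℕ} {c : List Bool} : c ∈ Cd m ↔ c.length ≤ m := by
  simp [Cd]

/-- The number of leaves above or below a node. -/
theorem card_kill (n : ℕ) (d : List Bool) :
    ((univ : Finset (List.Vector Bool n)).filter fun ω => d <:+ ω.toList ∨ ω.toList <:+ d).card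
      ≤ 2 ^ (n - d.length) := by
  classical
  have h : (univ : Finset (List.Vector Bool (n - d.length))).card = 2 ^ (n - d.length) := by
    rw [card_univ, card_vector, Fintype.card_bool]
  rw [← h]
  refine card_le_card_of_injOn
    (fun ω => ⟨ω.toList.take (n - d.length), by simp⟩) (fun _ _ => mem_univ _) ?_
  intro ω hω ω' hω' he
  have he' : ω.toList.take (n - d.length) = ω'.toList.take (n - d.length) :=
    congrArg Subtype.val he
  have key : ∀ x : List.Vector Bool n, (d <:+ x.toList ∨ x.toList <:+ d) →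
      x.toList.drop (n - d.length) = d.drop (d.length - n) := by
    intro x hx
    have hlen : x.toList.length = n := x.toList_length
    rcases hx with ⟨e, hx⟩ | ⟨e, hx⟩
    · have h1 : e.length + d.length = n := by rw [← hlen, ← hx, List.length_append]
      have h2 : n - d.length = e.length := by omega
      have h3 : d.length - n = 0 := by omega
      rw [← hx, h2, List.drop_left, h3, List.drop_zero]
    · have h1 : e.length + n = d.length := by rw [← hx, List.length_append, hlen]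
      have h2 : n - d.length = 0 := by omega
      have h3 : d.length - n = e.length := by omega
      rw [h2, h3, List.drop_zero]
      conv_rhs => rw [← hx]
      rw [List.drop_left]
  have hω1 := key ω (by simpa using hω)
  have hω2 := key ω' (by simpa using hω')
  have : ω.toList = ω'.toList := by
    rw [← List.take_append_drop (n - d.length) ω.toList,
      ← List.take_append_drop (n - d.length) ω'.toList, he', hω1, hω2]
  exact Subtype.ext this

/-- The number of subsets with at most `a` members. -/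
theorem card_small (w a : ℕ) :
    ((univ : Finset (Finset (Fin w))).filter fun H => H.card ≤ a).card ≤ (w + 1) ^ a := by
  classical
  have h : (univ : Finset (Fin a → Option (Fin w))).card = (w + 1) ^ a := by
    rw [card_univ, Fintype.card_fun, Fintype.card_option, Fintype.card_fin, Fintype.card_fin]
  rw [← h]
  refine (card_le_card ?_).trans
    (card_image_le (f := fun g : Fin a → Option (Fin w) => univ.filter fun i => ∃ j, g j = some i))
  intro H hH
  have hH' : H.card ≤ a := by simpa using hH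
  rw [mem_image]
  refine ⟨fun j => if hj : (j : ℕ) < H.card then some (H.equivFin.symm ⟨j, hj⟩ : Fin w) else none,
    mem_univ _, ?_⟩
  ext i
  simp only [mem_filter, mem_univ, true_and]
  constructor
  · rintro ⟨j, hj⟩
    by_cases hj' : (j : ℕ) < H.card
    · rw [dif_pos hj'] at hj
      have := Option.some.inj hj
      rw [← this]
      exact (H.equivFin.symm ⟨j, hj'⟩).2
    · rw [dif_neg hj'] at hj
      exact absurd hj (by simp)
  · intro hi
    refine ⟨⟨H.equivFin ⟨i, hi⟩, (H.equivFin ⟨i, hi⟩).2.trans_le hH'⟩, ?_⟩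
    rw [dif_pos (H.equivFin ⟨i, hi⟩).2]
    simp

end codes

variable {V : Type} [Fintype V] [DecidableEq V] {G : SimpleGraph V} [DecidableRel G.Adj]

/-- Codes of the split edges of the tree at `v`. -/
noncomputable def spl (θ : V → List Bool → V) (R : ℕ) (S : Finset V) (v : V) :
    Finset (List Bool) :=
  (Cd R).filter fun d => d ≠ [] ∧ ¬ (θ v d ∈ S ↔ θ v d.tail ∈ S)

theorem mem_spl {θ : V → List Bool → V} {R : ℕ} {S : Finset V} {v : V} {d : List Bool} :
    d ∈ spl θ R S v ↔ d.length ≤ R ∧ d ≠ [] ∧ ¬ (θ v d ∈ S ↔ θ v d.tail ∈ S) := by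
  simp only [spl, mem_filter, mem_Cd]

theorem sum_spl {R : ℕ} {θ : V → List Bool → V} (hθ : IsTree G R θ) {w : ℕ} (t : Fin w → V)
    (ht : ∀ i j, i ≠ j → Disjoint (Bl G.Adj R (t i)) (Bl G.Adj R (t j))) (S : Finset V) :
    ∑ i, (spl θ R S (t i)).card ≤ dd G S := by
  classical
  rw [← card_sigma]
  unfold dd
  have hadj : ∀ v (d : List Bool), d ≠ [] → G.Adj (θ v d.tail) (θ v d) := by
    intro v d hd
    obtain ⟨b, c, rfl⟩ := List.exists_cons_of_ne_nil hd
    exact hθ.adj v b c
  have hball : ∀ i (d : List Bool), d.length ≤ R → θ (t i) d ∈ Bl G.Adj R (t i) :=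
    fun i d hd => Bl_mono hd _ (hθ.ball _ _)
  have heq : ∀ i j (d d' : List Bool), d.length ≤ R → d'.length ≤ R →
      θ (t i) d = θ (t j) d' → i = j ∧ d = d' := by
    intro i j d d' hd hd' he
    have hij : i = j := by
      by_contra hne
      exact (Finset.disjoint_left.1 (ht i j hne)) (hball i d hd) (he ▸ hball j d' hd')
    subst hij
    exact ⟨rfl, hθ.inj _ _ _ hd hd' he⟩
  refine card_le_card_of_injOn
    (fun p => if θ (t p.1) p.2 ∈ S then (θ (t p.1) p.2, θ (t p.1) p.2.tail)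
      else (θ (t p.1) p.2.tail, θ (t p.1) p.2)) ?_ ?_
  · rintro ⟨i, d⟩ hp
    have hd := mem_spl.1 (mem_sigma.1 hp).2
    simp only [mem_coe]
    by_cases h : θ (t i) d ∈ S
    · rw [if_pos h, mem_cut]
      exact ⟨h, by tauto, (hadj _ _ hd.2.1).symm⟩
    · rw [if_neg h, mem_cut]
      exact ⟨by tauto, h, hadj _ _ hd.2.1⟩
  · rintro ⟨i, d⟩ hp ⟨j, d'⟩ hp' he
    have hd := mem_spl.1 (mem_sigma.1 hp).2
    have hd' := mem_spl.1 (mem_sigma.1 hp').2
    simp only at hd hd' he
    have hl : d.tail.length = d.length - 1 := List.length_tail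
    have hl' : d'.tail.length = d'.length - 1 := List.length_tail
    have hpos : 0 < d.length := List.length_pos_of_ne_nil hd.2.1
    have hpos' : 0 < d'.length := List.length_pos_of_ne_nil hd'.2.1
    have fin1 : θ (t i) d = θ (t j) d' → (⟨i, d⟩ : (_ : Fin w) × List Bool) = ⟨j, d'⟩ := by
      intro h
      obtain ⟨h1, h2⟩ := heq _ _ _ _ hd.1 hd'.1 h
      rw [h1, h2]
    have fin2 : θ (t i) d = θ (t j) d'.tail → θ (t i) d.tail = θ (t j) d' → False := by
      intro h1 h2
      have e1 := (heq _ _ _ _ hd.1 (by omega) h1).2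
      have e2 := (heq _ _ _ _ (by omega) hd'.1 h2).2
      have l1 := congrArg List.length e1
      have l2 := congrArg List.length e2
      omega
    by_cases h : θ (t i) d ∈ S
    · by_cases h' : θ (t j) d' ∈ S
      · rw [if_pos h, if_pos h'] at he
        exact fin1 (congrArg Prod.fst he)
      · rw [if_pos h, if_neg h'] at he
        exact (fin2 (congrArg Prod.fst he) (congrArg Prod.snd he)).elim
    · by_cases h' : θ (t j) d' ∈ S
      · rw [if_neg h, if_pos h'] at he
        exact (fin2 (congrArg Prod.snd he) (congrArg Prod.fst he)).elim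
      · rw [if_neg h, if_neg h'] at he
        exact fin1 (congrArg Prod.snd he)

/-- The terminal: the subtree at `ω`. -/
noncomputable def sbt (θ : V → List Bool → V) (m : ℕ) (v : V) (ω : List Bool) : Finset V :=
  (Cd m).image fun c => θ v (c ++ ω)

theorem mem_sbt {θ : V → List Bool → V} {m : ℕ} {v : V} {ω : List Bool} {x : V} :
    x ∈ sbt θ m v ω ↔ ∃ c : List Bool, c.length ≤ m ∧ θ v (c ++ ω) = x := by
  simp only [sbt, mem_image, mem_Cd]

theorem sbt_card {R R₁ : ℕ} {θ : V → List Bool → V} (hθ : IsTree G R θ) (hR : R₁ ≤ R) (v : V)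
    {ω : List Bool} (hω : ω.length = R₁) : 2 ^ (R - R₁) ≤ (sbt θ (R - R₁) v ω).card := by
  classical
  have h : (univ : Finset (List.Vector Bool (R - R₁))).card = 2 ^ (R - R₁) := by
    rw [card_univ, card_vector, Fintype.card_bool]
  rw [← h]
  refine card_le_card_of_injOn (fun c => θ v (c.toList ++ ω)) ?_ ?_
  · intro c _
    exact mem_sbt.2 ⟨c.toList, by simp, rfl⟩
  · intro c _ c' _ he
    have h1 := hθ.inj v (c.toList ++ ω) (c'.toList ++ ω)
      (by rw [List.length_append, hω, c.toList_length]; omega)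
      (by rw [List.length_append, hω, c'.toList_length]; omega) he
    exact Subtype.ext (List.append_cancel_right h1)

theorem sbt_same {θ : V → List Bool → V} {S : Finset V} {v : V} {ω : List Bool} {R R₁ : ℕ}
    (hω : ω.length = R₁) (hR : R₁ ≤ R) (h : ∀ d ∈ spl θ R S v, ¬ ω <:+ d) (c : List Bool)
    (hc : c.length ≤ R - R₁) : θ v (c ++ ω) ∈ S ↔ θ v ω ∈ S := by
  induction c with
  | nil => rfl
  | cons b c ih =>
    have hc' : c.length + 1 ≤ R - R₁ := by simpa using hc
    rw [← ih (by omega)]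
    by_contra hne
    refine h (b :: c ++ ω) (mem_spl.2 ⟨?_, by simp, by simpa using hne⟩) (List.suffix_append _ _)
    simp only [List.cons_append, List.length_cons, List.length_append]
    omega

theorem root_same {θ : V → List Bool → V} {S : Finset V} {v : V} {ω : List Bool} {R : ℕ}
    (hω : ω.length ≤ R) (h0 : θ v [] = v) (h : ∀ d ∈ spl θ R S v, ¬ d <:+ ω) :
    θ v ω ∈ S ↔ v ∈ S := by
  have key : ∀ s : List Bool, s <:+ ω → (θ v s ∈ S ↔ v ∈ S) := by
    intro s
    induction s with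
    | nil => intro _; rw [h0]
    | cons b s ih =>
      intro hs
      rw [← ih ((List.suffix_cons b s).trans hs)]
      by_contra hne
      exact h (b :: s) (mem_spl.2 ⟨hs.length_le.trans hω, by simp, by simpa using hne⟩) hs
  exact key ω List.suffix_rfl

theorem sbt_clean {θ : V → List Bool → V} {S : Finset V} {v : V} {ω : List Bool} {R R₁ : ℕ}
    (hω : ω.length = R₁) (hR : R₁ ≤ R) (h : ∀ d ∈ spl θ R S v, ¬ ω <:+ d) :
    (θ v ω ∈ S → sbt θ (R - R₁) v ω ⊆ S) ∧ (θ v ω ∉ S → Disjoint (sbt θ (R - R₁) v ω) S) := by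
  constructor
  · intro h1 x hx
    obtain ⟨c, hc, rfl⟩ := mem_sbt.1 hx
    exact (sbt_same hω hR h c hc).2 h1
  · intro h1
    rw [Finset.disjoint_left]
    intro x hx
    obtain ⟨c, hc, rfl⟩ := mem_sbt.1 hx
    exact fun h2 => h1 ((sbt_same hω hR h c hc).1 h2)

theorem mem_sbt_self (θ : V → List Bool → V) (m : ℕ) (v : V) (ω : List Bool) :
    θ v ω ∈ sbt θ m v ω := mem_sbt.2 ⟨[], by simp, rfl⟩

/-- Few traces for a given system of terminals. -/
theorem few_traces (h3 : ∀ v, G.degree v = 3) {K k n w : ℕ} (hK0 : 0 < K) (hKk : K ≤ k)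
    (hc : CycConn G k) (Y : Fin w → Finset V) (hY : ∀ i, K ≤ (Y i).card) (H : Finset (Fin w))
    (P : Finset (Finset (Fin w)))
    (hP : ∀ Z ∈ P, ∃ S : Finset V, dd G S = n ∧ (∀ i, i ∉ H → Y i ⊆ S ∨ Disjoint (Y i) S) ∧
      Z = univ.filter fun i => i ∉ H ∧ Y i ⊆ S) :
    P.card ≤ (2 * (w + 1)) ^ (8 * n / K + 1) := by
  classical
  choose! g hg using hP
  have hinj : ∀ Z ∈ P, ∀ Z' ∈ P, (∀ i ∈ Hᶜ, (Y i ⊆ g Z ↔ Y i ⊆ g Z')) → Z = Z' := by
    intro Z hZ Z' hZ' h
    rw [(hg Z hZ).2.2, (hg Z' hZ').2.2]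
    ext i
    simp only [mem_filter, mem_univ, true_and]
    constructor
    · rintro ⟨h1, h2⟩
      exact ⟨h1, (h i (mem_compl.2 h1)).1 h2⟩
    · rintro ⟨h1, h2⟩
      exact ⟨h1, (h i (mem_compl.2 h1)).2 h2⟩
  have h1 : P.card = (P.image g).card := by
    rw [card_image_of_injOn]
    intro Z hZ Z' hZ' he
    refine hinj Z hZ Z' hZ' fun i _ => ?_
    have he' : g Z = g Z' := he
    rw [he']
  have h2 := steiner_karger_finset G (K := K) (D := n) (a := 8 * n / K + 1) hK0 (Nat.le_add_left 1 _)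
    (by
      have e1 := Nat.div_add_mod (8 * n) K
      have e2 := Nat.mod_lt (8 * n) hK0
      nlinarith)
    Hᶜ Y (fun i _ => card_pos.1 (hK0.trans_le (hY i)))
    (by
      intro i _ j _ _ X hX hX'
      refine sep h3 hc hKk ((hY i).trans (card_le_card hX)) ((hY j).trans (card_le_card ?_)) hK0
      intro x hx
      rw [mem_compl]
      exact Finset.disjoint_left.1 hX' hx)
    (P.image g)
    (by
      intro S hS i hi
      obtain ⟨Z, hZ, rfl⟩ := mem_image.1 hS
      exact (hg Z hZ).2.1 i (mem_compl.1 hi))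
    (by
      intro S hS
      obtain ⟨Z, hZ, rfl⟩ := mem_image.1 hS
      exact (hg Z hZ).1.le)
    (by
      intro S hS S' hS' h
      obtain ⟨Z, hZ, rfl⟩ := mem_image.1 hS
      obtain ⟨Z', hZ', rfl⟩ := mem_image.1 hS'
      rw [hinj Z hZ Z' hZ' h])
  rw [h1]
  refine h2.trans (Nat.pow_le_pow_left ?_ _)
  have : (Hᶜ).card ≤ w := by
    have := card_le_univ (Hᶜ)
    simpa using this
  omega

theorem half_pow {x : ℝ} (h0 : 0 ≤ x) (h1 : x ≤ 1) : (2 : ℝ) ^ (-x) ≤ 1 - x / 2 := by
  have h := rpow_one_add_le_one_add_mul_self (s := -(1 / 2 : ℝ)) (by norm_num) h0 h1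
  have e1 : (1 + -(1 / 2) : ℝ) = 2⁻¹ := by norm_num
  rw [e1, Real.inv_rpow (by norm_num), ← Real.rpow_neg (by norm_num)] at h
  linarith

/-- Leaves which are above or below a split edge. -/
theorem card_bad {θ : V → List Bool → V} {R R₁ r : ℕ} {S : Finset V} {v : V}
    (hd : ¬ Dirty θ r S v) :
    ((univ : Finset (List.Vector Bool R₁)).filter fun ω =>
      ∃ d ∈ spl θ R S v, d <:+ ω.toList ∨ ω.toList <:+ d).card
      ≤ (spl θ R S v).card * 2 ^ (R₁ - (r + 1)) := by
  classical
  have h1 : ((univ : Finset (List.Vector Bool R₁)).filter fun ω =>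
      ∃ d ∈ spl θ R S v, d <:+ ω.toList ∨ ω.toList <:+ d)
      ⊆ (spl θ R S v).biUnion fun d => (univ : Finset (List.Vector Bool R₁)).filter fun ω =>
        d <:+ ω.toList ∨ ω.toList <:+ d := by
    intro ω hω
    obtain ⟨d, hd1, hd2⟩ := (mem_filter.1 hω).2
    exact mem_biUnion.2 ⟨d, hd1, mem_filter.2 ⟨mem_univ _, hd2⟩⟩
  refine (card_le_card h1).trans (card_biUnion_le_card_mul _ _ _ ?_)
  intro d hdd
  refine (card_kill R₁ d).trans (Nat.pow_le_pow_right (by norm_num) ?_)
  have hlen : r + 1 ≤ d.length := by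
    by_contra hlt
    obtain ⟨-, h2, h3⟩ := mem_spl.1 hdd
    apply h3
    have e1 : θ v d ∈ S ↔ v ∈ S := by
      by_contra hne
      exact hd ⟨d, by omega, hne⟩
    have e2 : θ v d.tail ∈ S ↔ v ∈ S := by
      by_contra hne
      refine hd ⟨d.tail, ?_, hne⟩
      rw [List.length_tail]
      omega
    rw [e1, e2]
  omega

/-- Leaves which are above a split edge. -/
theorem card_bad' {θ : V → List Bool → V} {R R₁ : ℕ} {S : Finset V} {v : V} :
    ((univ : Finset (List.Vector Bool R₁)).filter fun ω =>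
      ∃ d ∈ spl θ R S v, ω.toList <:+ d).card ≤ (spl θ R S v).card := by
  classical
  have h1 : ((univ : Finset (List.Vector Bool R₁)).filter fun ω =>
      ∃ d ∈ spl θ R S v, ω.toList <:+ d)
      ⊆ (spl θ R S v).biUnion fun d => (univ : Finset (List.Vector Bool R₁)).filter fun ω =>
        ω.toList <:+ d := by
    intro ω hω
    obtain ⟨d, hd1, hd2⟩ := (mem_filter.1 hω).2
    exact mem_biUnion.2 ⟨d, hd1, mem_filter.2 ⟨mem_univ _, hd2⟩⟩
  refine (card_le_card h1).trans ((card_biUnion_le_card_mul _ _ 1 ?_).trans (by rw [mul_one]))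
  intro d _
  rw [card_le_one]
  intro ω hω ω' hω'
  have hω1 := (mem_filter.1 hω).2
  have hω2 := (mem_filter.1 hω').2
  have hl1 : ω.toList.length = R₁ := ω.toList_length
  have hl2 : ω'.toList.length = R₁ := ω'.toList_length
  have : ω.toList = ω'.toList := by
    have := List.suffix_of_suffix_length_le hω1 hω2 (by omega)
    exact this.eq_of_length (by omega)
  exact Subtype.ext this

open Classical in
/-- The good leaves. -/
noncomputable def goodLeaves (θ : V → List Bool → V) (r R₁ R : ℕ) (S : Finset V) (v : V) :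
    Finset (List.Vector Bool R₁) :=
  if 2 ^ (R₁ - 1) ≤ (spl θ R S v).card then univ
  else if Dirty θ r S v ∨ 2 ^ r < (spl θ R S v).card then
    univ.filter fun ω => ¬ ∃ d ∈ spl θ R S v, ω.toList <:+ d
  else univ.filter fun ω => ¬ ∃ d ∈ spl θ R S v, d <:+ ω.toList ∨ ω.toList <:+ d

open Classical in
/-- The number of good leaves. -/
theorem card_goodLeaves {θ : V → List Bool → V} {r R₁ R : ℕ} (hr : r < R₁) {S : Finset V}
    {v : V} :
    (2 : ℝ) ^ (-((if Dirty θ r S v ∨ 2 ^ r < (spl θ R S v).card then (1 : ℝ) else 0) +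
      (spl θ R S v).card / 2 ^ r)) * 2 ^ R₁ ≤ ((goodLeaves θ r R₁ R S v).card : ℝ) := by
  have huniv : (univ : Finset (List.Vector Bool R₁)).card = 2 ^ R₁ := by
    rw [card_univ, card_vector, Fintype.card_bool]
  have hnn : (0 : ℝ) ≤ (spl θ R S v).card / 2 ^ r := by positivity
  unfold goodLeaves
  by_cases h1 : 2 ^ (R₁ - 1) ≤ (spl θ R S v).card
  · rw [if_pos h1, huniv]
    push_cast
    refine mul_le_of_le_one_left (by positivity) ?_
    refine Real.rpow_le_one_of_one_le_of_nonpos (by norm_num) ?_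
    have : (0 : ℝ) ≤ if Dirty θ r S v ∨ 2 ^ r < (spl θ R S v).card then (1 : ℝ) else 0 := by
      split_ifs <;> norm_num
    linarith
  rw [if_neg h1]
  by_cases h2 : Dirty θ r S v ∨ 2 ^ r < (spl θ R S v).card
  · rw [if_pos h2, if_pos h2]
    have e1 := card_bad' (θ := θ) (R := R) (R₁ := R₁) (S := S) (v := v)
    have e2 := card_filter_add_card_filter_not
      (s := (univ : Finset (List.Vector Bool R₁)))
      (fun ω => ∃ d ∈ spl θ R S v, ω.toList <:+ d)
    rw [huniv] at e2
    have e3 : 2 ^ R₁ = 2 ^ (R₁ - 1) + 2 ^ (R₁ - 1) := by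
      rw [← two_mul, ← pow_succ']
      congr 1
      omega
    have e4 : 2 ^ (R₁ - 1) ≤ ((univ : Finset (List.Vector Bool R₁)).filter
      fun ω => ¬ ∃ d ∈ spl θ R S v, ω.toList <:+ d).card := by omega
    have e5 : ((2 : ℝ)) ^ (R₁ - 1) ≤ (((univ : Finset (List.Vector Bool R₁)).filter
      fun ω => ¬ ∃ d ∈ spl θ R S v, ω.toList <:+ d).card : ℝ) := by exact_mod_cast e4
    refine le_trans ?_ e5
    have e6 : (2 : ℝ) ^ R₁ = 2 * 2 ^ (R₁ - 1) := by
      rw [← pow_succ']
      congr 1
      omega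
    have e7 : (2 : ℝ) ^ (-(1 + ((spl θ R S v).card : ℝ) / 2 ^ r)) ≤ 2⁻¹ := by
      have : (2 : ℝ)⁻¹ = 2 ^ (-(1 : ℝ)) := by rw [Real.rpow_neg_one]
      rw [this]
      exact Real.rpow_le_rpow_of_exponent_le (by norm_num) (by linarith)
    rw [e6]
    have e8 : (0 : ℝ) < 2 ^ (R₁ - 1) := by positivity
    nlinarith
  · rw [if_neg h2, if_neg h2]
    push Not at h2
    have e1 := card_bad (θ := θ) (R := R) (R₁ := R₁) (S := S) (v := v) h2.1
    have e2 := card_filter_add_card_filter_not
      (s := (univ : Finset (List.Vector Bool R₁)))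
      (fun ω => ∃ d ∈ spl θ R S v, d <:+ ω.toList ∨ ω.toList <:+ d)
    rw [huniv] at e2
    have e3 : 2 ^ R₁ ≤ ((univ : Finset (List.Vector Bool R₁)).filter
      fun ω => ¬ ∃ d ∈ spl θ R S v, d <:+ ω.toList ∨ ω.toList <:+ d).card +
        (spl θ R S v).card * 2 ^ (R₁ - (r + 1)) := by omega
    have e5 : ((2 : ℝ)) ^ R₁ ≤ (((univ : Finset (List.Vector Bool R₁)).filter
      fun ω => ¬ ∃ d ∈ spl θ R S v, d <:+ ω.toList ∨ ω.toList <:+ d).card : ℝ) +
        (spl θ R S v).card * 2 ^ (R₁ - (r + 1)) := by exact_mod_cast e3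
    have e6 : (2 : ℝ) ^ R₁ = 2 ^ r * 2 * 2 ^ (R₁ - (r + 1)) := by
      rw [← pow_succ, ← pow_add]
      congr 1
      omega
    have hr0 : (0 : ℝ) < 2 ^ r := by positivity
    have e7 := half_pow (x := ((spl θ R S v).card : ℝ) / 2 ^ r) hnn
      (by
        rw [div_le_one hr0]
        exact_mod_cast h2.2)
    rw [zero_add]
    have e8 : (1 - ((spl θ R S v).card : ℝ) / 2 ^ r / 2) * 2 ^ R₁ ≤
        (((univ : Finset (List.Vector Bool R₁)).filter
          fun ω => ¬ ∃ d ∈ spl θ R S v, d <:+ ω.toList ∨ ω.toList <:+ d).card : ℝ) := by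
      have : (1 - ((spl θ R S v).card : ℝ) / 2 ^ r / 2) * 2 ^ R₁ =
          2 ^ R₁ - (spl θ R S v).card * 2 ^ (R₁ - (r + 1)) := by
        rw [sub_mul, one_mul]
        congr 1
        rw [e6]
        field_simp
      rw [this]
      linarith
    exact (mul_le_mul_of_nonneg_right e7 (by positivity)).trans e8

/-- Deep terminals. -/
theorem deep (h3 : ∀ v, G.degree v = 3) {K k r R₁ R h : ℕ} (hK0 : 0 < K) (hKk : K ≤ k)
    (hc : CycConn G k) {θ : V → List Bool → V} (hθ : IsTree G R θ) (hr0 : 0 < r) (hr : r < R₁)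
    (hR : R₁ ≤ R) (hK : K ≤ 2 ^ (R - R₁)) (hh : 0 < h) {w : ℕ} (t : Fin w → V)
    (ht : ∀ i j, i ≠ j → Disjoint (Bl G.Adj R (t i)) (Bl G.Adj R (t j)))
    (hgood : ∀ S, Big G K S → k ≤ dd G S →
      ∀ A : Finset (Fin w), (∀ i ∈ A, Dirty θ r S (t i)) → h * A.card ≤ dd G S) :
    ∃ Zs : (Fin w → List.Vector Bool R₁) → ℕ → Finset (Finset (Fin w)),
      (∀ ω n, (Zs ω n).card ≤ (w + 1) ^ (n / 2 ^ (R₁ - 1)) * (2 * (w + 1)) ^ (8 * n / K + 1)) ∧
      ∀ S, Big G K S → k ≤ dd G S → ∃ Ω' : Finset (Fin w → List.Vector Bool R₁),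
        (2 : ℝ) ^ (-((dd G S : ℝ) / h + 4 * dd G S / 2 ^ r)) *
          Fintype.card (Fin w → List.Vector Bool R₁) ≤ (Ω'.card : ℝ) ∧
        ∀ ω ∈ Ω', ∃ Z ∈ Zs ω (dd G S), ((symmDiff Z (univ.filter fun i => t i ∈ S)).card : ℝ) ≤
          (dd G S : ℝ) / h + 2 * dd G S / 2 ^ r + 2 * dd G S / 2 ^ R₁ := by
  classical
  let Y : (Fin w → List.Vector Bool R₁) → Fin w → Finset V :=
    fun ω i => sbt θ (R - R₁) (t i) (ω i).toList
  have hYK : ∀ ω i, K ≤ (Y ω i).card := fun ω i =>
    hK.trans (sbt_card hθ hR (t i) (ω i).toList_length)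
  let P : (Fin w → List.Vector Bool R₁) → ℕ → Finset (Fin w) → Finset (Finset (Fin w)) :=
    fun ω n H => univ.filter fun Z => ∃ S : Finset V, dd G S = n ∧
      (∀ i, i ∉ H → Y ω i ⊆ S ∨ Disjoint (Y ω i) S) ∧
      Z = univ.filter fun i => i ∉ H ∧ Y ω i ⊆ S
  refine ⟨fun ω n => (univ.filter fun H : Finset (Fin w) => H.card ≤ n / 2 ^ (R₁ - 1)).biUnion
    (P ω n), ?_, ?_⟩
  · intro ω n
    refine (card_biUnion_le_card_mul _ _ ((2 * (w + 1)) ^ (8 * n / K + 1)) ?_).trans
      (Nat.mul_le_mul_right _ (card_small w _))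
    intro H _
    exact few_traces h3 hK0 hKk hc (Y ω) (hYK ω) H (P ω n H) fun Z hZ => (mem_filter.1 hZ).2
  intro S hS hkS
  set n := dd G S with hn
  set m : Fin w → ℕ := fun i => (spl θ R S (t i)).card with hm
  have hsum : ∑ i, m i ≤ n := sum_spl hθ t ht S
  -- the number of vertices with many split edges
  have hmany : ∀ a : ℕ, a * (univ.filter fun i => a ≤ m i).card ≤ n := by
    intro a
    calc a * (univ.filter fun i => a ≤ m i).card
        = ∑ i ∈ univ.filter (fun i => a ≤ m i), a := by rw [sum_const, smul_eq_mul, mul_comm]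
      _ ≤ ∑ i ∈ univ.filter (fun i => a ≤ m i), m i :=
          sum_le_sum fun i hi => (mem_filter.1 hi).2
      _ ≤ ∑ i, m i := sum_le_sum_of_subset (filter_subset _ _)
      _ ≤ n := hsum
  set X : Finset (Fin w) := univ.filter fun i => Dirty θ r S (t i) ∨ 2 ^ r < m i with hX
  set Hv : Finset (Fin w) := univ.filter fun i => 2 ^ (R₁ - 1) ≤ m i with hHv
  have hhR : (0 : ℝ) < h := by exact_mod_cast hh
  have hr2 : (0 : ℝ) < 2 ^ r := by positivity
  have hR2 : (0 : ℝ) < 2 ^ (R₁ - 1) := by positivity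
  have hXc : (X.card : ℝ) ≤ n / h + n / 2 ^ r := by
    have e1 : X ⊆ (univ.filter fun i => Dirty θ r S (t i)) ∪ univ.filter fun i => 2 ^ r ≤ m i := by
      intro i hi
      rcases (mem_filter.1 hi).2 with h1 | h1
      · exact mem_union_left _ (mem_filter.2 ⟨mem_univ _, h1⟩)
      · exact mem_union_right _ (mem_filter.2 ⟨mem_univ _, h1.le⟩)
    have e2 := (card_le_card e1).trans (card_union_le _ _)
    have e3 := hgood S hS hkS (univ.filter fun i => Dirty θ r S (t i))
      fun i hi => (mem_filter.1 hi).2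
    have e4 := hmany (2 ^ r)
    have e3' : (h : ℝ) * ((univ.filter fun i => Dirty θ r S (t i)).card : ℝ) ≤ n := by
      exact_mod_cast e3
    have e4' : (2 : ℝ) ^ r * ((univ.filter fun i => 2 ^ r ≤ m i).card : ℝ) ≤ n := by
      exact_mod_cast e4
    have e2' : (X.card : ℝ) ≤ ((univ.filter fun i => Dirty θ r S (t i)).card : ℝ) +
      ((univ.filter fun i => 2 ^ r ≤ m i).card : ℝ) := by exact_mod_cast e2
    refine e2'.trans (add_le_add ?_ ?_)
    · rw [le_div_iff₀ hhR, mul_comm]
      exact e3'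
    · rw [le_div_iff₀ hr2, mul_comm]
      exact e4'
  have hHc : Hv.card ≤ n / 2 ^ (R₁ - 1) := by
    rw [Nat.le_div_iff_mul_le (by positivity), mul_comm]
    exact hmany _
  have hHc' : (Hv.card : ℝ) ≤ 2 * n / 2 ^ R₁ := by
    have e1 := hmany (2 ^ (R₁ - 1))
    have e1' : (2 : ℝ) ^ (R₁ - 1) * (Hv.card : ℝ) ≤ n := by exact_mod_cast e1
    have e2 : (2 : ℝ) ^ R₁ = 2 * 2 ^ (R₁ - 1) := by
      rw [← pow_succ']
      congr 1
      omega
    rw [e2, mul_div_mul_left _ _ (by norm_num), le_div_iff₀ hR2, mul_comm]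
    exact e1'
  refine ⟨Fintype.piFinset fun i => goodLeaves θ r R₁ R S (t i), ?_, ?_⟩
  · rw [Fintype.card_piFinset, Fintype.card_pi]
    push_cast
    have hcard : ((Fintype.card (List.Vector Bool R₁) : ℕ) : ℝ) = 2 ^ R₁ := by
      rw [card_vector, Fintype.card_bool]
      push_cast
      rfl
    have e1 : (2 : ℝ) ^ (-((n : ℝ) / h + 4 * n / 2 ^ r)) ≤
        ∏ i, (2 : ℝ) ^ (-((if Dirty θ r S (t i) ∨ 2 ^ r < (spl θ R S (t i)).card then (1 : ℝ)
          else 0) + (spl θ R S (t i)).card / 2 ^ r)) := by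
      rw [← Real.rpow_sum_of_pos (by norm_num)]
      refine Real.rpow_le_rpow_of_exponent_le (by norm_num) ?_
      rw [sum_neg_distrib, sum_add_distrib]
      refine neg_le_neg ?_
      have e2 : ∑ i, (if Dirty θ r S (t i) ∨ 2 ^ r < (spl θ R S (t i)).card then (1 : ℝ) else 0)
          = X.card := by
        rw [hX, card_filter]
        push_cast
        rfl
      have e3 : ∑ i, ((spl θ R S (t i)).card : ℝ) / 2 ^ r ≤ n / 2 ^ r := by
        rw [← sum_div]
        refine div_le_div_of_nonneg_right ?_ hr2.le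
        exact_mod_cast hsum
      rw [e2]
      have e4 : (4 : ℝ) * n / 2 ^ r = 4 * (n / 2 ^ r) := by ring
      rw [e4]
      have e5 : (0 : ℝ) ≤ n / 2 ^ r := by positivity
      linarith
    calc (2 : ℝ) ^ (-((n : ℝ) / h + 4 * n / 2 ^ r)) *
          ∏ i : Fin w, ((Fintype.card (List.Vector Bool R₁) : ℕ) : ℝ)
        ≤ (∏ i, (2 : ℝ) ^ (-((if Dirty θ r S (t i) ∨ 2 ^ r < (spl θ R S (t i)).card
            then (1 : ℝ) else 0) + (spl θ R S (t i)).card / 2 ^ r))) *
          ∏ i : Fin w, ((Fintype.card (List.Vector Bool R₁) : ℕ) : ℝ) :=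
          mul_le_mul_of_nonneg_right e1 (prod_nonneg fun i _ => by positivity)
      _ = ∏ i, ((2 : ℝ) ^ (-((if Dirty θ r S (t i) ∨ 2 ^ r < (spl θ R S (t i)).card
            then (1 : ℝ) else 0) + (spl θ R S (t i)).card / 2 ^ r)) * 2 ^ R₁) := by
          rw [← prod_mul_distrib]
          refine prod_congr rfl fun i _ => ?_
          rw [hcard]
      _ ≤ ∏ i, ((goodLeaves θ r R₁ R S (t i)).card : ℝ) :=
          prod_le_prod (fun i _ => by positivity) fun i _ => card_goodLeaves hr
  · intro ω hω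
    have hgl : ∀ i, ω i ∈ goodLeaves θ r R₁ R S (t i) := fun i => (Fintype.mem_piFinset.1 hω) i
    have hl : ∀ i, (ω i).toList.length = R₁ := fun i => (ω i).toList_length
    -- half clean
    have hhalf : ∀ i, i ∉ Hv → ∀ d ∈ spl θ R S (t i), ¬ (ω i).toList <:+ d := by
      intro i hi
      have hi' : ¬ 2 ^ (R₁ - 1) ≤ (spl θ R S (t i)).card := fun h1 =>
        hi (mem_filter.2 ⟨mem_univ _, h1⟩)
      have h1 := hgl i
      unfold goodLeaves at h1
      rw [if_neg hi'] at h1
      split_ifs at h1 with h2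
      · intro d hd hs
        exact (mem_filter.1 h1).2 ⟨d, hd, hs⟩
      · intro d hd hs
        exact (mem_filter.1 h1).2 ⟨d, hd, Or.inr hs⟩
    have hroot : ∀ i, i ∉ Hv → i ∉ X → (θ (t i) (ω i).toList ∈ S ↔ t i ∈ S) := by
      intro i hi hiX
      have hi' : ¬ 2 ^ (R₁ - 1) ≤ (spl θ R S (t i)).card := fun h1 =>
        hi (mem_filter.2 ⟨mem_univ _, h1⟩)
      have hi2 : ¬ (Dirty θ r S (t i) ∨ 2 ^ r < (spl θ R S (t i)).card) := fun h1 =>
        hiX (mem_filter.2 ⟨mem_univ _, h1⟩)
      have h1 := hgl i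
      unfold goodLeaves at h1
      rw [if_neg hi', if_neg hi2] at h1
      refine root_same (R := R) ((hl i).le.trans hR) (hθ.nil _) ?_
      intro d hd hs
      exact (mem_filter.1 h1).2 ⟨d, hd, Or.inl hs⟩
    refine ⟨univ.filter fun i => i ∉ Hv ∧ Y ω i ⊆ S, ?_, ?_⟩
    · refine mem_biUnion.2 ⟨Hv, mem_filter.2 ⟨mem_univ _, hHc⟩, mem_filter.2 ⟨mem_univ _, S, rfl,
        ?_, rfl⟩⟩
      intro i hi
      have h1 := sbt_clean (hl i) hR (hhalf i hi)
      by_cases h2 : θ (t i) (ω i).toList ∈ S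
      · exact Or.inl (h1.1 h2)
      · exact Or.inr (h1.2 h2)
    · have hsub : symmDiff (univ.filter fun i => i ∉ Hv ∧ Y ω i ⊆ S)
          (univ.filter fun i => t i ∈ S) ⊆ X ∪ Hv := by
        intro i hi
        by_contra hne
        rw [mem_union, not_or] at hne
        have h1 := sbt_clean (hl i) hR (hhalf i hne.2)
        have h2 := hroot i hne.2 hne.1
        have h3 : Y ω i ⊆ S ↔ t i ∈ S := by
          rw [← h2]
          exact ⟨fun h => h (mem_sbt_self _ _ _ _), h1.1⟩
        rw [mem_symmDiff] at hi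
        simp only [mem_filter, mem_univ, true_and, h3, hne.2, not_false_eq_true] at hi
        tauto
      have e1 := (card_le_card hsub).trans (card_union_le _ _)
      have e2 : ((symmDiff (univ.filter fun i => i ∉ Hv ∧ Y ω i ⊆ S)
          (univ.filter fun i => t i ∈ S)).card : ℝ) ≤ X.card + Hv.card := by exact_mod_cast e1
      have e4 : (2 : ℝ) * n / 2 ^ r = 2 * (n / 2 ^ r) := by ring
      have e5 : (0 : ℝ) ≤ n / 2 ^ r := by positivity
      rw [e4]
      linarith

end Pool.Agent.Log5
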