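import Mathlib
import Pool.Agent.Work.MP_974d84_co_log.Defs
import Pool.Agent.Work.MP_974d84_co_log.Choose

/-!
# Choosing the terminals so that no bond is dirty at many of them
-/

set_option linter.unusedSectionVars false

namespace Pool.Agent.Log5

open Finset SimpleGraph Pool.Agent.Exp
open Pool.Agent.Work.MP_314beb_co (cut)

/-- Lists of length at most `r`. -/
def codes : ℕ → Finset (List Bool)
  | 0 => {[]}
  | r + 1 => insert [] ((codes r).image (List.cons true) ∪ (codes r).image (List.cons false))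

theorem mem_codes {r : ℕ} {c : List Bool} : c ∈ codes r ↔ c.length ≤ r := by
  induction r generalizing c with
  | zero => simp [codes]
  | succ r ih =>
    cases c with
    | nil => simp [codes]
    | cons b c => cases b <;> simp [codes, ih]

theorem codes_card (r : ℕ) : (codes r).card ≤ 2 ^ (r + 1) := by
  have h : (codes r).card + 1 ≤ 2 ^ (r + 1) := by
    induction r with
    | zero => simp [codes]
    | succ r ih =>
      have h1 := card_insert_le ([] : List Bool)
        ((codes r).image (List.cons true) ∪ (codes r).image (List.cons false))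
      have h2 := card_union_le ((codes r).image (List.cons true))
        ((codes r).image (List.cons false))
      have h3 : ((codes r).image (List.cons true)).card ≤ (codes r).card := card_image_le
      have h4 : ((codes r).image (List.cons false)).card ≤ (codes r).card := card_image_le
      rw [pow_succ]
      simp only [codes]
      omega
  omega

variable {V : Type} [Fintype V] [DecidableEq V] {G : SimpleGraph V} [DecidableRel G.Adj]

/-- A set which separates a point of the tree from the root cuts an edge of the tree. -/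
theorem exists_split {R : ℕ} {θ : V → List Bool → V} (hθ : IsTree G R θ) (S : Finset V) (v : V)
    (c : List Bool) (h : ¬ (θ v c ∈ S ↔ v ∈ S)) :
    ∃ x y, x ∈ Bl G.Adj c.length v ∧ y ∈ Bl G.Adj c.length v ∧ G.Adj x y ∧ x ∈ S ∧ y ∉ S := by
  induction c with
  | nil => rw [hθ.nil] at h; exact absurd Iff.rfl h
  | cons b c ih =>
    by_cases h1 : θ v c ∈ S ↔ v ∈ S
    · have h2 : ¬ (θ v (b :: c) ∈ S ↔ θ v c ∈ S) := fun h3 => h (h3.trans h1)
      have m1 : θ v c ∈ Bl G.Adj (b :: c).length v :=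
        Bl_mono (by simp) v (hθ.ball v c)
      have m2 := hθ.ball v (b :: c)
      have ad := hθ.adj v b c
      by_cases h4 : θ v c ∈ S
      · have h5 : θ v (b :: c) ∉ S := fun h5 => h2 ⟨fun _ => h4, fun _ => h5⟩
        exact ⟨_, _, m1, m2, ad, h4, h5⟩
      · have h5 : θ v (b :: c) ∈ S := by
          by_contra h5
          exact h2 ⟨fun h6 => absurd h6 h5, fun h6 => absurd h6 h4⟩
        exact ⟨_, _, m2, m1, ad.symm, h5, h4⟩
    · obtain ⟨x, y, hx, hy, h2⟩ := ih h1
      have hl : c.length ≤ (b :: c).length := by simp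
      exact ⟨x, y, Bl_mono hl v hx, Bl_mono hl v hy, h2⟩

/-- At most `dd G S` candidates with disjoint balls are dirty. -/
theorem dirty_card {R : ℕ} {θ : V → List Bool → V} (hθ : IsTree G R θ) {r : ℕ} (hr : r ≤ R)
    {κ : Type} [DecidableEq κ] (u : κ → V)
    (hu : ∀ x y, x ≠ y → Disjoint (Bl G.Adj R (u x)) (Bl G.Adj R (u y)))
    (S : Finset V) (X : Finset κ) (hX : ∀ x ∈ X, Dirty θ r S (u x)) : X.card ≤ dd G S := by
  have key : ∀ x : κ, ∃ p : V × V, x ∈ X → p.1 ∈ Bl G.Adj R (u x) ∧ p ∈ cut G S := by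
    intro x
    by_cases hx : x ∈ X
    · obtain ⟨c, hc, h⟩ := hX x hx
      obtain ⟨a, b, ha, -, had, haS, hbS⟩ := exists_split hθ S (u x) c h
      exact ⟨(a, b), fun _ => ⟨Bl_mono (hc.trans hr) _ ha, (mem_cut G).2 ⟨haS, hbS, had⟩⟩⟩
    · exact ⟨(u x, u x), fun h => absurd h hx⟩
  choose p hp using key
  refine card_le_card_of_injOn p (fun x hx => (hp x hx).2) ?_
  intro x hx y hy hxy
  by_contra hne
  have h1 := (hp x hx).1
  have h2 := (hp y hy).1
  rw [hxy] at h1
  exact disjoint_left.1 (hu x y hne) h1 h2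

/-- The numbers. -/
theorem good_num {K k h d : ℕ} {ℓ Q : ℝ} (hh : 0 < h) (hK0 : 0 < K) (hKk : K ≤ k) (hkd : k ≤ d)
    (hl : 8 * Real.log ℓ ≤ K) (hl1 : 1 ≤ ℓ) (hq : 12 * (h : ℝ) ≤ Real.log Q) (hQ : 0 < Q) :
    (Real.exp (8 * d) * ℓ ^ (8 * d / K + 1)) * 2 ^ d / Q ^ (d / h + 1) ≤ (1 / 4) ^ d := by
  have hKr : (0 : ℝ) < K := by exact_mod_cast hK0
  have hhr : (0 : ℝ) < h := by exact_mod_cast hh
  have hdr : (K : ℝ) ≤ d := by exact_mod_cast hKk.trans hkd
  have hl0 : 0 ≤ Real.log ℓ := Real.log_nonneg hl1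
  rw [div_le_iff₀ (pow_pos hQ _)]
  have e1 : ℓ ^ (8 * d / K + 1) ≤ Real.exp (9 / 8 * d) := by
    rw [← Real.log_le_log_iff (by positivity) (Real.exp_pos _), Real.log_exp, Real.log_pow]
    have a1 : ((8 * d / K : ℕ) : ℝ) ≤ 8 * d / K := by
      have := @Nat.cast_div_le ℝ _ _ _ (8 * d) K
      push_cast at this
      exact this
    have a2 : (((8 * d / K + 1 : ℕ)) : ℝ) * Real.log ℓ ≤ (8 * d / K + 1) * (K / 8) := by
      push_cast
      refine mul_le_mul (by linarith) (by linarith) hl0 (by positivity)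
    have a3 : (8 * (d : ℝ) / K + 1) * (K / 8) = d + K / 8 := by field_simp
    rw [a3] at a2
    linarith
  have e2 : (2 : ℝ) ^ d ≤ Real.exp (7 / 10 * d) := by
    rw [← Real.log_le_log_iff (by positivity) (Real.exp_pos _), Real.log_exp, Real.log_pow]
    have := Real.log_two_lt_d9
    have hd0 : (0 : ℝ) ≤ d := Nat.cast_nonneg _
    nlinarith
  have e3 : Real.exp (12 * d) ≤ Q ^ (d / h + 1) := by
    rw [← Real.log_le_log_iff (Real.exp_pos _) (by positivity), Real.log_exp, Real.log_pow]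
    have a1 : (d : ℝ) / h ≤ ((d / h + 1 : ℕ) : ℝ) := by
      rw [div_le_iff₀ hhr]
      have := Nat.lt_mul_div_succ d hh
      have h2 : (d : ℝ) ≤ ((h * (d / h + 1) : ℕ) : ℝ) := by exact_mod_cast this.le
      push_cast at h2 ⊢
      linarith
    have a2 : (d : ℝ) / h * (12 * h) ≤ ((d / h + 1 : ℕ) : ℝ) * Real.log Q :=
      mul_le_mul a1 hq (by positivity) (by positivity)
    have a3 : (d : ℝ) / h * (12 * h) = 12 * d := by field_simp
    linarith
  have e4 : Real.exp (2 * d) ≥ 4 ^ d := by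
    rw [ge_iff_le, ← Real.log_le_log_iff (by positivity) (Real.exp_pos _), Real.log_exp,
      Real.log_pow]
    have h4 : Real.log 4 = 2 * Real.log 2 := by
      rw [show (4 : ℝ) = 2 ^ 2 by norm_num, Real.log_pow]; push_cast; ring
    have := Real.log_two_lt_d9
    have hd0 : (0 : ℝ) ≤ d := Nat.cast_nonneg _
    rw [h4]
    nlinarith
  have hd0 : (0 : ℝ) ≤ d := Nat.cast_nonneg _
  calc Real.exp (8 * d) * ℓ ^ (8 * d / K + 1) * 2 ^ d
      ≤ Real.exp (8 * d) * Real.exp (9 / 8 * d) * Real.exp (7 / 10 * d) := by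
        refine mul_le_mul (mul_le_mul_of_nonneg_left e1 (Real.exp_nonneg _)) e2 (by positivity)
          (by positivity)
    _ = Real.exp ((8 + 9 / 8 + 7 / 10) * d) := by
        rw [← Real.exp_add, ← Real.exp_add]; ring_nf
    _ ≤ Real.exp (12 * d - 2 * d) := by
        apply Real.exp_le_exp.2; linarith
    _ = Real.exp (12 * d) / Real.exp (2 * d) := Real.exp_sub _ _
    _ ≤ Real.exp (12 * d) / 4 ^ d :=
        div_le_div_of_nonneg_left (Real.exp_nonneg _) (by positivity) e4
    _ = (1 / 4) ^ d * Real.exp (12 * d) := by rw [one_div, inv_pow]; ring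
    _ ≤ (1 / 4) ^ d * Q ^ (d / h + 1) := mul_le_mul_of_nonneg_left e3 (by positivity)

theorem sum_quarter (L : Finset ℕ) (hL : ∀ d ∈ L, 1 ≤ d) : ∑ d ∈ L, (1 / 4 : ℝ) ^ d < 1 := by
  have hs := hasSum_geometric_of_lt_one (r := (1 / 4 : ℝ)) (by norm_num) (by norm_num)
  have h0 : 0 ∉ L := fun h => by have := hL 0 h; omega
  have h1 : ∑ d ∈ insert 0 L, (1 / 4 : ℝ) ^ d ≤ (1 - 1 / 4)⁻¹ :=
    sum_le_hasSum _ (fun _ _ => by positivity) hs
  rw [sum_insert h0] at h1
  norm_num at h1 ⊢
  linarith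

open Classical in
/-- M7, from the bound for the number of traces. -/
theorem exists_good_of {K k r R h : ℕ} (hK0 : 0 < K) (hKk : K ≤ k)
    {θ : V → List Bool → V} (hθ : IsTree G R θ) (hr : r ≤ R)
    (htr : ∀ (W : Finset V) (F : Finset (Finset V)), (∀ S ∈ F, Big G K S) →
      (∀ S ∈ F, ∀ S' ∈ F, (∀ v ∈ W, (v ∈ S ↔ v ∈ S')) → S = S') → ∀ D a : ℕ,
      (∀ S ∈ F, dd G S ≤ D) → 8 * D ≤ a * K → 1 ≤ a →
      (F.card : ℝ) ≤ Real.exp (8 * D) * (2 * (W.card + 1)) ^ a)
    (hh : 0 < h) {w q : ℕ} (u : Fin w → Fin q → V)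
    (hu : ∀ i a j b, (i, a) ≠ (j, b) → Disjoint (Bl G.Adj R (u i a)) (Bl G.Adj R (u j b)))
    (hK : 8 * Real.log (2 * (w * q * 2 ^ (r + 1) + 1)) ≤ K) (hq : 12 * (h : ℝ) ≤ Real.log q) :
    ∃ t : Fin w → Fin q, ∀ S, Big G K S → k ≤ dd G S →
      ∀ A : Finset (Fin w), (∀ i ∈ A, Dirty θ r S (u i (t i))) → h * A.card ≤ dd G S := by
  have hq0 : 0 < q := by
    rcases Nat.eq_zero_or_pos q with h0 | h0
    · subst h0
      have hhr : (0 : ℝ) < h := by exact_mod_cast hh
      simp at hq
      linarith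
    · exact h0
  have : Nonempty (Fin q) := ⟨⟨0, hq0⟩⟩
  -- the candidates and their trees
  let uu : Fin w × Fin q → V := fun p => u p.1 p.2
  let W : Finset V := univ.biUnion fun p : Fin w × Fin q => (codes r).image (θ (uu p))
  have hWm : ∀ (p : Fin w × Fin q) (c : List Bool), c.length ≤ r → θ (uu p) c ∈ W := by
    intro p c hc
    exact mem_biUnion.2 ⟨p, mem_univ _, mem_image_of_mem _ (mem_codes.2 hc)⟩
  have hWc : W.card ≤ w * q * 2 ^ (r + 1) := by
    refine card_biUnion_le.trans ?_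
    refine (sum_le_sum fun p _ => card_image_le.trans (codes_card r)).trans (le_of_eq ?_)
    rw [sum_const, card_univ, Fintype.card_prod, Fintype.card_fin, Fintype.card_fin, smul_eq_mul]
  let dirt : Finset V → Finset (Fin w × Fin q) := fun S => univ.filter fun p => Dirty θ r S (uu p)
  have hdirt : ∀ S, dirt S = dirt (S ∩ W) := by
    intro S
    apply filter_congr
    intro p _
    have h1 : ∀ c : List Bool, c.length ≤ r → (θ (uu p) c ∈ S ∩ W ↔ θ (uu p) c ∈ S) := by
      intro c hc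
      rw [mem_inter]
      exact and_iff_left (hWm p c hc)
    have h2 : uu p ∈ S ∩ W ↔ uu p ∈ S := by
      have := h1 [] (by simp)
      rwa [hθ.nil] at this
    unfold Dirty
    constructor
    · rintro ⟨c, hc, hn⟩
      exact ⟨c, hc, by rwa [h1 c hc, h2]⟩
    · rintro ⟨c, hc, hn⟩
      exact ⟨c, hc, by rwa [h1 c hc, h2] at hn⟩
  let fam : ℕ → Finset (Finset V) := fun d => univ.filter fun S => Big G K S ∧ dd G S = d
  let L : Finset ℕ := ((univ : Finset (Finset V)).image (dd G)).filter fun d => k ≤ d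
  have hLk : ∀ d ∈ L, k ≤ d := fun d hd => (mem_filter.1 hd).2
  have hcard : ∀ d ∈ L, (((fam d).image dirt).card : ℝ) ≤
      Real.exp (8 * d) * (2 * (W.card + 1)) ^ (8 * d / K + 1) := by
    intro d _
    have hpre : ∀ T : Finset V, ∃ S : Finset V, T ∈ (fam d).image (· ∩ W) → S ∈ fam d ∧ S ∩ W = T := by
      intro T
      by_cases hT : T ∈ (fam d).image (· ∩ W)
      · obtain ⟨S, hS, hST⟩ := mem_image.1 hT
        exact ⟨S, fun _ => ⟨hS, hST⟩⟩
      · exact ⟨T, fun h => absurd h hT⟩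
    choose g hg using hpre
    have h1 : ((fam d).image dirt).card ≤ ((fam d).image (· ∩ W)).card := by
      have : (fam d).image dirt = ((fam d).image (· ∩ W)).image dirt := by
        rw [image_image]
        exact image_congr fun S _ => hdirt S
      rw [this]
      exact card_image_le
    have h2 : ((fam d).image (· ∩ W)).card = (((fam d).image (· ∩ W)).image g).card := by
      refine (card_image_of_injOn ?_).symm
      intro T hT T' hT' he
      rw [← (hg T hT).2, ← (hg T' hT').2]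
      exact congrArg (· ∩ W) he
    have h3 := htr W (((fam d).image (· ∩ W)).image g) ?_ ?_ d (8 * d / K + 1) ?_ ?_
      (Nat.le_add_left 1 _)
    · calc (((fam d).image dirt).card : ℝ) ≤ (((fam d).image (· ∩ W)).card : ℝ) := by
            exact_mod_cast h1
        _ = ((((fam d).image (· ∩ W)).image g).card : ℝ) := by rw [h2]
        _ ≤ _ := h3
    · intro S hS
      obtain ⟨T, hT, rfl⟩ := mem_image.1 hS
      exact ((mem_filter.1 (hg T hT).1).2).1
    · intro S hS S' hS' hSS
      obtain ⟨T, hT, rfl⟩ := mem_image.1 hS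
      obtain ⟨T', hT', rfl⟩ := mem_image.1 hS'
      have : T = T' := by
        rw [← (hg T hT).2, ← (hg T' hT').2]
        ext v
        simp only [mem_inter]
        constructor
        · rintro ⟨h5, h6⟩; exact ⟨(hSS v h6).1 h5, h6⟩
        · rintro ⟨h5, h6⟩; exact ⟨(hSS v h6).2 h5, h6⟩
      rw [this]
    · intro S hS
      obtain ⟨T, hT, rfl⟩ := mem_image.1 hS
      exact (((mem_filter.1 (hg T hT).1).2).2).le
    · exact (Nat.lt_mul_div_succ (8 * d) hK0).le.trans (le_of_eq (Nat.mul_comm _ _))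
  have hF : ∀ d ∈ L, ∀ X ∈ (fam d).image dirt, X.card ≤ d := by
    intro d _ X hX
    obtain ⟨S, hS, rfl⟩ := mem_image.1 hX
    have h1 := dirty_card hθ hr uu (fun x y hxy => hu x.1 x.2 y.1 y.2 hxy) S (dirt S)
      (fun x hx => (mem_filter.1 hx).2)
    rwa [(mem_filter.1 hS).2.2] at h1
  have hsum : ∑ d ∈ L, ((((fam d).image dirt).card : ℝ) * 2 ^ d /
      (Fintype.card (Fin q) : ℝ) ^ (d / h + 1)) < 1 := by
    refine lt_of_le_of_lt (sum_le_sum fun d hd => ?_)
      (sum_quarter L fun d hd => (Nat.one_le_iff_ne_zero.2 hK0.ne').trans (hKk.trans (hLk d hd)))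
    have hqr : (0 : ℝ) < q := by exact_mod_cast hq0
    have hW1 : (1 : ℝ) ≤ 2 * (W.card + 1) := by
      have : (0 : ℝ) ≤ (W.card : ℝ) := Nat.cast_nonneg _
      linarith
    have hW2 : 8 * Real.log (2 * (W.card + 1)) ≤ K := by
      refine le_trans ?_ hK
      have h1 : Real.log (2 * (W.card + 1)) ≤ Real.log (2 * (w * q * 2 ^ (r + 1) + 1)) := by
        apply Real.log_le_log (by linarith)
        have : (W.card : ℝ) ≤ w * q * 2 ^ (r + 1) := by exact_mod_cast hWc
        linarith
      linarith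
    have h1 := good_num (d := d) hh hK0 hKk (hLk d hd) hW2 hW1 hq hqr
    refine le_trans ?_ h1
    rw [Fintype.card_fin]
    gcongr
    exact hcard d hd
  obtain ⟨t, ht⟩ := choose L (fun d => (fam d).image dirt) (fun d => d / h + 1) hF hsum
  refine ⟨t, fun S hS hkS A hA => ?_⟩
  have h1 : dd G S ∈ L := mem_filter.2 ⟨mem_image_of_mem _ (mem_univ _), hkS⟩
  have h2 : dirt S ∈ (fam (dd G S)).image dirt :=
    mem_image_of_mem _ (mem_filter.2 ⟨mem_univ _, hS, rfl⟩)
  have h3 := ht (dd G S) h1 (dirt S) h2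
  have h4 : A.card ≤ (univ.filter fun i => (i, t i) ∈ dirt S).card := by
    apply card_le_card
    intro i hi
    exact mem_filter.2 ⟨mem_univ _, mem_filter.2 ⟨mem_univ _, hA i hi⟩⟩
  have h5 : A.card ≤ dd G S / h := by omega
  calc h * A.card ≤ h * (dd G S / h) := Nat.mul_le_mul_left _ h5
    _ ≤ dd G S := Nat.mul_div_le _ _

end Pool.Agent.Log5
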