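import Mathlib
import Pool.Agent.Work.MP_974d84_co_log.GoodOf
import Pool.Agent.Work.MP_974d84_co_log.Trace

/-!
# Good terminals
-/

set_option linter.unusedSectionVars false

namespace Pool.Agent.Log5

open Finset SimpleGraph Pool.Agent.Exp

variable {V : Type} [Fintype V] [DecidableEq V] {G : SimpleGraph V} [DecidableRel G.Adj]

/-- M7: a choice of terminals, one candidate in every block, such that every large cut is dirty
at few of them. -/
theorem exists_good (h3 : ∀ v, G.degree v = 3) {K k r R h : ℕ} (hK0 : 0 < K) (hKk : K ≤ k)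
    (hc : CycConn G k) (hg : Gir G K) {θ : V → List Bool → V} (hθ : IsTree G R θ) (hr : r ≤ R)
    (hh : 0 < h) {w q : ℕ} (u : Fin w → Fin q → V)
    (hu : ∀ i a j b, (i, a) ≠ (j, b) → Disjoint (Bl G.Adj R (u i a)) (Bl G.Adj R (u j b)))
    (hK : 8 * Real.log (2 * (w * q * 2 ^ (r + 1) + 1)) ≤ K) (hq : 12 * (h : ℝ) ≤ Real.log q) :
    ∃ t : Fin w → Fin q, ∀ S, Big G K S → k ≤ dd G S →
      ∀ A : Finset (Fin w), (∀ i ∈ A, Dirty θ r S (u i (t i))) → h * A.card ≤ dd G S :=
  exists_good_of hK0 hKk hθ hr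
    (fun W F hF hinj _ _ hD ha ha1 =>
      trace_bound h3 hc hKk hK0 hg W F hF hinj hD ha ha1) hh u hu hK hq

end Pool.Agent.Log5
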