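import Mathlib

/-!
# The numerical part
-/

set_option linter.unusedSectionVars false
set_option linter.style.whitespace false

namespace Pool.Agent.Log5

open Finset

theorem exp_neg_le' {t : ℝ} (ht : 0 ≤ t) : Real.exp (-t) ≤ 1 / (1 + t) := by
  rw [Real.exp_neg, ← one_div]
  have h := Real.add_one_le_exp t
  exact one_div_le_one_div_of_le (by linarith) (by linarith)

/-- a geometric sum over a finite set of large numbers -/
theorem sum_exp_lt {k : ℕ} (hk : 100000 ≤ k) (s : Finset ℕ) (hs : ∀ n ∈ s, k ≤ n)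
    (f : ℕ → ℝ) (hf : ∀ n ∈ s, f n ≤ 2 * Real.exp (-((n : ℝ) / 100))) :
    ∑ n ∈ s, f n < 1 := by
  set x : ℝ := Real.exp (-(1 / 100)) with hx
  have hx0 : 0 < x := Real.exp_pos _
  have hx1 : x ≤ 100 / 101 := by
    have := exp_neg_le' (t := 1 / 100) (by norm_num)
    rw [← hx] at this
    refine this.trans (by norm_num)
  have hxk : x ^ k ≤ 1 / 1001 := by
    have h1 : x ^ k = Real.exp (-((k : ℝ) / 100)) := by
      rw [hx, ← Real.exp_nat_mul]
      congr 1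
      ring
    rw [h1]
    refine (exp_neg_le' (by positivity)).trans ?_
    have h2 : (100000 : ℝ) ≤ k := by exact_mod_cast hk
    exact one_div_le_one_div_of_le (by norm_num) (by linarith)
  have hpow : ∀ n : ℕ, Real.exp (-((n : ℝ) / 100)) = x ^ n := by
    intro n
    rw [hx, ← Real.exp_nat_mul]
    congr 1
    ring
  have h1 : ∑ n ∈ s, f n ≤ ∑ n ∈ s, 2 * x ^ n := by
    refine Finset.sum_le_sum fun n hn => ?_
    rw [← hpow]
    exact hf n hn
  obtain ⟨N, hN⟩ : ∃ N, s ⊆ Finset.Ico k N := by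
    refine ⟨s.sup id + 1, fun n hn => Finset.mem_Ico.2 ⟨hs n hn, ?_⟩⟩
    have : n ≤ s.sup id := Finset.le_sup (f := id) hn
    omega
  have h2 : ∑ n ∈ s, 2 * x ^ n ≤ ∑ n ∈ Finset.Ico k N, 2 * x ^ n :=
    Finset.sum_le_sum_of_subset_of_nonneg hN fun n _ _ => by positivity
  have h3 : ∑ n ∈ Finset.Ico k N, 2 * x ^ n ≤ 2 * (x ^ k / (1 - x)) := by
    rw [← Finset.mul_sum]
    have h4 : ∑ n ∈ Finset.Ico k N, x ^ n ≤ x ^ k / (1 - x) := by
      rcases le_or_gt k N with hkN | hkN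
      · rw [geom_sum_Ico' (by linarith) hkN]
        refine div_le_div_of_nonneg_right ?_ (by linarith)
        have : 0 ≤ x ^ N := by positivity
        linarith
      · rw [Finset.Ico_eq_empty_of_le hkN.le, Finset.sum_empty]
        exact div_nonneg (by positivity) (by linarith)
    linarith
  have h5 : x ^ k / (1 - x) ≤ (1 / 1001) / (1 / 101) := by
    refine div_le_div₀ (by norm_num) hxk (by norm_num) (by linarith)
  have h6 : (2 : ℝ) * ((1 / 1001) / (1 / 101)) < 1 := by norm_num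
  linarith

/-- one term of the sum -/
theorem num_term {w K R₁ n : ℕ} {L : ℝ} (hL1 : 1 ≤ L) (hL : Real.log (w + 1) ≤ L)
    (hK : 100000 * L ≤ K) (hR₁ : 4096 * L ≤ 2 ^ (R₁ - 1)) (hR₁' : 13 ≤ R₁) (hn : K ≤ n) :
    (((w + 1) ^ (n / 2 ^ (R₁ - 1)) * (2 * (w + 1)) ^ (8 * n / K + 1) : ℕ) : ℝ) /
      (2 : ℝ) ^ (-((n : ℝ) / 1000 + 4 * n / 2 ^ 12)) *
        (2 * Real.exp (-(((n : ℝ) / 5 - ((n : ℝ) / 1000 + 2 * n / 2 ^ 12 + 2 * n / 2 ^ R₁)) ^ 2 /
          (2 * (n + ((n : ℝ) / 1000 + 2 * n / 2 ^ 12 + 2 * n / 2 ^ R₁)))))) ≤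
      2 * Real.exp (-((n : ℝ) / 100)) := by
  have hKpos : (0 : ℝ) < K := by linarith
  have hnR : (K : ℝ) ≤ n := by exact_mod_cast hn
  have hnpos : (0 : ℝ) < n := by linarith
  have hw : (0 : ℝ) < (w : ℝ) + 1 := by positivity
  have hlogw : 0 ≤ Real.log ((w : ℝ) + 1) := Real.log_nonneg (by linarith [Nat.cast_nonneg (α := ℝ) w])
  have hlog2w : Real.log (2 * ((w : ℝ) + 1)) ≤ 2 * L := by
    rw [Real.log_mul (by norm_num) hw.ne']
    have := Real.log_two_lt_d9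
    linarith
  have hlog2w0 : 0 ≤ Real.log (2 * ((w : ℝ) + 1)) :=
    Real.log_nonneg (by linarith [Nat.cast_nonneg (α := ℝ) w])
  -- the logarithm of the first factor
  have hB : (((w + 1) ^ (n / 2 ^ (R₁ - 1)) * (2 * (w + 1)) ^ (8 * n / K + 1) : ℕ) : ℝ) ≤
      Real.exp (n / 2000) := by
    push_cast
    have e1 : ((w : ℝ) + 1) ^ (n / 2 ^ (R₁ - 1)) =
        Real.exp (((n / 2 ^ (R₁ - 1) : ℕ) : ℝ) * Real.log (w + 1)) := by
      rw [Real.exp_nat_mul, Real.exp_log hw]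
    have e2 : (2 * ((w : ℝ) + 1)) ^ (8 * n / K + 1) =
        Real.exp (((8 * n / K + 1 : ℕ) : ℝ) * Real.log (2 * (w + 1))) := by
      rw [Real.exp_nat_mul, Real.exp_log (by positivity)]
    rw [e1, e2, ← Real.exp_add, Real.exp_le_exp]
    have f1 : ((n / 2 ^ (R₁ - 1) : ℕ) : ℝ) * Real.log (w + 1) ≤ n / 4096 := by
      have g1 : ((n / 2 ^ (R₁ - 1) : ℕ) : ℝ) ≤ (n : ℝ) / ((2 ^ (R₁ - 1) : ℕ) : ℝ) :=
        Nat.cast_div_le
      push_cast at g1
      have g2 : (n : ℝ) / (2 : ℝ) ^ (R₁ - 1) ≤ n / (4096 * L) :=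
        div_le_div_of_nonneg_left hnpos.le (by linarith) hR₁
      calc ((n / 2 ^ (R₁ - 1) : ℕ) : ℝ) * Real.log (w + 1) ≤ (n / (4096 * L)) * L :=
            mul_le_mul (g1.trans g2) hL hlogw (by positivity)
        _ = n / 4096 := by field_simp
    have f2 : ((8 * n / K + 1 : ℕ) : ℝ) * Real.log (2 * (w + 1)) ≤ 18 * n / 100000 := by
      have g1 : ((8 * n / K : ℕ) : ℝ) ≤ ((8 * n : ℕ) : ℝ) / (K : ℝ) := Nat.cast_div_le
      push_cast at g1 ⊢
      have g2 : 8 * (n : ℝ) / K ≤ 8 * n / (100000 * L) :=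
        div_le_div_of_nonneg_left (by positivity) (by linarith) hK
      have g3 : (((8 * n / K : ℕ) : ℝ) + 1) * Real.log (2 * (w + 1)) ≤
          (8 * n / (100000 * L) + 1) * (2 * L) :=
        mul_le_mul (by linarith) hlog2w hlog2w0 (by positivity)
      have g4 : (8 * n / (100000 * L) + 1) * (2 * L) = 16 * n / 100000 + 2 * L := by
        field_simp
        ring
      rw [g4] at g3
      linarith
    linarith
  have hρ : (2 : ℝ) ^ (-((n : ℝ) / 1000 + 4 * n / 2 ^ 12)) = Real.exp (-(Real.log 2 *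
      ((n : ℝ) / 1000 + 4 * n / 2 ^ 12))) := by
    rw [Real.rpow_def_of_pos (by norm_num)]
    congr 1
    ring
  have hρ' : Real.log 2 * ((n : ℝ) / 1000 + 4 * n / 2 ^ 12) ≤ n / 500 := by
    have h1 := Real.log_two_lt_d9
    have h2 : (n : ℝ) / 1000 + 4 * n / 2 ^ 12 ≤ n * (2 / 1000) := by
      have : (2 : ℝ) ^ 12 = 4096 := by norm_num
      rw [this]
      linarith
    have h3 : 0 ≤ (n : ℝ) / 1000 + 4 * n / 2 ^ 12 := by positivity
    have h4 : Real.log 2 ≤ 1 := by linarith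
    nlinarith
  have hR : (2 : ℝ) * n / 2 ^ R₁ ≤ n / 4096 := by
    have h1 : (2 : ℝ) ^ 13 ≤ 2 ^ R₁ := pow_le_pow_right₀ (by norm_num) hR₁'
    have h2 : (2 : ℝ) * n / 2 ^ R₁ ≤ 2 * n / 2 ^ 13 :=
      div_le_div_of_nonneg_left (by positivity) (by norm_num) h1
    refine h2.trans (le_of_eq ?_)
    norm_num
    ring
  have hR0 : 0 ≤ (2 : ℝ) * n / 2 ^ R₁ := by positivity
  set e : ℝ := (n : ℝ) / 1000 + 2 * n / 2 ^ 12 + 2 * n / 2 ^ R₁ with he
  have he1 : e ≤ n / 500 := by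
    have : (2 : ℝ) * n / 2 ^ 12 = n / 2048 := by
      norm_num
      ring
    rw [he, this]
    linarith
  have he0 : 0 ≤ e := by positivity
  have hG : (n : ℝ) / 60 ≤ ((n : ℝ) / 5 - e) ^ 2 / (2 * (n + e)) := by
    rw [le_div_iff₀ (by positivity)]
    have h1 : (99 / 500 * (n : ℝ)) ^ 2 ≤ ((n : ℝ) / 5 - e) ^ 2 :=
      pow_le_pow_left₀ (by positivity) (by linarith) 2
    have h2 : (n : ℝ) / 60 * (2 * (n + e)) ≤ n / 60 * (2 * (n * (501 / 500))) :=
      mul_le_mul_of_nonneg_left (by linarith) (by positivity)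
    nlinarith [mul_pos hnpos hnpos]
  rw [hρ]
  have e4 : (((w + 1) ^ (n / 2 ^ (R₁ - 1)) * (2 * (w + 1)) ^ (8 * n / K + 1) : ℕ) : ℝ) /
      Real.exp (-(Real.log 2 * ((n : ℝ) / 1000 + 4 * n / 2 ^ 12))) ≤
      Real.exp (n / 2000) * Real.exp (n / 500) := by
    rw [Real.exp_neg, div_inv_eq_mul]
    exact mul_le_mul hB (Real.exp_le_exp.2 hρ') (Real.exp_pos _).le (Real.exp_pos _).le
  have e5 : Real.exp (-(((n : ℝ) / 5 - e) ^ 2 / (2 * (n + e)))) ≤ Real.exp (-(n / 60)) :=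
    Real.exp_le_exp.2 (by linarith)
  calc _ ≤ (Real.exp (n / 2000) * Real.exp (n / 500)) * (2 * Real.exp (-(n / 60))) :=
        mul_le_mul e4 (by linarith) (by positivity) (by positivity)
    _ = 2 * Real.exp (n / 2000 + n / 500 + -(n / 60)) := by
        rw [Real.exp_add, Real.exp_add]
        ring
    _ ≤ 2 * Real.exp (-(n / 100)) := by
        have : Real.exp ((n : ℝ) / 2000 + n / 500 + -(n / 60)) ≤ Real.exp (-(n / 100)) :=
          Real.exp_le_exp.2 (by linarith)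
        linarith

/-- the choice of the parameters -/
theorem exists_params : ∃ C : ℝ, 0 < C ∧ ∀ w k : ℕ, C * (1 + Real.log w) ^ 4 ≤ k →
    ∃ K R₁ R q : ℕ, 0 < K ∧ K ≤ k ∧ 12 < R₁ ∧ R₁ ≤ R ∧ K ≤ 2 ^ (R - R₁) ∧ 2 * R + 2 ≤ k ∧
      5 ≤ R ∧ q * (12 * 4 ^ R) ≤ k ∧
      8 * Real.log (2 * (w * q * 2 ^ (12 + 1) + 1)) ≤ K ∧ 12 * ((1000 : ℕ) : ℝ) ≤ Real.log q ∧
      ∀ s : Finset ℕ, (∀ n ∈ s, k ≤ n) → ∑ n ∈ s,
        (((w + 1) ^ (n / 2 ^ (R₁ - 1)) * (2 * (w + 1)) ^ (8 * n / K + 1) : ℕ) : ℝ) /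
        (2 : ℝ) ^ (-((n : ℝ) / 1000 + 4 * n / 2 ^ 12)) *
        (2 * Real.exp (-(((n : ℝ) / 5 - ((n : ℝ) / 1000 + 2 * n / 2 ^ 12 + 2 * n / 2 ^ R₁)) ^ 2 /
          (2 * (n + ((n : ℝ) / 1000 + 2 * n / 2 ^ 12 + 2 * n / 2 ^ R₁)))))) < 1 := by
  set q : ℕ := ⌈Real.exp 12000⌉₊ with hq
  have hq1 : Real.exp 12000 ≤ q := Nat.le_ceil _
  have hq2 : (q : ℝ) ≤ 2 * Real.exp 12000 := by
    have h1 := Nat.ceil_lt_add_one (Real.exp_pos 12000).le
    rw [← hq] at h1
    have h2 : (1 : ℝ) ≤ Real.exp 12000 := Real.one_le_exp (by norm_num)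
    linarith
  have hqpos : (1 : ℝ) ≤ q := (Real.one_le_exp (by norm_num)).trans hq1
  set c : ℝ := 32776 * 200002 with hc
  refine ⟨q * (12 * c ^ 2), by positivity, fun w k hk => ?_⟩
  set L : ℝ := 1 + Real.log w with hLdef
  have hlogw0 : 0 ≤ Real.log (w : ℝ) := by
    rcases Nat.eq_zero_or_pos w with rfl | h
    · simp
    · exact Real.log_nonneg (by exact_mod_cast h)
  have hL1 : 1 ≤ L := by linarith
  have hL : Real.log ((w : ℝ) + 1) ≤ L := by
    rcases Nat.eq_zero_or_pos w with rfl | h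
    · simp [hLdef]
    · have h1 : (1 : ℝ) ≤ w := by exact_mod_cast h
      have h2 : Real.log ((w : ℝ) + 1) ≤ Real.log (Real.exp 1 * w) := by
        refine Real.log_le_log (by linarith) ?_
        have := Real.exp_one_gt_d9
        nlinarith
      rw [Real.log_mul (Real.exp_pos 1).ne' (by linarith), Real.log_exp] at h2
      exact h2
  -- the parameters
  set K : ℕ := ⌈100000 * L⌉₊ with hK
  have hK1 : 100000 * L ≤ K := Nat.le_ceil _
  have hK2 : (K : ℝ) ≤ 100001 * L := by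
    have h1 := Nat.ceil_lt_add_one (show 0 ≤ 100000 * L by linarith)
    rw [← hK] at h1
    linarith
  set T : ℕ := ⌈4096 * L⌉₊ with hT
  have hT1 : 4096 * L ≤ T := Nat.le_ceil _
  have hT2 : (T : ℝ) ≤ 4097 * L := by
    have h1 := Nat.ceil_lt_add_one (show 0 ≤ 4096 * L by linarith)
    rw [← hT] at h1
    linarith
  have hKpos : 0 < K := by
    have : (0 : ℝ) < K := by linarith
    exact_mod_cast this
  have hTbig : 4096 ≤ T := by
    have : (4096 : ℝ) ≤ T := by linarith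
    exact_mod_cast this
  have hclog : ∀ m : ℕ, 1 ≤ m → 2 ^ Nat.clog 2 m ≤ 2 * m := by
    intro m hm
    rcases Nat.lt_or_ge 1 m with h | h
    · have h1 := Nat.pow_pred_clog_lt_self (b := 2) (by norm_num) h
      have h2 : 0 < Nat.clog 2 m := Nat.clog_pos (by norm_num) (by omega)
      obtain ⟨j, hj⟩ : ∃ j, Nat.clog 2 m = j + 1 := ⟨Nat.clog 2 m - 1, by omega⟩
      rw [hj] at h1 ⊢
      rw [Nat.pred_succ] at h1
      rw [pow_succ]
      omega
    · have : m = 1 := by omega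
      subst this
      simp
  set a : ℕ := Nat.clog 2 T with ha
  set b : ℕ := Nat.clog 2 K with hb
  have ha1 : T ≤ 2 ^ a := Nat.le_pow_clog (by norm_num) T
  have ha2 : 2 ^ a ≤ 2 * T := hclog T (by omega)
  have hb1 : K ≤ 2 ^ b := Nat.le_pow_clog (by norm_num) K
  have hb2 : 2 ^ b ≤ 2 * K := hclog K hKpos
  have ha12 : 12 ≤ a := by
    by_contra h
    have h1 : 2 ^ a ≤ 2 ^ 11 := Nat.pow_le_pow_right (by norm_num) (by omega)
    omega
  have hRpow : ((2 : ℝ) ^ (a + 1 + b)) ≤ c * L ^ 2 := by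
    have h1 : ((2 : ℝ) ^ a) ≤ 2 * T := by exact_mod_cast ha2
    have h2 : ((2 : ℝ) ^ b) ≤ 2 * K := by exact_mod_cast hb2
    have h3 : ((2 : ℝ) ^ a) ≤ 8194 * L := by linarith
    have h4 : ((2 : ℝ) ^ b) ≤ 200002 * L := by linarith
    calc ((2 : ℝ) ^ (a + 1 + b)) = 2 * (2 ^ a * 2 ^ b) := by ring
      _ ≤ 2 * ((8194 * L) * (200002 * L)) := by
        have := mul_le_mul h3 h4 (by positivity) (by positivity)
        linarith
      _ ≤ c * L ^ 2 := by
        rw [hc]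
        nlinarith [sq_nonneg L]
  have hmain : ((q * (12 * 4 ^ (a + 1 + b)) : ℕ) : ℝ) ≤ k := by
    push_cast
    have h1 : ((4 : ℝ) ^ (a + 1 + b)) = ((2 : ℝ) ^ (a + 1 + b)) ^ 2 := by
      rw [← pow_mul, mul_comm, pow_mul]
      norm_num
    have h2 : ((2 : ℝ) ^ (a + 1 + b)) ^ 2 ≤ (c * L ^ 2) ^ 2 :=
      pow_le_pow_left₀ (by positivity) hRpow 2
    have h3 : (q : ℝ) * (12 * 4 ^ (a + 1 + b)) ≤ q * (12 * (c * L ^ 2) ^ 2) := by
      rw [h1]
      gcongr
    refine h3.trans (le_trans (le_of_eq ?_) hk)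
    ring
  have hmainN : q * (12 * 4 ^ (a + 1 + b)) ≤ k := by exact_mod_cast hmain
  have hqN : 1 ≤ q := by exact_mod_cast hqpos
  have h4R : 12 * 4 ^ (a + 1 + b) ≤ k := by
    refine le_trans ?_ hmainN
    calc 12 * 4 ^ (a + 1 + b) = 1 * (12 * 4 ^ (a + 1 + b)) := (one_mul _).symm
      _ ≤ q * (12 * 4 ^ (a + 1 + b)) := Nat.mul_le_mul_right _ hqN
  have hbR : 2 ^ b ≤ 4 ^ (a + 1 + b) := by
    calc 2 ^ b ≤ 4 ^ b := Nat.pow_le_pow_left (by norm_num) b
      _ ≤ 4 ^ (a + 1 + b) := Nat.pow_le_pow_right (by norm_num) (by omega)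
  have hKk : K ≤ k := by omega
  have hR2 : a + 1 + b < 4 ^ (a + 1 + b) := Nat.lt_pow_self (by norm_num)
  refine ⟨K, a + 1, a + 1 + b, q, hKpos, hKk, by omega, by omega, ?_, by omega, by omega, hmainN,
    ?_, ?_, ?_⟩
  · rw [show a + 1 + b - (a + 1) = b by omega]
    exact hb1
  · -- the logarithm
    have h1 : (2 : ℝ) * (w * q * 2 ^ (12 + 1) + 1) ≤ 2 * 8192 * ((w + 1) * (2 * Real.exp 12000)) := by
      have h2 : (w : ℝ) * q * 2 ^ (12 + 1) + 1 ≤ 8192 * ((w + 1) * q) := by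
        have h0 : (0 : ℝ) ≤ w := Nat.cast_nonneg w
        norm_num
        nlinarith
      have h3 : ((w : ℝ) + 1) * q ≤ (w + 1) * (2 * Real.exp 12000) :=
        mul_le_mul_of_nonneg_left hq2 (by positivity)
      linarith
    have h0 : (0 : ℝ) < w + 1 := by positivity
    have h2 : Real.log ((2 : ℝ) * (w * q * 2 ^ (12 + 1) + 1)) ≤
        Real.log (2 * 8192 * ((w + 1) * (2 * Real.exp 12000))) :=
      Real.log_le_log (by positivity) h1
    have h3 : Real.log (2 * 8192 * (((w : ℝ) + 1) * (2 * Real.exp 12000))) =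
        15 * Real.log 2 + Real.log (w + 1) + 12000 := by
      have h4 : (2 * 8192 * (((w : ℝ) + 1) * (2 * Real.exp 12000))) =
          2 ^ 15 * (w + 1) * Real.exp 12000 := by
        norm_num
        ring
      rw [h4, Real.log_mul (by positivity) (Real.exp_pos _).ne', Real.log_exp,
        Real.log_mul (by positivity) h0.ne', Real.log_pow]
      norm_num
    have h5 := Real.log_two_lt_d9
    linarith
  · have h1 : Real.log (Real.exp 12000) ≤ Real.log q := Real.log_le_log (Real.exp_pos _) hq1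
    rw [Real.log_exp] at h1
    push_cast
    linarith
  · intro s hs
    refine sum_exp_lt (k := k) ?_ s hs _ fun n hn => ?_
    · have h1 : (100000 : ℝ) ≤ K := by linarith
      have h2 : 100000 ≤ K := by exact_mod_cast h1
      omega
    · refine num_term hL1 hL hK1 ?_ (by omega) (hKk.trans (hs n hn))
      rw [Nat.add_sub_cancel]
      have h1 : (T : ℝ) ≤ 2 ^ a := by exact_mod_cast ha1
      exact hT1.trans h1

end Pool.Agent.Log5
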