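import Mathlib
import Pool.Agent.Work.MP_974d84_co_log.Flow
import Pool.Agent.Work.MP_974d84_co_log.Good
import Pool.Agent.Work.MP_974d84_co_log.Deep
import Pool.Agent.Work.MP_974d84_co_log.Union
import Pool.Agent.Work.MP_974d84_co_log.Small
import Pool.Agent.Work.MP_974d84_co_log.BigOf
import Pool.Agent.Work.MP_974d84_co_log.Transversal
import Pool.Agent.Work.MP_974d84_co_log.Comp
import Pool.Agent.Work.MP_974d84_co_log.Num
import Pool.Agent.Work.MP_974d84_co_log.Tree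

/-!
# Nowhere-zero 5-flows of cubic graphs with a 2-factor having few odd circuits
-/

set_option linter.unusedSectionVars false

namespace Pool.Agent.Log5

open Finset SimpleGraph Pool.Agent.Exp MP974d84

variable {V : Type} [Fintype V] [DecidableEq V] {G : SimpleGraph V} [DecidableRel G.Adj]

theorem gir_mono {a b : ℕ} (h : a ≤ b) (hg : Gir G b) : Gir G a :=
  fun A hA => hg A (hA.trans_le h)

/-- The tools for one choice of the parameters. -/
theorem assemble (h3 : ∀ v, G.degree v = 3) {k K R₁ R q w : ℕ} (hc : CycConn G k)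
    (hg : Gir G k) (F : SimpleGraph V) (hF : F ≤ G) (hF2 : ∀ v, (F.neighborSet v).ncard = 2)
    (hw : {c : F.ConnectedComponent | Odd c.supp.ncard}.ncard = w)
    (hK0 : 0 < K) (hKk : K ≤ k) (hr : 12 < R₁) (hR : R₁ ≤ R) (hK : K ≤ 2 ^ (R - R₁))
    (hRk : 2 * R + 2 ≤ k) (hR5 : 5 ≤ R) (hqk : q * (12 * 4 ^ R) ≤ k)
    (hKlog : 8 * Real.log (2 * (w * q * 2 ^ (12 + 1) + 1)) ≤ K)
    (hq : 12 * ((1000 : ℕ) : ℝ) ≤ Real.log q)
    (hnum : ∀ s : Finset ℕ, (∀ n ∈ s, k ≤ n) → ∑ n ∈ s,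
        (((w + 1) ^ (n / 2 ^ (R₁ - 1)) * (2 * (w + 1)) ^ (8 * n / K + 1) : ℕ) : ℝ) /
        (2 : ℝ) ^ (-((n : ℝ) / 1000 + 4 * n / 2 ^ 12)) *
        (2 * Real.exp (-(((n : ℝ) / 5 - ((n : ℝ) / 1000 + 2 * n / 2 ^ 12 + 2 * n / 2 ^ R₁)) ^ 2 /
          (2 * (n + ((n : ℝ) / 1000 + 2 * n / 2 ^ 12 + 2 * n / 2 ^ R₁)))))) < 1) :
    ∀ i : ℕ, 5 ≤ i → HasNZFlow (ZMod i) G := by
  classical
  have hq1 : 1 ≤ q := by
    by_contra h
    have : q = 0 := by omega
    rw [this] at hq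
    norm_num at hq
  have hKk2 : K + 2 ≤ k := by
    have h1 : 2 ^ (R - R₁) ≤ 2 ^ R := Nat.pow_le_pow_right (by norm_num) (by omega)
    have h2 : 2 ^ R ≤ 4 ^ R := Nat.pow_le_pow_left (by norm_num) R
    have h3 : 1 * (12 * 4 ^ R) ≤ q * (12 * 4 ^ R) := Nat.mul_le_mul_right _ hq1
    have h4 : 1 ≤ 4 ^ R := Nat.one_le_pow _ _ (by norm_num)
    omega
  obtain ⟨C, hCd, hCk, hC1, hC2⟩ := exists_classes hF hF2 hg hw
  obtain ⟨u, huC, hu⟩ := exists_candidates h3 (q := q) (R := R) C hCd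
    fun i => hqk.trans (hCk i)
  obtain ⟨θ, hθ⟩ := exists_tree h3 (R := R) (gir_mono hRk hg)
  obtain ⟨t', hgood⟩ := exists_good h3 hK0 hKk hc (gir_mono hKk hg) hθ (r := 12) (h := 1000)
    (by omega) (by norm_num) u hu hKlog hq
  set t : Fin w → V := fun i => u i (t' i) with ht
  have htd : ∀ i j, i ≠ j → Disjoint (Bl G.Adj R (t i)) (Bl G.Adj R (t j)) := fun i j hij =>
    hu i (t' i) j (t' j) fun h => hij (Prod.mk.inj h).1
  have htinj : Function.Injective t := by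
    intro i j hij
    by_contra h
    have h1 : t i ∈ Bl G.Adj R (t j) := by rw [hij]; exact Bl_self R (t j)
    exact Finset.disjoint_left.1 (htd i j h) (Bl_self R (t i)) h1
  set T : Finset V := univ.image t with hT
  have hbr := no_bridge h3 hc (by omega : 2 ≤ k)
  obtain ⟨m, p, p', hp, hp', hpp, hpT, hJ, hflow⟩ := flow G h3 F hF hF2 T
    (by
      intro c hc
      obtain ⟨i, hi⟩ := hC2 c hc
      refine ⟨t i, ⟨mem_image_of_mem _ (mem_univ _), hi ▸ huC i (t' i)⟩, ?_⟩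
      rintro v ⟨hv, hvc⟩
      obtain ⟨j, -, rfl⟩ := mem_image.1 hv
      by_contra h
      have hij : j ≠ i := fun h' => h (by rw [h'])
      have h1 : t j ∈ C i := by
        have : t j ∈ ((C i : Finset V) : Set V) := hi ▸ hvc
        exact this
      exact Finset.disjoint_left.1 (hCd j i hij) (huC j (t' j)) h1)
    (by
      intro c hc v hvc hv
      obtain ⟨j, -, rfl⟩ := mem_image.1 hv
      obtain ⟨c', hc', hj⟩ := hC1 j
      have h1 : t j ∈ c'.supp := hj ▸ huC j (t' j)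
      rw [ConnectedComponent.mem_supp_iff] at h1 hvc
      exact hc (by rw [← hvc, h1]; exact hc')) hbr
  have hsel : ∀ v ∈ T, ∃ i, t i = v := fun v hv => by
    obtain ⟨i, -, hi⟩ := mem_image.1 hv
    exact ⟨i, hi⟩
  have hpi : ∀ j, ∃ i, t i = p j := fun j => hsel _ ((hpT _).2 (Or.inl ⟨j, rfl⟩))
  have hqi : ∀ j, ∃ i, t i = p' j := fun j => hsel _ ((hpT _).2 (Or.inr ⟨j, rfl⟩))
  choose a ha using hpi
  choose b hb using hqi
  obtain ⟨Zs, hZs1, hZs2⟩ := deep h3 hK0 hKk hc hθ (r := 12) (h := 1000) (by norm_num) hr hR hK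
    (by norm_num) t htd hgood
  set FF : Finset (Finset V) := univ.filter fun S => Bond G S ∧ k ≤ dd G S with hFF
  have hbig : ∀ S ∈ FF, Big G K S := fun S hS =>
    big_of_bond h3 (mem_filter.1 hS).2.1 (hKk2.trans (mem_filter.1 hS).2.2)
  have hkpos : 0 < k := by omega
  obtain ⟨ε, hε, hεS⟩ := union_bound a b
    (fun i j hij => hp (by rw [← ha i, ← ha j, hij]))
    (fun i j hij => hp' (by rw [← hb i, ← hb j, hij]))
    (fun i j hij => hpp i j (by rw [← ha i, ← hb j, hij])) FF (dd G)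
    (fun S => univ.filter fun i => t i ∈ S) Zs
    (fun n => (((w + 1) ^ (n / 2 ^ (R₁ - 1)) * (2 * (w + 1)) ^ (8 * n / K + 1) : ℕ) : ℝ))
    (fun n => (2 : ℝ) ^ (-((n : ℝ) / 1000 + 4 * n / 2 ^ 12)))
    (fun n => (n : ℝ) / 1000 + 2 * n / 2 ^ 12 + 2 * n / 2 ^ R₁)
    (fun n => by positivity) (fun n => by positivity)
    (by
      intro S _
      show (dd G S : ℝ) / 1000 + 2 * dd G S / 2 ^ 12 + 2 * dd G S / 2 ^ R₁ ≤ dd G S / 5
      have h1 : (0 : ℝ) ≤ dd G S := Nat.cast_nonneg _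
      have h2 : (2 : ℝ) ^ 12 ≤ 2 ^ R₁ := pow_le_pow_right₀ (by norm_num) hr.le
      have h3 : 2 * (dd G S : ℝ) / 2 ^ R₁ ≤ 2 * dd G S / 2 ^ 12 :=
        div_le_div_of_nonneg_left (by positivity) (by positivity) h2
      norm_num at h3 ⊢
      linarith)
    (fun ω n => by exact_mod_cast hZs1 ω n)
    (by
      intro S hS
      obtain ⟨Ω', h1, h2⟩ := hZs2 S (hbig S hS) (mem_filter.1 hS).2.2
      refine ⟨Ω', ?_, ?_⟩
      · simpa using h1
      · intro ω hω
        obtain ⟨Z, hZ, h4⟩ := h2 ω hω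
        exact ⟨Z, hZ, by simpa using h4⟩)
    (by
      intro S _ J hJS
      refine hJ S J fun j hj => ?_
      have := hJS j hj
      simp only [mem_filter, mem_univ, true_and, ha, hb] at this
      exact this)
    (fun S hS => hkpos.trans_le (mem_filter.1 hS).2.2)
    (by
      refine hnum _ fun n hn => ?_
      obtain ⟨S, hS, rfl⟩ := mem_image.1 hn
      exact (mem_filter.1 hS).2.2)
  refine hflow ε hε fun S hS => ?_
  by_cases hk : dd G S < k
  · refine sg_small hp hp' hpp hpT hε (small_bond h3 hc T ?_ hS hk)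
    intro x hx y hy hxy
    obtain ⟨i, rfl⟩ := hsel x hx
    obtain ⟨j, rfl⟩ := hsel y hy
    exact (htd i j fun h => hxy (by rw [h])).mono (Bl_mono hR5 _) (Bl_mono hR5 _)
  · right
    have h1 := hεS S (mem_filter.2 ⟨mem_univ _, hS, not_lt.1 hk⟩)
    have h2 : sg a b ε (univ.filter fun i => t i ∈ S) = sg p p' ε S := by
      unfold sg
      simp only [mem_filter, mem_univ, true_and, ha, hb]
    rw [h2] at h1
    exact h1

theorem main : ∃ C : ℝ, 0 < C ∧ ∀ {V : Type} [Fintype V] [DecidableEq V] (G : SimpleGraph V)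
    [DecidableRel G.Adj], (∀ v, G.degree v = 3) → ∀ (k w : ℕ), CycConn G k → Gir G k →
    ∀ F : SimpleGraph V, F ≤ G → (∀ v, (F.neighborSet v).ncard = 2) →
    {c : F.ConnectedComponent | Odd c.supp.ncard}.ncard = w → C * (1 + Real.log w) ^ 4 ≤ k →
    ∀ i : ℕ, 5 ≤ i → HasNZFlow (ZMod i) G := by
  obtain ⟨C, hC, h⟩ := exists_params
  refine ⟨C, hC, ?_⟩
  intro V _ _ G _ h3 k w hc hg F hF hF2 hw hk
  obtain ⟨K, R₁, R, q, h1, h2, h4, h5, h6, h7, h8, h9, h10, h11, h12⟩ := h w k hk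
  exact assemble h3 hc hg F hF hF2 hw h1 h2 h4 h5 h6 h7 h8 h9 h10 h11 h12

end Pool.Agent.Log5
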