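import Mathlib
import Pool.Agent.Work.MP_974d84_co.K0
import Pool.Agent.Work.MP_974d84_co_log.Defs

/-!
# A circulation with values `±1` on a 2-factor
-/

set_option linter.unusedSectionVars false

namespace Pool.Agent.Log5

open Finset SimpleGraph Pool.Agent.Exp MP974d84

variable {V : Type} [Fintype V] [DecidableEq V]

/-- A graph with even degrees has a circulation with values `±1` on its edges. -/
theorem exists_circ (F : SimpleGraph V) (hF2 : ∀ v, Even (F.neighborSet v).ncard) :
    ∃ b : V → V → ℤ, Anti b ∧ (∀ v w, -1 ≤ b v w ∧ b v w ≤ 1) ∧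
      (∀ v w, b v w ≠ 0 ↔ F.Adj v w) ∧ ∀ v, dv b v = 0 := by
  classical
  let ν : V → ℕ := fun v => ((Fintype.equivFin V v : Fin _) : ℕ)
  have hν : Function.Injective ν := fun u v h => (Fintype.equivFin V).injective (Fin.ext h)
  let β : V × V → ZMod 2 := fun p => if p ∈ K.oe ν F then 1 else 0
  have hβ : ∀ a, D (Prod.fst : V × V → V) Prod.snd β a = 0 := by
    intro a
    rw [K.D_pair]
    have h1 : ∀ w, β (a, w) - β (w, a) = if F.Adj a w then 1 else 0 := by
      intro w
      simp only [β, K.mem_oe]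
      by_cases h : F.Adj a w
      · have hne : ν a ≠ ν w := fun h' => F.ne_of_adj h (hν h')
        rcases lt_or_gt_of_ne hne with hlt | hlt
        · rw [if_pos ⟨h, hlt⟩, if_neg fun h' => absurd h'.2 (not_lt.2 hlt.le), if_pos h]
          rfl
        · rw [if_neg fun h' => absurd h'.2 (not_lt.2 hlt.le), if_pos ⟨h.symm, hlt⟩, if_pos h]
          decide
      · rw [if_neg fun h' => h h'.1, if_neg fun h' => h h'.1.symm, if_neg h]
        rfl
    simp only [h1]
    rw [sum_boole]
    have h2 : (univ.filter fun w => F.Adj a w).card = (F.neighborSet a).ncard := by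
      rw [Set.ncard_eq_toFinset_card']
      congr 1
      ext w
      simp
    rw [h2]
    exact (ZMod.natCast_eq_zero_iff_even).2 (hF2 a)
  obtain ⟨g, hg1, hg2, hg3⟩ := lift2 (Prod.fst : V × V → V) Prod.snd β hβ
  have hg0 : ∀ p, p ∉ K.oe ν F → g p = 0 := by
    intro p hp
    have h1 := hg3 p
    have h2 := hg1 p
    simp only [β, if_neg hp] at h1
    rw [ZMod.intCast_zmod_eq_zero_iff_dvd] at h1
    omega
  have hg4 : ∀ p, p ∈ K.oe ν F → g p = 1 ∨ g p = -1 := by
    intro p hp
    have h1 := hg3 p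
    have h2 := hg1 p
    simp only [β, if_pos hp] at h1
    rcases (by omega : g p = 0 ∨ g p = 1 ∨ g p = -1) with h | h | h
    · rw [h] at h1
      simp at h1
    · exact Or.inl h
    · exact Or.inr h
  have key : ∀ v w, (F.Adj v w ∧ (g (v, w) - g (w, v) = 1 ∨ g (v, w) - g (w, v) = -1)) ∨
      (¬ F.Adj v w ∧ g (v, w) - g (w, v) = 0) := by
    intro v w
    by_cases h : F.Adj v w
    · left
      refine ⟨h, ?_⟩
      have hne : ν v ≠ ν w := fun h' => F.ne_of_adj h (hν h')
      rcases lt_or_gt_of_ne hne with hlt | hlt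
      · have h1 := hg4 (v, w) (K.mem_oe.2 ⟨h, hlt⟩)
        have h2 := hg0 (w, v) fun h' => absurd (K.mem_oe.1 h').2 (not_lt.2 hlt.le)
        omega
      · have h1 := hg4 (w, v) (K.mem_oe.2 ⟨h.symm, hlt⟩)
        have h2 := hg0 (v, w) fun h' => absurd (K.mem_oe.1 h').2 (not_lt.2 hlt.le)
        omega
    · right
      have h1 := hg0 (v, w) fun h' => h (K.mem_oe.1 h').1
      have h2 := hg0 (w, v) fun h' => h (K.mem_oe.1 h').1.symm
      exact ⟨h, by omega⟩
  refine ⟨fun v w => g (v, w) - g (w, v), fun v w => (neg_sub _ _).symm, fun v w => ?_,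
    fun v w => ?_, fun v => ?_⟩
  · have := key v w
    show -1 ≤ g (v, w) - g (w, v) ∧ g (v, w) - g (w, v) ≤ 1
    omega
  · show g (v, w) - g (w, v) ≠ 0 ↔ F.Adj v w
    rcases key v w with ⟨h1, h2⟩ | ⟨h1, h2⟩
    · exact ⟨fun _ => h1, fun _ => by omega⟩
    · exact ⟨fun h => absurd h2 h, fun h => absurd h h1⟩
  · have := hg2 v
    rw [K.D_pair] at this
    exact this

end Pool.Agent.Log5
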