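import Mathlib
import Pool.Agent.Work.MP_974d84_co_log.Crit
import Pool.Agent.Work.MP_974d84_co_log.Circ

/-!
# From the alternating function on the matching and the 2-factor to the flow
-/

set_option linter.unusedSectionVars false

namespace Pool.Agent.Log5

open Finset SimpleGraph Pool.Agent.Exp MP974d84

variable {V : Type} [Fintype V] [DecidableEq V] {G : SimpleGraph V} [DecidableRel G.Adj]

theorem flow_core (hbr : ∀ S : Finset V, S.Nonempty → Sᶜ.Nonempty → 2 ≤ dd G S)
    (F : SimpleGraph V) (hF : F ≤ G) (hF2 : ∀ v, Even (F.neighborSet v).ncard)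
    (μ ν : V → V) (hμ : ∀ v, G.Adj v (μ v)) (hμF : ∀ v, ¬ F.Adj v (μ v))
    (hμ' : ∀ v w, G.Adj v w → ¬ F.Adj v w → w = μ v) (hν : ∀ v, ν v ≠ v → F.Adj v (ν v))
    (a : V → V → ℤ) (ha : Anti a) (ha1 : ∀ u v, -1 ≤ a u v ∧ a u v ≤ 1)
    (ha0 : ∀ u v, a u v ≠ 0 ↔ (v = μ u ∨ (v = ν u ∧ ν u ≠ u)))
    (hcrit : ∀ S, Bond G S → |∑ v ∈ S, dv a v| ≤ 1 ∨ 5 * |∑ v ∈ S, dv a v| ≤ dd G S) :
    ∀ i : ℕ, 5 ≤ i → HasNZFlow (ZMod i) G := by
  obtain ⟨b, hb, hb1, hb0, hbd⟩ := exists_circ F hF2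
  have hdv : ∀ v, dv (fun u w => 2 * b u w + a u w) v = dv a v := by
    intro v
    have := hbd v
    unfold dv at this ⊢
    rw [sum_add_distrib, ← mul_sum, this]
    ring
  refine flow_of_phi hbr (fun u w => 2 * b u w + a u w) (fun u w => ?_) (fun v w => ?_)
    (fun v w => ?_) fun S hS => ?_
  · show 2 * b u w + a u w = -(2 * b w u + a w u)
    rw [hb u w, ha u w]
    ring
  · have h1 := hb1 v w
    have h2 := ha1 v w
    constructor <;> omega
  · show 2 * b v w + a v w ≠ 0 ↔ G.Adj v w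
    have h1 := hb1 v w
    have h2 := ha1 v w
    constructor
    · intro h
      by_cases k1 : b v w = 0
      · have k2 : a v w ≠ 0 := by omega
        rcases (ha0 v w).1 k2 with rfl | ⟨rfl, k3⟩
        · exact hμ v
        · exact hF (hν v k3)
      · exact hF ((hb0 v w).1 k1)
    · intro h
      by_cases k1 : F.Adj v w
      · have := (hb0 v w).2 k1
        omega
      · have k2 : b v w = 0 := by
          by_contra k3
          exact k1 ((hb0 v w).1 k3)
        have k3 := (ha0 v w).2 (Or.inl (hμ' v w h k1))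
        omega
  · simp only [hdv]
    exact hcrit S hS

end Pool.Agent.Log5
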