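import Mathlib
import Pool.Agent.Work.MP_974d84_co_log.Final
import Pool.Agent.Work.MP_974d84_co_log.SmallCase

/-!
# The theorem without the girth hypothesis
-/

set_option linter.unusedSectionVars false

namespace Pool.Agent.Log5

open Finset SimpleGraph Pool.Agent.Exp MP974d84

/-- Cubic graphs with a 2-factor having at most `w` odd circuits all of whose cyclic edge cuts
have at least `C * (1 + log w) ^ 4` edges. -/
theorem main2 : ∃ C : ℝ, 0 < C ∧ ∀ {V : Type} [Fintype V] [DecidableEq V] (G : SimpleGraph V)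
    [DecidableRel G.Adj], G.IsRegularOfDegree 3 → ∀ (F : SimpleGraph V) (w : ℕ), F ≤ G →
    (∀ v, (F.neighborSet v).ncard = 2) →
    {c : F.ConnectedComponent | Odd c.supp.ncard}.ncard ≤ w →
    (∀ S : Finset V, ¬ (G.induce (S : Set V)).IsAcyclic →
      ¬ (G.induce ((Sᶜ : Finset V) : Set V)).IsAcyclic →
      C * (1 + Real.log w) ^ 4 ≤ ((G.interedges S Sᶜ).card : ℝ)) →
    ∀ i : ℕ, 5 ≤ i → HasNZFlow (ZMod i) G := by
  obtain ⟨C, hC, h⟩ := main
  refine ⟨max C 2, lt_max_of_lt_left hC, ?_⟩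
  intro V _ _ G _ h3 F w hF hF2 hw hcut
  set w' := {c : F.ConnectedComponent | Odd c.supp.ncard}.ncard with hw'
  set k : ℕ := ⌈max C 2 * (1 + Real.log w) ^ 4⌉₊ with hk
  have hlog : 0 ≤ Real.log (w : ℝ) := by
    rcases Nat.eq_zero_or_pos w with h0 | h0
    · simp [h0]
    · exact Real.log_nonneg (by exact_mod_cast h0)
  have h1 : 1 ≤ (1 + Real.log w) ^ 4 := one_le_pow₀ (by linarith)
  have hcyc : CycConn G k := by
    intro S hS hS'
    have := hcut S hS hS'
    rw [Pool.Agent.Exp.dd_interedges] at this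
    exact Nat.ceil_le.2 this
  have hk2 : 2 ≤ k := by
    have h2 : (2 : ℝ) ≤ max C 2 * (1 + Real.log w) ^ 4 := by
      calc (2 : ℝ) = 2 * 1 := by norm_num
        _ ≤ max C 2 * (1 + Real.log w) ^ 4 :=
          mul_le_mul (le_max_right _ _) h1 (by norm_num) (by positivity)
    have h3 : (2 : ℝ) ≤ k := h2.trans (Nat.le_ceil _)
    exact_mod_cast h3
  rcases gir_of_cyc h3 hcyc with hg | hn
  · refine h G h3 k w' hcyc hg F hF hF2 rfl ?_
    have h4 : 1 + Real.log w' ≤ 1 + Real.log w := by
      rcases Nat.eq_zero_or_pos w' with h0 | h0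
      · rw [h0]; simpa using hlog
      · have h6 : (w' : ℝ) ≤ w := by exact_mod_cast hw
        have := Real.log_le_log (by exact_mod_cast h0 : (0 : ℝ) < w') h6
        linarith
    have h5 : 0 ≤ 1 + Real.log w' := by
      rcases Nat.eq_zero_or_pos w' with h0 | h0
      · simp [h0]
      · have := Real.log_nonneg (by exact_mod_cast h0 : (1 : ℝ) ≤ w')
        linarith
    calc C * (1 + Real.log w') ^ 4 ≤ max C 2 * (1 + Real.log w) ^ 4 :=
          mul_le_mul (le_max_left _ _) (pow_le_pow_left₀ h5 h4 4) (by positivity) (by positivity)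
      _ ≤ k := Nat.le_ceil _
  · exact small_case h3 hn (fun S a b => hk2.trans (hcyc S a b)) F hF hF2

end Pool.Agent.Log5
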