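import Mathlib

/-!
# Numerical inequalities for the union bound, and the choice of the parameters
-/

namespace Pool.Agent.Log5

open Finset

/-- The error term is small. -/
theorem err_le {n R₁ : ℕ} (h13 : 13 ≤ R₁) :
    (n : ℝ) / 1000 + 2 * n / 2 ^ 12 + 2 * n / 2 ^ R₁ ≤ 174 / 100000 * n := by
  have h1 : (2 : ℝ) ^ 13 ≤ 2 ^ R₁ := pow_le_pow_right₀ (by norm_num) h13
  have h2 : 2 * (n : ℝ) / 2 ^ R₁ ≤ 2 * n / 2 ^ 13 := by
    apply div_le_div_of_nonneg_left _ _ h1 <;> positivity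
  have h3 : (0 : ℝ) ≤ n := Nat.cast_nonneg n
  nlinarith

/-- One level of the union bound. -/
theorem level {w K R₁ k n : ℕ} (hK : 8000 * Real.log (2 * (w + 1)) ≤ K) (hK0 : 0 < K)
    (hKk : K ≤ k) (hR : 1000 * Real.log (w + 1) ≤ 2 ^ (R₁ - 1)) (h13 : 13 ≤ R₁) (hn : k ≤ n) :
    ((w + 1 : ℝ) ^ (n / 2 ^ (R₁ - 1)) * (2 * (w + 1)) ^ (8 * n / K + 1)) /
        (2 : ℝ) ^ (-((n : ℝ) / 1000 + 4 * n / 2 ^ 12)) *
      (2 * Real.exp (-(((n : ℝ) / 5 - (n / 1000 + 2 * n / 2 ^ 12 + 2 * n / 2 ^ R₁)) ^ 2 /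
        (2 * (n + (n / 1000 + 2 * n / 2 ^ 12 + 2 * n / 2 ^ R₁)))))) ≤
      2 * Real.exp (-(1 / 64)) ^ n := by
  set e : ℝ := (n : ℝ) / 1000 + 2 * n / 2 ^ 12 + 2 * n / 2 ^ R₁ with he
  have hn0 : (0 : ℝ) < n := by
    have : 0 < n := by omega
    exact_mod_cast this
  have he1 : e ≤ 174 / 100000 * n := err_le h13
  have he0 : 0 ≤ e := by positivity
  have hw : (0 : ℝ) < w + 1 := by positivity
  have hL1 : 0 ≤ Real.log (w + 1) := Real.log_nonneg (by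
    have : (0 : ℝ) ≤ w := Nat.cast_nonneg w
    linarith)
  have hL2 : 0 ≤ Real.log (2 * (w + 1)) := Real.log_nonneg (by
    have : (0 : ℝ) ≤ w := Nat.cast_nonneg w
    linarith)
  have a1 : (w + 1 : ℝ) ^ (n / 2 ^ (R₁ - 1)) ≤ Real.exp (n / 1000) := by
    rw [← Real.exp_log hw, ← Real.exp_nat_mul, Real.exp_le_exp]
    have h1 : ((n / 2 ^ (R₁ - 1) : ℕ) : ℝ) ≤ n / 2 ^ (R₁ - 1) := by
      have := @Nat.cast_div_le ℝ _ _ _ n (2 ^ (R₁ - 1))
      push_cast at this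
      exact this
    have hp : (0 : ℝ) < 2 ^ (R₁ - 1) := by positivity
    calc ((n / 2 ^ (R₁ - 1) : ℕ) : ℝ) * Real.log (w + 1)
        ≤ (n / 2 ^ (R₁ - 1)) * Real.log (w + 1) := mul_le_mul_of_nonneg_right h1 hL1
      _ = n * Real.log (w + 1) / 2 ^ (R₁ - 1) := by ring
      _ ≤ n / 1000 := by
        rw [div_le_div_iff₀ hp (by norm_num)]
        nlinarith
  have hKr : (0 : ℝ) < K := by exact_mod_cast hK0
  have hKn : (K : ℝ) ≤ n := by exact_mod_cast hKk.trans hn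
  have a2 : (2 * (w + 1) : ℝ) ^ (8 * n / K + 1) ≤ Real.exp (n / 1000 + n / 8000) := by
    rw [← Real.exp_log (show (0 : ℝ) < 2 * (w + 1) by positivity), ← Real.exp_nat_mul,
      Real.exp_le_exp]
    have h1 : ((8 * n / K : ℕ) : ℝ) ≤ 8 * n / K := by
      have := @Nat.cast_div_le ℝ _ _ _ (8 * n) K
      push_cast at this
      exact this
    have h2 : ((8 * n / K : ℕ) : ℝ) * Real.log (2 * (w + 1)) ≤ n / 1000 := by
      calc ((8 * n / K : ℕ) : ℝ) * Real.log (2 * (w + 1))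
          ≤ (8 * n / K) * Real.log (2 * (w + 1)) := mul_le_mul_of_nonneg_right h1 hL2
        _ = 8 * n * Real.log (2 * (w + 1)) / K := by ring
        _ ≤ n / 1000 := by
          rw [div_le_div_iff₀ hKr (by norm_num)]
          nlinarith
    push_cast
    linarith
  have a3 : 1 / (2 : ℝ) ^ (-((n : ℝ) / 1000 + 4 * n / 2 ^ 12))
      ≤ Real.exp (1371 / 1000000 * n) := by
    rw [Real.rpow_neg (by norm_num), one_div, inv_inv,
      Real.rpow_def_of_pos (by norm_num), Real.exp_le_exp]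
    have := Real.log_two_lt_d9
    nlinarith
  have a4 : Real.exp (-(((n : ℝ) / 5 - e) ^ 2 / (2 * (n + e)))) ≤
      Real.exp (-(195 / 10000 * n)) := by
    rw [Real.exp_le_exp, neg_le_neg_iff, le_div_iff₀ (by positivity)]
    have h1 : (19826 / 100000 * (n : ℝ)) ^ 2 ≤ ((n : ℝ) / 5 - e) ^ 2 :=
      pow_le_pow_left₀ (by positivity) (by linarith) 2
    nlinarith
  have a5 : ((w + 1 : ℝ) ^ (n / 2 ^ (R₁ - 1)) * (2 * (w + 1)) ^ (8 * n / K + 1)) /
        (2 : ℝ) ^ (-((n : ℝ) / 1000 + 4 * n / 2 ^ 12)) ≤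
      Real.exp (n / 1000) * Real.exp (n / 1000 + n / 8000) * Real.exp (1371 / 1000000 * n) := by
    rw [div_eq_mul_one_div]
    have h0 : (0 : ℝ) ≤ 1 / (2 : ℝ) ^ (-((n : ℝ) / 1000 + 4 * n / 2 ^ 12)) := by positivity
    exact mul_le_mul (mul_le_mul a1 a2 (by positivity) (by positivity)) a3 h0 (by positivity)
  calc ((w + 1 : ℝ) ^ (n / 2 ^ (R₁ - 1)) * (2 * (w + 1)) ^ (8 * n / K + 1)) /
        (2 : ℝ) ^ (-((n : ℝ) / 1000 + 4 * n / 2 ^ 12)) *
      (2 * Real.exp (-(((n : ℝ) / 5 - e) ^ 2 / (2 * (n + e)))))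
      ≤ Real.exp (n / 1000) * Real.exp (n / 1000 + n / 8000) * Real.exp (1371 / 1000000 * n) *
        (2 * Real.exp (-(195 / 10000 * n))) := by
        refine mul_le_mul a5 ?_ (by positivity) (by positivity)
        exact mul_le_mul_of_nonneg_left a4 (by norm_num)
    _ = 2 * Real.exp (n / 1000 + (n / 1000 + n / 8000) + 1371 / 1000000 * n +
        -(195 / 10000 * n)) := by
        simp only [Real.exp_add]
        ring
    _ ≤ 2 * Real.exp (-(1 / 64)) ^ n := by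
        rw [← Real.exp_nat_mul]
        refine mul_le_mul_of_nonneg_left (Real.exp_le_exp.2 ?_) (by norm_num)
        linarith

/-- The sum in the union bound is less than one. -/
theorem numeric {w K R₁ k : ℕ} (hK : 8000 * Real.log (2 * (w + 1)) ≤ K) (hK0 : 0 < K)
    (hKk : K ≤ k) (hR : 1000 * Real.log (w + 1) ≤ 2 ^ (R₁ - 1)) (h13 : 13 ≤ R₁)
    (hk : 400 ≤ k) (A : Finset ℕ) (hA : ∀ n ∈ A, k ≤ n) :
    ∑ n ∈ A, ((w + 1 : ℝ) ^ (n / 2 ^ (R₁ - 1)) * (2 * (w + 1)) ^ (8 * n / K + 1)) /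
        (2 : ℝ) ^ (-((n : ℝ) / 1000 + 4 * n / 2 ^ 12)) *
      (2 * Real.exp (-(((n : ℝ) / 5 - (n / 1000 + 2 * n / 2 ^ 12 + 2 * n / 2 ^ R₁)) ^ 2 /
        (2 * (n + (n / 1000 + 2 * n / 2 ^ 12 + 2 * n / 2 ^ R₁)))))) < 1 := by
  set r : ℝ := Real.exp (-(1 / 64)) with hr
  have hr0 : 0 < r := Real.exp_pos _
  have hr1 : r ≤ 64 / 65 := by
    have h1 : (1 : ℝ) + 1 / 64 ≤ Real.exp (1 / 64) := by
      have := Real.add_one_le_exp (1 / 64 : ℝ)
      linarith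
    rw [hr, Real.exp_neg, inv_le_comm₀ (Real.exp_pos _) (by norm_num)]
    refine le_trans (by norm_num) h1
  refine lt_of_le_of_lt (sum_le_sum fun n hn => level hK hK0 hKk hR h13 (hA n hn)) ?_
  rw [← mul_sum]
  obtain ⟨M, hM⟩ : ∃ M, ∀ n ∈ A, n < M := by
    refine ⟨A.sup id + 1, fun n hn => ?_⟩
    have : id n ≤ A.sup id := le_sup hn
    simp only [id] at this
    omega
  have h1 : ∑ n ∈ A, r ^ n ≤ ∑ n ∈ Ico k M, r ^ n := by
    refine sum_le_sum_of_subset_of_nonneg (fun n hn => ?_) fun n _ _ => by positivity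
    rw [mem_Ico]
    exact ⟨hA n hn, hM n hn⟩
  have h2 : ∑ n ∈ Ico k M, r ^ n ≤ r ^ k / (1 - r) :=
    geom_sum_Ico_le_of_lt_one hr0.le (by linarith)
  have h3 : r ^ k ≤ 1 / 400 := by
    have h4 : r ^ k ≤ r ^ 400 := pow_le_pow_of_le_one hr0.le (by linarith) hk
    refine h4.trans ?_
    have h5 : (400 : ℝ) ≤ Real.exp 6 := by
      have h6 := Real.exp_one_gt_d9
      have h7 : Real.exp 6 = Real.exp 1 ^ 6 := by
        rw [← Real.exp_nat_mul]; norm_num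
      rw [h7]
      have h8 : (2.718 : ℝ) ^ 6 ≤ Real.exp 1 ^ 6 := pow_le_pow_left₀ (by norm_num) (by linarith) 6
      refine le_trans (by norm_num) h8
    have h6 : r ^ 400 ≤ Real.exp (-6) := by
      rw [hr, ← Real.exp_nat_mul, Real.exp_le_exp]
      norm_num
    refine h6.trans ?_
    rw [Real.exp_neg, one_div]
    exact inv_anti₀ (by norm_num) h5
  have h4 : r ^ k / (1 - r) ≤ (1 / 400) / (1 / 65) :=
    div_le_div₀ (by norm_num) h3 (by norm_num) (by linarith)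
  have h5 := h1.trans (h2.trans h4)
  norm_num at h5 ⊢
  linarith

/-- A power of two near a real number. -/
theorem pow_near (x : ℝ) (hx : 1 ≤ x) : ∃ m : ℕ, x ≤ 2 ^ m ∧ (2 : ℝ) ^ m ≤ 2 * x := by
  obtain ⟨n, h1, h2⟩ := exists_nat_pow_near hx (show (1 : ℝ) < 2 by norm_num)
  refine ⟨n + 1, h2.le, ?_⟩
  rw [pow_succ]
  linarith

/-- The parameters of the proof. -/
theorem params : ∃ q C : ℕ, 0 < q ∧ 12 * (1000 : ℝ) ≤ Real.log q ∧
    ∀ w k : ℕ, (C : ℝ) * (1 + Real.log (w + 1)) ^ 4 ≤ k →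
      ∃ K R₁ R : ℕ, 0 < K ∧ K ≤ k ∧ 13 ≤ R₁ ∧ R₁ ≤ R ∧ K ≤ 2 ^ (R - R₁) ∧
        8 * Real.log (2 * (w * q * 2 ^ (12 + 1) + 1)) ≤ K ∧
        q * (12 * 4 ^ R) ≤ k ∧ 2 * R + 2 ≤ k ∧ 400 ≤ k ∧
        8000 * Real.log (2 * (w + 1)) ≤ K ∧ 1000 * Real.log (w + 1) ≤ 2 ^ (R₁ - 1) := by
  set q : ℕ := ⌈Real.exp 12000⌉₊ with hq
  have hq1 : Real.exp 12000 ≤ q := Nat.le_ceil _
  have hq2 : (q : ℝ) ≤ Real.exp 12001 := by
    have h1 : (q : ℝ) < Real.exp 12000 + 1 := Nat.ceil_lt_add_one (Real.exp_pos _).le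
    have h2 : Real.exp 12001 = Real.exp 12000 * Real.exp 1 := by
      rw [← Real.exp_add]; norm_num
    have h3 : (1 : ℝ) ≤ Real.exp 12000 := Real.one_le_exp (by norm_num)
    have h4 := Real.exp_one_gt_d9
    rw [h2]
    nlinarith
  have hq0 : 0 < q := Nat.ceil_pos.2 (Real.exp_pos _)
  have hq0r : (0 : ℝ) < q := by exact_mod_cast hq0
  refine ⟨q, q * (12 * 2 * 10 ^ 20), hq0, ?_, fun w k hk => ?_⟩
  · rw [Real.le_log_iff_exp_le hq0r]
    refine le_trans (le_of_eq ?_) hq1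
    norm_num
  set L : ℝ := 1 + Real.log (w + 1) with hL
  have hw0 : (0 : ℝ) ≤ w := Nat.cast_nonneg w
  have hl0 : 0 ≤ Real.log (w + 1) := Real.log_nonneg (by linarith)
  have hL1 : 1 ≤ L := by linarith
  have hlog2 := Real.log_two_lt_d9
  have hlog2' := Real.log_two_gt_d9
  obtain ⟨m1, h1, h1'⟩ := pow_near L hL1
  set K : ℕ := ⌈200000 * L⌉₊ with hKdef
  have hK1 : 200000 * L ≤ K := Nat.le_ceil _
  have hK2 : (K : ℝ) ≤ 200001 * L := by
    have := Nat.ceil_lt_add_one (show 0 ≤ 200000 * L by positivity)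
    linarith
  have hK0 : 0 < K := Nat.ceil_pos.2 (by positivity)
  obtain ⟨m2, h2, h2'⟩ := pow_near K (by exact_mod_cast hK0)
  have hR : (4 : ℝ) ^ (13 + m1 + m2) ≤ 2 * 10 ^ 20 * L ^ 4 := by
    have h3 : (4 : ℝ) ^ (13 + m1 + m2) = (8192 * 2 ^ m1 * 2 ^ m2) ^ 2 := by
      rw [show (4 : ℝ) = 2 ^ 2 by norm_num, ← pow_mul, mul_comm 2, pow_mul, pow_add, pow_add]
      norm_num
    have h4 : (8192 : ℝ) * 2 ^ m1 * 2 ^ m2 ≤ 8192 * (2 * L) * (2 * (200001 * L)) := by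
      refine mul_le_mul (mul_le_mul_of_nonneg_left h1' (by norm_num)) (by linarith)
        (by positivity) (by positivity)
    have h5 : (8192 : ℝ) * (2 * L) * (2 * (200001 * L)) ≤ 10 ^ 10 * L ^ 2 := by
      nlinarith [sq_nonneg L]
    rw [h3]
    calc ((8192 : ℝ) * 2 ^ m1 * 2 ^ m2) ^ 2 ≤ (10 ^ 10 * L ^ 2) ^ 2 :=
          pow_le_pow_left₀ (by positivity) (h4.trans h5) 2
      _ = 10 ^ 20 * L ^ 4 := by ring
      _ ≤ 2 * 10 ^ 20 * L ^ 4 := by nlinarith [pow_pos (show 0 < L by linarith) 4]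
  have hqR : q * (12 * 4 ^ (13 + m1 + m2)) ≤ k := by
    have : (q : ℝ) * (12 * 4 ^ (13 + m1 + m2)) ≤ k := by
      refine le_trans ?_ hk
      calc (q : ℝ) * (12 * 4 ^ (13 + m1 + m2)) ≤ q * (12 * (2 * 10 ^ 20 * L ^ 4)) := by
            gcongr
        _ = ((q * (12 * 2 * 10 ^ 20) : ℕ) : ℝ) * L ^ 4 := by push_cast; ring
    exact_mod_cast this
  have h4R : 12 * 4 ^ (13 + m1 + m2) ≤ k := by
    refine le_trans ?_ hqR
    exact Nat.le_mul_of_pos_left _ hq0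
  have hRlt : 13 + m1 + m2 < 4 ^ (13 + m1 + m2) := Nat.lt_pow_self (by norm_num)
  have h13p : 4 ^ 13 ≤ 4 ^ (13 + m1 + m2) := Nat.pow_le_pow_right (by norm_num) (by omega)
  have hKR : (K : ℝ) ≤ 2 ^ m2 := h2
  have hKRn : K ≤ 2 ^ m2 := by exact_mod_cast hKR
  refine ⟨K, 13 + m1, 13 + m1 + m2, hK0, ?_, by omega, by omega, ?_, ?_, hqR, ?_, ?_, ?_, ?_⟩
  · refine hKRn.trans (le_trans ?_ h4R)
    calc 2 ^ m2 ≤ 4 ^ m2 := Nat.pow_le_pow_left (by norm_num) _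
      _ ≤ 4 ^ (13 + m1 + m2) := Nat.pow_le_pow_right (by norm_num) (by omega)
      _ ≤ 12 * 4 ^ (13 + m1 + m2) := Nat.le_mul_of_pos_left _ (by norm_num)
  · rw [show 13 + m1 + m2 - (13 + m1) = m2 by omega]; exact hKRn
  · have h5 : Real.log (2 * (w * q * 2 ^ (12 + 1) + 1)) ≤
        Real.log ((w + 1) * (q * 2 ^ 15)) := by
      refine Real.log_le_log (by positivity) ?_
      have h8 : (1 : ℝ) ≤ q := by exact_mod_cast hq0
      have h9 := mul_nonneg hw0 hq0r.le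
      norm_num
      nlinarith
    have h6 : Real.log ((w + 1) * (q * 2 ^ 15)) = Real.log (w + 1) + (Real.log q +
        15 * Real.log 2) := by
      rw [Real.log_mul (by positivity) (by positivity), Real.log_mul (by positivity)
        (by positivity), Real.log_pow]
      norm_num
    have h7 : Real.log q ≤ 12001 := by
      rw [Real.log_le_iff_le_exp hq0r]; exact hq2
    linarith
  · omega
  · omega
  · rw [Real.log_mul (by norm_num) (by positivity)]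
    linarith
  · rw [show 13 + m1 - 1 = 12 + m1 by omega, pow_add]
    nlinarith

end Pool.Agent.Log5
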