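import Mathlib
import Pool.Agent.Work.MP_974d84_co.Defs
import Pool.Agent.Work.MP_974d84_co_log.Defs

/-!
# ROOM 5FLOW: the statements of the modules (nobody imports this file)
-/

set_option linter.unusedSectionVars false

namespace Pool.Agent.Log5.Plan

open Finset SimpleGraph Pool.Agent.Exp Pool.Agent.Log5 MP974d84

section
variable {V : Type} [Fintype V] [DecidableEq V] {G : SimpleGraph V} [DecidableRel G.Adj]

/-- M2 (helper68), file Cluster.lean -/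
theorem cluster (h3 : ∀ v, G.degree v = 3) {K : ℕ} (hg : Gir G K) (F : Finset (Finset V))
    (hF : ∀ S ∈ F, Big G K S) {M : ℝ} (hM0 : 0 ≤ M)
    (hM : ∀ c : V → V, (∀ x, Joined G (univ.filter fun y => c y = c x)) →
      (∀ x, K ≤ (univ.filter fun y => c y = c x).card) →
      ∀ F' ⊆ F, (∀ S ∈ F', ∀ x y, c x = c y → (x ∈ S ↔ y ∈ S)) → (F'.card : ℝ) ≤ M) :
    ∑ S ∈ F, Real.exp (-(8 * (dd G S : ℝ))) ≤ M := by
  sorry

/-- M3 (helper47), file Steiner.lean -/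
theorem steiner_karger {ι : Type} [Fintype ι] [DecidableEq ι] (Y : ι → Finset V)
    (hY : ∀ i, (Y i).Nonempty) {K D a : ℕ} (hK0 : 0 < K)
    (hsep : ∀ (X : Finset V) (i j : ι), Y i ⊆ X → Disjoint (Y j) X → K ≤ dd G X)
    (F : Finset (Finset V)) (hns : ∀ S ∈ F, ∀ i, Y i ⊆ S ∨ Disjoint (Y i) S)
    (hinj : ∀ S ∈ F, ∀ S' ∈ F, (∀ i, Y i ⊆ S ↔ Y i ⊆ S') → S = S')
    (hD : ∀ S ∈ F, dd G S ≤ D) (ha : 8 * D ≤ a * K) (ha1 : 1 ≤ a) :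
    F.card ≤ (2 * (Fintype.card ι + 1)) ^ a := by
  sorry

/-- M4 (helper47), file Trace.lean -/
theorem trace_bound (h3 : ∀ v, G.degree v = 3) {K k : ℕ} (hc : CycConn G k) (hKk : K ≤ k)
    (hK0 : 0 < K) (hg : Gir G K) (W : Finset V) (F : Finset (Finset V))
    (hF : ∀ S ∈ F, Big G K S)
    (hinj : ∀ S ∈ F, ∀ S' ∈ F, (∀ v ∈ W, (v ∈ S ↔ v ∈ S')) → S = S') {D a : ℕ}
    (hD : ∀ S ∈ F, dd G S ≤ D) (ha : 8 * D ≤ a * K) (ha1 : 1 ≤ a) :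
    (F.card : ℝ) ≤ Real.exp (8 * D) * (2 * (W.card + 1)) ^ a := by
  sorry

/-- M5 (helper48), file Tree.lean -/
theorem exists_tree (h3 : ∀ v, G.degree v = 3) {R : ℕ} (hg : Gir G (2 * R + 2)) :
    ∃ θ : V → List Bool → V, IsTree G R θ := by
  sorry

/-- M6a (helper71), file Transversal.lean -/
theorem exists_transversal {ι α : Type} [Fintype ι] [DecidableEq ι] [DecidableEq α]
    (A : ι → Finset α) (hdisj : ∀ i j, i ≠ j → Disjoint (A i) (A j)) (conf : α → α → Prop)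
    (hsymm : ∀ x y, conf x y → conf y x) {Δ : ℕ} (hΔ0 : 0 < Δ)
    (hΔ : ∀ x (B : Finset α), (∀ y ∈ B, conf x y) → B.card ≤ Δ)
    (hA : ∀ i, 4 * Δ ≤ (A i).card) :
    ∃ f : ι → α, (∀ i, f i ∈ A i) ∧ ∀ i j, i ≠ j → ¬ conf (f i) (f j) := by
  sorry

/-- M6b (helper71), file Transversal.lean -/
theorem exists_candidates (h3 : ∀ v, G.degree v = 3) {w q R : ℕ} (C : Fin w → Finset V)
    (hdisj : ∀ i j, i ≠ j → Disjoint (C i) (C j)) (hC : ∀ i, q * (12 * 4 ^ R) ≤ (C i).card) :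
    ∃ u : Fin w → Fin q → V, (∀ i a, u i a ∈ C i) ∧
      ∀ i a j b, (i, a) ≠ (j, b) → Disjoint (Bl G.Adj R (u i a)) (Bl G.Adj R (u j b)) := by
  sorry

/-- M7 (helper23), file Good.lean -/
theorem exists_good (h3 : ∀ v, G.degree v = 3) {K k r R h : ℕ} (hK0 : 0 < K) (hKk : K ≤ k)
    (hc : CycConn G k) (hg : Gir G K) {θ : V → List Bool → V} (hθ : IsTree G R θ) (hr : r ≤ R)
    (hh : 0 < h) {w q : ℕ} (u : Fin w → Fin q → V)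
    (hu : ∀ i a j b, (i, a) ≠ (j, b) → Disjoint (Bl G.Adj R (u i a)) (Bl G.Adj R (u j b)))
    (hK : 8 * Real.log (2 * (w * q * 2 ^ (r + 1) + 1)) ≤ K) (hq : 12 * (h : ℝ) ≤ Real.log q) :
    ∃ t : Fin w → Fin q, ∀ S, Big G K S → k ≤ dd G S →
      ∀ A : Finset (Fin w), (∀ i ∈ A, Dirty θ r S (u i (t i))) → h * A.card ≤ dd G S := by
  sorry

/-- M9 (helper87), file Deep.lean -/
theorem deep (h3 : ∀ v, G.degree v = 3) {K k r R₁ R h : ℕ} (hK0 : 0 < K) (hKk : K ≤ k)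
    (hc : CycConn G k) {θ : V → List Bool → V} (hθ : IsTree G R θ) (hr0 : 0 < r) (hr : r < R₁)
    (hR : R₁ ≤ R) (hK : K ≤ 2 ^ (R - R₁)) (hh : 0 < h) {w : ℕ} (t : Fin w → V)
    (ht : ∀ i j, i ≠ j → Disjoint (Bl G.Adj R (t i)) (Bl G.Adj R (t j)))
    (hgood : ∀ S, Big G K S → k ≤ dd G S →
      ∀ A : Finset (Fin w), (∀ i ∈ A, Dirty θ r S (t i)) → h * A.card ≤ dd G S) :
    ∃ Zs : (Fin w → List.Vector Bool R₁) → ℕ → Finset (Finset (Fin w)),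
      (∀ ω n, (Zs ω n).card ≤ (w + 1) ^ (n / 2 ^ (R₁ - 1)) * (2 * (w + 1)) ^ (8 * n / K + 1)) ∧
      ∀ S, Big G K S → k ≤ dd G S → ∃ Ω' : Finset (Fin w → List.Vector Bool R₁),
        (2 : ℝ) ^ (-((dd G S : ℝ) / h + 4 * dd G S / 2 ^ r)) *
          Fintype.card (Fin w → List.Vector Bool R₁) ≤ (Ω'.card : ℝ) ∧
        ∀ ω ∈ Ω', ∃ Z ∈ Zs ω (dd G S), ((symmDiff Z (univ.filter fun i => t i ∈ S)).card : ℝ) ≤
          (dd G S : ℝ) / h + 2 * dd G S / 2 ^ r + 2 * dd G S / 2 ^ R₁ := by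
  sorry

/-- M10 (helper53), file Small.lean -/
theorem small_bond (h3 : ∀ v, G.degree v = 3) {k : ℕ} (hc : CycConn G k) (T : Finset V)
    (hT : ∀ u ∈ T, ∀ v ∈ T, u ≠ v → Disjoint (Bl G.Adj 5 u) (Bl G.Adj 5 v)) {S : Finset V}
    (hS : Bond G S) (hk : dd G S < k) : ∃ A : Finset V, (A = S ∨ A = Sᶜ) ∧
      ((T ∩ A).card ≤ 1 ∨ 5 * (T ∩ A).card ≤ dd G S) := by
  sorry

end

/-- M8 (helper28), file Union.lean -/
theorem union_bound {w m : ℕ} (p q : Fin m → Fin w) (hp : Function.Injective p)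
    (hq : Function.Injective q) (hpq : ∀ i j, p i ≠ q j) {Ω : Type} [Fintype Ω] [Nonempty Ω]
    {α : Type} (F : Finset α) (d : α → ℕ) (τ : α → Finset (Fin w))
    (Zs : Ω → ℕ → Finset (Finset (Fin w))) (B ρ e : ℕ → ℝ) (hρ0 : ∀ n, 0 < ρ n)
    (he0 : ∀ n, 0 ≤ e n) (he1 : ∀ S ∈ F, e (d S) ≤ d S / 5)
    (hB : ∀ ω n, ((Zs ω n).card : ℝ) ≤ B n)
    (hρ : ∀ S ∈ F, ∃ Ω' : Finset Ω, ρ (d S) * Fintype.card Ω ≤ (Ω'.card : ℝ) ∧
      ∀ ω ∈ Ω', ∃ Z ∈ Zs ω (d S), ((symmDiff Z (τ S)).card : ℝ) ≤ e (d S))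
    (hsplit : ∀ S ∈ F, ∀ J : Finset (Fin m), (∀ j ∈ J, ¬ (p j ∈ τ S ↔ q j ∈ τ S)) →
      J.card ≤ d S) (hd0 : ∀ S ∈ F, 0 < d S)
    (hnum : ∑ n ∈ F.image d, B n / ρ n *
      (2 * Real.exp (-((n / 5 - e n) ^ 2 / (2 * (n + e n))))) < 1) :
    ∃ ε : Fin m → ℤ, (∀ j, ε j = 1 ∨ ε j = -1) ∧ ∀ S ∈ F, 5 * |sg p q ε (τ S)| ≤ d S := by
  sorry

/-- M1 (helper4 + helper76), file Flow.lean -/
theorem flow {V : Type} [Fintype V] [DecidableEq V] (G : SimpleGraph V) [DecidableRel G.Adj]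
    (h3 : ∀ v, G.degree v = 3) (F : SimpleGraph V) (hF : F ≤ G)
    (hF2 : ∀ v, (F.neighborSet v).ncard = 2) (T : Finset V)
    (hT1 : ∀ c : F.ConnectedComponent, Odd c.supp.ncard → ∃! v, v ∈ T ∧ v ∈ c.supp)
    (hT2 : ∀ c : F.ConnectedComponent, ¬ Odd c.supp.ncard → ∀ v ∈ c.supp, v ∉ T)
    (hbr : ∀ S : Finset V, S.Nonempty → Sᶜ.Nonempty → 2 ≤ dd G S) :
    ∃ (m : ℕ) (p q : Fin m → V), Function.Injective p ∧ Function.Injective q ∧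
      (∀ i j, p i ≠ q j) ∧ (∀ v, v ∈ T ↔ (∃ j, p j = v) ∨ ∃ j, q j = v) ∧
      (∀ (S : Finset V) (J : Finset (Fin m)), (∀ j ∈ J, ¬ (p j ∈ S ↔ q j ∈ S)) →
        J.card ≤ dd G S) ∧
      ∀ ε : Fin m → ℤ, (∀ j, ε j = 1 ∨ ε j = -1) →
        (∀ S, Bond G S → |sg p q ε S| ≤ 1 ∨ 5 * |sg p q ε S| ≤ dd G S) →
        ∀ i : ℕ, 5 ≤ i → HasNZFlow (ZMod i) G := by
  sorry

end Pool.Agent.Log5.Plan
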