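import Mathlib
import Pool.Agent.Work.MP_974d84_co.Defs
import Pool.Agent.Work.MP_974d84_co_log.Defs
import Pool.Agent.Work.MP_974d84_co_log.Union

/-!
# ROOM 5FLOW, second plan (LOCAL theorem): the statements of the modules (nobody imports this file)
-/

set_option linter.unusedSectionVars false

namespace Pool.Agent.Log5.Plan2

open Finset SimpleGraph Pool.Agent.Exp Pool.Agent.Log5 MP974d84

/-- Q1, file Avoid.lean -/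
theorem exists_avoid {ι α : Type} [Fintype ι] [DecidableEq ι] [DecidableEq α]
    (A : ι → Finset α) (hdisj : ∀ i j, i ≠ j → Disjoint (A i) (A j)) (B : Finset (Finset α))
    (hB0 : ∅ ∉ B) {ℓ : ℝ} (hℓ : 0 < ℓ) (hA : ∀ i, ℓ ≤ (A i).card)
    (hB : ∀ v, ∑ b ∈ B.filter (v ∈ ·), (2 / ℓ) ^ (b.card - 1) ≤ 1 / 2) :
    ∃ f : ι → α, (∀ i, f i ∈ A i) ∧ ∀ b ∈ B, ¬ b ⊆ univ.image f := by
  sorry

section
variable {V : Type} [Fintype V] [DecidableEq V] {G : SimpleGraph V} [DecidableRel G.Adj]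

/-- Q2, file Spread.lean -/
theorem exists_spread (h3 : ∀ v, G.degree v = 3) {ι : Type} [Fintype ι] [DecidableEq ι]
    (A : ι → Finset V) (hdisj : ∀ i j, i ≠ j → Disjoint (A i) (A j)) {r ρ ℓ : ℕ} (c : ℕ → ℕ)
    (hA : ∀ i, ℓ ≤ (A i).card) (hr : 24 * 4 ^ r ≤ ℓ)
    (hc1 : ∀ j, r < j → j + 3 ≤ c j) (hc2 : ∀ j, r < j → 72 * 2 ^ j ≤ c j * ℓ) :
    ∃ x : ι → V, (∀ i, x i ∈ A i) ∧
      (∀ i j, i ≠ j → Disjoint (Bl G.Adj r (x i)) (Bl G.Adj r (x j))) ∧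
      ∀ y j, r < j → j ≤ ρ → (univ.filter fun i => y ∈ Bl G.Adj j (x i)).card ≤ c j := by
  sorry

/-- Q2', file Spread.lean -/
theorem exists_spread_candidates (h3 : ∀ v, G.degree v = 3) {ι : Type} [Fintype ι]
    [DecidableEq ι] {q r ρ ℓ : ℕ} (c : ℕ → ℕ) (C : ι → Finset V)
    (hdisj : ∀ i j, i ≠ j → Disjoint (C i) (C j)) (hC : ∀ i, q * ℓ ≤ (C i).card)
    (hr : 24 * 4 ^ r ≤ ℓ) (hc1 : ∀ j, r < j → j + 3 ≤ c j)
    (hc2 : ∀ j, r < j → 72 * 2 ^ j ≤ c j * ℓ) :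
    ∃ u : ι → Fin q → V, (∀ i a, u i a ∈ C i) ∧
      (∀ i a j b, (i, a) ≠ (j, b) → Disjoint (Bl G.Adj r (u i a)) (Bl G.Adj r (u j b))) ∧
      ∀ y j, r < j → j ≤ ρ →
        (univ.filter fun p : ι × Fin q => y ∈ Bl G.Adj j (u p.1 p.2)).card ≤ c j := by
  sorry

/-- Q3, file Mass.lean. The mass of the split edges of the tree at `v`, at levels in `(r, ρ]`. -/
noncomputable def ms (θ : V → List Bool → V) (r ρ : ℕ) (S : Finset V) (v : V) : ℝ :=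
  ∑ n ∈ Ioc r ρ, (((univ : Finset (List.Vector Bool n)).filter fun c =>
    ¬ (θ v c.toList ∈ S ↔ θ v c.toList.tail ∈ S)).card : ℝ) / 2 ^ n

/-- Q3, file Mass.lean -/
theorem mass_le {r ρ : ℕ} {θ : V → List Bool → V} (hθ : IsTree G ρ θ) {ι : Type} [Fintype ι]
    (t : ι → V) (c : ℕ → ℕ)
    (hsp : ∀ y j, r < j → j ≤ ρ → (univ.filter fun i => y ∈ Bl G.Adj j (t i)).card ≤ c j)
    (S : Finset V) :
    ∑ i, ms θ r ρ S (t i) ≤ (∑ j ∈ Ioc r ρ, (c j : ℝ) / 2 ^ j) * dd G S := by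
  sorry

/-- Q4, file Deep2.lean -/
theorem deep2 (h3 : ∀ v, G.degree v = 3) {K k r ρ₀ ρ h : ℕ} (hK0 : 0 < K) (hKk : K ≤ k)
    (hc : CycConn G k) {θ : V → List Bool → V} (hθ : IsTree G ρ θ) (hr : r ≤ ρ₀)
    (hρ : ρ₀ + K ≤ ρ) (hh : 0 < h) {κ : Type} [Fintype κ] [DecidableEq κ] (t : κ → V) {ε : ℝ}
    (hε : ∀ S : Finset V, ∑ i, ms θ r ρ S (t i) ≤ ε * dd G S) (P : Finset V → Prop)
    (hP : ∀ S, P S → Big G K S ∧ k ≤ dd G S ∧ 4 * dd G S ≤ 2 ^ ρ₀)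
    (hgood : ∀ S, P S → ∀ A : Finset κ, (∀ i ∈ A, Dirty θ r S (t i)) → h * A.card ≤ dd G S) :
    ∃ Zs : (κ → List.Vector Bool ρ) → ℕ → Finset (Finset κ),
      (∀ ω n, (Zs ω n).card ≤ (2 * (Fintype.card κ + 1)) ^ (8 * n / K + 1)) ∧
      ∀ S, P S → ∃ Ω' : Finset (κ → List.Vector Bool ρ),
        (2 : ℝ) ^ (-(2 * ε * dd G S)) *
          Fintype.card (κ → List.Vector Bool ρ) ≤ (Ω'.card : ℝ) ∧
        ∀ ω ∈ Ω', ∃ Z ∈ Zs ω (dd G S), ((symmDiff Z (univ.filter fun i => t i ∈ S)).card : ℝ) ≤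
          (dd G S : ℝ) / h + 2 * ε * dd G S := by
  sorry

/-- Q5, file Side.lean -/
theorem small_side (h3 : ∀ v, G.degree v = 3) {r ρ h : ℕ} (hg : Gir G (2 * ρ + 2))
    (T : Finset V) (hT : ∀ u ∈ T, ∀ v ∈ T, u ≠ v → Disjoint (Bl G.Adj r u) (Bl G.Adj r v))
    (c : ℕ → ℕ) (hsp : ∀ y j, r < j → j ≤ ρ → (T.filter fun t => y ∈ Bl G.Adj j t).card ≤ c j)
    (hh : 0 < h) (hr : h + 2 ≤ r) (hρ : r < ρ) {S : Finset V} (hS : Joined G S)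
    (hSc : 3 * 2 ^ h ≤ S.card) :
    ((T ∩ S).card : ℝ) ≤ dd G S / h +
      2 ^ (h + 1) * ((∑ j ∈ Ioc r ρ, (c j : ℝ) / 2 ^ j) * dd G S + c ρ / 2 ^ ρ * S.card) := by
  sorry

/-- Q6, file GoodCount.lean -/
theorem good_count (h3 : ∀ v, G.degree v = 3) {K k r R h : ℕ} (hK0 : 0 < K) (hKk : K ≤ k)
    (hc : CycConn G k) (hg : Gir G K) {θ : V → List Bool → V} (hθ : IsTree G R θ) (hr : r ≤ R)
    (hh : 0 < h) {ι : Type} [Fintype ι] [DecidableEq ι] {q w : ℕ} (u : ι → Fin q → V)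
    (hu : ∀ i a j b, (i, a) ≠ (j, b) → Disjoint (Bl G.Adj r (u i a)) (Bl G.Adj r (u j b)))
    (hK : 8 * Real.log (2 * (w * q * 2 ^ (r + 1) + 1)) ≤ K) (hq : 12 * (h : ℝ) ≤ Real.log q)
    (I : Finset ι) (hI : I.card ≤ w) (P : Finset V → Prop)
    (hP : ∀ S, P S → Big G K S ∧ k ≤ dd G S ∧ ∀ i a, Dirty θ r S (u i a) → i ∈ I) :
    ∃ bad : Finset (ι → Fin q), (bad.card : ℝ) ≤ 2 * (1 / 4) ^ k * Fintype.card (ι → Fin q) ∧
      ∀ t, t ∉ bad → ∀ S, P S → ∀ A : Finset ι, (∀ i ∈ A, Dirty θ r S (u i (t i))) →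
        h * A.card ≤ dd G S := by
  sorry

/-- Q7, file GoodLocal.lean: from Q6 and `MP433A.lll`. -/
theorem good_local (h3 : ∀ v, G.degree v = 3) {K k r R h : ℕ} (hK0 : 0 < K) (hKk : K ≤ k)
    (hc : CycConn G k) (hg : Gir G K) {θ : V → List Bool → V} (hθ : IsTree G R θ) (hr : r ≤ R)
    (hh : 0 < h) {ι : Type} [Fintype ι] [DecidableEq ι] {q w : ℕ} (hw : 0 < w) (u : ι → Fin q → V)
    (hu : ∀ i a j b, (i, a) ≠ (j, b) → Disjoint (Bl G.Adj r (u i a)) (Bl G.Adj r (u j b)))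
    (hK : 8 * Real.log (2 * (w * q * 2 ^ (r + 1) + 1)) ≤ K) (hq : 12 * (h : ℝ) ≤ Real.log q)
    (hk : 8 * w ^ 2 ≤ 4 ^ k) (Nb : ι → Finset ι) (hNb : ∀ i, (Nb i).card ≤ w)
    (hsymm : ∀ i j, j ∈ Nb i → i ∈ Nb j) (P : Finset V → Prop)
    (hP : ∀ S, P S → Big G K S ∧ k ≤ dd G S)
    (hloc : ∀ S, P S → ∀ i a j b, Dirty θ r S (u i a) → Dirty θ r S (u j b) → j ∈ Nb i) :
    ∃ t : ι → Fin q, ∀ S, P S → ∀ A : Finset ι, (∀ i ∈ A, Dirty θ r S (u i (t i))) →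
      h * A.card ≤ dd G S := by
  sorry

/-- Q9, file SignLocal.lean: from Q4, Q8 and `MP433A.lll`. -/
theorem sign_local (h3 : ∀ v, G.degree v = 3) {K k r ρ₀ ρ h : ℕ} (hK0 : 0 < K) (hKk : K ≤ k)
    (hc : CycConn G k) {θ : V → List Bool → V} (hθ : IsTree G ρ θ) (hr : r ≤ ρ₀)
    (hρ : ρ₀ + K ≤ ρ) (hh : 0 < h) {ι : Type} [Fintype ι] [DecidableEq ι] (t : ι → V)
    (ht : Function.Injective t) {ε : ℝ} (hε0 : 0 ≤ ε)
    (hε : ∀ S : Finset V, ∑ i, ms θ r ρ S (t i) ≤ ε * dd G S) {w : ℕ} (hw : 0 < w)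
    (Nb : ι → Finset ι) (hNb : ∀ i, (Nb i).card ≤ w) (hsymm : ∀ i j, j ∈ Nb i → i ∈ Nb j)
    (P : Finset V → Prop)
    (hP : ∀ S, P S → Big G K S ∧ k ≤ dd G S ∧ 4 * dd G S ≤ 2 ^ ρ₀)
    (hloc : ∀ S, P S → ∀ i j, t i ∈ S → t j ∈ S → j ∈ Nb i)
    (hgood : ∀ S, P S → ∀ A : Finset ι, (∀ i ∈ A, Dirty θ r S (t i)) → h * A.card ≤ dd G S)
    {m : ℕ} (p q : Fin m → ι) (hp : Function.Injective p) (hq : Function.Injective q)
    (hpq : ∀ i j, p i ≠ q j)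
    (hsplit : ∀ (S : Finset V) (J : Finset (Fin m)),
      (∀ j ∈ J, ¬ (t (p j) ∈ S ↔ t (q j) ∈ S)) → J.card ≤ dd G S)
    (he1 : (1 : ℝ) / h + 2 * ε ≤ 1 / 5)
    (hnum : ∀ s : Finset ℕ, (∀ n ∈ s, k ≤ n) → ∑ n ∈ s,
        (((2 * (w + 1)) ^ (8 * n / K + 1) : ℕ) : ℝ) / (2 : ℝ) ^ (-(2 * ε * n)) *
        (2 * Real.exp (-(((n : ℝ) / 5 - ((n : ℝ) / h + 2 * ε * n)) ^ 2 /
          (2 * (n + ((n : ℝ) / h + 2 * ε * n)))))) ≤ 1 / (8 * w ^ 2)) :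
    ∃ ε' : Fin m → ℤ, (∀ j, ε' j = 1 ∨ ε' j = -1) ∧
      ∀ S, P S → 5 * |sg (fun j => t (p j)) (fun j => t (q j)) ε' S| ≤ dd G S := by
  sorry

/-- Q10, file Huge.lean -/
theorem huge (h3 : ∀ v, G.degree v = 3) {R : ℕ} (hg : Gir G (2 * R + 3)) {S : Finset V}
    (h2 : 2 * dd G S < S.card) : (13 / 12 : ℝ) ^ R ≤ S.card := by
  sorry

/-- Q11a, file Region.lean -/
theorem met_le {ι : Type} [Fintype ι] [DecidableEq ι] (C : ι → Finset V)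
    (hdisj : ∀ i j, i ≠ j → Disjoint (C i) (C j)) {w A : ℕ}
    (hbr : ∀ S : Finset V, S.Nonempty → Sᶜ.Nonempty → 1 ≤ dd G S)
    (hH : ∀ S, Joined G S → 2 * S.card ≤ Fintype.card V → A * dd G S < S.card →
      (univ.filter fun i => (S ∩ C i).Nonempty).card ≤ w)
    {X : Finset V} (hX : 2 * X.card ≤ Fintype.card V) :
    (univ.filter fun i => (X ∩ C i).Nonempty).card ≤ (A + w) * dd G X := by
  sorry

/-- Q11b, file Region.lean -/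
theorem region {ι : Type} [Fintype ι] [DecidableEq ι] (C : ι → Finset V)
    (hdisj : ∀ i j, i ≠ j → Disjoint (C i) (C j)) {w A D M N : ℕ} (hw : 0 < w)
    (hbr : ∀ S : Finset V, S.Nonempty → Sᶜ.Nonempty → 1 ≤ dd G S)
    (h3 : ∀ v, G.degree v = 3)
    (hH : ∀ S, Joined G S → 2 * S.card ≤ Fintype.card V → A * dd G S < S.card →
      (univ.filter fun i => (S ∩ C i).Nonempty).card ≤ w)
    (B : ι → Finset V) (hB : ∀ i, Joined G (B i)) (hBC : ∀ i, (B i ∩ C i).Nonempty)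
    (hBM : ∀ i, (B i).card ≤ M)
    (hbig : ∀ S, Joined G S → A * dd G S < S.card → A * (w * (D + 3 * M) + 3 * M) < S.card)
    (hN : 2 * w + 2 * M + (A + w) * (w * (D + 3 * M) + 3 * M) < Fintype.card ι) :
    ∃ Nb : ι → Finset ι, (∀ i, (Nb i).card ≤ w) ∧ (∀ i j, j ∈ Nb i → i ∈ Nb j) ∧
      ∀ S, Joined G S → 2 * S.card ≤ Fintype.card V → A * dd G S < S.card → dd G S ≤ D →
        ∀ i j, (S ∩ B i).Nonempty → (S ∩ B j).Nonempty → j ∈ Nb i := by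
  sorry

/-- Q12, file Arc.lean -/
theorem exists_arcs (h3 : ∀ v, G.degree v = 3) {ι : Type} (C : ι → Finset V)
    (hC : ∀ i, Joined G (C i)) {n r : ℕ} (hn : 0 < n) (hCn : ∀ i, n ≤ (C i).card) :
    ∃ (X B : ι → Finset V), (∀ i, X i ⊆ C i) ∧ (∀ i, (X i).card = n) ∧
      (∀ i, Joined G (B i)) ∧ (∀ i, (B i ∩ C i).Nonempty) ∧ (∀ i, (B i).card ≤ n * (3 * 2 ^ r)) ∧
      ∀ i, ∀ x ∈ X i, Bl G.Adj r x ⊆ B i := by
  sorry

/-- Q12', file Arc.lean: the vertex sets of the components of a subgraph are joined. -/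
theorem joined_supp {F : SimpleGraph V} (hF : F ≤ G) (c : F.ConnectedComponent) {C : Finset V}
    (hC : (C : Set V) = c.supp) : Joined G C := by
  sorry

end

/-- Q8, file UnionCount.lean -/
theorem union_count {ι : Type} [Fintype ι] [DecidableEq ι] {m : ℕ} (p q : Fin m → ι)
    (hp : Function.Injective p) (hq : Function.Injective q) (hpq : ∀ i j, p i ≠ q j)
    {Ω : Type} [Fintype Ω] [Nonempty Ω]
    {α : Type} (F : Finset α) (d : α → ℕ) (τ : α → Finset ι)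
    (Zs : Ω → ℕ → Finset (Finset ι)) (B ρ e : ℕ → ℝ) (hρ0 : ∀ n, 0 < ρ n)
    (he0 : ∀ n, 0 ≤ e n) (he1 : ∀ S ∈ F, e (d S) ≤ d S / 5)
    (hB : ∀ ω n, ((Zs ω n).card : ℝ) ≤ B n)
    (hρ : ∀ S ∈ F, ∃ Ω' : Finset Ω, ρ (d S) * Fintype.card Ω ≤ (Ω'.card : ℝ) ∧
      ∀ ω ∈ Ω', ∃ Z ∈ Zs ω (d S), ((symmDiff Z (τ S)).card : ℝ) ≤ e (d S))
    (hsplit : ∀ S ∈ F, ∀ J : Finset (Fin m), (∀ j ∈ J, ¬ (p j ∈ τ S ↔ q j ∈ τ S)) →
      J.card ≤ d S) (hd0 : ∀ S ∈ F, 0 < d S) {δ : ℝ}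
    (hnum : ∑ n ∈ F.image d, B n / ρ n *
      (2 * Real.exp (-((n / 5 - e n) ^ 2 / (2 * (n + e n))))) ≤ δ) :
    ((univ.filter fun b : Fin m → Bool =>
      ∃ S ∈ F, (d S : ℤ) < 5 * |sg p q (fun j => Uni.si (b j)) (τ S)|).card : ℝ) ≤ δ * 2 ^ m := by
  sorry

end Pool.Agent.Log5.Plan2
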